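import Pool.Agent.Lib.Vps.Defs

/-!
# From `EuclideanSpace ℝ (Fin 2)` to normalised finite sets of complex numbers
-/

open Finset
open scoped ComplexConjugate

namespace Pool.Agent.Vps

/-- A similarity from the Euclidean plane onto the complex plane sending `x` to a normalised
family. PROOF: `f a = (φ a - g) / λ`, `φ a = a 0 + i a 1`, `g` the mean of the `φ (x i)`,
`λ^2 = (1/n) ∑ ‖φ (x i) - g‖^2 > 0` (`n ≥ 2`, `x` injective); it is affine, bijective,
`dist (f a) (f b) = dist a b / λ`. -/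
theorem exists_similarity {n : ℕ} (hn : 2 ≤ n) (x : Fin n → EuclideanSpace ℝ (Fin 2))
    (hx : Function.Injective x) :
    ∃ (f : EuclideanSpace ℝ (Fin 2) ≃ᵃ[ℝ] ℂ) (κ : ℝ), 0 < κ ∧
      (∀ a b, dist (f a) (f b) = κ * dist a b) ∧ ∑ i, f (x i) = 0 ∧ ∑ i, ‖f (x i)‖ ^ 2 = n := by
  have hnR : (0:ℝ) < n := by
    have : 0 < n := by omega
    exact_mod_cast this
  set φ := Complex.orthonormalBasisOneI.repr.symm with hφ
  set g : ℂ := (1 / (n:ℝ)) • ∑ i, φ (x i) with hg
  set Λ : ℝ := (1 / (n:ℝ)) * ∑ i, ‖φ (x i) - g‖ ^ 2 with hΛ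
  have hΛpos : 0 < Λ := by
    rw [hΛ]
    refine mul_pos (by positivity) ?_
    by_contra hcon
    have h0 : ∑ i, ‖φ (x i) - g‖ ^ 2 = 0 :=
      le_antisymm (not_lt.1 hcon) (Finset.sum_nonneg fun _ _ => by positivity)
    rw [Finset.sum_eq_zero_iff_of_nonneg (fun _ _ => by positivity)] at h0
    have h1 : ∀ i, φ (x i) = g := fun i => by
      have := h0 i (Finset.mem_univ i)
      have h2 : ‖φ (x i) - g‖ = 0 := by simpa using this
      exact sub_eq_zero.1 (norm_eq_zero.1 h2)
    have h2 : x ⟨0, by omega⟩ = x ⟨1, by omega⟩ :=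
      φ.injective ((h1 _).trans (h1 _).symm)
    have := hx h2
    simp at this
  set κ : ℝ := (Real.sqrt Λ)⁻¹ with hκ
  have hκpos : 0 < κ := by rw [hκ]; exact inv_pos.2 (Real.sqrt_pos.2 hΛpos)
  have hκsq : κ ^ 2 * Λ = 1 := by
    rw [hκ, inv_pow, Real.sq_sqrt hΛpos.le]
    exact inv_mul_cancel₀ hΛpos.ne'
  let f : EuclideanSpace ℝ (Fin 2) ≃ᵃ[ℝ] ℂ :=
    (φ.toLinearEquiv.trans (LinearEquiv.smulOfNeZero ℝ ℂ κ hκpos.ne')).toAffineEquiv.trans
      (AffineEquiv.constVAdd ℝ ℂ (-(κ • g)))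
  have hf : ∀ a, f a = κ • (φ a - g) := fun a => by
    simp [f, AffineEquiv.trans_apply, smul_sub]
    ring
  refine ⟨f, κ, hκpos, ?_, ?_, ?_⟩
  · intro a b
    rw [hf, hf, dist_eq_norm, ← smul_sub, norm_smul, Real.norm_of_nonneg hκpos.le,
      sub_sub_sub_cancel_right, ← dist_eq_norm, φ.dist_map]
  · simp_rw [hf]
    rw [← Finset.smul_sum, Finset.sum_sub_distrib, hg]
    simp only [Finset.sum_const, Finset.card_univ, Fintype.card_fin]
    rw [← Nat.cast_smul_eq_nsmul ℝ, smul_smul, mul_one_div_cancel hnR.ne', one_smul, sub_self,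
      smul_zero]
  · simp_rw [hf, norm_smul, Real.norm_of_nonneg hκpos.le, mul_pow]
    rw [← Finset.mul_sum]
    have : ∑ i, ‖φ (x i) - g‖ ^ 2 = n * Λ := by
      rw [hΛ, ← mul_assoc, mul_one_div_cancel hnR.ne', one_mul]
    rw [this, ← mul_assoc, mul_comm (κ ^ 2) (n : ℝ), mul_assoc, hκsq, mul_one]

/-- PROOF: `f` is an affine equivalence, and for complex numbers `Im ((b - a) conj (c - a)) = 0`
implies that `a, b, c` are collinear. -/
theorem noCol_of {n : ℕ} {x : Fin n → EuclideanSpace ℝ (Fin 2)} (hx : Function.Injective x)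
    (f : EuclideanSpace ℝ (Fin 2) ≃ᵃ[ℝ] ℂ)
    (h : ∀ i j k : Fin n, i ≠ j → i ≠ k → j ≠ k →
      ¬ Collinear ℝ ({x i, x j, x k} : Set (EuclideanSpace ℝ (Fin 2)))) :
    NoCol (univ.image fun i => f (x i)) := by
  intro a ha b hb c hc hab hac hbc h0
  simp only [mem_image, mem_univ, true_and] at ha hb hc
  obtain ⟨i, rfl⟩ := ha
  obtain ⟨j, rfl⟩ := hb
  obtain ⟨k, rfl⟩ := hc
  have hij : i ≠ j := fun e => hab (by rw [e])
  have hik : i ≠ k := fun e => hac (by rw [e])
  have hjk : j ≠ k := fun e => hbc (by rw [e])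
  apply h i j k hij hik hjk
  have hmap : ∀ (m : Fin n) (r : ℝ), f (x m) = r • (f (x j) - f (x i)) + f (x i) →
      x m = r • f.symm.linear (f (x j) - f (x i)) +ᵥ x i := by
    intro m r hr
    have h1 := f.symm.map_vadd (f (x i)) (r • (f (x j) - f (x i)))
    rw [vadd_eq_add, ← hr, f.symm_apply_apply, f.symm_apply_apply, map_smul] at h1
    exact h1
  have hk : ∃ r : ℝ, f (x k) = r • (f (x j) - f (x i)) + f (x i) := by
    · have hne : f (x j) - f (x i) ≠ 0 := sub_ne_zero.2 (Ne.symm hab)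
      have hns : 0 < Complex.normSq (f (x j) - f (x i)) := Complex.normSq_pos.2 hne
      refine ⟨((f (x j) - f (x i)) * conj (f (x k) - f (x i))).re /
        Complex.normSq (f (x j) - f (x i)), ?_⟩
      rw [← sub_eq_iff_eq_add]
      set u := f (x j) - f (x i)
      set v := f (x k) - f (x i)
      have hre : u * conj v = ((u * conj v).re : ℂ) := by
        apply Complex.ext
        · simp
        · rw [h0]; simp
      have h3 : conj (u * conj v) = ((u * conj v).re : ℂ) := by
        rw [hre]; simp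
      have h4 : v = ((u * conj v).re : ℂ) / (Complex.normSq u : ℂ) * u := by
        rw [← h3, map_mul, Complex.conj_conj]
        rw [Complex.normSq_eq_conj_mul_self]
        have hcu : conj u ≠ 0 := by simpa using hne
        field_simp
      calc v = ((u * conj v).re : ℂ) / (Complex.normSq u : ℂ) * u := h4
        _ = _ := by
          rw [Complex.real_smul]; push_cast; rfl
  rw [collinear_iff_of_mem (p₀ := x i) (by simp)]
  refine ⟨f.symm.linear (f (x j) - f (x i)), ?_⟩
  intro p hp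
  simp only [Set.mem_insert_iff, Set.mem_singleton_iff] at hp
  rcases hp with rfl | rfl | rfl
  · exact ⟨0, by simp⟩
  · exact ⟨1, hmap j 1 (by simp)⟩
  · obtain ⟨r, hr⟩ := hk
    exact ⟨r, hmap k r hr⟩

/-- PROOF: pull back the centre by `f.symm`. -/
theorem noCirc_of {n : ℕ} {x : Fin n → EuclideanSpace ℝ (Fin 2)} (hx : Function.Injective x)
    (f : EuclideanSpace ℝ (Fin 2) ≃ᵃ[ℝ] ℂ) {κ : ℝ} (hκ : 0 < κ)
    (hf : ∀ a b, dist (f a) (f b) = κ * dist a b)
    (h : ∀ i j k l : Fin n, i ≠ j → i ≠ k → i ≠ l → j ≠ k → j ≠ l → k ≠ l →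
      ¬ EuclideanGeometry.Cospherical
        ({x i, x j, x k, x l} : Set (EuclideanSpace ℝ (Fin 2)))) :
    NoCirc (univ.image fun i => f (x i)) := by
  intro a ha b hb c hc d hd hab hac had hbc hbd hcd
  simp only [mem_image, mem_univ, true_and] at ha hb hc hd
  obtain ⟨i, rfl⟩ := ha
  obtain ⟨j, rfl⟩ := hb
  obtain ⟨k, rfl⟩ := hc
  obtain ⟨l, rfl⟩ := hd
  rintro ⟨w, r, h1, h2, h3, h4⟩
  apply h i j k l (fun e => hab (by rw [e])) (fun e => hac (by rw [e])) (fun e => had (by rw [e]))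
    (fun e => hbc (by rw [e])) (fun e => hbd (by rw [e])) (fun e => hcd (by rw [e]))
  have hw : ∀ m, dist (f (x m)) w = κ * dist (x m) (f.symm w) := fun m => by
    rw [← hf, f.apply_symm_apply]
  refine ⟨f.symm w, r / κ, ?_⟩
  intro p hp
  simp only [Set.mem_insert_iff, Set.mem_singleton_iff] at hp
  rw [eq_div_iff hκ.ne', mul_comm]
  rcases hp with rfl | rfl | rfl | rfl
  · rw [← hw, h1]
  · rw [← hw, h2]
  · rw [← hw, h3]
  · rw [← hw, h4]

/-- PROOF: distances are multiplied by `κ`. `e` is the defect. -/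
theorem sys_of {n : ℕ} (hn : 1 ≤ n) {x : Fin n → EuclideanSpace ℝ (Fin 2)}
    (hx : Function.Injective x)
    (f : EuclideanSpace ℝ (Fin 2) ≃ᵃ[ℝ] ℂ) {κ : ℝ} (hκ : 0 < κ)
    (hf : ∀ a b, dist (f a) (f b) = κ * dist a b)
    (h : ∀ i : Fin n, ∀ r : ℝ,
      (Finset.univ.filter (fun j : Fin n => j ≠ i ∧ dist (x i) (x j) = r)).card ≤ 2) :
    Sys (univ.image fun i => f (x i))
      (2 * (((Finset.univ.filter (fun p : Fin n × Fin n => p.1 ≠ p.2)).image
        (fun p : Fin n × Fin n => dist (x p.1) (x p.2))).card : ℝ) - (n - 1)) := by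
  have hinj : Function.Injective fun i => f (x i) := f.injective.comp hx
  have hcard : (univ.image fun i => f (x i)).card = n := by
    rw [Finset.card_image_of_injective _ hinj]; simp
  have hvalid : ∀ y ∈ (univ.image fun i => f (x i)), ∀ r : ℝ,
      ((univ.image fun i => f (x i)).filter fun z => z ≠ y ∧ dist y z = r).card ≤ 2 := by
    intro y hy r
    simp only [mem_image, mem_univ, true_and] at hy
    obtain ⟨i, rfl⟩ := hy
    rw [Finset.filter_image, Finset.card_image_of_injective _ hinj]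
    refine le_trans (Finset.card_le_card ?_) (h i (r / κ))
    intro j hj
    simp only [Finset.mem_filter, Finset.mem_univ, true_and] at hj ⊢
    refine ⟨fun e => hj.1 (by rw [e]), ?_⟩
    rw [eq_div_iff hκ.ne', mul_comm, ← hf]
    exact hj.2
  have hDset : (Dset (univ.image fun i => f (x i))).card =
      ((Finset.univ.filter (fun p : Fin n × Fin n => p.1 ≠ p.2)).image
        (fun p : Fin n × Fin n => dist (x p.1) (x p.2))).card := by
    have e1 : Dset (univ.image fun i => f (x i)) =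
        ((Finset.univ.filter (fun p : Fin n × Fin n => p.1 ≠ p.2)).image
        (fun p : Fin n × Fin n => dist (x p.1) (x p.2))).image (fun t => κ * t) := by
      ext d
      rw [mem_Dset]
      simp only [mem_image, mem_univ, true_and, mem_filter, Prod.exists]
      constructor
      · rintro ⟨a, ⟨i, rfl⟩, b, ⟨j, rfl⟩, hne, rfl⟩
        exact ⟨dist (x i) (x j), ⟨i, j, fun e => hne (by rw [e]), rfl⟩, (hf _ _).symm⟩
      · rintro ⟨t, ⟨i, j, hij, rfl⟩, rfl⟩
        exact ⟨f (x i), ⟨i, rfl⟩, f (x j), ⟨j, rfl⟩, fun e => hij (hinj e), hf _ _⟩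
    rw [e1, Finset.card_image_of_injective]
    exact mul_right_injective₀ hκ.ne'
  refine ⟨hvalid, ?_, ?_⟩
  · rw [hDset, hcard]; linarith
  · -- at each point there are at least (n-1)/2 distances
    obtain ⟨i0⟩ : Nonempty (Fin n) := ⟨⟨0, by omega⟩⟩
    have h1 : (Finset.univ.filter (fun j : Fin n => j ≠ i0)).card ≤
        2 * ((Finset.univ.filter (fun p : Fin n × Fin n => p.1 ≠ p.2)).image
        (fun p : Fin n × Fin n => dist (x p.1) (x p.2))).card := by
      apply Finset.card_le_mul_card_image_of_maps_to (f := fun j => dist (x i0) (x j))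
      · intro j hj
        simp only [mem_filter, mem_univ, true_and] at hj
        exact Finset.mem_image.2 ⟨(i0, j), by simpa using Ne.symm hj, rfl⟩
      · intro r _
        refine le_trans (Finset.card_le_card ?_) (h i0 r)
        intro j hj
        simp only [mem_filter, mem_univ, true_and] at hj ⊢
        exact hj
    have h2 : (Finset.univ.filter (fun j : Fin n => j ≠ i0)).card = n - 1 := by
      rw [Finset.filter_ne', Finset.card_erase_of_mem (mem_univ _)]; simp
    rw [h2] at h1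
    have h3 : ((n - 1 : ℕ) : ℝ) ≤ 2 * (((Finset.univ.filter (fun p : Fin n × Fin n =>
        p.1 ≠ p.2)).image (fun p : Fin n × Fin n => dist (x p.1) (x p.2))).card : ℝ) := by
      exact_mod_cast h1
    rw [Nat.cast_sub hn, Nat.cast_one] at h3
    linarith

/-- PROOF: `f` is affine, so it maps convex hulls to convex hulls. -/
theorem conv_of {n : ℕ} {x : Fin n → EuclideanSpace ℝ (Fin 2)} (hx : Function.Injective x)
    (f : EuclideanSpace ℝ (Fin 2) ≃ᵃ[ℝ] ℂ) (S : Finset (Fin n))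
    (hS : ConvexIndependent ℝ (fun i : S => x i)) :
    ∀ y ∈ S.image (fun i => f (x i)),
      y ∉ convexHull ℝ (((S.image (fun i => f (x i)) : Finset ℂ) : Set ℂ) \ {y}) := by
  intro y hy hmem
  obtain ⟨i, hi, rfl⟩ := Finset.mem_image.1 hy
  have e1 : (((S.image (fun i => f (x i)) : Finset ℂ) : Set ℂ) \ {f (x i)}) ⊆
      (f : EuclideanSpace ℝ (Fin 2) →ᵃ[ℝ] ℂ) '' ((fun j : S => x j) '' {j : S | j ≠ ⟨i, hi⟩}) := by
    rintro z ⟨hz, hzi⟩
    simp only [coe_image, Set.mem_image, mem_coe] at hz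
    obtain ⟨j, hj, rfl⟩ := hz
    refine ⟨x j, ⟨⟨j, hj⟩, ?_, rfl⟩, rfl⟩
    intro e
    apply hzi
    have : j = i := congrArg Subtype.val e
    rw [this]; rfl
  have h1 := convexHull_mono e1 hmem
  rw [← AffineMap.image_convexHull] at h1
  obtain ⟨p, hp, hpe⟩ := h1
  have hpx : p = x i := f.injective hpe
  rw [hpx] at hp
  have h2 := hS {j : S | j ≠ ⟨i, hi⟩} ⟨i, hi⟩ hp
  exact h2 rfl

end Pool.Agent.Vps
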