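import Pool.Agent.Lib.Vps.Density

/-!
# Upper bound for the number of points in a disc
-/

open Finset
open scoped ComplexConjugate

namespace Pool.Agent.Vps

namespace UpperAux

theorem sin_ge {ρ t : ℝ} (h0 : 0 ≤ ρ) (h : ρ ≤ t) (h' : t ≤ Real.pi - ρ) :
    Real.sin ρ ≤ Real.sin t := by
  have hpi := Real.pi_pos
  rcases le_total t (Real.pi / 2) with h1 | h1
  · exact Real.sin_le_sin_of_le_of_le_pi_div_two (by linarith) h1 h
  · rw [← Real.sin_pi_sub t]
    exact Real.sin_le_sin_of_le_of_le_pi_div_two (by linarith) (by linarith) (by linarith)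

theorem dist_exp (a b : ℝ) : dist (Complex.exp (a * Complex.I)) (Complex.exp (b * Complex.I)) ^ 2 =
    4 * Real.sin ((b - a) / 2) ^ 2 := by
  have h1 : Real.cos (b - a) = 1 - 2 * Real.sin ((b - a) / 2) ^ 2 := by
    have h2 := Real.cos_sq' ((b - a) / 2)
    have h3 : Real.cos (b - a) = 2 * Real.cos ((b - a) / 2) ^ 2 - 1 := by
      rw [← Real.cos_two_mul]; congr 1; ring
    rw [h3, h2]; ring
  have h4 := Real.cos_sub b a
  have h5 := Real.sin_sq_add_cos_sq a
  have h6 := Real.sin_sq_add_cos_sq b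
  rw [Complex.dist_eq, ← Complex.normSq_eq_norm_sq, Complex.normSq_apply]
  simp only [Complex.sub_re, Complex.sub_im, Complex.exp_ofReal_mul_I_re,
    Complex.exp_ofReal_mul_I_im]
  nlinarith

end UpperAux

open UpperAux in
/-- PROOF. `m = ⌊2 π / (10 ρ)⌋₊ ≥ 0.528 / ρ`, `u_j = exp (10 ρ j i)`, `j < m`. By `density` there is
`x_j ∈ X` with `dist x_j u_j ≤ 3 g ≤ 3 ρ`. For `j ≠ k` the angle between `u_j` and `u_k` is in
`[10 ρ, 2 π - 10 ρ]`, so `dist u_j u_k ≥ 2 sin (5 ρ) ≥ 9 ρ` and `dist x_j x_k ≥ 3 ρ > 2 ρ`: the sets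
`ball X x_j ρ` are disjoint, some of them has at most `card X / m ≤ 2 ρ card X` points; then
`cnt_le`. -/
theorem upper {X : Finset ℂ} {e T : ℝ} (h : Ann X e T) {g : ℝ} (hg0 : 0 < g)
    (hg : g ≤ 1 / 10 ^ 8) (hT : T ≤ g / 10 ^ 11) (hn : 2 * 10 ^ 12 * (e + 1) ≤ X.card * g)
    {ρ : ℝ} (hgρ : g ≤ ρ) (hρ : ρ ≤ 1 / 10) {x : ℂ} (hx : x ∈ X) :
    ((ball X x ρ).card : ℝ) ≤ 2 * X.card * ρ + e := by
  classical
  have hρ0 : 0 < ρ := by linarith
  have hpi3 := Real.pi_gt_d2
  have hpi := Real.pi_pos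
  set m : ℕ := ⌊2 * Real.pi / (10 * ρ)⌋₊ with hm
  have hm1 : (m : ℝ) * (10 * ρ) ≤ 2 * Real.pi := by
    have h1 : (m : ℝ) ≤ 2 * Real.pi / (10 * ρ) := Nat.floor_le (by positivity)
    rwa [le_div_iff₀ (by positivity)] at h1
  have hm2 : 1 ≤ 2 * ρ * m := by
    have h1 : 2 * Real.pi / (10 * ρ) < m + 1 := Nat.lt_floor_add_one _
    rw [div_lt_iff₀ (by positivity)] at h1
    nlinarith
  have hm0 : 0 < (m : ℝ) := by
    by_contra hcon
    have : (m : ℝ) = 0 := le_antisymm (not_lt.1 hcon) (Nat.cast_nonneg m)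
    rw [this] at hm2
    norm_num at hm2
  -- the points
  have hpt : ∀ j : ℕ, ∃ y ∈ X, dist y (Complex.exp (((10 * ρ * j : ℝ) : ℂ) * Complex.I)) ≤ 3 * g :=
    fun j => density h hg0 hg hT hn (Complex.norm_exp_ofReal_mul_I _)
  choose y hyX hy using hpt
  have hsin : 4 * ρ < Real.sin (5 * ρ) := by
    have h1 : 5 * ρ - (5 * ρ) ^ 3 / 6 < Real.sin (5 * ρ) :=
      Real.sin_gt_sub_cube (by positivity)
    have h2 : ρ ^ 3 ≤ ρ / 100 := by
      have : ρ ^ 2 ≤ 1 / 100 := by nlinarith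
      nlinarith
    nlinarith
  have hsep : ∀ j < m, ∀ k < m, j < k → 2 * ρ < dist (y j) (y k) := by
    intro j hj k hk hjk
    set uj := Complex.exp (((10 * ρ * j : ℝ) : ℂ) * Complex.I) with huj
    set uk := Complex.exp (((10 * ρ * k : ℝ) : ℂ) * Complex.I) with huk
    have h1 : dist uj uk ^ 2 = 4 * Real.sin ((10 * ρ * k - 10 * ρ * j) / 2) ^ 2 := dist_exp _ _
    have h2 : (j : ℝ) + 1 ≤ k := by exact_mod_cast hjk
    have h3 : (k : ℝ) + 1 ≤ m := by exact_mod_cast hk
    have h4 : (0 : ℝ) ≤ j := Nat.cast_nonneg j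
    have h5 : Real.sin (5 * ρ) ≤ Real.sin ((10 * ρ * k - 10 * ρ * j) / 2) := by
      refine sin_ge (by positivity) ?_ ?_
      · nlinarith
      · nlinarith
    have h6 : 8 * ρ < dist uj uk := by
      by_contra hcon
      rw [not_lt] at hcon
      have h7 : dist uj uk ^ 2 ≤ (8 * ρ) ^ 2 := pow_le_pow_left₀ dist_nonneg hcon 2
      rw [h1] at h7
      have h8 : 4 * ρ < Real.sin ((10 * ρ * k - 10 * ρ * j) / 2) := by linarith
      nlinarith
    have h7 : dist uj uk ≤ dist (y j) uj + dist (y j) (y k) + dist (y k) uk := by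
      calc dist uj uk ≤ dist uj (y j) + dist (y j) uk := dist_triangle _ _ _
        _ ≤ dist (y j) uj + (dist (y j) (y k) + dist (y k) uk) := by
            rw [dist_comm uj]
            exact add_le_add le_rfl (dist_triangle _ _ _)
        _ = _ := by ring
    have h8 := hy j
    have h9 := hy k
    linarith
  have hdisj : ∀ j ∈ Finset.range m, ∀ k ∈ Finset.range m, j ≠ k →
      Disjoint (ball X (y j) ρ) (ball X (y k) ρ) := by
    intro j hj k hk hjk
    rw [Finset.disjoint_left]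
    intro w hw1 hw2
    have h1 := (mem_ball.1 hw1).2
    have h2 := (mem_ball.1 hw2).2
    have h3 : dist (y j) (y k) ≤ 2 * ρ := by
      calc dist (y j) (y k) ≤ dist (y j) w + dist w (y k) := dist_triangle _ _ _
        _ ≤ 2 * ρ := by rw [dist_comm (y j)]; linarith
    have hj' := Finset.mem_range.1 hj
    have hk' := Finset.mem_range.1 hk
    rcases lt_or_gt_of_ne hjk with h4 | h4
    · exact absurd (hsep j hj' k hk' h4) (not_lt.2 h3)
    · rw [dist_comm] at h3
      exact absurd (hsep k hk' j hj' h4) (not_lt.2 h3)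
  have hsum : ∑ j ∈ Finset.range m, ((ball X (y j) ρ).card : ℝ) ≤ X.card := by
    have h1 : ∑ j ∈ Finset.range m, (ball X (y j) ρ).card =
        ((Finset.range m).biUnion fun j => ball X (y j) ρ).card :=
      (Finset.card_biUnion hdisj).symm
    have h2 : ((Finset.range m).biUnion fun j => ball X (y j) ρ).card ≤ X.card :=
      Finset.card_le_card (Finset.biUnion_subset.2 fun _ _ => ball_subset)
    rw [← h1] at h2
    exact_mod_cast h2
  have hlow : ∑ j ∈ Finset.range m, ((ball X x ρ).card - e : ℝ) ≤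
      ∑ j ∈ Finset.range m, ((ball X (y j) ρ).card : ℝ) :=
    Finset.sum_le_sum fun j _ => by
      have := cnt_le h.toSys hx (hyX j) hρ0.le
      linarith
  rw [Finset.sum_const, Finset.card_range, nsmul_eq_mul] at hlow
  by_contra hcon
  rw [not_le] at hcon
  have h1 : (m : ℝ) * (2 * X.card * ρ) < m * ((ball X x ρ).card - e) :=
    mul_lt_mul_of_pos_left (by linarith) hm0
  have h2 : (X.card : ℝ) * 1 ≤ X.card * (2 * ρ * m) :=
    mul_le_mul_of_nonneg_left hm2 (Nat.cast_nonneg _)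
  linarith

end Pool.Agent.Vps
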