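import Pool.Agent.Lib.Vps.SameSide

/-!
# Equal sums over a block of distances
-/

open Finset
open scoped ComplexConjugate

namespace Pool.Agent.Vps

namespace BlockSumAux

theorem frame_eqs {x y : ℂ} : dist x y ^ 2 = ‖x‖ ^ 2 + ‖y‖ ^ 2 - 2 * (y * conj x).re ∧
    (y * conj x).im ^ 2 = ‖y‖ ^ 2 * ‖x‖ ^ 2 - (y * conj x).re ^ 2 :=
  ⟨dist_sq_eq x y, by rw [norm_sq_frame x y]; ring⟩

theorem im_lower {T : ℝ} (hT : T ≤ 1 / 10 ^ 6) {x y : ℂ} (hx : |‖x‖ ^ 2 - 1| ≤ T)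
    (hy : |‖y‖ ^ 2 - 1| ≤ T) (h1 : 3 / 10 ≤ dist x y) (h2 : dist x y ≤ 19 / 10)
    (h3 : 0 < (y * conj x).im) : 1 / 4 ≤ (y * conj x).im := by
  obtain ⟨e1, e2⟩ := frame_eqs (x := x) (y := y)
  rw [abs_le] at hx hy
  have hd1 : (3 / 10) ^ 2 ≤ dist x y ^ 2 := pow_le_pow_left₀ (by norm_num) h1 2
  have hd2 : dist x y ^ 2 ≤ (19 / 10) ^ 2 := pow_le_pow_left₀ dist_nonneg h2 2
  have r1 : -(806 / 1000) ≤ (y * conj x).re := by linarith
  have r2 : (y * conj x).re ≤ 956 / 1000 := by linarith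
  have r3 : (y * conj x).re ^ 2 ≤ 914 / 1000 := by nlinarith
  have r4 : 999 / 1000 ≤ ‖y‖ ^ 2 * ‖x‖ ^ 2 := by nlinarith
  by_contra hcon
  push Not at hcon
  nlinarith

end BlockSumAux

open BlockSumAux

/-- PROOF. `Re (y conj x) = (‖x‖^2 + ‖y‖^2 - d^2) / 2`, `Im ^ 2 = ‖x‖^2 ‖y‖^2 - Re ^ 2`. -/
theorem frame_bounds1 {T : ℝ} (hT : T ≤ 1 / 10 ^ 6) {x y : ℂ} (hx : |‖x‖ ^ 2 - 1| ≤ T)
    (hy : |‖y‖ ^ 2 - 1| ≤ T) (h1 : 6 / 10 ≤ dist x y) (h2 : dist x y ≤ 8 / 10)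
    (h3 : 0 < (y * conj x).im) :
    (679 / 1000 ≤ (y * conj x).re ∧ (y * conj x).re ≤ 821 / 1000) ∧
      (570 / 1000 ≤ (y * conj x).im ∧ (y * conj x).im ≤ 735 / 1000) := by
  obtain ⟨e1, e2⟩ := frame_eqs (x := x) (y := y)
  rw [abs_le] at hx hy
  have hd1 : (6 / 10) ^ 2 ≤ dist x y ^ 2 := pow_le_pow_left₀ (by norm_num) h1 2
  have hd2 : dist x y ^ 2 ≤ (8 / 10) ^ 2 := pow_le_pow_left₀ dist_nonneg h2 2
  have r1 : 6799 / 10000 ≤ (y * conj x).re := by linarith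
  have r2 : (y * conj x).re ≤ 8201 / 10000 := by linarith
  have r3 : (y * conj x).re ^ 2 ≤ (8201 / 10000) ^ 2 := pow_le_pow_left₀ (by linarith) r2 2
  have r3' : (6799 / 10000) ^ 2 ≤ (y * conj x).re ^ 2 := pow_le_pow_left₀ (by norm_num) r1 2
  have r4 : 9999 / 10000 ≤ ‖y‖ ^ 2 * ‖x‖ ^ 2 := by nlinarith
  have r5 : ‖y‖ ^ 2 * ‖x‖ ^ 2 ≤ 10001 / 10000 := by nlinarith
  refine ⟨⟨by linarith, by linarith⟩, ?_, ?_⟩
  · by_contra hcon
    push Not at hcon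
    nlinarith
  · by_contra hcon
    push Not at hcon
    nlinarith

/-- PROOF. As `frame_bounds1`. -/
theorem frame_bounds2 {T : ℝ} (hT : T ≤ 1 / 10 ^ 6) {x y : ℂ} (hx : |‖x‖ ^ 2 - 1| ≤ T)
    (hy : |‖y‖ ^ 2 - 1| ≤ T) (h1 : 12 / 10 ≤ dist x y) (h2 : dist x y ≤ 14 / 10)
    (h3 : 0 < (y * conj x).im) :
    (19 / 1000 ≤ (y * conj x).re ∧ (y * conj x).re ≤ 281 / 1000) ∧
      (959 / 1000 ≤ (y * conj x).im ∧ (y * conj x).im ≤ 1001 / 1000) := by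
  obtain ⟨e1, e2⟩ := frame_eqs (x := x) (y := y)
  rw [abs_le] at hx hy
  have hd1 : (12 / 10) ^ 2 ≤ dist x y ^ 2 := pow_le_pow_left₀ (by norm_num) h1 2
  have hd2 : dist x y ^ 2 ≤ (14 / 10) ^ 2 := pow_le_pow_left₀ dist_nonneg h2 2
  have r1 : 199 / 10000 ≤ (y * conj x).re := by linarith
  have r2 : (y * conj x).re ≤ 2801 / 10000 := by linarith
  have r3 : (y * conj x).re ^ 2 ≤ (2801 / 10000) ^ 2 := pow_le_pow_left₀ (by linarith) r2 2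
  have r3' : 0 ≤ (y * conj x).re ^ 2 := sq_nonneg _
  have r4 : 9999 / 10000 ≤ ‖y‖ ^ 2 * ‖x‖ ^ 2 := by nlinarith
  have r5 : ‖y‖ ^ 2 * ‖x‖ ^ 2 ≤ 10001 / 10000 := by nlinarith
  refine ⟨⟨by linarith, by linarith⟩, ?_, ?_⟩
  · by_contra hcon
    push Not at hcon
    nlinarith
  · by_contra hcon
    push Not at hcon
    nlinarith

/-- PROOF. `dist x1 y ^ 2 - dist x2 y ^ 2 = Re ((x1 - x2) conj (x1 + x2 - 2 y))` (`dist_sq_sub`); in
the frame of `x1` (`re_mul_conj_frame`), with `n(z) = Re (z conj x1)`, `t(z) = Im (z conj x1)`,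
`v = x1 - x2`, the sum says `∑ y ∈ S, (n(v) (n(x1) + n(x2) - 2 n(y)) + t(v) (t(x2) - 2 t(y))) = 0`
(`t(x1) = 0`). Take `α = ∑ y ∈ S, ((n(x1) + n(x2)) / 2 - n(y)) / card S`,
`β = ∑ y ∈ S, (t(y) - t(x2) / 2) / card S`. `n(x1) = ‖x1‖^2`, and
`|n(x2) - n(x1)|, |t(x2)| ≤ ‖x1‖ * dist x1 x2`. -/
theorem vec_of_sum {T δ : ℝ} (hT : T ≤ 1 / 10 ^ 6) (hδ : δ ≤ 1 / 10 ^ 6) {x1 x2 : ℂ}
    (hx1 : |‖x1‖ ^ 2 - 1| ≤ T) (h12 : dist x1 x2 ≤ δ) {S : Finset ℂ} (hne : S.Nonempty)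
    {m M p q : ℝ} (hn : ∀ y ∈ S, m ≤ (y * conj x1).re ∧ (y * conj x1).re ≤ M)
    (ht : ∀ y ∈ S, p ≤ (y * conj x1).im ∧ (y * conj x1).im ≤ q)
    (hsum : ∑ y ∈ S, (dist x1 y ^ 2 - dist x2 y ^ 2) = 0) :
    ∃ α β : ℝ, α * ((x1 - x2) * conj x1).re = β * ((x1 - x2) * conj x1).im ∧
      1 - M - 1 / 1000 ≤ α ∧ α ≤ 1 - m + 1 / 1000 ∧ p - 1 / 1000 ≤ β ∧ β ≤ q + 1 / 1000 := by
  have hx0 : x1 ≠ 0 := by
    rintro rfl
    rw [norm_zero, abs_le] at hx1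
    linarith [hx1.1]
  have hsq := abs_le.1 hx1
  have hnx : ‖x1‖ ≤ 1001 / 1000 := by
    by_contra hcon
    push Not at hcon
    nlinarith [norm_nonneg x1]
  have hxpos : 0 < ‖x1‖ ^ 2 := by linarith [hsq.1]
  -- frame coordinates
  have f1 : (x1 * conj x1).re = ‖x1‖ ^ 2 := by
    rw [Complex.mul_conj, Complex.normSq_eq_norm_sq, Complex.ofReal_re]
  have f2 : (x1 * conj x1).im = 0 := by
    rw [Complex.mul_conj, Complex.ofReal_im]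
  have hv : ‖(x1 - x2) * conj x1‖ ≤ 1 / 10 ^ 5 := by
    rw [norm_mul, Complex.norm_conj, ← Complex.dist_eq]
    have : dist x1 x2 * ‖x1‖ ≤ 1 / 10 ^ 6 * (1001 / 1000) :=
      mul_le_mul (h12.trans hδ) hnx (norm_nonneg _) (by norm_num)
    linarith
  have hvr := abs_le.1 ((Complex.abs_re_le_norm ((x1 - x2) * conj x1)).trans hv)
  have hvi := abs_le.1 ((Complex.abs_im_le_norm ((x1 - x2) * conj x1)).trans hv)
  have f3 : (x2 * conj x1).re = ‖x1‖ ^ 2 - ((x1 - x2) * conj x1).re := by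
    rw [sub_mul, Complex.sub_re, f1]; ring
  have f4 : (x2 * conj x1).im = - ((x1 - x2) * conj x1).im := by
    rw [sub_mul, Complex.sub_im, f2]; ring
  set nv := ((x1 - x2) * conj x1).re with hnv
  set tv := ((x1 - x2) * conj x1).im with htv
  set N : ℝ := 2 * ‖x1‖ ^ 2 - nv with hN
  set τ : ℝ := -tv with hτ
  have hterm : ∀ y, dist x1 y ^ 2 - dist x2 y ^ 2 =
      (nv * (N - 2 * (y * conj x1).re) + tv * (τ - 2 * (y * conj x1).im)) / ‖x1‖ ^ 2 := by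
    intro y
    rw [dist_sq_sub, re_mul_conj_frame hx0, ← hnv, ← htv]
    congr 2
    · congr 1
      have : (x1 + x2 - 2 * y) * conj x1 = x1 * conj x1 + x2 * conj x1 - 2 * (y * conj x1) := by
        ring
      rw [this, Complex.sub_re, Complex.add_re, f1, f3, hN]
      have h2 : (2 * (y * conj x1)).re = 2 * (y * conj x1).re := by simp
      rw [h2]; ring
    · congr 1
      have : (x1 + x2 - 2 * y) * conj x1 = x1 * conj x1 + x2 * conj x1 - 2 * (y * conj x1) := by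
        ring
      rw [this, Complex.sub_im, Complex.add_im, f2, f4, hτ]
      have h2 : (2 * (y * conj x1)).im = 2 * (y * conj x1).im := by simp
      rw [h2]; ring
  rw [Finset.sum_congr rfl (fun y _ => hterm y), ← Finset.sum_div, div_eq_zero_iff] at hsum
  have hsum' := hsum.resolve_right hxpos.ne'
  have hk : (0 : ℝ) < S.card := by exact_mod_cast hne.card_pos
  set k : ℝ := (S.card : ℝ) with hkdef
  set A : ℝ := ∑ y ∈ S, (y * conj x1).re with hA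
  set B : ℝ := ∑ y ∈ S, (y * conj x1).im with hB
  have hlinA : ∑ y ∈ S, (N - 2 * (y * conj x1).re) = k * N - 2 * A := by
    rw [Finset.sum_sub_distrib, ← Finset.mul_sum, Finset.sum_const, nsmul_eq_mul]
  have hlinB : ∑ y ∈ S, (τ - 2 * (y * conj x1).im) = k * τ - 2 * B := by
    rw [Finset.sum_sub_distrib, ← Finset.mul_sum, Finset.sum_const, nsmul_eq_mul]
  have hlin : nv * (k * N - 2 * A) + tv * (k * τ - 2 * B) = 0 := by
    rw [← hsum', Finset.sum_add_distrib, ← Finset.mul_sum, ← Finset.mul_sum, hlinA, hlinB]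
  have hA1 : k * m ≤ A := by
    have := Finset.card_nsmul_le_sum S (fun y => (y * conj x1).re) m (fun y hy => (hn y hy).1)
    rwa [nsmul_eq_mul] at this
  have hA2 : A ≤ k * M := by
    have := Finset.sum_le_card_nsmul S (fun y => (y * conj x1).re) M (fun y hy => (hn y hy).2)
    rwa [nsmul_eq_mul] at this
  have hB1 : k * p ≤ B := by
    have := Finset.card_nsmul_le_sum S (fun y => (y * conj x1).im) p (fun y hy => (ht y hy).1)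
    rwa [nsmul_eq_mul] at this
  have hB2 : B ≤ k * q := by
    have := Finset.sum_le_card_nsmul S (fun y => (y * conj x1).im) q (fun y hy => (ht y hy).2)
    rwa [nsmul_eq_mul] at this
  have hA1' : m ≤ A / k := by rw [le_div_iff₀ hk]; linarith
  have hA2' : A / k ≤ M := by rw [div_le_iff₀ hk]; linarith
  have hB1' : p ≤ B / k := by rw [le_div_iff₀ hk]; linarith
  have hB2' : B / k ≤ q := by rw [div_le_iff₀ hk]; linarith
  refine ⟨N / 2 - A / k, B / k - τ / 2, ?_, ?_, ?_, ?_, ?_⟩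
  · have h1 : k * ((N / 2 - A / k) * nv - (B / k - τ / 2) * tv) = 0 := by
      have h2 : k * (A / k) = A := mul_div_cancel₀ _ hk.ne'
      have h3 : k * (B / k) = B := mul_div_cancel₀ _ hk.ne'
      linear_combination (1 / 2) * hlin - nv * h2 - tv * h3
    have h4 := (mul_eq_zero.1 h1).resolve_left hk.ne'
    linarith
  · rw [hN]; linarith [hvr.1, hvr.2, hsq.1]
  · rw [hN]; linarith [hvr.1, hvr.2, hsq.2]
  · rw [hτ]; linarith [hvi.1, hvi.2]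
  · rw [hτ]; linarith [hvi.1, hvi.2]

namespace BlockSumAux

/-- The left points of the block. -/
noncomputable def SL (X : Finset ℂ) (x : ℂ) (b1 b2 : ℝ) : Finset ℂ :=
  X.filter fun y => b1 ≤ dist x y ∧ dist x y ≤ b2 ∧ 0 < (y * conj x).im

theorem SL_surj {X : Finset ℂ} {x : ℂ} {b1 b2 : ℝ} (hb1 : 3 / 10 ≤ b1)
    (hb2 : b2 ≤ 19 / 10)
    (htwo : ∀ d ∈ Dset X, b1 ≤ d → d ≤ b2 → 1 < (X.filter fun z => dist x z = d).card)
    (hcoin : ∀ d ∈ Dset X, b1 ≤ d → d ≤ b2 → d ∉ coin X x) {d : ℝ} (hd : d ∈ Dset X)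
    (h1 : b1 ≤ d) (h2 : d ≤ b2) : ∃ y ∈ SL X x b1 b2, dist x y = d := by
  obtain ⟨a, ha, b, hb, hab⟩ := Finset.one_lt_card.1 (htwo d hd h1 h2)
  rw [Finset.mem_filter] at ha hb
  by_cases ha' : 0 < (a * conj x).im
  · exact ⟨a, Finset.mem_filter.2 ⟨ha.1, by rw [ha.2]; exact ⟨h1, h2, ha'⟩⟩, ha.2⟩
  by_cases hb' : 0 < (b * conj x).im
  · exact ⟨b, Finset.mem_filter.2 ⟨hb.1, by rw [hb.2]; exact ⟨h1, h2, hb'⟩⟩, hb.2⟩
  exfalso
  refine hcoin d hd h1 h2 (Finset.mem_filter.2 ⟨hd, by linarith, by linarith, a, ha.1, b, hb.1,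
    hab, ha.2, hb.2, ?_⟩)
  exact ⟨fun h => absurd h ha', fun h => absurd h hb'⟩

theorem SL_sum {X : Finset ℂ} {x : ℂ} (hx : x ∈ X) {b1 b2 : ℝ} (hb1 : 3 / 10 ≤ b1)
    (hb2 : b2 ≤ 19 / 10)
    (htwo : ∀ d ∈ Dset X, b1 ≤ d → d ≤ b2 → 1 < (X.filter fun z => dist x z = d).card)
    (hcoin : ∀ d ∈ Dset X, b1 ≤ d → d ≤ b2 → d ∉ coin X x) :
    ∑ y ∈ SL X x b1 b2, dist x y ^ 2 =
      ∑ d ∈ (Dset X).filter (fun d => b1 ≤ d ∧ d ≤ b2), d ^ 2 := by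
  have hD : ∀ y ∈ SL X x b1 b2, dist x y ∈ Dset X := by
    intro y hy
    rw [SL, Finset.mem_filter] at hy
    refine dist_mem_Dset hx hy.1 ?_
    intro hxy
    have := hy.2.1
    rw [hxy, dist_self] at this
    linarith
  refine Finset.sum_bij (fun y _ => dist x y) ?_ ?_ ?_ ?_
  · intro y hy
    have h1 := hD y hy
    rw [SL, Finset.mem_filter] at hy
    exact Finset.mem_filter.2 ⟨h1, hy.2.1, hy.2.2.1⟩
  · intro y hy y' hy' heq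
    by_contra hne
    have h1 := hD y hy
    rw [SL, Finset.mem_filter] at hy hy'
    refine hcoin _ h1 hy.2.1 hy.2.2.1 (Finset.mem_filter.2 ⟨h1, by linarith [hy.2.1],
      by linarith [hy.2.2.1], y, hy.1, y', hy'.1, hne, rfl, heq.symm, ?_⟩)
    exact ⟨fun _ => hy'.2.2.2, fun _ => hy.2.2.2⟩
  · intro d hd
    rw [Finset.mem_filter] at hd
    obtain ⟨y, hy, hyd⟩ := SL_surj hb1 hb2 htwo hcoin hd.1 hd.2.1 hd.2.2
    exact ⟨y, hy, hyd⟩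
  · intro y _
    rfl

theorem SL_sub {X : Finset ℂ} {e T : ℝ} (h : Ann X e T) (hT : T ≤ 1 / 10 ^ 6) {δ : ℝ}
    (hδ : δ ≤ 1 / 10 ^ 6) {x1 x2 : ℂ} (hx1 : x1 ∈ X) (hx2 : x2 ∈ X) (h12 : dist x1 x2 ≤ δ)
    {b1 b2 : ℝ} (hb1 : 3 / 10 ≤ b1) (hb2 : b2 ≤ 19 / 10)
    (hiso : ∀ d ∈ Dset X, b1 - δ ≤ d → d ≤ b2 + δ → b1 ≤ d ∧ d ≤ b2) :
    SL X x1 b1 b2 ⊆ SL X x2 b1 b2 := by
  intro y hy
  rw [SL, Finset.mem_filter] at hy ⊢
  obtain ⟨hyX, h1, h2, h3⟩ := hy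
  have t1 : dist x2 y ≤ dist x1 y + δ := by
    have := dist_triangle x2 x1 y
    rw [dist_comm x2 x1] at this
    linarith
  have t2 : dist x1 y - δ ≤ dist x2 y := by
    have := dist_triangle x1 x2 y
    linarith
  have hne : x2 ≠ y := by
    intro hxy
    rw [hxy, dist_self] at t2
    linarith
  have hD := dist_mem_Dset hx2 hyX hne
  have h4 := hiso _ hD (by linarith) (by linarith)
  refine ⟨hyX, h4.1, h4.2, ?_⟩
  have h5 := im_lower hT (h.ann x1 hx1) (h.ann y hyX) (by linarith) (by linarith) h3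
  have h6 : (y * conj x2).im = (y * conj x1).im - (y * conj (x1 - x2)).im := by
    rw [map_sub, mul_sub, Complex.sub_im]; ring
  have hny : ‖y‖ ≤ 1001 / 1000 := by
    have hsq := abs_le.1 (h.ann y hyX)
    by_contra hcon
    push Not at hcon
    nlinarith [norm_nonneg y]
  have h7 : |(y * conj (x1 - x2)).im| ≤ 1 / 10 ^ 5 := by
    refine (Complex.abs_im_le_norm _).trans ?_
    rw [norm_mul, Complex.norm_conj, ← Complex.dist_eq]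
    have : ‖y‖ * dist x1 x2 ≤ 1001 / 1000 * (1 / 10 ^ 6) :=
      mul_le_mul hny (h12.trans hδ) dist_nonneg (by norm_num)
    linarith
  have h8 := abs_le.1 h7
  rw [h6]
  linarith [h8.2]

end BlockSumAux

/-- PROOF. Let `S_k = {y ∈ X | b1 ≤ dist x_k y ≤ b2, 0 < Im (y conj x_k)}`, `k = 1, 2`, and
`B = {d ∈ Dset X | b1 ≤ d ≤ b2}`, which contains `b1`. For `y ∈ X` with
`b1 ≤ dist x1 y ≤ b2`, `dist x2 y` is in `[b1 - δ, b2 + δ]`, positive, in `Dset X`, so in `[b1, b2]` by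
`hiso`, and conversely; `|Im (y conj x_k)| ≥ 0.26` (as `coin_dist`) and
`|Im (y conj x1) - Im (y conj x2)| ≤ ‖y‖ δ`, so the signs agree: `S_1 = S_2 = S`. `y ↦ dist x_k y` is
injective on `S` (no element of `B` is in `coin X x_k`) and onto `B`: for `d ∈ B` there are two
points of `X` at distance `d` of `x_k` (`htwo`), not on the same side as `d ∉ coin X x_k`, so one of
them is in `S`. So `∑ y ∈ S, dist x_k y ^ 2 = ∑ d ∈ B, d ^ 2` for both `k`. -/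
theorem block_sum {X : Finset ℂ} {e T : ℝ} (h : Ann X e T) (hT : T ≤ 1 / 10 ^ 6) {δ : ℝ}
    (hδ : δ ≤ 1 / 10 ^ 6) {x1 x2 : ℂ} (hx1 : x1 ∈ X) (hx2 : x2 ∈ X) (h12 : dist x1 x2 ≤ δ)
    {b1 b2 : ℝ} (hb1 : 3 / 10 ≤ b1) (hb2 : b2 ≤ 19 / 10) (hb : b1 ≤ b2) (hbD : b1 ∈ Dset X)
    (hiso : ∀ d ∈ Dset X, b1 - δ ≤ d → d ≤ b2 + δ → b1 ≤ d ∧ d ≤ b2)
    (htwo1 : ∀ d ∈ Dset X, b1 ≤ d → d ≤ b2 → 1 < (X.filter fun z => dist x1 z = d).card)
    (htwo2 : ∀ d ∈ Dset X, b1 ≤ d → d ≤ b2 → 1 < (X.filter fun z => dist x2 z = d).card)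
    (hcoin1 : ∀ d ∈ Dset X, b1 ≤ d → d ≤ b2 → d ∉ coin X x1)
    (hcoin2 : ∀ d ∈ Dset X, b1 ≤ d → d ≤ b2 → d ∉ coin X x2) :
    ∃ S : Finset ℂ, S ⊆ X ∧ S.Nonempty ∧
      (∀ y ∈ S, b1 ≤ dist x1 y ∧ dist x1 y ≤ b2 ∧ 0 < (y * conj x1).im) ∧
      ∑ y ∈ S, (dist x1 y ^ 2 - dist x2 y ^ 2) = 0 := by
  have hSS : SL X x1 b1 b2 = SL X x2 b1 b2 :=
    Finset.Subset.antisymm (SL_sub h hT hδ hx1 hx2 h12 hb1 hb2 hiso)
      (SL_sub h hT hδ hx2 hx1 (by rw [dist_comm]; exact h12) hb1 hb2 hiso)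
  obtain ⟨y0, hy0, -⟩ := SL_surj hb1 hb2 htwo1 hcoin1 hbD le_rfl hb
  refine ⟨SL X x1 b1 b2, Finset.filter_subset _ _, ⟨y0, hy0⟩, ?_, ?_⟩
  · intro y hy
    rw [SL, Finset.mem_filter] at hy
    exact hy.2
  · rw [Finset.sum_sub_distrib, SL_sum hx1 hb1 hb2 htwo1 hcoin1, hSS,
      SL_sum hx2 hb1 hb2 htwo2 hcoin2, sub_self]

end Pool.Agent.Vps
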