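import Pool.Agent.Lib.Vps.Psi

/-!
# All points are close to a circle; a far point; a dense ball
-/

open Finset
open scoped ComplexConjugate

namespace Pool.Agent.Vps

/-- `∑ |x - y|^2 = n |x|^2 + ∑ |y|^2` if the centroid is `0`. -/
lemma sum_dist_sq {X : Finset ℂ} (h0 : ∑ x ∈ X, x = 0) (x : ℂ) :
    ∑ y ∈ X, dist x y ^ 2 = X.card * ‖x‖ ^ 2 + ∑ y ∈ X, ‖y‖ ^ 2 := by
  have h1 : ∀ y ∈ X, dist x y ^ 2 = ‖x‖ ^ 2 + ‖y‖ ^ 2 - 2 * (y * conj x).re :=
    fun y _ => dist_sq_eq x y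
  rw [Finset.sum_congr rfl h1, Finset.sum_sub_distrib, Finset.sum_add_distrib, Finset.sum_const,
    nsmul_eq_mul, ← Finset.mul_sum]
  have h2 : ∑ y ∈ X, (y * conj x).re = 0 := by
    rw [← Complex.re_sum, ← Finset.sum_mul, h0, zero_mul, Complex.zero_re]
  rw [h2]
  ring

/-- PROOF. Let `A = max ‖x‖^2` over `X`, attained at `a`. By `psi` with `ψ d = d ^ 2` and
`M = 4 A` (`dist x y ^ 2 ≤ (‖x‖ + ‖y‖)^2 ≤ 4 A`) and
`∑ y ∈ X, dist x y ^ 2 = n ‖x‖^2 + ∑ ‖y‖^2 = n ‖x‖^2 + n` (centroid `0`):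
`n A ≤ n ‖x‖^2 + 4 A e` for every `x ∈ X`. Sum over `x`: `n A ≤ n + 4 A e`, so with `20 e ≤ n`,
`A ≤ 5/4`, `A ≤ 1 + 5 e / n`. And `A ≥ 1` (average), so `‖x‖^2 ≥ A - 4 A e / n ≥ 1 - 5 e / n`. -/
theorem annulus {X : Finset ℂ} {e : ℝ} (h : Sys X e) (hne : X.Nonempty)
    (h0 : ∑ x ∈ X, x = 0) (h1 : ∑ x ∈ X, ‖x‖ ^ 2 = X.card) (he : 20 * e ≤ X.card) :
    Ann X e (5 * e / X.card) := by
  have hn : (0:ℝ) < X.card := by exact_mod_cast hne.card_pos
  obtain ⟨a, ha, hmax⟩ := X.exists_max_image (fun x => ‖x‖ ^ 2) hne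
  set A : ℝ := ‖a‖ ^ 2 with hA
  have hA0 : 0 ≤ A := by positivity
  have he0 := h.nonneg
  have key : ∀ x ∈ X, (X.card : ℝ) * A ≤ X.card * ‖x‖ ^ 2 + e * (4 * A) := by
    intro x hx
    have hp := psi h ha hx (fun d => d ^ 2) (4 * A) (by simp) (fun d _ => by positivity)
      (by
        intro d hd
        obtain ⟨y, hy, z, hz, _, rfl⟩ := mem_Dset.1 hd
        have h2 : dist y z ≤ ‖y‖ + ‖z‖ := by
          rw [dist_eq_norm]; exact norm_sub_le _ _
        have h3 := hmax y hy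
        have h4 := hmax z hz
        have h5 : dist y z ^ 2 ≤ (‖y‖ + ‖z‖) ^ 2 := by
          have := dist_nonneg (x := y) (y := z)
          gcongr
        nlinarith [sq_nonneg (‖y‖ - ‖z‖)])
      (by positivity)
    rw [sum_dist_sq h0, sum_dist_sq h0] at hp
    linarith
  have hsum : (X.card : ℝ) * A ≤ X.card + e * (4 * A) := by
    have h2 := Finset.sum_le_sum key
    rw [Finset.sum_add_distrib, ← Finset.mul_sum (f := fun x : ℂ => ‖x‖ ^ 2), h1,
      Finset.sum_const, Finset.sum_const, nsmul_eq_mul, nsmul_eq_mul] at h2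
    have h3 : (X.card : ℝ) * (X.card * A) ≤ X.card * (X.card + e * (4 * A)) := by linarith
    exact le_of_mul_le_mul_left h3 hn
  have hA54 : A ≤ 5 / 4 := by
    have h2 : 4 * (20 * e) * A ≤ 4 * X.card * A := by
      have := mul_le_mul_of_nonneg_right he hA0
      nlinarith
    have h3 : (X.card : ℝ) * (A * 4) ≤ X.card * 5 := by nlinarith
    have h4 := le_of_mul_le_mul_left h3 hn
    linarith
  have h4Ae : e * (4 * A) ≤ 5 * e := by nlinarith
  have hA1 : A ≤ 1 + 5 * e / X.card := by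
    have h2 : A * X.card ≤ X.card + 5 * e := by linarith
    have h3 : A ≤ (X.card + 5 * e) / X.card := by
      rw [le_div_iff₀ hn]; exact h2
    rwa [add_div, div_self hn.ne'] at h3
  have hA1' : 1 ≤ A := by
    have h2 : ∑ x ∈ X, ‖x‖ ^ 2 ≤ ∑ x ∈ X, A := Finset.sum_le_sum hmax
    rw [h1, Finset.sum_const, nsmul_eq_mul] at h2
    have h3 : (X.card : ℝ) * 1 ≤ X.card * A := by linarith
    exact le_of_mul_le_mul_left h3 hn
  refine { toSys := h, sum_zero := h0, ann := ?_, nonempty := hne }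
  intro x hx
  have h2 := hmax x hx
  have h3 := key x hx
  rw [abs_le]
  constructor
  · have h4 : (X.card : ℝ) * 1 ≤ X.card * ‖x‖ ^ 2 + 5 * e := by
      have : (X.card : ℝ) * 1 ≤ X.card * A := by nlinarith
      linarith
    have h5 : -(5 * e / X.card) = -(5 * e) / X.card := by ring
    rw [h5, div_le_iff₀ hn]
    nlinarith
  · linarith

/-- PROOF: `∑ y ∈ X, dist x y ^ 2 = n ‖x‖^2 + ∑ ‖y‖^2 ≥ 2 (1 - T) n`. -/
theorem exists_far {X : Finset ℂ} {e T : ℝ} (h : Ann X e T) (hT : T ≤ 1 / 100) {x : ℂ}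
    (hx : x ∈ X) : ∃ y ∈ X, 19 / 10 ≤ dist x y ^ 2 := by
  by_contra hcon
  push Not at hcon
  have hn : (0:ℝ) < X.card := by exact_mod_cast h.nonempty.card_pos
  have h1 : ∑ y ∈ X, dist x y ^ 2 ≤ ∑ y ∈ X, (19 / 10 : ℝ) :=
    Finset.sum_le_sum fun y hy => (hcon y hy).le
  rw [sum_dist_sq h.sum_zero, Finset.sum_const, nsmul_eq_mul] at h1
  have h2 : ∑ y ∈ X, (99 / 100 : ℝ) ≤ ∑ y ∈ X, ‖y‖ ^ 2 := by
    refine Finset.sum_le_sum fun y hy => ?_
    have := (abs_le.1 (h.ann y hy)).1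
    linarith
  rw [Finset.sum_const, nsmul_eq_mul] at h2
  have h3 : 99 / 100 ≤ ‖x‖ ^ 2 := by
    have := (abs_le.1 (h.ann x hx)).1
    linarith
  nlinarith

lemma norm_exp_sub_le (s t : ℝ) :
    ‖Complex.exp (s * Complex.I) - Complex.exp (t * Complex.I)‖ ≤ |s - t| := by
  have h1 : Complex.exp (s * Complex.I) - Complex.exp (t * Complex.I)
      = Complex.exp (t * Complex.I) * (Complex.exp (Complex.I * ((s - t : ℝ) : ℂ)) - 1) := by
    rw [mul_sub, ← Complex.exp_add, mul_one]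
    congr 2
    push_cast
    ring
  rw [h1, norm_mul, Complex.norm_exp_ofReal_mul_I, one_mul]
  have := Real.norm_exp_I_mul_ofReal_sub_one_le (x := s - t)
  simpa using this

lemma dist_polar_le (y z : ℂ) :
    dist y z ≤ |‖y‖ - ‖z‖| + ‖z‖ * |y.arg - z.arg| := by
  have hy := Complex.norm_mul_exp_arg_mul_I y
  have hz := Complex.norm_mul_exp_arg_mul_I z
  have h1 : y - z = ((‖y‖ - ‖z‖ : ℝ) : ℂ) * Complex.exp (y.arg * Complex.I)
      + (‖z‖ : ℂ) * (Complex.exp (y.arg * Complex.I) - Complex.exp (z.arg * Complex.I)) := by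
    conv_lhs => rw [← hy, ← hz]
    push_cast
    ring
  rw [dist_eq_norm, h1]
  refine (norm_add_le _ _).trans ?_
  rw [norm_mul, norm_mul, Complex.norm_exp_ofReal_mul_I, mul_one, Complex.norm_real,
    Complex.norm_real, Real.norm_eq_abs, norm_norm]
  gcongr
  exact norm_exp_sub_le _ _

/-- PROOF. `m = ⌈22 / (3 σ)⌉` cells: the cell of `y` is `⌊m (arg y + π) / (2 π)⌋ ∈ {0, …, m}`
(careful with `arg y = π`, cell `m`; merge it with cell `m - 1` or allow `m + 1` cells).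
Two points of a cell have `|arg y - arg y'| ≤ 2 π / m ≤ 0.86 σ` and
`|‖y‖ - ‖y'‖| ≤ 2 T ≤ σ / 10`, so `dist y y' ≤ σ` (for instance
`dist y y' ≤ |‖y‖ - ‖y'‖| + ‖y'‖ |arg y - arg y'|`). Some cell has at least
`n / (m + 1) ≥ n σ / 10` points (`m + 1 ≤ 22 / (3 σ) + 2 ≤ 10 / σ` for `σ ≤ 1`; for this choice
check the constants, `22 / 3 + 2 < 10`), so a point `y'` of it has
`card (ball X y' σ) ≥ n σ / 10`. Then `cnt_le`. -/
theorem avg {X : Finset ℂ} {e T : ℝ} (h : Ann X e T) {σ : ℝ} (hT : 20 * T ≤ σ) (hσ : 0 < σ)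
    (hσ1 : σ ≤ 1) {x : ℂ} (hx : x ∈ X) :
    (X.card : ℝ) * σ / 10 - e ≤ ((ball X x σ).card : ℝ) := by
  have hn : (0:ℝ) < X.card := by exact_mod_cast h.nonempty.card_pos
  set m : ℕ := ⌈22 / (3 * σ)⌉₊ with hm
  have hm1 : 22 / (3 * σ) ≤ m := Nat.le_ceil _
  have hm2 : (m:ℝ) < 22 / (3 * σ) + 1 := Nat.ceil_lt_add_one (by positivity)
  have hm0 : (0:ℝ) < m := lt_of_lt_of_le (by positivity) hm1
  have hmσ : 22 / 3 ≤ m * σ := by
    have := mul_le_mul_of_nonneg_right hm1 hσ.le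
    have e1 : 22 / (3 * σ) * σ = 22 / 3 := by field_simp
    linarith
  have hmσ' : m * σ ≤ 22 / 3 + σ := by
    have := mul_le_mul_of_nonneg_right hm2.le hσ.le
    have e1 : (22 / (3 * σ) + 1) * σ = 22 / 3 + σ := by field_simp
    linarith
  set f : ℂ → ℕ := fun y => ⌊(m:ℝ) * ((y.arg + Real.pi) / (2 * Real.pi))⌋₊ with hf
  have hπ := Real.pi_pos
  have hfr : ∀ y ∈ X, f y ∈ Finset.range (m + 1) := by
    intro y _
    rw [Finset.mem_range, Nat.lt_succ_iff]
    have h1 : (y.arg + Real.pi) / (2 * Real.pi) ≤ 1 := by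
      rw [div_le_one (by positivity)]
      have := Complex.arg_le_pi y
      linarith
    have h2 : (m:ℝ) * ((y.arg + Real.pi) / (2 * Real.pi)) ≤ m := by nlinarith
    have h3 := Nat.floor_le_floor h2
    rwa [Nat.floor_natCast] at h3
  have hcard : (Finset.range (m + 1)).card • ((X.card : ℝ) * σ / 10) ≤ (X.card : ℝ) := by
    rw [Finset.card_range, nsmul_eq_mul]
    push_cast
    have h1 : ((m:ℝ) + 1) * σ ≤ 10 := by nlinarith
    have h2 : ((m:ℝ) + 1) * (X.card * σ / 10) = X.card * (((m:ℝ) + 1) * σ / 10) := by ring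
    rw [h2]
    nlinarith
  obtain ⟨c, _, hc⟩ := Finset.exists_le_card_fiber_of_nsmul_le_card_of_maps_to hfr
    (Finset.nonempty_range_iff.2 (by omega)) hcard
  have hpos : (0:ℝ) < X.card * σ / 10 := by positivity
  have hne : (X.filter fun y => f y = c).Nonempty := by
    rw [← Finset.card_pos]
    have := lt_of_lt_of_le hpos hc
    exact_mod_cast this
  obtain ⟨y', hy'⟩ := hne
  rw [Finset.mem_filter] at hy'
  have hnorm : ∀ y ∈ X, |‖y‖ - 1| ≤ T := by
    intro y hy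
    have h1 := abs_le.1 (h.ann y hy)
    have h2 := norm_nonneg y
    have hT0 : 0 ≤ T := le_trans (abs_nonneg _) (h.ann y hy)
    rw [abs_le]
    constructor
    · by_contra hcon
      push Not at hcon
      have h3 : ‖y‖ < 1 - T := by linarith
      nlinarith
    · by_contra hcon
      push Not at hcon
      have h3 : 1 + T < ‖y‖ := by linarith
      nlinarith
  have hsub : (X.filter fun y => f y = c) ⊆ ball X y' σ := by
    intro y hy
    rw [Finset.mem_filter] at hy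
    rw [mem_ball]
    refine ⟨hy.1, ?_⟩
    have hfe : f y = f y' := by rw [hy.2, hy'.2]
    -- arguments are close
    have harg : |y.arg - y'.arg| * m ≤ 2 * Real.pi := by
      set u : ℝ := (m:ℝ) * ((y.arg + Real.pi) / (2 * Real.pi)) with hu
      set v : ℝ := (m:ℝ) * ((y'.arg + Real.pi) / (2 * Real.pi)) with hv
      have hu0 : 0 ≤ u := by
        have := Complex.neg_pi_lt_arg y
        have : 0 ≤ (y.arg + Real.pi) := by linarith
        positivity
      have hv0 : 0 ≤ v := by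
        have := Complex.neg_pi_lt_arg y'
        have : 0 ≤ (y'.arg + Real.pi) := by linarith
        positivity
      have h1 := Nat.floor_le hu0
      have h2 := Nat.lt_floor_add_one u
      have h3 := Nat.floor_le hv0
      have h4 := Nat.lt_floor_add_one v
      have h5 : (⌊u⌋₊ : ℝ) = ⌊v⌋₊ := by
        have : ⌊u⌋₊ = ⌊v⌋₊ := hfe
        rw [this]
      have h6 : |u - v| ≤ 1 := by
        rw [abs_le]; constructor <;> linarith
      have h7 : u - v = (y.arg - y'.arg) * m / (2 * Real.pi) := by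
        rw [hu, hv]; ring
      rw [h7, abs_div, abs_mul, abs_of_pos (show (0:ℝ) < 2 * Real.pi by positivity),
        abs_of_pos hm0, div_le_one (by positivity)] at h6
      exact h6
    have harg' : |y.arg - y'.arg| ≤ 43 / 50 * σ := by
      have hπ2 := Real.pi_lt_d2
      have h1 : |y.arg - y'.arg| * m ≤ (43 / 50 * σ) * m := by
        have : (43 / 50 * σ) * m = 43 / 50 * (m * σ) := by ring
        rw [this]
        nlinarith
      exact le_of_mul_le_mul_right h1 hm0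
    have hny := abs_le.1 (hnorm y hy.1)
    have hny' := abs_le.1 (hnorm y' hy'.1)
    have hdiff : |‖y‖ - ‖y'‖| ≤ σ / 10 := by
      rw [abs_le]; constructor <;> linarith
    have hny'' : ‖y'‖ ≤ 41 / 40 := by
      have h1 := (abs_le.1 (h.ann y' hy'.1)).2
      by_contra hcon
      push Not at hcon
      nlinarith [norm_nonneg y']
    calc dist y y' ≤ |‖y‖ - ‖y'‖| + ‖y'‖ * |y.arg - y'.arg| := dist_polar_le y y'
      _ ≤ σ / 10 + 41 / 40 * (43 / 50 * σ) := by gcongr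
      _ ≤ σ := by nlinarith
  have h1 : ((X.filter fun y => f y = c).card : ℝ) ≤ (ball X y' σ).card := by
    exact_mod_cast Finset.card_le_card hsub
  have h2 := cnt_le h.toSys hy'.1 hx hσ.le
  linarith

end Pool.Agent.Vps
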