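import Pool.Agent.Lib.Vps.Defs

/-!
# Ranks of consecutive distances
-/

open Finset
open scoped ComplexConjugate

namespace Pool.Agent.Vps

/-- PROOF. For `d ∈ Dset X` let `c(d) = card {z ∈ Y | dist x z = d} ≤ 2`. `∑ c(d) ≥ card Y - 1`
(all of `Y \ {x}`), so `∑ (2 - c(d)) ≤ 2 D - card Y + 1 ≤ e + card X - card Y`, and the `d` of the
left hand side have `2 - c(d) ≥ 1`. -/
theorem badcount {X Y : Finset ℂ} {e : ℝ} (h : Sys X e) (hYX : Y ⊆ X) {x : ℂ} (hx : x ∈ X) :
    (((Dset X).filter fun d => (Y.filter fun z => dist x z = d).card ≤ 1).card : ℝ) ≤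
      e + ((X \ Y).card : ℝ) := by
  classical
  set B := (Dset X).filter fun d => (Y.filter fun z => dist x z = d).card ≤ 1 with hB
  have hc2 : ∀ d ∈ Dset X, (Y.filter fun z => dist x z = d).card ≤ 2 := by
    intro d hd
    refine le_trans (Finset.card_le_card ?_) (h.valid x hx d)
    intro z hz
    rw [Finset.mem_filter] at hz ⊢
    refine ⟨hYX hz.1, ?_, hz.2⟩
    rintro rfl
    rw [mem_Dset] at hd
    obtain ⟨a, _, b, _, hab, hd⟩ := hd
    have h0 := hz.2
    rw [dist_self] at h0
    rw [← h0] at hd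
    exact hab (dist_eq_zero.mp hd)
  have hfib : (Y.erase x).card ≤ ∑ d ∈ Dset X, (Y.filter fun z => dist x z = d).card := by
    rw [Finset.card_eq_sum_card_fiberwise (f := fun z => dist x z) (t := Dset X)]
    · refine Finset.sum_le_sum fun d _ => Finset.card_le_card ?_
      exact Finset.filter_subset_filter _ (Finset.erase_subset _ _)
    · intro z hz
      rw [Finset.mem_coe, Finset.mem_erase] at hz
      exact dist_mem_Dset hx (hYX hz.2) (Ne.symm hz.1)
  have hYc : Y.card ≤ (Y.erase x).card + 1 := by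
    by_cases hxY : x ∈ Y
    · rw [Finset.card_erase_add_one hxY]
    · rw [Finset.erase_eq_of_notMem hxY]; omega
  have hsum : ∑ d ∈ Dset X, (Y.filter fun z => dist x z = d).card + B.card ≤ 2 * (Dset X).card := by
    rw [hB, Finset.card_filter, ← Finset.sum_add_distrib, mul_comm, ← smul_eq_mul,
      ← Finset.sum_const]
    refine Finset.sum_le_sum fun d hd => ?_
    have h2 := hc2 d hd
    by_cases h1 : (Y.filter fun z => dist x z = d).card ≤ 1
    · rw [if_pos h1]; omega
    · rw [if_neg h1]; omega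
  have hsd : (X \ Y).card + Y.card = X.card := Finset.card_sdiff_add_card_eq_card hYX
  have h1 : (Y.card : ℝ) ≤ ((Y.erase x).card : ℝ) + 1 := by exact_mod_cast hYc
  have h2 : ((Y.erase x).card : ℝ) ≤ ((∑ d ∈ Dset X, (Y.filter fun z => dist x z = d).card : ℕ) : ℝ) := by
    exact_mod_cast hfib
  have h3 : ((∑ d ∈ Dset X, (Y.filter fun z => dist x z = d).card : ℕ) : ℝ) + (B.card : ℝ) ≤
      2 * ((Dset X).card : ℝ) := by exact_mod_cast hsum
  have h4 : ((X \ Y).card : ℝ) + (Y.card : ℝ) = (X.card : ℝ) := by exact_mod_cast hsd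
  have h5 := h.defect
  linarith

namespace RankAux

theorem exists_between {S : Finset ℝ} {a b : ℝ} (hab : a < b) (hb : b ∈ S)
    (hne : (S.filter fun d => d ≤ b).card ≠ (S.filter fun d => d ≤ a).card + 1) :
    ∃ d ∈ S, a < d ∧ d < b := by
  by_contra hcon
  push Not at hcon
  apply hne
  have h1 : (S.filter fun d => d ≤ b) = insert b (S.filter fun d => d ≤ a) := by
    ext d
    rw [Finset.mem_insert, Finset.mem_filter, Finset.mem_filter]
    constructor
    · rintro ⟨hd, hdb⟩
      rcases le_or_gt d a with hda | hda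
      · exact Or.inr ⟨hd, hda⟩
      · exact Or.inl (le_antisymm hdb (hcon d hd hda))
    · rintro (rfl | ⟨hd, hda⟩)
      · exact ⟨hb, le_refl _⟩
      · exact ⟨hd, hda.trans hab.le⟩
  rw [h1, Finset.card_insert_of_notMem]
  rw [Finset.mem_filter]
  rintro ⟨_, h⟩
  exact absurd h (not_le.mpr hab)

theorem count {S B : Finset ℝ} {J : Finset ℕ} {a b : ℕ → ℝ} (hab : ∀ j ∈ J, a j < b j)
    (hbS : ∀ j ∈ J, b j ∈ S)
    (hne : ∀ j ∈ J, (S.filter fun d => d ≤ b j).card ≠ (S.filter fun d => d ≤ a j).card + 1)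
    (hB : ∀ j ∈ J, ∀ d ∈ S, a j < d → d < b j → d ∈ B)
    (hdis : ∀ i ∈ J, ∀ j ∈ J, i < j → b i ≤ a j ∨ b j ≤ a i) : J.card ≤ B.card := by
  choose! f hf using fun j (hj : j ∈ J) => exists_between (hab j hj) (hbS j hj) (hne j hj)
  refine Finset.card_le_card_of_injOn f ?_ ?_
  · intro j hj
    exact hB j hj _ (hf j hj).1 (hf j hj).2.1 (hf j hj).2.2
  · intro i hi j hj hij
    by_contra hne'
    have key : ∀ i ∈ J, ∀ j ∈ J, f i = f j → i < j → False := by
      intro i hi j hj hij hlt
      have h1 := hf i hi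
      have h2 := hf j hj
      rcases hdis i hi j hj hlt with h | h
      · linarith [h1.2.2, h2.2.1]
      · linarith [h1.2.1, h2.2.2]
    rcases lt_or_gt_of_ne hne' with hlt | hlt
    · exact key i hi j hj hij hlt
    · exact key j hj i hi hij.symm hlt

end RankAux

/-- PROOF. For such a `j` the rank increases by at least one, and not by exactly one, so there
is `d ∈ Dset X` with `dist x (p j) < d < dist x (p (j + 1))`; it is one of the `d` of `badcount` by
`hside`, and different `j` give different `d`. -/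
theorem rank_inc {X Y : Finset ℂ} {e : ℝ} (h : Sys X e) (hYX : Y ⊆ X) {x : ℂ} (hx : x ∈ X)
    {p : ℕ → ℂ} {m : ℕ} (hp : ∀ i < m, p i ∈ Y) (hpx : ∀ i < m, p i ≠ x)
    (hmono : ∀ i j, i < j → j < m → dist x (p i) < dist x (p j))
    (hside : ∀ j, j + 1 < m → ∀ d, dist x (p j) < d → d < dist x (p (j + 1)) →
      (Y.filter fun z => dist x z = d).card ≤ 1) :
    (((range (m - 1)).filter fun j => R X x (p (j + 1)) ≠ R X x (p j) + 1).card : ℝ) ≤
      e + ((X \ Y).card : ℝ) := by
  refine le_trans ?_ (badcount h hYX hx)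
  have hmem : ∀ j ∈ (range (m - 1)).filter fun j => R X x (p (j + 1)) ≠ R X x (p j) + 1,
      j + 1 < m := by
    intro j hj
    rw [Finset.mem_filter, Finset.mem_range] at hj
    omega
  have := RankAux.count (S := Dset X)
    (B := (Dset X).filter fun d => (Y.filter fun z => dist x z = d).card ≤ 1)
    (J := (range (m - 1)).filter fun j => R X x (p (j + 1)) ≠ R X x (p j) + 1)
    (a := fun j => dist x (p j)) (b := fun j => dist x (p (j + 1)))
    (fun j hj => hmono j (j + 1) (Nat.lt_succ_self j) (hmem j hj))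
    (fun j hj => dist_mem_Dset hx (hYX (hp _ (hmem j hj))) (Ne.symm (hpx _ (hmem j hj))))
    (fun j hj => (Finset.mem_filter.mp hj).2)
    (fun j hj d hd h1 h2 => Finset.mem_filter.mpr ⟨hd, hside j (hmem j hj) d h1 h2⟩)
    (fun i hi j hj hij => by
      left
      rcases Nat.lt_or_ge (i + 1) j with hlt | hge
      · exact (hmono (i + 1) j hlt (lt_trans (Nat.lt_succ_self j) (hmem j hj))).le
      · have : i + 1 = j := by omega
        simp only [this]; exact le_refl _)
  exact_mod_cast this

/-- PROOF: as `rank_inc`. -/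
theorem rank_dec {X Y : Finset ℂ} {e : ℝ} (h : Sys X e) (hYX : Y ⊆ X) {x : ℂ} (hx : x ∈ X)
    {p : ℕ → ℂ} {m : ℕ} (hp : ∀ i < m, p i ∈ Y) (hpx : ∀ i < m, p i ≠ x)
    (hmono : ∀ i j, i < j → j < m → dist x (p j) < dist x (p i))
    (hside : ∀ j, j + 1 < m → ∀ d, dist x (p (j + 1)) < d → d < dist x (p j) →
      (Y.filter fun z => dist x z = d).card ≤ 1) :
    (((range (m - 1)).filter fun j => R X x (p j) ≠ R X x (p (j + 1)) + 1).card : ℝ) ≤
      e + ((X \ Y).card : ℝ) := by
  refine le_trans ?_ (badcount h hYX hx)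
  have hmem : ∀ j ∈ (range (m - 1)).filter fun j => R X x (p j) ≠ R X x (p (j + 1)) + 1,
      j + 1 < m := by
    intro j hj
    rw [Finset.mem_filter, Finset.mem_range] at hj
    omega
  have := RankAux.count (S := Dset X)
    (B := (Dset X).filter fun d => (Y.filter fun z => dist x z = d).card ≤ 1)
    (J := (range (m - 1)).filter fun j => R X x (p j) ≠ R X x (p (j + 1)) + 1)
    (a := fun j => dist x (p (j + 1))) (b := fun j => dist x (p j))
    (fun j hj => hmono j (j + 1) (Nat.lt_succ_self j) (hmem j hj))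
    (fun j hj => dist_mem_Dset hx (hYX (hp _ (lt_trans (Nat.lt_succ_self j) (hmem j hj))))
      (Ne.symm (hpx _ (lt_trans (Nat.lt_succ_self j) (hmem j hj)))))
    (fun j hj => (Finset.mem_filter.mp hj).2)
    (fun j hj d hd h1 h2 => Finset.mem_filter.mpr ⟨hd, hside j (hmem j hj) d h1 h2⟩)
    (fun i hi j hj hij => by
      right
      rcases Nat.lt_or_ge (i + 1) j with hlt | hge
      · exact (hmono (i + 1) j hlt (lt_trans (Nat.lt_succ_self j) (hmem j hj))).le
      · have : i + 1 = j := by omega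
        simp only [this]; exact le_refl _)
  exact_mod_cast this

end Pool.Agent.Vps
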