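import Pool.Agent.Lib.Vps.Psi

/-!
# The window around a sibling point of the same cluster
-/

open Finset
open scoped ComplexConjugate

namespace Pool.Agent.Vps

namespace AccSib

/-- Norm bounds for `x0` near the unit circle. -/
theorem normsq_bounds {x0 : ℂ} {T : ℝ} (hT : T ≤ 1 / 10 ^ 8) (h0 : |‖x0‖ ^ 2 - 1| ≤ T) :
    999 / 1000 ≤ ‖x0‖ ^ 2 ∧ ‖x0‖ ^ 2 ≤ 1 + 1 / 10 ^ 8 ∧ ‖x0‖ ≤ 1001 / 1000 ∧ x0 ≠ 0 := by
  have h1 := abs_le.1 h0
  have h2 : 999 / 1000 ≤ ‖x0‖ ^ 2 := by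
    norm_num at hT ⊢
    linarith [h1.1]
  have h3 : ‖x0‖ ^ 2 ≤ 1 + 1 / 10 ^ 8 := by linarith [h1.2]
  refine ⟨h2, h3, ?_, ?_⟩
  · have h4 : ‖x0‖ ^ 2 ≤ (1001 / 1000 : ℝ) ^ 2 := h3.trans (by norm_num)
    exact le_of_sq_le_sq' h4 (by norm_num)
  · rintro rfl
    norm_num at h2
where
  le_of_sq_le_sq' {a b : ℝ} (h : a ^ 2 ≤ b ^ 2) (hb : 0 ≤ b) : a ≤ b := by
    by_contra hc
    push Not at hc
    nlinarith

theorem le_of_sq_le_sq {a b : ℝ} (h : a ^ 2 ≤ b ^ 2) (hb : 0 ≤ b) : a ≤ b := by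
  by_contra hc
  push Not at hc
  nlinarith

theorem abs_re_le {x0 v : ℂ} (h : ‖x0‖ ≤ 1001 / 1000) :
    |(v * conj x0).re| ≤ ‖v‖ * (1001 / 1000) := by
  refine (Complex.abs_re_le_norm _).trans ?_
  rw [norm_mul, Complex.norm_conj]
  exact mul_le_mul_of_nonneg_left h (norm_nonneg _)

theorem abs_im_le {x0 v : ℂ} (h : ‖x0‖ ≤ 1001 / 1000) :
    |(v * conj x0).im| ≤ ‖v‖ * (1001 / 1000) := by
  refine (Complex.abs_im_le_norm _).trans ?_
  rw [norm_mul, Complex.norm_conj]
  exact mul_le_mul_of_nonneg_left h (norm_nonneg _)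

theorem key_geo {x0 x x' y : ℂ} {T D : ℝ} (hT : T ≤ 1 / 10 ^ 8) (h0 : |‖x0‖ ^ 2 - 1| ≤ T)
    (hD : 0 < D) (hD1 : 0 < dist x x') (hn : |((x - y) * conj x0).re| ≤ D / 50)
    (hn' : |((x' - y) * conj x0).re| ≤ D / 50) (ht : 44 / 100 * D ≤ ((y - x) * conj x0).im)
    (htv : dist x x' / 10 < ((x - x') * conj x0).im) :
    D * dist x x' / 25 ≤ dist x' y ^ 2 - dist x y ^ 2 := by
  obtain ⟨hb1, hb2, hb3, hne⟩ := normsq_bounds hT h0
  have h1 := dist_sq_sub x x' y
  rw [re_mul_conj_frame hne] at h1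
  have hv := abs_re_le (v := x - x') hb3
  rw [← Complex.dist_eq] at hv
  set d := dist x x' with hd
  set nv := ((x - x') * conj x0).re with hnv
  set tv := ((x - x') * conj x0).im with htv'
  have hnu : ((x + x' - 2 * y) * conj x0).re
      = ((x - y) * conj x0).re + ((x' - y) * conj x0).re := by
    have : (x + x' - 2 * y) = (x - y) + (x' - y) := by ring
    rw [this, add_mul, Complex.add_re]
  have htu : ((x + x' - 2 * y) * conj x0).im
      = -2 * ((y - x) * conj x0).im - tv := by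
    have : (x + x' - 2 * y) = -(y - x) + -(y - x) + -(x - x') := by ring
    rw [this, add_mul, add_mul, neg_mul, neg_mul, Complex.add_im, Complex.add_im, Complex.neg_im,
      Complex.neg_im]
    ring
  rw [hnu, htu] at h1
  set n1 := ((x - y) * conj x0).re
  set n2 := ((x' - y) * conj x0).re
  set t1 := ((y - x) * conj x0).im
  have hpos : (0 : ℝ) < ‖x0‖ ^ 2 := by linarith
  have hn12 : |n1 + n2| ≤ D / 25 := by
    refine (abs_add_le _ _).trans ?_
    linarith
  have h2 : nv * (n1 + n2) ≤ d * (1001 / 1000) * (D / 25) := by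
    refine (le_abs_self _).trans ?_
    rw [abs_mul]
    exact mul_le_mul hv hn12 (abs_nonneg _) (by positivity)
  have h3 : tv * (-2 * t1 - tv) ≤ -(d / 10 * (88 / 100 * D)) := by
    have h4 : 88 / 100 * D ≤ 2 * t1 + tv := by linarith
    have h5 : d / 10 * (88 / 100 * D) ≤ tv * (2 * t1 + tv) :=
      mul_le_mul htv.le h4 (by positivity) (by linarith)
    linarith
  have h6 : (nv * (n1 + n2) + tv * (-2 * t1 - tv)) / ‖x0‖ ^ 2 ≤ -(D * d / 25) := by
    rw [div_le_iff₀ hpos]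
    have h7 : D * d / 25 * ‖x0‖ ^ 2 ≤ D * d / 25 * (1 + 1 / 10 ^ 8) := by gcongr
    have hDd : 0 < D * d := by positivity
    norm_num at h7
    nlinarith
  linarith

/-- Distances squared: `|a^2 - b^2| ≤ 2 D D1` if `|a - b| ≤ D1`, `a, b ≤ D`. -/
theorem abs_sq_sub_le {a b D D1 : ℝ} (ha0 : 0 ≤ a) (hb0 : 0 ≤ b) (ha : a ≤ D) (hb : b ≤ D)
    (h : |a - b| ≤ D1) : |a ^ 2 - b ^ 2| ≤ 2 * (D * D1) := by
  have h1 : a ^ 2 - b ^ 2 = (a - b) * (a + b) := by ring
  rw [h1, abs_mul, abs_of_nonneg (by linarith : 0 ≤ a + b)]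
  calc |a - b| * (a + b) ≤ D1 * (2 * D) :=
        mul_le_mul h (by linarith) (by linarith) ((abs_nonneg _).trans h)
    _ = 2 * (D * D1) := by ring

end AccSib

open AccSib in
/-- `C = ball X x0 s` is isolated (`iso`), of diameter `D = dist xm xp`, flat (`hflat`), and `xm` is
its left end (`ht`). `P = ball X xm (D / 20)`, `x, x' ∈ P` at maximal distance `D1 > 0`,
`v = x - x'`. With `n(z) = Re (z conj x0)`, `t(z) = Im (z conj x0)`.

PROOF. Suppose `t(v) ≥ D1 / 10`. `D ≤ 2 s`, `D1 ≤ D / 10`, `| ‖x0‖^2 - 1 | ≤ T`. Apply `window_count`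
with the roles of `x` and `x'` exchanged (centre `r2 = dist x xp ^ 2 ∈ [0.9 D^2, D^2]`,
`w = 5 D D1 ≤ D^2 / 2`), `W = ball X xp D1`, `R = ∅`, `a = D D1 / 25`.
`y ∉ C`: then `dist y x0 > 4 s`, so `dist x y, dist x' y > 3 s ≥ 1.5 D` and both squares are
`≥ r2 + w`. `y ∈ C` in the window: `| dist x y ^ 2 - dist x' y ^ 2 | ≤ 2 D D1` so
`dist x y ^ 2 ≥ r2 - 7 D D1 ≥ 0.2 D^2`; by flatness and `norm_sq_frame`
`|t(y - x)| ≥ 0.44 D`. All `y ∈ C` have `t(y) ≥ t(xp) - (1 + T) D ≥ t(xm) - 0.002 D`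
(`t(xp) - t(xm) ≥ 0.999 D`), and `t(x) ≤ t(xm) + 0.051 D`, so `t(y - x) ≥ 0.44 D`. Hence
`dist x' y ^ 2 - dist x y ^ 2 = - Re (v conj (x + x' - 2 y))
= - (n(v) n(x + x' - 2 y) + t(v) t(x + x' - 2 y)) / ‖x0‖^2` with
`t(x + x' - 2 y) = - 2 t(y - x) - t(v) ≤ - 0.88 D`, `|n(x + x' - 2 y)| ≤ 0.04 D`, `|n(v)| ≤ 1.001 D1`:
it is `≥ (0.088 - 0.041) D D1 * 0.99 ≥ D D1 / 25`.
`y ∈ W`: `y ∈ C` by isolation, the two squares are within `2 D D1`, `4 D D1` of `r2`.
So `card W * D D1 / 25 ≤ 10 D D1 e`, `card W ≤ 250 e`; but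
`card W ≥ card (ball X x D1) - e ≥ card P - e` (`P ⊆ ball X x D1`). -/
theorem acc_sib {X : Finset ℂ} {e T : ℝ} (h : Ann X e T) {x0 : ℂ} (hx0 : x0 ∈ X) {s D : ℝ}
    (hs0 : 0 < s) (hs : s ≤ 1 / 10 ^ 8) (hT : T ≤ s / 10 ^ 8)
    (iso : ∀ y ∈ X, dist y x0 ≤ s ∨ 4 * s < dist y x0) (hD0 : 0 < D)
    (hC : ∀ x ∈ ball X x0 s, ∀ x' ∈ ball X x0 s, dist x x' ≤ D)
    (hflat : ∀ x ∈ ball X x0 s, ∀ x' ∈ ball X x0 s, |((x - x') * conj x0).re| ≤ D / 50)
    {xm xp : ℂ} (hxm : xm ∈ ball X x0 s) (hxp : xp ∈ ball X x0 s) (hmp : dist xm xp = D)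
    (ht : 0 ≤ ((xp - xm) * conj x0).im) {x x' : ℂ} (hx : x ∈ ball X xm (D / 20))
    (hx' : x' ∈ ball X xm (D / 20)) (hD1 : 0 < dist x x')
    (hmax : ∀ y ∈ ball X xm (D / 20), ∀ y' ∈ ball X xm (D / 20), dist y y' ≤ dist x x')
    (hcard : 300 * (e + 1) ≤ ((ball X xm (D / 20)).card : ℝ)) :
    ((x - x') * conj x0).im ≤ dist x x' / 10 := by
  by_contra hcon
  push Not at hcon
  have hT' : T ≤ 1 / 10 ^ 8 := by
    refine hT.trans ?_
    have : s ≤ 1 := hs.trans (by norm_num)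
    gcongr
  have h0 := h.ann x0 hx0
  obtain ⟨hb1, hb2, hb3, hne⟩ := normsq_bounds hT' h0
  have hxmX := (mem_ball.1 hxm).1
  have hxpX := (mem_ball.1 hxp).1
  have hxm0 := (mem_ball.1 hxm).2
  have hxp0 := (mem_ball.1 hxp).2
  have hxX := (mem_ball.1 hx).1
  have hxX' := (mem_ball.1 hx').1
  have hxd := (mem_ball.1 hx).2
  have hxd' := (mem_ball.1 hx').2
  have hD2s : D ≤ 2 * s := by
    rw [← hmp]
    refine (dist_triangle_right xm xp x0).trans ?_
    linarith
  have hD1D : dist x x' ≤ D / 10 := by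
    refine (dist_triangle_right x x' xm).trans ?_
    linarith
  -- points of `X` close to the cluster are in it
  have hin : ∀ z ∈ X, ∀ c ∈ ball X x0 s, dist z c ≤ D / 10 → z ∈ ball X x0 s := by
    intro z hz c hc hzc
    refine mem_ball.2 ⟨hz, ?_⟩
    rcases iso z hz with h1 | h1
    · exact h1
    · exfalso
      have h2 := (mem_ball.1 hc).2
      have h3 := dist_triangle z c x0
      linarith
  have hxC : x ∈ ball X x0 s := hin x hxX xm hxm (by linarith)
  have hxC' : x' ∈ ball X x0 s := hin x' hxX' xm hxm (by linarith)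
  set d := dist x x' with hd
  set r := dist x xp with hr
  have hr1 : 95 / 100 * D ≤ r := by
    have h1 := dist_triangle_left xm xp x
    rw [hmp] at h1
    linarith
  have hr2 : r ≤ D := hC x hxC xp hxp
  have hr0 : 0 ≤ r := dist_nonneg
  have hDD : 0 < D * D := by positivity
  have hDd : 0 < D * d := by positivity
  have hDd' : D * d ≤ D * D / 10 := by
    have := mul_le_mul_of_nonneg_left hD1D hD0.le
    linarith
  have hrsq1 : 9025 / 10000 * (D * D) ≤ r ^ 2 := by nlinarith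
  have hrsq2 : r ^ 2 ≤ D * D := by nlinarith
  -- coordinates of the end points
  have htmp : 999 / 1000 * D ≤ ((xp - xm) * conj x0).im := by
    have h1 := norm_sq_frame x0 (xp - xm)
    have h2 := hflat xp hxp xm hxm
    rw [← Complex.dist_eq, dist_comm, hmp] at h1
    have h3 : ((xp - xm) * conj x0).re ^ 2 ≤ (D / 50) ^ 2 := sq_le_sq' (by linarith [(abs_le.1 h2).1])
      (abs_le.1 h2).2
    have h4 : (999 / 1000 * D) ^ 2 ≤ ((xp - xm) * conj x0).im ^ 2 := by
      have h5 : D ^ 2 * (999 / 1000) ≤ D ^ 2 * ‖x0‖ ^ 2 := by gcongr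
      have h6 := abs_le.1 h0
      have h7 : D ^ 2 * (1 - 1 / 10 ^ 8) ≤ D ^ 2 * ‖x0‖ ^ 2 := by
        gcongr
        linarith [h6.1]
      norm_num at h7
      nlinarith
    exact AccSib.le_of_sq_le_sq h4 ht
  have hdec : ∀ a b : ℂ, ((a - b) * conj x0).im = (a * conj x0).im - (b * conj x0).im := by
    intro a b
    rw [sub_mul, Complex.sub_im]
  -- the key estimate
  have key : ∀ y ∈ ball X x0 s, r ^ 2 - 7 * (D * d) ≤ dist x y ^ 2 →
      D * d / 25 ≤ dist x' y ^ 2 - dist x y ^ 2 := by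
    intro y hy hyd
    have hn1 := hflat x hxC y hy
    have hn2 := hflat x' hxC' y hy
    refine key_geo hT' h0 hD0 hD1 hn1 hn2 ?_ hcon
    have h1 := norm_sq_frame x0 (y - x)
    rw [← Complex.dist_eq, dist_comm] at h1
    have h2 : ((y - x) * conj x0).re ^ 2 ≤ (D / 50) ^ 2 := by
      have h3 : ((y - x) * conj x0).re = -((x - y) * conj x0).re := by
        rw [← Complex.neg_re, ← neg_mul, neg_sub]
      rw [h3, neg_sq]
      exact sq_le_sq' (by linarith [(abs_le.1 hn1).1]) (abs_le.1 hn1).2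
    have h4 : 2025 / 10000 * (D * D) ≤ dist x y ^ 2 := by linarith
    have h5 : dist x y ^ 2 * (999 / 1000) ≤ dist x y ^ 2 * ‖x0‖ ^ 2 := by gcongr
    have h6 : (44 / 100 * D) ^ 2 ≤ ((y - x) * conj x0).im ^ 2 := by
      have h7 : (44 / 100 * D) ^ 2 = 1936 / 10000 * (D * D) := by ring
      have h8 : (D / 50) ^ 2 = 4 / 10000 * (D * D) := by ring
      rw [h7]
      rw [h8] at h2
      linarith
    -- sign
    have h7 := hdec y x
    have h8 := hdec xp xm
    have h9 := abs_im_le (v := xp - y) hb3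
    rw [← Complex.dist_eq, hdec] at h9
    have h10 : dist xp y ≤ D := hC xp hxp y hy
    have h11 := abs_im_le (v := x - xm) hb3
    rw [← Complex.dist_eq, hdec] at h11
    have h12 := (abs_le.1 h9).2
    have h13 := (abs_le.1 h11).2
    have h14 : -(44 / 100 * D) < ((y - x) * conj x0).im := by
      rw [h7]
      linarith
    by_contra hlt
    push Not at hlt
    have h15 := sq_lt_sq' h14 hlt
    linarith
  -- difference of squared distances
  have hdiff : ∀ y ∈ ball X x0 s, |dist x y ^ 2 - dist x' y ^ 2| ≤ 2 * (D * d) := by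
    intro y hy
    refine abs_sq_sub_le dist_nonneg dist_nonneg (hC x hxC y hy) (hC x' hxC' y hy) ?_
    exact abs_dist_sub_le x x' y
  have hwc := window_count h.toSys (x := x') (x' := x) hxX' hxX (r2 := r ^ 2)
    (w := 5 * (D * d)) (a := D * d / 25) (b := 0) (by positivity) (by linarith) le_rfl
    (ball X xp d) ∅ ball_subset (Finset.empty_subset _) (Finset.disjoint_empty_right _)
    (by
      intro y hy
      have hy1 := (mem_ball.1 hy).1
      have hy2 := (mem_ball.1 hy).2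
      have hyC : y ∈ ball X x0 s := hin y hy1 xp hxp (by linarith)
      have h1 : |dist x y ^ 2 - r ^ 2| ≤ 2 * (D * d) := by
        refine abs_sq_sub_le dist_nonneg dist_nonneg (hC x hxC y hyC) hr2 ?_
        have h2 := abs_dist_sub_le y xp x
        rw [dist_comm y x, dist_comm xp x] at h2
        exact h2.trans hy2
      have h2 := hdiff y hyC
      have h3 := abs_le.1 h1
      have h4 := abs_le.1 h2
      refine ⟨?_, ?_, ?_⟩
      · rw [abs_le]; constructor <;> linarith [h3.1, h3.2, h4.1, h4.2]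
      · rw [abs_le]; constructor <;> linarith [h3.1, h3.2]
      · exact key y hyC (by linarith [h3.1]))
    (by
      intro y hy
      exact absurd hy (Finset.notMem_empty y))
    (by
      intro y hyX _
      rcases iso y hyX with h1 | h1
      · have hyC : y ∈ ball X x0 s := mem_ball.2 ⟨hyX, h1⟩
        by_cases h2 : dist x' y ^ 2 ≤ r ^ 2 - 5 * (D * d) ∧ dist x y ^ 2 ≤ r ^ 2 - 5 * (D * d)
        · exact Or.inl h2
        · refine Or.inr (Or.inr ?_)
          have h3 := abs_le.1 (hdiff y hyC)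
          have h4 : r ^ 2 - 7 * (D * d) ≤ dist x y ^ 2 := by
            by_contra h5
            push Not at h5
            exact h2 ⟨by linarith [h3.1], by linarith⟩
          have := key y hyC h4
          linarith
      · refine Or.inr (Or.inl ?_)
        have hbig : ∀ z ∈ ball X x0 s, r ^ 2 + 5 * (D * d) ≤ dist z y ^ 2 := by
          intro z hz
          have h2 := (mem_ball.1 hz).2
          have h3 : 3 / 2 * D ≤ dist z y := by
            have h4 := dist_triangle y z x0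
            rw [dist_comm y z] at h4
            linarith
          nlinarith
        exact ⟨hbig x' hxC', hbig x hxC⟩)
  rw [Finset.card_empty] at hwc
  have hW : ((ball X xp d).card : ℝ) ≤ 250 * e := by
    have h1 : ((ball X xp d).card : ℝ) * (D * d / 25) ≤ 250 * e * (D * d / 25) := by
      refine hwc.trans (le_of_eq ?_)
      push_cast
      ring
    exact le_of_mul_le_mul_right h1 (by positivity)
  have hcnt := cnt_le h.toSys hxX hxpX (ρ := d) hD1.le
  have hsub : (ball X xm (D / 20)).card ≤ (ball X x d).card := by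
    refine Finset.card_le_card fun y hy => ?_
    exact mem_ball.2 ⟨(mem_ball.1 hy).1, hmax y hy x hx⟩
  have hsub' : ((ball X xm (D / 20)).card : ℝ) ≤ (ball X x d).card := by exact_mod_cast hsub
  have he := h.nonneg
  linarith

end Pool.Agent.Vps
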