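import Pool.Agent.Lib.Vps.Annulus
import Pool.Agent.Lib.Vps.AccSib

/-!
# The window around a far point
-/

open Finset
open scoped ComplexConjugate

namespace Pool.Agent.Vps

namespace AccFar

open AccSib

/-- Scalar products with a point of a tiny ball around `x0`. -/
theorem re_ball {x0 x : ℂ} {s T : ℝ} (hs : s ≤ 1 / 10 ^ 8) (hT : T ≤ 1 / 10 ^ 8)
    (h0 : |‖x0‖ ^ 2 - 1| ≤ T) (hx : dist x x0 ≤ s) :
    99 / 100 ≤ (x * conj x0).re ∧ |(x * conj x0).im| ≤ 1 / 100 := by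
  obtain ⟨hb1, hb2, hb3, hne⟩ := normsq_bounds hT h0
  have h1 : x * conj x0 = x0 * conj x0 + (x - x0) * conj x0 := by ring
  have h2 : x0 * conj x0 = ((‖x0‖ ^ 2 : ℝ) : ℂ) := by
    rw [Complex.mul_conj, Complex.normSq_eq_norm_sq]
  have h3 := abs_re_le (v := x - x0) hb3
  have h4 := abs_im_le (v := x - x0) hb3
  rw [← Complex.dist_eq] at h3 h4
  have h5 : dist x x0 * (1001 / 1000) ≤ 1 / 10 ^ 8 * (1001 / 1000) := by
    have : dist x x0 ≤ 1 / 10 ^ 8 := hx.trans hs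
    gcongr
  norm_num at h5
  have h6 := abs_le.1 h3
  have h7 := abs_le.1 h4
  have h8 := abs_le.1 h0
  norm_num at hT
  rw [h1, h2, Complex.add_re, Complex.add_im, Complex.ofReal_re, Complex.ofReal_im]
  refine ⟨by linarith [h6.1, h8.1], ?_⟩
  rw [zero_add]
  linarith

/-- Distances between points of the annulus. -/
theorem dist_le {x y : ℂ} {T : ℝ} (hT : T ≤ 1 / 10 ^ 8) (hx : |‖x‖ ^ 2 - 1| ≤ T)
    (hy : |‖y‖ ^ 2 - 1| ≤ T) : dist x y ≤ 201 / 100 := by
  obtain ⟨_, _, h1, _⟩ := normsq_bounds hT hx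
  obtain ⟨_, _, h2, _⟩ := normsq_bounds hT hy
  rw [Complex.dist_eq]
  refine (norm_sub_le x y).trans ?_
  linarith

/-- The key estimate. -/
theorem far_geo {x0 x x' y : ℂ} {s T : ℝ} (hs : s ≤ 1 / 10 ^ 8) (hT : T ≤ 1 / 10 ^ 8)
    (h0 : |‖x0‖ ^ 2 - 1| ≤ T) (hy0 : |‖y‖ ^ 2 - 1| ≤ T) (hx0 : |‖x‖ ^ 2 - 1| ≤ T)
    (hx : dist x x0 ≤ s) (hx' : dist x' x0 ≤ s) (hD1 : 0 < dist x x')
    (htv : |((x - x') * conj x0).im| ≤ dist x x' / 10)
    (hnv : 0 ≤ ((x - x') * conj x0).re) (hy : 189 / 100 ≤ dist x y ^ 2) :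
    16 / 10 * dist x x' ≤ dist x y ^ 2 - dist x' y ^ 2 := by
  obtain ⟨hb1, hb2, hb3, hne⟩ := normsq_bounds hT h0
  obtain ⟨hc1, hc2, hc3, _⟩ := normsq_bounds hT hy0
  have h1 := dist_sq_sub x x' y
  rw [re_mul_conj_frame hne] at h1
  obtain ⟨hx1, hx2⟩ := re_ball hs hT h0 hx
  obtain ⟨hx3, hx4⟩ := re_ball hs hT h0 hx'
  -- n(y)
  have hny : (y * conj x0).re ≤ 7 / 100 := by
    have h2 := dist_sq_eq x0 y
    have h3 : dist x y ≤ dist x0 y + 1 / 10 ^ 8 := by
      have := dist_triangle x x0 y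
      linarith
    have h4 : dist x0 y ≤ 201 / 100 := dist_le hT h0 hy0
    have h5 : dist x y ^ 2 ≤ (dist x0 y + 1 / 10 ^ 8) ^ 2 := by
      have := dist_nonneg (x := x) (y := y)
      gcongr
    have h6 : (0:ℝ) ≤ dist x0 y := dist_nonneg
    norm_num at h5 hT
    have h7 := abs_le.1 h0
    have h8 := abs_le.1 hy0
    nlinarith
  have hty : |(y * conj x0).im| ≤ 1003 / 1000 := by
    refine (abs_im_le hb3).trans ?_
    linarith
  have hnu : ((x + x' - 2 * y) * conj x0).re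
      = (x * conj x0).re + (x' * conj x0).re - 2 * (y * conj x0).re := by
    have : (x + x' - 2 * y) * conj x0 = x * conj x0 + x' * conj x0 - (y * conj x0 + y * conj x0) := by
      ring
    rw [this, Complex.sub_re, Complex.add_re, Complex.add_re]
    ring
  have htu : ((x + x' - 2 * y) * conj x0).im
      = (x * conj x0).im + (x' * conj x0).im - 2 * (y * conj x0).im := by
    have : (x + x' - 2 * y) * conj x0 = x * conj x0 + x' * conj x0 - (y * conj x0 + y * conj x0) := by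
      ring
    rw [this, Complex.sub_im, Complex.add_im, Complex.add_im]
    ring
  have hnu1 : 184 / 100 ≤ ((x + x' - 2 * y) * conj x0).re := by
    rw [hnu]; linarith
  have htu1 : |((x + x' - 2 * y) * conj x0).im| ≤ 203 / 100 := by
    rw [htu]
    have h2 := abs_le.1 hx2
    have h3 := abs_le.1 hx4
    have h4 := abs_le.1 hty
    rw [abs_le]
    constructor <;> linarith [h2.1, h2.2, h3.1, h3.2, h4.1, h4.2]
  -- n(v)
  have hfr := norm_sq_frame x0 (x - x')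
  rw [← Complex.dist_eq] at hfr
  set d := dist x x' with hd
  set nv := ((x - x') * conj x0).re
  set tv := ((x - x') * conj x0).im
  set nu := ((x + x' - 2 * y) * conj x0).re
  set tu := ((x + x' - 2 * y) * conj x0).im
  have hnv1 : 99 / 100 * d ≤ nv := by
    refine AccSib.le_of_sq_le_sq ?_ hnv
    have h2 : tv ^ 2 ≤ (d / 10) ^ 2 := sq_le_sq' (by linarith [(abs_le.1 htv).1]) (abs_le.1 htv).2
    have h3 : d ^ 2 * (1 - 1 / 10 ^ 8) ≤ d ^ 2 * ‖x0‖ ^ 2 := by
      gcongr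
      linarith [(abs_le.1 h0).1]
    norm_num at h3
    have h4 : 0 ≤ d ^ 2 := sq_nonneg _
    nlinarith
  have h2 : 99 / 100 * d * (184 / 100) ≤ nv * nu :=
    mul_le_mul hnv1 hnu1 (by norm_num) hnv
  have h3 : |tv * tu| ≤ d / 10 * (203 / 100) := by
    rw [abs_mul]
    exact mul_le_mul htv htu1 (abs_nonneg _) (by positivity)
  have h4 := (abs_le.1 h3).1
  have hpos : (0 : ℝ) < ‖x0‖ ^ 2 := by linarith
  rw [h1, le_div_iff₀ hpos]
  have h5 : 16 / 10 * d * ‖x0‖ ^ 2 ≤ 16 / 10 * d * (1 + 1 / 10 ^ 8) := by gcongr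
  norm_num at h5
  linarith

end AccFar

open AccSib AccFar in
/-- `P ⊆ ball X x0 s` has diameter `D1 = dist x x' > 0`, `v = x - x'`, and `v` is almost radial.

PROOF. `exists_far` for `x` gives `y0 ∈ X` with `r2 = dist x y0 ^ 2 ≥ 1.9`. `window_count` with
`w = 10 D1`, `W = ball X y0 D1`, `R = ∅`, `a = 1.6 D1`. All distances are `≤ 2.01`, so
`| dist x y ^ 2 - dist x' y ^ 2 | ≤ 4.1 D1`. For `y ∈ X` in the window
(not both `≤ r2 - w`, not both `≥ r2 + w`) `dist x y ^ 2 ≥ r2 - 15 D1 ≥ 1.89`, so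
`dist x0 y ^ 2 ≥ 1.88`, `n(y) = (‖x0‖^2 + ‖y‖^2 - dist x0 y ^ 2) / 2 ≤ 0.07`, and
`dist x y ^ 2 - dist x' y ^ 2 = Re (v conj (x + x' - 2 y)) = 2 n(v)
- 2 (n(v) n(y) + t(v) t(y)) / ‖x0‖^2 + Re (v conj (x + x' - 2 x0))
≥ 2 * 0.99 D1 * (1 - 0.071) - 2 * 0.1 * 1.01 D1 - 2 s D1 ≥ 1.6 D1`
(`n(v)^2 = ‖v‖^2 ‖x0‖^2 - t(v)^2 ≥ (0.99 D1)^2`, by `norm_sq_frame`).
So `card W * 1.6 D1 ≤ 20 D1 e`; but
`card W ≥ card (ball X x D1) - e ≥ card P - e`. -/
theorem acc_far {X : Finset ℂ} {e T : ℝ} (h : Ann X e T) {x0 : ℂ} (hx0 : x0 ∈ X) {s : ℝ}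
    (hs0 : 0 < s) (hs : s ≤ 1 / 10 ^ 8) (hT : T ≤ s / 10 ^ 8) {P : Finset ℂ}
    (hP : P ⊆ ball X x0 s) {x x' : ℂ} (hx : x ∈ P) (hx' : x' ∈ P) (hD1 : 0 < dist x x')
    (hmax : ∀ y ∈ P, ∀ y' ∈ P, dist y y' ≤ dist x x')
    (hcard : 300 * (e + 1) ≤ (P.card : ℝ))
    (htv : |((x - x') * conj x0).im| ≤ dist x x' / 10)
    (hnv : 0 ≤ ((x - x') * conj x0).re) : False := by
  have hT' : T ≤ 1 / 10 ^ 8 := by
    refine hT.trans ?_
    have : s ≤ 1 := hs.trans (by norm_num)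
    gcongr
  have hxb := mem_ball.1 (hP hx)
  have hxb' := mem_ball.1 (hP hx')
  have h0 := h.ann x0 hx0
  have hxa := h.ann x hxb.1
  obtain ⟨y0, hy0, hfar⟩ := exists_far h (hT'.trans (by norm_num)) hxb.1
  have hd2s : dist x x' ≤ 2 / 10 ^ 8 := by
    refine (dist_triangle_right x x' x0).trans ?_
    linarith [hxb.2, hxb'.2]
  set d := dist x x' with hd
  have key : ∀ y ∈ X, 189 / 100 ≤ dist x y ^ 2 → 16 / 10 * d ≤ dist x y ^ 2 - dist x' y ^ 2 :=
    fun y hy hyd => far_geo hs hT' h0 (h.ann y hy) hxa hxb.2 hxb'.2 hD1 htv hnv hyd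
  have hdiff : ∀ y ∈ X, |dist x y ^ 2 - dist x' y ^ 2| ≤ 402 / 100 * d := by
    intro y hy
    have := abs_sq_sub_le (dist_nonneg (x := x) (y := y)) (dist_nonneg (x := x') (y := y))
      (dist_le hT' hxa (h.ann y hy)) (dist_le hT' (h.ann x' hxb'.1) (h.ann y hy))
      (abs_dist_sub_le x x' y)
    linarith
  norm_num at hd2s
  have hwc := window_count h.toSys (x := x) (x' := x') hxb.1 hxb'.1 (r2 := dist x y0 ^ 2)
    (w := 10 * d) (a := 16 / 10 * d) (b := 0) (by positivity) (by linarith) le_rfl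
    (ball X y0 d) ∅ ball_subset (Finset.empty_subset _) (Finset.disjoint_empty_right _)
    (by
      intro y hy
      have hy1 := (mem_ball.1 hy).1
      have hy2 := (mem_ball.1 hy).2
      have h1 : |dist x y ^ 2 - dist x y0 ^ 2| ≤ 402 / 100 * d := by
        have h2 := abs_dist_sub_le y y0 x
        rw [dist_comm y x, dist_comm y0 x] at h2
        have := abs_sq_sub_le (dist_nonneg (x := x) (y := y)) (dist_nonneg (x := x) (y := y0))
          (dist_le hT' hxa (h.ann y hy1)) (dist_le hT' hxa (h.ann y0 hy0)) (h2.trans hy2)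
        linarith
      have h2 := hdiff y hy1
      have h3 := abs_le.1 h1
      have h4 := abs_le.1 h2
      refine ⟨?_, ?_, ?_⟩
      · rw [abs_le]; constructor <;> linarith [h3.1, h3.2]
      · rw [abs_le]; constructor <;> linarith [h3.1, h3.2, h4.1, h4.2]
      · exact key y hy1 (by linarith [h3.1]))
    (by
      intro y hy
      exact absurd hy (Finset.notMem_empty y))
    (by
      intro y hyX _
      by_cases h2 : dist x y ^ 2 ≤ dist x y0 ^ 2 - 10 * d ∧ dist x' y ^ 2 ≤ dist x y0 ^ 2 - 10 * d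
      · exact Or.inl h2
      · refine Or.inr (Or.inr ?_)
        have h3 := abs_le.1 (hdiff y hyX)
        have h4 : 189 / 100 ≤ dist x y ^ 2 := by
          by_contra h5
          push Not at h5
          exact h2 ⟨by linarith, by linarith [h3.1]⟩
        have := key y hyX h4
        linarith)
  rw [Finset.card_empty] at hwc
  have hW : ((ball X y0 d).card : ℝ) ≤ 13 * e := by
    have h1 : ((ball X y0 d).card : ℝ) * (16 / 10 * d) ≤ 13 * e * (16 / 10 * d) := by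
      refine hwc.trans ?_
      have : 0 ≤ e * d := mul_nonneg h.nonneg hD1.le
      push_cast
      nlinarith
    exact le_of_mul_le_mul_right h1 (by positivity)
  have hcnt := cnt_le h.toSys hxb.1 hy0 (ρ := d) hD1.le
  have hsub : P.card ≤ (ball X x d).card := by
    refine Finset.card_le_card fun y hy => ?_
    exact mem_ball.2 ⟨(mem_ball.1 (hP hy)).1, hmax y hy x hx⟩
  have hsub' : (P.card : ℝ) ≤ (ball X x d).card := by exact_mod_cast hsub
  have he := h.nonneg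
  linarith

end Pool.Agent.Vps
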