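import Pool.Agent.Lib.Vps.Flat
import Pool.Agent.Lib.Vps.AccSib
import Pool.Agent.Lib.Vps.AccFar

/-!
# There are no isolated clusters
-/

open Finset
open scoped ComplexConjugate

namespace Pool.Agent.Vps

namespace Acc

/-- A pair at maximal distance. -/
theorem exists_max {S : Finset ℂ} (h : 1 < S.card) :
    ∃ a ∈ S, ∃ b ∈ S, 0 < dist a b ∧ ∀ y ∈ S, ∀ y' ∈ S, dist y y' ≤ dist a b := by
  obtain ⟨a0, ha0, b0, hb0, hab⟩ := Finset.one_lt_card.1 h
  have hne : (S ×ˢ S).Nonempty := ⟨(a0, b0), Finset.mem_product.2 ⟨ha0, hb0⟩⟩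
  obtain ⟨p, hp, hmax⟩ := Finset.exists_max_image (S ×ˢ S) (fun q => dist q.1 q.2) hne
  have hp' := Finset.mem_product.1 hp
  refine ⟨p.1, hp'.1, p.2, hp'.2, ?_, ?_⟩
  · have h1 := hmax (a0, b0) (Finset.mem_product.2 ⟨ha0, hb0⟩)
    exact (dist_pos.2 hab).trans_le h1
  · intro y hy y' hy'
    exact hmax (y, y') (Finset.mem_product.2 ⟨hy, hy'⟩)

/-- Pigeonhole: a small ball with many points. -/
theorem pigeon {X : Finset ℂ} {x0 : ℂ} {s D T : ℝ} (hT : T ≤ 1 / 10 ^ 8)
    (h0 : |‖x0‖ ^ 2 - 1| ≤ T) (hD0 : 0 < D)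
    (hC : ∀ x ∈ ball X x0 s, ∀ x' ∈ ball X x0 s, dist x x' ≤ D)
    (hflat : ∀ x ∈ ball X x0 s, ∀ x' ∈ ball X x0 s, |((x - x') * conj x0).re| ≤ D / 50)
    {xm : ℂ} (hxm : xm ∈ ball X x0 s) :
    ∃ y ∈ X, ((ball X x0 s).card : ℝ) / 81 ≤ ((ball X y (D / 20)).card : ℝ) := by
  obtain ⟨hb1, hb2, hb3, hne⟩ := AccSib.normsq_bounds hT h0
  have hdec : ∀ a b : ℂ, ((a - b) * conj x0).im = (a * conj x0).im - (b * conj x0).im := by
    intro a b
    rw [sub_mul, Complex.sub_im]
  set f : ℂ → ℕ := fun y => ⌊(((y - xm) * conj x0).im + 1001 / 1000 * D) * 40 / D⌋₊ with hf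
  have hrange : ∀ y ∈ ball X x0 s, |((y - xm) * conj x0).im| ≤ 1001 / 1000 * D := by
    intro y hy
    have h1 := AccSib.abs_im_le (v := y - xm) hb3
    rw [← Complex.dist_eq] at h1
    have h2 := hC y hy xm hxm
    linarith
  have hmaps : ∀ y ∈ ball X x0 s, f y ∈ Finset.range 81 := by
    intro y hy
    rw [Finset.mem_range]
    have h1 := abs_le.1 (hrange y hy)
    have h2 : (((y - xm) * conj x0).im + 1001 / 1000 * D) * 40 / D < 81 := by
      rw [div_lt_iff₀ hD0]
      linarith [h1.2]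
    exact (Nat.floor_lt' (by norm_num)).2 (by exact_mod_cast h2)
  obtain ⟨i, _, hi⟩ := Finset.exists_le_card_fiber_of_nsmul_le_card_of_maps_to
    (s := ball X x0 s) (t := Finset.range 81) (f := f) (M := ℝ)
    (b := ((ball X x0 s).card : ℝ) / 81) hmaps (by simp) (by
      rw [Finset.card_range, nsmul_eq_mul]
      push_cast
      linarith)
  have hcpos : 0 < ((ball X x0 s).card : ℝ) := by
    have : 0 < (ball X x0 s).card := Finset.card_pos.2 ⟨xm, hxm⟩
    exact_mod_cast this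
  have hFpos : 0 < (({y ∈ ball X x0 s | f y = i} : Finset ℂ).card : ℝ) := by
    refine lt_of_lt_of_le ?_ hi
    positivity
  have hFpos' : 0 < ({y ∈ ball X x0 s | f y = i} : Finset ℂ).card := by exact_mod_cast hFpos
  obtain ⟨y, hy⟩ := Finset.card_pos.1 hFpos'
  have hy1 := Finset.mem_filter.1 hy
  refine ⟨y, (mem_ball.1 hy1.1).1, hi.trans ?_⟩
  have : ({y ∈ ball X x0 s | f y = i} : Finset ℂ) ⊆ ball X y (D / 20) := by
    intro z hz
    have hz1 := Finset.mem_filter.1 hz
    refine mem_ball.2 ⟨(mem_ball.1 hz1.1).1, ?_⟩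
    refine AccSib.le_of_sq_le_sq ?_ (by positivity)
    have hfr := norm_sq_frame x0 (z - y)
    rw [← Complex.dist_eq] at hfr
    have hn := hflat z hz1.1 y hy1.1
    have ht : |((z - y) * conj x0).im| ≤ D / 40 := by
      have h1 := abs_le.1 (hrange z hz1.1)
      have h2 := abs_le.1 (hrange y hy1.1)
      have h3 : (0:ℝ) ≤ (((z - xm) * conj x0).im + 1001 / 1000 * D) * 40 / D := by
        apply div_nonneg _ hD0.le
        linarith [h1.1]
      have h4 : (0:ℝ) ≤ (((y - xm) * conj x0).im + 1001 / 1000 * D) * 40 / D := by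
        apply div_nonneg _ hD0.le
        linarith [h2.1]
      have h5 := Nat.floor_le h3
      have h6 := Nat.floor_le h4
      have h7 := Nat.lt_floor_add_one ((((z - xm) * conj x0).im + 1001 / 1000 * D) * 40 / D)
      have h8 := Nat.lt_floor_add_one ((((y - xm) * conj x0).im + 1001 / 1000 * D) * 40 / D)
      have h9 : (⌊(((z - xm) * conj x0).im + 1001 / 1000 * D) * 40 / D⌋₊ : ℝ) = (i : ℝ) := by
        have := hz1.2
        rw [hf] at this
        exact_mod_cast this
      have h10 : (⌊(((y - xm) * conj x0).im + 1001 / 1000 * D) * 40 / D⌋₊ : ℝ) = (i : ℝ) := by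
        have := hy1.2
        rw [hf] at this
        exact_mod_cast this
      rw [h9] at h5 h7
      rw [h10] at h6 h8
      rw [le_div_iff₀ hD0] at h5 h6
      rw [div_lt_iff₀ hD0] at h7 h8
      have e1 := hdec z y
      have e2 := hdec z xm
      have e3 := hdec y xm
      rw [abs_le]
      constructor <;> linarith
    have h1 : ((z - y) * conj x0).re ^ 2 ≤ (D / 50) ^ 2 :=
      sq_le_sq' (by linarith [(abs_le.1 hn).1]) (abs_le.1 hn).2
    have h2 : ((z - y) * conj x0).im ^ 2 ≤ (D / 40) ^ 2 :=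
      sq_le_sq' (by linarith [(abs_le.1 ht).1]) (abs_le.1 ht).2
    have h3 : dist z y ^ 2 * (999 / 1000) ≤ dist z y ^ 2 * ‖x0‖ ^ 2 := by gcongr
    have h4 : (D / 50) ^ 2 = 1 / 2500 * (D * D) := by ring
    have h5 : (D / 40) ^ 2 = 1 / 1600 * (D * D) := by ring
    have h6 : (D / 20) ^ 2 = 1 / 400 * (D * D) := by ring
    have hDD : 0 < D * D := by positivity
    rw [h4] at h1
    rw [h5] at h2
    rw [h6]
    linarith
  exact_mod_cast Finset.card_le_card this

end Acc

open Acc in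
/-- PROOF. Suppose not: `iso`. Let `C = ball X x0 s`, `xm, xp ∈ C` at maximal distance `D`
(`D > 0` since `card C ≥ 2`), named so that `Im ((xp - xm) conj x0) ≥ 0`. `flat` applies.
`P = ball X xm (D / 20)`; it is contained in `C` by isolation (`dist y x0 ≤ 2 s`).
Pigeonhole: the values `t(y) = Im (y conj x0)`, `y ∈ C`, lie in an interval of length
`(1 + T) D ≤ 1.001 D`; cut it in at most `41` intervals of length `D / 40`. One of them contains
at least `card C / 41` points of `C`; two points `y, y'` of it have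
`‖y - y'‖ ‖x0‖ ≤ |t(y - y')| + |n(y - y')| ≤ D / 40 + D / 50`, so `dist y y' ≤ D / 20`. So
`card (ball X y (D / 20)) ≥ card C / 41`, and by `cnt_le` `card P ≥ card C / 41 - e
≥ 300 (e + 1)`. Let `x, x' ∈ P` at maximal distance `D1 > 0`. `acc_sib` for `(x, x')` and for
`(x', x)` gives `|t(x - x')| ≤ D1 / 10`, and `acc_far` for `(x, x')` or `(x', x)` gives `False`. -/
theorem acc {X : Finset ℂ} {e T : ℝ} (h : Ann X e T) {x0 : ℂ} (hx0 : x0 ∈ X) {s : ℝ}
    (hs0 : 0 < s) (hs : s ≤ 1 / 10 ^ 8) (hT : T ≤ s / 10 ^ 8)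
    (hk : 10 ^ 9 * (e + 1) ≤ ((ball X x0 s).card : ℝ)) :
    ∃ y ∈ X, s < dist y x0 ∧ dist y x0 ≤ 4 * s := by
  by_contra hcon
  have iso : ∀ y ∈ X, dist y x0 ≤ s ∨ 4 * s < dist y x0 := by
    intro y hy
    by_contra h1
    push Not at h1
    exact hcon ⟨y, hy, h1.1, h1.2⟩
  have he := h.nonneg
  have hT' : T ≤ 1 / 10 ^ 8 := by
    refine hT.trans ?_
    have : s ≤ 1 := hs.trans (by norm_num)
    gcongr
  have hcC : 1 < (ball X x0 s).card := by
    have h1 : (1 : ℝ) < ((ball X x0 s).card : ℝ) := by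
      norm_num at hk
      linarith
    exact_mod_cast h1
  obtain ⟨a, ha, b, hb, hab, hmax⟩ := exists_max hcC
  have hflat := flat h hx0 hs0 hs hT hab.le hmax hk
  -- name the end points
  obtain ⟨xm, hxm, xp, hxp, hmp, ht⟩ : ∃ xm ∈ ball X x0 s, ∃ xp ∈ ball X x0 s,
      dist xm xp = dist a b ∧ 0 ≤ ((xp - xm) * conj x0).im := by
    by_cases h1 : 0 ≤ ((b - a) * conj x0).im
    · exact ⟨a, ha, b, hb, rfl, h1⟩
    · refine ⟨b, hb, a, ha, dist_comm _ _, ?_⟩
      have h2 : ((a - b) * conj x0).im = -((b - a) * conj x0).im := by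
        rw [← Complex.neg_im, ← neg_mul, neg_sub]
      linarith
  set D := dist a b with hD
  have hD2s : D ≤ 2 * s := by
    rw [hD]
    refine (dist_triangle_right a b x0).trans ?_
    linarith [(mem_ball.1 ha).2, (mem_ball.1 hb).2]
  have hPC : ball X xm (D / 20) ⊆ ball X x0 s := by
    intro y hy
    have h1 := mem_ball.1 hy
    have h2 := (mem_ball.1 hxm).2
    refine mem_ball.2 ⟨h1.1, ?_⟩
    rcases iso y h1.1 with h3 | h3
    · exact h3
    · exfalso
      have h4 := dist_triangle y xm x0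
      linarith [h1.2]
  obtain ⟨y, hy, hyc⟩ := pigeon hT' (h.ann x0 hx0) hab hmax hflat hxm
  have hcnt := cnt_le h.toSys hy (mem_ball.1 hxm).1 (ρ := D / 20) (by positivity)
  have hcard : 300 * (e + 1) ≤ ((ball X xm (D / 20)).card : ℝ) := by
    norm_num at hk
    linarith
  have hcP : 1 < (ball X xm (D / 20)).card := by
    have h1 : (1 : ℝ) < ((ball X xm (D / 20)).card : ℝ) := by linarith
    exact_mod_cast h1
  obtain ⟨x, hx, x', hx', hxx, hmax'⟩ := exists_max hcP
  have h1 := acc_sib h hx0 hs0 hs hT iso hab hmax hflat hxm hxp hmp ht hx hx' hxx hmax' hcard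
  have h2 := acc_sib h hx0 hs0 hs hT iso hab hmax hflat hxm hxp hmp ht hx' hx
    (by rw [dist_comm]; exact hxx) (by rw [dist_comm x' x]; exact hmax') hcard
  have h3 : ((x' - x) * conj x0).im = -((x - x') * conj x0).im := by
    rw [← Complex.neg_im, ← neg_mul, neg_sub]
  have h4 : ((x' - x) * conj x0).re = -((x - x') * conj x0).re := by
    rw [← Complex.neg_re, ← neg_mul, neg_sub]
  have h5 : dist x' x = dist x x' := dist_comm _ _
  by_cases h6 : 0 ≤ ((x - x') * conj x0).re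
  · refine acc_far h hx0 hs0 hs hT hPC hx hx' hxx hmax' hcard ?_ h6
    rw [abs_le]
    constructor <;> linarith
  · refine acc_far h hx0 hs0 hs hT hPC hx' hx (by rw [h5]; exact hxx) (by rw [h5]; exact hmax')
      hcard ?_ (by linarith)
    rw [abs_le]
    constructor <;> linarith

end Pool.Agent.Vps
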