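import Pool.Agent.Lib.Vps.SlopeConv

/-!
# Approximate Lipschitz condition from the depth bound
-/

open Finset
open scoped ComplexConjugate

namespace Pool.Agent.Vps

/-- As `polar_triangle`, with better constants.
PROOF: as there; now the left side `ρ' sin θ (ρ - ρz cos δ)` is
`≤ 1.0001 θ (0.0002 + 1.0001 δ^2 / 2) ≤ 0.0064 θ`, and the right side
`ρz sin δ (ρ' cos θ - ρ) ≥ 0.9999 sin (0.09) (0.1 θ - 0.501 θ^2) ≥ 0.0080 θ`. -/
theorem polar_triangle2 {ρ ρ' ρz θ δ : ℝ} (h1 : |ρ - 1| ≤ 1 / 10 ^ 4)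
    (h2 : |ρ' - 1| ≤ 1 / 10 ^ 4) (h3 : |ρz - 1| ≤ 1 / 10 ^ 4) (hθ : 0 ≤ θ) (hθ' : θ ≤ 1 / 50)
    (hδ : 9 / 100 ≤ δ) (hδ' : δ ≤ 11 / 100) (hκ : ρ + 1 / 10 * θ < ρ') :
    ∃ a b : ℝ, 0 ≤ a ∧ 0 ≤ b ∧ a + b ≤ 1 ∧
      (ρ : ℂ) = a * (ρz * Complex.exp (-(δ : ℂ) * Complex.I)) +
        b * (ρ' * Complex.exp ((θ : ℂ) * Complex.I)) := by
  norm_num at h1 h2 h3
  rw [abs_le] at h1 h2 h3
  have hρ : 0 < ρ := by linarith [h1.1]
  have hρ' : 0 < ρ' := by linarith [h2.1]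
  have hρz : 0 < ρz := by linarith [h3.1]
  have hexp : ∀ t : ℝ, Complex.exp ((t : ℂ) * Complex.I) =
      (Real.cos t : ℂ) + (Real.sin t : ℂ) * Complex.I := fun t => by
    rw [Complex.exp_mul_I]; push_cast; rfl
  rcases hθ.eq_or_lt with h0 | hθ0
  · refine ⟨0, ρ / ρ', le_rfl, by positivity, ?_, ?_⟩
    · rw [zero_add, div_le_one hρ']
      rw [← h0] at hκ
      linarith
    · rw [← h0]
      have : (ρ' : ℂ) ≠ 0 := by exact_mod_cast hρ'.ne'
      push_cast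
      field_simp
      simp
  · have hsθ : 0 < Real.sin θ := Real.sin_pos_of_pos_of_lt_pi hθ0 (by linarith [Real.pi_gt_three])
    have hδ0 : 0 < δ := by linarith
    have hsδ : 0 < Real.sin δ := Real.sin_pos_of_pos_of_lt_pi hδ0 (by linarith [Real.pi_gt_three])
    have hsum : 0 < Real.sin (θ + δ) :=
      Real.sin_pos_of_pos_of_lt_pi (by linarith) (by linarith [Real.pi_gt_three])
    have hadd := Real.sin_add θ δ
    refine ⟨ρ * Real.sin θ / (ρz * Real.sin (θ + δ)), ρ * Real.sin δ / (ρ' * Real.sin (θ + δ)),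
      by positivity, by positivity, ?_, ?_⟩
    · have e1 : ρ * Real.sin θ / (ρz * Real.sin (θ + δ)) + ρ * Real.sin δ / (ρ' * Real.sin (θ + δ))
          = (ρ * (ρ' * Real.sin θ + ρz * Real.sin δ)) / (ρz * ρ' * Real.sin (θ + δ)) := by
        field_simp
      rw [e1, div_le_one (by positivity), hadd]
      have hsin : Real.sin θ ≤ θ := (Real.sin_lt hθ0).le
      have hcosδ : 1 - δ ^ 2 / 2 ≤ Real.cos δ := Real.one_sub_sq_div_two_le_cos
      have hcosθ : 1 - θ ^ 2 / 2 ≤ Real.cos θ := Real.one_sub_sq_div_two_le_cos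
      have hsinδ : δ - δ ^ 3 / 6 < Real.sin δ := Real.sin_gt_sub_cube hδ0
      have hδ2 : δ ^ 2 ≤ 0.0121 := by nlinarith
      have hcd1 : Real.cos δ ≤ 1 := Real.cos_le_one δ
      have hb1 : ρ - ρz * Real.cos δ ≤ 0.0063 := by nlinarith
      have hl1 : ρ' * Real.sin θ * (ρ - ρz * Real.cos δ) ≤ 0.00631 * θ := by
        calc ρ' * Real.sin θ * (ρ - ρz * Real.cos δ) ≤ ρ' * Real.sin θ * 0.0063 :=
              mul_le_mul_of_nonneg_left hb1 (by positivity)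
          _ ≤ 0.00631 * θ := by nlinarith
      have hs1 : 0.0898 ≤ Real.sin δ := by nlinarith
      have hs2 : 0.0897 ≤ ρz * Real.sin δ := by nlinarith
      have hθ2 : θ ^ 2 ≤ 0.02 * θ := by nlinarith
      have hb2 : 0.0899 * θ ≤ ρ' * Real.cos θ - ρ := by
        have : ρ' * (1 - θ ^ 2 / 2) ≤ ρ' * Real.cos θ := mul_le_mul_of_nonneg_left hcosθ hρ'.le
        nlinarith
      have hr1 : 0.0080 * θ ≤ ρz * Real.sin δ * (ρ' * Real.cos θ - ρ) := by
        calc 0.0080 * θ ≤ 0.0897 * (0.0899 * θ) := by linarith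
          _ ≤ ρz * Real.sin δ * (ρ' * Real.cos θ - ρ) :=
              mul_le_mul hs2 hb2 (by positivity) (by positivity)
      nlinarith
    · rw [neg_mul, Complex.exp_neg, hexp, hexp]
      have hc : (Real.sin (θ + δ) : ℂ) ≠ 0 := by exact_mod_cast hsum.ne'
      have hz : (ρz : ℂ) ≠ 0 := by exact_mod_cast hρz.ne'
      have hp : (ρ' : ℂ) ≠ 0 := by exact_mod_cast hρ'.ne'
      have hinv : ((Real.cos δ : ℂ) + (Real.sin δ : ℂ) * Complex.I)⁻¹ =
          (Real.cos δ : ℂ) - (Real.sin δ : ℂ) * Complex.I := by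
        rw [← hexp δ, ← Complex.exp_neg, ← neg_mul, ← Complex.ofReal_neg, hexp (-δ)]
        simp [sub_eq_add_neg]
      rw [hinv]
      have hadd' : (Real.sin (θ + δ) : ℂ) =
          Real.sin θ * Real.cos δ + Real.cos θ * Real.sin δ := by
        rw [hadd]; push_cast; rfl
      push_cast
      rw [eq_comm]
      have e2 : (ρ : ℂ) * Complex.sin θ / (ρz * Complex.sin (θ + δ)) *
          (ρz * (Complex.cos δ - Complex.sin δ * Complex.I)) +
          ρ * Complex.sin δ / (ρ' * Complex.sin (θ + δ)) *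
            (ρ' * (Complex.cos θ + Complex.sin θ * Complex.I)) =
          ρ * (Complex.sin θ * Complex.cos δ + Complex.cos θ * Complex.sin δ) /
            Complex.sin (θ + δ) := by
        push_cast at hc
        field_simp
        ring
      rw [e2, ← Complex.sin_add]
      push_cast at hc
      field_simp

namespace ApproxSlopeAux

/-- A complex number near `1` has a small argument. -/
theorem arg_small2 {ζ : ℂ} (h : ‖ζ - 1‖ ≤ 1 / 1000) : |Complex.arg ζ| ≤ 1 / 100 := by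
  have hre : |(ζ - 1).re| ≤ 1 / 1000 := (Complex.abs_re_le_norm _).trans h
  have him : |(ζ - 1).im| ≤ 1 / 1000 := (Complex.abs_im_le_norm _).trans h
  simp only [Complex.sub_re, Complex.one_re, Complex.sub_im, Complex.one_im, sub_zero] at hre him
  rw [abs_le] at hre
  have hre0 : 99 / 100 ≤ ζ.re := by linarith [hre.1]
  have hn : 99 / 100 ≤ ‖ζ‖ := hre0.trans (Complex.re_le_norm ζ)
  have h1 : |Complex.arg ζ| ≤ Real.pi / 2 := Complex.abs_arg_le_pi_div_two_iff.2 (by linarith)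
  have h2 := Real.mul_le_sin (abs_nonneg (Complex.arg ζ)) h1
  have h3 : Real.sin |Complex.arg ζ| ≤ 1 / 990 := by
    have h4 : Real.sin |Complex.arg ζ| = |Real.sin (Complex.arg ζ)| := by
      rcases abs_cases (Complex.arg ζ) with ⟨h5, h6⟩ | ⟨h5, h6⟩
      · rw [h5, abs_of_nonneg]
        exact Real.sin_nonneg_of_nonneg_of_le_pi h6 (Complex.arg_le_pi _)
      · rw [h5, Real.sin_neg, abs_of_nonpos]
        exact Real.sin_nonpos_of_nonpos_of_neg_pi_le h6.le (Complex.neg_pi_lt_arg _).le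
    rw [h4, Complex.sin_arg, abs_div, abs_of_nonneg (norm_nonneg ζ), div_le_iff₀ (by linarith)]
    linarith
  have hpi := Real.pi_lt_d2
  have hpi0 := Real.pi_pos
  have h6 : 2 / Real.pi * |Complex.arg ζ| ≤ 1 / 990 := h2.trans h3
  have h7 : |Complex.arg ζ| = (Real.pi / 2) * (2 / Real.pi * |Complex.arg ζ|) := by
    field_simp
  rw [h7]
  calc (Real.pi / 2) * (2 / Real.pi * |Complex.arg ζ|) ≤ (Real.pi / 2) * (1 / 990) :=
        mul_le_mul_of_nonneg_left h6 (by positivity)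
    _ ≤ 1 / 100 := by linarith

/-- Signed version of `polar_triangle2`. -/
theorem polar_triangle2_signed {ρ ρ' ρz θ δ s : ℝ} (hs : s = 1 ∨ s = -1)
    (h1 : |ρ - 1| ≤ 1 / 10 ^ 4) (h2 : |ρ' - 1| ≤ 1 / 10 ^ 4)
    (h3 : |ρz - 1| ≤ 1 / 10 ^ 4) (hθ : 0 ≤ θ) (hθ' : θ ≤ 1 / 50) (hδ : 9 / 100 ≤ δ)
    (hδ' : δ ≤ 11 / 100) (hκ : ρ + 1 / 10 * θ < ρ') :
    ∃ a b : ℝ, 0 ≤ a ∧ 0 ≤ b ∧ a + b ≤ 1 ∧
      (ρ : ℂ) = a * (ρz * Complex.exp (((-(s * δ) : ℝ) : ℂ) * Complex.I)) +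
        b * (ρ' * Complex.exp (((s * θ : ℝ) : ℂ) * Complex.I)) := by
  obtain ⟨a, b, ha, hb, hab, h⟩ := polar_triangle2 h1 h2 h3 hθ hθ' hδ hδ' hκ
  refine ⟨a, b, ha, hb, hab, ?_⟩
  rcases hs with rfl | rfl
  · rw [one_mul, one_mul]
    push_cast
    exact h
  · have h4 := congrArg conj h
    simp only [map_add, map_mul, Complex.conj_ofReal, ← Complex.exp_conj, map_neg,
      Complex.conj_I] at h4
    have e1 : -(δ : ℂ) * -Complex.I = ((-(-1 * δ) : ℝ) : ℂ) * Complex.I := by push_cast; ring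
    have e2 : (θ : ℂ) * -Complex.I = ((-1 * θ : ℝ) : ℂ) * Complex.I := by push_cast; ring
    rw [e1, e2] at h4
    exact h4

/-- One-sided bound. -/
theorem one_side2 {X : Finset ℂ} (hann : ∀ x ∈ X, |‖x‖ - 1| ≤ 1 / 10 ^ 5)
    (hdense : ∀ u : ℂ, ‖u‖ = 1 → ∃ x ∈ X, dist x u ≤ 1 / 10 ^ 3) {r : ℝ} (hr0 : 0 < r)
    (hr : r ≤ 1 / 10 ^ 5)
    (hdepth : ∀ x ∈ X, ((1 + r : ℝ) : ℂ) * x ∉ convexHull ℝ (X : Set ℂ)) {y y' : ℂ} (hy : y ∈ X)
    (hy' : y' ∈ X) (h : |Complex.arg (y' / y)| ≤ 1 / 50) :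
    ‖y'‖ ≤ ‖y‖ + 1 / 10 * |Complex.arg (y' / y)| + 2 * r := by
  by_contra hcon
  rw [not_le] at hcon
  have hann' : ∀ x ∈ X, |‖x‖ - 1| ≤ 1 / 10 ^ 4 := fun x hx => (hann x hx).trans (by norm_num)
  have hny := hann y hy
  have hny' := hann' y' hy'
  norm_num at hny hr
  rw [abs_le] at hny
  have hypos : 0 < ‖y‖ := by linarith [hny.1]
  have hy0 : y ≠ 0 := norm_pos_iff.1 hypos
  have hyC : ((‖y‖ : ℝ) : ℂ) ≠ 0 := by exact_mod_cast hypos.ne'
  -- the radius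
  have hρ1 : |(1 + r) * ‖y‖ - 1| ≤ 1 / 10 ^ 4 := by
    norm_num
    rw [abs_le]
    constructor
    · nlinarith [hny.1, hny.2]
    · nlinarith [hny.1, hny.2]
  obtain ⟨s, hs, hsθ⟩ : ∃ s : ℝ, (s = 1 ∨ s = -1) ∧
      Complex.arg (y' / y) = s * |Complex.arg (y' / y)| := by
    rcases abs_cases (Complex.arg (y' / y)) with ⟨h5, h6⟩ | ⟨h5, h6⟩
    · exact ⟨1, Or.inl rfl, by rw [h5]; ring⟩
    · exact ⟨-1, Or.inr rfl, by rw [h5]; ring⟩
  set θ := |Complex.arg (y' / y)| with hθ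
  have hcon' : (1 + r) * ‖y‖ + 1 / 10 * θ < ‖y'‖ := by nlinarith [hny.2]
  set w : ℂ := y / ‖y‖ with hw
  have hwn : ‖w‖ = 1 := by
    rw [hw, norm_div, Complex.norm_real, norm_norm, div_self hypos.ne']
  have hw0 : w ≠ 0 := by
    intro h0; rw [h0] at hwn; simp at hwn
  have hyw : y = w * (‖y‖ : ℝ) := by rw [hw]; field_simp
  have hy'w : y' = w * ((‖y'‖ : ℝ) * Complex.exp (((s * θ : ℝ) : ℂ) * Complex.I)) := by
    have h1 := Complex.norm_mul_exp_arg_mul_I (y' / y)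
    rw [hsθ, norm_div] at h1
    have h2 : y' = y * (((‖y'‖ / ‖y‖ : ℝ) : ℂ) * Complex.exp (((s * θ : ℝ) : ℂ) * Complex.I)) := by
      rw [h1]; field_simp
    calc y' = y * (((‖y'‖ / ‖y‖ : ℝ) : ℂ) * Complex.exp (((s * θ : ℝ) : ℂ) * Complex.I)) := h2
      _ = _ := by
        rw [hw]; push_cast; field_simp
  -- the auxiliary point
  have hun : ‖w * Complex.exp (((-(s * (1 / 10)) : ℝ) : ℂ) * Complex.I)‖ = 1 := by
    rw [norm_mul, hwn, Complex.norm_exp_ofReal_mul_I, mul_one]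
  obtain ⟨z, hz, hzu⟩ := hdense _ hun
  set e := Complex.exp (((-(s * (1 / 10)) : ℝ) : ℂ) * Complex.I) with he
  have hen : ‖e‖ = 1 := Complex.norm_exp_ofReal_mul_I _
  have he0 : e ≠ 0 := Complex.exp_ne_zero _
  set ζ : ℂ := z / (w * e) with hζ
  have hζ1 : ‖ζ - 1‖ ≤ 1 / 1000 := by
    have : ζ - 1 = (z - w * e) / (w * e) := by rw [hζ]; field_simp
    rw [this, norm_div, norm_mul, hwn, hen, mul_one, div_one, ← Complex.dist_eq]
    norm_num at hzu ⊢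
    exact hzu
  have hζn : ‖ζ‖ = ‖z‖ := by
    rw [hζ, norm_div, norm_mul, hwn, hen, mul_one, div_one]
  have hargζ := arg_small2 hζ1
  have hzz : z = w * ((‖z‖ : ℝ) *
      Complex.exp (((-(s * (1 / 10 - s * Complex.arg ζ)) : ℝ) : ℂ) * Complex.I)) := by
    have h1 := Complex.norm_mul_exp_arg_mul_I ζ
    rw [hζn] at h1
    have hss : s * s = 1 := by rcases hs with rfl | rfl <;> norm_num
    have h2 : -(s * (1 / 10 - s * Complex.arg ζ)) = -(s * (1 / 10)) + Complex.arg ζ := by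
      have : -(s * (1 / 10 - s * Complex.arg ζ)) = -(s * (1 / 10)) + (s * s) * Complex.arg ζ := by
        ring
      rw [this, hss, one_mul]
    rw [h2, Complex.ofReal_add, add_mul, Complex.exp_add, ← he]
    calc z = w * e * ζ := by rw [hζ]; field_simp
      _ = w * e * (((‖z‖ : ℝ) : ℂ) * Complex.exp ((Complex.arg ζ : ℂ) * Complex.I)) := by rw [h1]
      _ = _ := by ring
  set δ : ℝ := 1 / 10 - s * Complex.arg ζ with hδ
  have hsa : |s * Complex.arg ζ| ≤ 1 / 100 := by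
    rw [abs_mul]
    rcases hs with rfl | rfl
    · simpa using hargζ
    · simpa using hargζ
  rw [abs_le] at hsa
  have hδ1 : 9 / 100 ≤ δ := by rw [hδ]; linarith [hsa.2]
  have hδ2 : δ ≤ 11 / 100 := by rw [hδ]; linarith [hsa.1]
  obtain ⟨a, b, ha, hb, hab, hpt⟩ := polar_triangle2_signed hs hρ1 hny' (hann' z hz)
    (abs_nonneg _) h hδ1 hδ2 hcon'
  have hcomb : ((1 + r : ℝ) : ℂ) * y = a * z + b * y' := by
    calc ((1 + r : ℝ) : ℂ) * y = ((1 + r : ℝ) : ℂ) * (w * (‖y‖ : ℝ)) := by rw [← hyw]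
      _ = w * (((1 + r) * ‖y‖ : ℝ) : ℂ) := by push_cast; ring
      _ = w * (a * ((‖z‖ : ℝ) * Complex.exp (((-(s * δ) : ℝ) : ℂ) * Complex.I)) +
          b * ((‖y'‖ : ℝ) * Complex.exp (((s * θ : ℝ) : ℂ) * Complex.I))) := by rw [hpt]
      _ = a * (w * ((‖z‖ : ℝ) * Complex.exp (((-(s * δ) : ℝ) : ℂ) * Complex.I))) +
          b * (w * ((‖y'‖ : ℝ) * Complex.exp (((s * θ : ℝ) : ℂ) * Complex.I))) := by ring
      _ = a * z + b * y' := by rw [← hzz, ← hy'w]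
  -- conclusion
  apply hdepth y hy
  have h0 : (0 : ℂ) ∈ convexHull ℝ (X : Set ℂ) :=
    convexHull_mono Set.sdiff_subset (zero_mem_hull (Y := X)
      (fun u hu => by
        obtain ⟨x, hx, hxu⟩ := hdense u hu
        exact ⟨x, hx, hxu.trans (by norm_num)⟩) y)
  have hzH : z ∈ convexHull ℝ (X : Set ℂ) := subset_convexHull ℝ _ hz
  have hy'H : y' ∈ convexHull ℝ (X : Set ℂ) := subset_convexHull ℝ _ hy'
  have hC := convex_convexHull ℝ (X : Set ℂ)
  rcases (add_nonneg ha hb).eq_or_lt with hab0 | hab0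
  · have ha0 : a = 0 := by linarith
    have hb0 : b = 0 := by linarith
    rw [hcomb, ha0, hb0]
    simpa using h0
  · have hp : (a / (a + b)) • z + (b / (a + b)) • y' ∈ convexHull ℝ (X : Set ℂ) :=
      hC hzH hy'H (by positivity) (by positivity) (by field_simp)
    have hq := hC.smul_mem_of_zero_mem h0 hp (t := a + b) ⟨hab0.le, hab⟩
    have : (a + b) • ((a / (a + b)) • z + (b / (a + b)) • y') = ((1 + r : ℝ) : ℂ) * y := by
      rw [smul_add, smul_smul, smul_smul, mul_div_cancel₀ _ hab0.ne', mul_div_cancel₀ _ hab0.ne',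
        Complex.real_smul, Complex.real_smul]
      exact hcomb.symm
    rwa [this] at hq

end ApproxSlopeAux

/-- PROOF. As `slope_of_convex`: let `‖y‖ ≤ ‖y'‖` (exchange), suppose
`‖y'‖ > ‖y‖ + |arg| / 10 + 2 s`, then `‖y'‖ > (1 + s) ‖y‖ + |arg| / 10`; take `z ∈ X` close to
`(y / ‖y‖) exp (∓ i / 10)` on the other side; by `polar_triangle2` with `ρ = (1 + s) ‖y‖`,
`(1 + s) y` is in the convex hull of `0, z, y'`, and `0 ∈ convexHull X` by `zero_mem_hull`; so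
`(1 + s) y ∈ convexHull X`, contradiction with `hdepth`. -/
theorem approx_slope {X : Finset ℂ} (hann : ∀ x ∈ X, |‖x‖ - 1| ≤ 1 / 10 ^ 5)
    (hdense : ∀ u : ℂ, ‖u‖ = 1 → ∃ x ∈ X, dist x u ≤ 1 / 10 ^ 3) {s : ℝ} (hs0 : 0 < s)
    (hs : s ≤ 1 / 10 ^ 5)
    (hdepth : ∀ x ∈ X, ((1 + s : ℝ) : ℂ) * x ∉ convexHull ℝ (X : Set ℂ)) :
    ∀ y ∈ X, ∀ y' ∈ X, |Complex.arg (y' / y)| ≤ 1 / 50 →
      |‖y‖ - ‖y'‖| ≤ 1 / 10 * |Complex.arg (y' / y)| + 2 * s := by
  intro y hy y' hy' h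
  have h1 := ApproxSlopeAux.one_side2 hann hdense hs0 hs hdepth hy hy' h
  have h2 : |Complex.arg (y / y')| = |Complex.arg (y' / y)| := by
    rw [← inv_div y' y, Complex.abs_arg_inv]
  have h3 := ApproxSlopeAux.one_side2 hann hdense hs0 hs hdepth hy' hy (by rw [h2]; exact h)
  rw [h2] at h3
  rw [abs_le]
  constructor <;> linarith

end Pool.Agent.Vps
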