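import Pool.Agent.Lib.Vps.Annulus

/-!
# Almost antipodal pairs: monotonicity
-/

open Finset
open scoped ComplexConjugate

namespace Pool.Agent.Vps

namespace BackwardAux

theorem norm_sub_one_le {T : ℝ} {x : ℂ} (h : |‖x‖ ^ 2 - 1| ≤ T) : |‖x‖ - 1| ≤ T := by
  have h0 := norm_nonneg x
  have h4 : |‖x‖ - 1| ≤ |‖x‖ ^ 2 - 1| := by
    have : ‖x‖ ^ 2 - 1 = (‖x‖ - 1) * (‖x‖ + 1) := by ring
    rw [this, abs_mul]
    have h5 : 1 ≤ |‖x‖ + 1| := by rw [abs_of_nonneg (by linarith)]; linarith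
    exact le_mul_of_one_le_right (abs_nonneg _) h5
  exact h4.trans h

theorem abs_re_mul_conj_le (p q : ℂ) : |(p * conj q).re| ≤ ‖p‖ * ‖q‖ := by
  refine (Complex.abs_re_le_norm _).trans ?_
  rw [norm_mul, Complex.norm_conj]

theorem re_exp (a b : ℝ) :
    (Complex.exp (b * Complex.I) * conj (Complex.exp (a * Complex.I))).re = Real.cos (b - a) := by
  have h1 : conj (Complex.exp (a * Complex.I)) = Complex.exp (-a * Complex.I) := by
    rw [← Complex.exp_conj, map_mul, Complex.conj_I, Complex.conj_ofReal]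
    congr 1
    ring
  rw [h1, ← Complex.exp_add]
  have h2 : (b : ℂ) * Complex.I + -a * Complex.I = ((b - a : ℝ) : ℂ) * Complex.I := by
    push_cast; ring
  rw [h2, Complex.exp_ofReal_mul_I_re]

theorem re_mul_conj_arg (x z : ℂ) :
    (z * conj x).re = ‖z‖ * ‖x‖ * Real.cos (Complex.arg z - Complex.arg x) := by
  have hx := Complex.norm_mul_exp_arg_mul_I x
  have hz := Complex.norm_mul_exp_arg_mul_I z
  have h1 : z * conj x = ((‖z‖ * ‖x‖ : ℝ) : ℂ) * (Complex.exp (z.arg * Complex.I) *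
      conj (Complex.exp (x.arg * Complex.I))) := by
    conv_lhs => rw [← hx, ← hz]
    rw [map_mul, Complex.conj_ofReal]
    push_cast
    ring
  rw [h1, Complex.re_ofReal_mul, re_exp]

theorem dist_sq_neg (x y : ℂ) : dist x y ^ 2 = ‖x‖ ^ 2 + ‖y‖ ^ 2 + 2 * (-y * conj x).re := by
  rw [dist_sq_eq, neg_mul, Complex.neg_re]
  ring

theorem cos_small {s : ℝ} (h0 : 0 ≤ s) (h : 9989 / 10000 ≤ Real.cos s)
    (h2 : s ≤ 2 * Real.pi - 5 / 100) : s ≤ 1 / 20 := by
  have h3 : Real.cos (1 / 20) < 9989 / 10000 := by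
    have h4 := Real.cos_le_one_sub_mul_cos_sq (x := 1 / 20)
    have h5 := Real.cos_sq' (1 / 20)
    have h6 : 49 / 1000 ≤ Real.sin (1 / 20) := by
      have := Real.sin_gt_sub_cube (x := 1 / 20) (by norm_num)
      norm_num at this ⊢
      linarith
    have h7 : (49 / 1000) ^ 2 ≤ Real.sin (1 / 20) ^ 2 := pow_le_pow_left₀ (by norm_num) h6 2
    have h8 : Real.cos (1 / 20) ^ 2 < (9989 / 10000) ^ 2 := by
      rw [h5]
      norm_num at h7 ⊢
      linarith
    by_contra hcon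
    push Not at hcon
    have := pow_le_pow_left₀ (by norm_num) hcon 2
    linarith
  by_contra hcon
  push Not at hcon
  by_cases hpi : s ≤ Real.pi
  · have := Real.cos_le_cos_of_nonneg_of_le_pi (x := 1 / 20) (y := s) (by norm_num) hpi hcon.le
    linarith
  · push Not at hpi
    have h4 : Real.cos s = Real.cos (2 * Real.pi - s) := by
      rw [Real.cos_two_pi_sub]
    have h5 := Real.cos_le_cos_of_nonneg_of_le_pi (x := 1 / 20) (y := 2 * Real.pi - s)
      (by norm_num) (by linarith) (by linarith)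
    linarith

end BackwardAux

open BackwardAux

/-- PROOF: `dist x y ^ 2 = ‖x‖^2 + ‖y‖^2 + 2 ‖x‖ ‖y‖ cos (arg (-y) - arg x)`; the difference of the
arguments is within `0.04` of a multiple of `2 π`, and `|arg x| ≤ 3.1`, `|arg (-y)| ≤ π` exclude all
multiples but `0` except at distance `< 0.04 + (π - 3.1)`...: `|arg (-y) - arg x| ≤ π + 3.1 < 2 π - 0.04`.
So `|arg (-y) - arg x| ≤ 0.04`. -/
theorem anti_arg {x y : ℂ} {T : ℝ} (hT : T ≤ 1 / 10 ^ 6) (hx : |‖x‖ ^ 2 - 1| ≤ T)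
    (hy : |‖y‖ ^ 2 - 1| ≤ T) (h : 3998 / 1000 ≤ dist x y ^ 2)
    (ha : |Complex.arg x| ≤ 31 / 10 - 1 / 100) :
    |Complex.arg (-y) - Complex.arg x| ≤ 1 / 20 := by
  have h1 := dist_sq_neg x y
  rw [re_mul_conj_arg, norm_neg] at h1
  have hx1 := abs_le.1 (norm_sub_one_le hx)
  have hy1 := abs_le.1 (norm_sub_one_le hy)
  have hx2 := abs_le.1 hx
  have hy2 := abs_le.1 hy
  set c := Real.cos (Complex.arg (-y) - Complex.arg x) with hc
  have hc1 : c ≤ 1 := Real.cos_le_one _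
  have hP : ‖y‖ * ‖x‖ ≤ 1 + 1 / 10 ^ 5 := by
    have : ‖y‖ * ‖x‖ ≤ (1 + 1 / 10 ^ 6) * (1 + 1 / 10 ^ 6) :=
      mul_le_mul (by linarith) (by linarith) (norm_nonneg _) (by norm_num)
    linarith
  have hP0 : 0 ≤ ‖y‖ * ‖x‖ := by positivity
  have h2 : 998998 / 1000000 ≤ ‖y‖ * ‖x‖ * c := by linarith
  have hc0 : 0 ≤ c := by
    by_contra hcon
    push Not at hcon
    have := mul_nonpos_of_nonneg_of_nonpos hP0 hcon.le
    linarith
  have h3 : 9989 / 10000 ≤ c := by
    have h4 : ‖y‖ * ‖x‖ * c ≤ (1 + 1 / 10 ^ 5) * c := mul_le_mul_of_nonneg_right hP hc0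
    linarith
  rw [hc, ← Real.cos_abs] at h3
  refine cos_small (abs_nonneg _) h3 ?_
  have h4 := abs_sub (Complex.arg (-y)) (Complex.arg x)
  have h5 := Complex.abs_arg_le_pi (-y)
  have h6 := Real.pi_gt_d4
  linarith

namespace BackwardAux

theorem trig (a a' b b' : ℝ) :
    Real.cos (b - a) - Real.cos (b - a') - Real.cos (b' - a) + Real.cos (b' - a') =
      -(4 * Real.cos ((b + b' - a - a') / 2) * (Real.sin ((a' - a) / 2) *
        Real.sin ((b - b') / 2))) := by
  set γ := (b + b' - a - a') / 2 with hγ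
  set p := (a' - a) / 2 with hp
  set q := (b - b') / 2 with hq
  have e1 : b - a = γ + (p + q) := by rw [hγ, hp, hq]; ring
  have e2 : b' - a' = γ - (p + q) := by rw [hγ, hp, hq]; ring
  have e3 : b - a' = γ + (q - p) := by rw [hγ, hp, hq]; ring
  have e4 : b' - a = γ - (q - p) := by rw [hγ, hp, hq]; ring
  rw [e1, e2, e3, e4]
  simp only [Real.cos_add, Real.cos_sub, Real.sin_add, Real.sin_sub]
  ring

theorem sin_half {s : ℝ} (h0 : 0 < s) (h1 : s ≤ 1 / 10) : 99 / 100 * (s / 2) ≤ Real.sin (s / 2) := by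
  have h2 := Real.sin_gt_sub_cube (x := s / 2) (by linarith)
  have h3 : (s / 2) ^ 3 ≤ (1 / 100) * (s / 2) := by
    have h4 : (s / 2) ^ 2 ≤ 1 / 100 := by nlinarith
    have h5 : (s / 2) ^ 3 = (s / 2) ^ 2 * (s / 2) := by ring
    rw [h5]
    exact mul_le_mul_of_nonneg_right h4 (by linarith)
  linarith

theorem main_neg {a a' b b' : ℝ} (h1 : 0 < a' - a) (h2 : 0 < b - b')
    (h3 : |b - a| ≤ 1 / 20) (h4 : |b' - a'| ≤ 1 / 20) :
    Real.cos (b - a) - Real.cos (b - a') - Real.cos (b' - a) + Real.cos (b' - a') ≤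
      -(9 / 10 * ((a' - a) * (b - b'))) := by
  rw [abs_le] at h3 h4
  rw [trig]
  have hc : 99 / 100 ≤ Real.cos ((b + b' - a - a') / 2) := by
    have h5 := Real.one_sub_sq_div_two_le_cos (x := (b + b' - a - a') / 2)
    have h6 : ((b + b' - a - a') / 2) ^ 2 ≤ 1 / 100 := by nlinarith
    linarith
  have hs1 := sin_half (s := a' - a) h1 (by linarith)
  have hs2 := sin_half (s := b - b') h2 (by linarith)
  have hm : (99 / 100 * ((a' - a) / 2)) * (99 / 100 * ((b - b') / 2)) ≤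
      Real.sin ((a' - a) / 2) * Real.sin ((b - b') / 2) :=
    mul_le_mul hs1 hs2 (by positivity) (le_trans (by positivity) hs1)
  have hpos : 0 < (a' - a) * (b - b') := mul_pos h1 h2
  have hm2 : 99 / 100 * ((99 / 100 * ((a' - a) / 2)) * (99 / 100 * ((b - b') / 2))) ≤
      Real.cos ((b + b' - a - a') / 2) * (Real.sin ((a' - a) / 2) * Real.sin ((b - b') / 2)) :=
    mul_le_mul hc hm (by positivity) (by linarith)
  nlinarith

theorem diff_eq (x x' : ℂ) :
    x - x' = (Complex.exp (x.arg * Complex.I) - Complex.exp (x'.arg * Complex.I)) +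
      (((‖x‖ - 1 : ℝ) : ℂ) * Complex.exp (x.arg * Complex.I) -
        ((‖x'‖ - 1 : ℝ) : ℂ) * Complex.exp (x'.arg * Complex.I)) := by
  have hx := Complex.norm_mul_exp_arg_mul_I x
  have hx' := Complex.norm_mul_exp_arg_mul_I x'
  conv_lhs => rw [← hx, ← hx']
  push_cast
  ring

theorem diff_err {x x' : ℂ} {T : ℝ} (hx : |‖x‖ - 1| ≤ T) (hx' : |‖x'‖ - 1| ≤ T) :
    ‖((‖x‖ - 1 : ℝ) : ℂ) * Complex.exp (x.arg * Complex.I) -
        ((‖x'‖ - 1 : ℝ) : ℂ) * Complex.exp (x'.arg * Complex.I)‖ ≤ 2 * T := by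
  refine (norm_sub_le _ _).trans ?_
  rw [norm_mul, norm_mul, Complex.norm_exp_ofReal_mul_I, Complex.norm_exp_ofReal_mul_I,
    Complex.norm_real, Complex.norm_real, Real.norm_eq_abs, Real.norm_eq_abs]
  linarith

end BackwardAux

/-- PROOF. `hswap` says `0 ≤ Re ((y' - y) conj (x - x'))`, i.e. `0 ≤ Re ((z - z') conj (x - x'))` with
`z = - y`, `z' = - y'`. Let `a, a', b, b'` be the arguments of `x, x', z, z'`;
`|b - a|, |b' - a'| ≤ 1/20` by `anti_arg`. Suppose `t ≤ a' - a` and `t ≤ b - b'`. Then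
`a' - a, b - b' ≤ 1/10`. Up to errors of size `2 T` in each factor, `x - x' = e^(ia) - e^(ia')`,
`z - z' = e^(ib) - e^(ib')`, and
`Re ((e^(ib) - e^(ib')) conj (e^(ia) - e^(ia'))) = 4 sin ((b - b')/2) sin ((a - a')/2)
cos ((b + b' - a - a')/2) ≤ - 0.9 (b - b') (a' - a)`, which dominates the errors
`2 T ((b - b') + (a' - a)) + 4 T ^ 2` because both factors are `≥ t ≥ 100 T`. Contradiction. -/
theorem no_backward {x y x' y' : ℂ} {T t : ℝ} (hT : 100 * T ≤ t) (ht0 : 0 < t)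
    (ht : t ≤ 1 / 10 ^ 4) (hx : |‖x‖ ^ 2 - 1| ≤ T) (hy : |‖y‖ ^ 2 - 1| ≤ T)
    (hx' : |‖x'‖ ^ 2 - 1| ≤ T) (hy' : |‖y'‖ ^ 2 - 1| ≤ T)
    (h : 3998 / 1000 ≤ dist x y ^ 2) (h' : 3998 / 1000 ≤ dist x' y' ^ 2)
    (ha : |Complex.arg x| ≤ 31 / 10 - 1 / 100) (ha' : |Complex.arg x'| ≤ 31 / 10 - 1 / 100)
    (hswap : dist x y' ^ 2 + dist x' y ^ 2 ≤ dist x y ^ 2 + dist x' y' ^ 2) :
    ¬ (t ≤ Complex.arg x' - Complex.arg x ∧ t ≤ Complex.arg (-y) - Complex.arg (-y')) := by
  rintro ⟨hta, htb⟩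
  have hT6 : T ≤ 1 / 10 ^ 6 := by linarith
  have hT0 : 0 ≤ T := (abs_nonneg _).trans hx
  have h1 := anti_arg hT6 hx hy h ha
  have h2 := anti_arg hT6 hx' hy' h' ha'
  have hneg := main_neg (a := Complex.arg x) (a' := Complex.arg x') (b := Complex.arg (-y))
    (b' := Complex.arg (-y')) (by linarith) (by linarith) h1 h2
  have hsw : 0 ≤ ((-y - -y') * conj (x - x')).re := by
    rw [dist_sq_neg x y', dist_sq_neg x' y, dist_sq_neg x y, dist_sq_neg x' y'] at hswap
    have e1 : ((-y - -y') * conj (x - x')).re = (-y * conj x).re + (-y' * conj x').re -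
        (-y' * conj x).re - (-y * conj x').re := by
      rw [map_sub]
      have : (-y - -y') * (conj x - conj x') = -y * conj x + -y' * conj x' - -y' * conj x -
          -y * conj x' := by ring
      rw [this, Complex.sub_re, Complex.sub_re, Complex.add_re]
    rw [e1]
    linarith
  set a := Complex.arg x with hadef
  set a' := Complex.arg x' with ha'def
  set b := Complex.arg (-y) with hbdef
  set b' := Complex.arg (-y') with hb'def
  have ex := diff_eq x x'
  have ey := diff_eq (-y) (-y')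
  have nx := diff_err (norm_sub_one_le hx) (norm_sub_one_le hx')
  have ny := diff_err (x := -y) (x' := -y') (T := T) (by rw [norm_neg]; exact norm_sub_one_le hy)
    (by rw [norm_neg]; exact norm_sub_one_le hy')
  set v := Complex.exp (x.arg * Complex.I) - Complex.exp (x'.arg * Complex.I) with hv
  set u := Complex.exp ((-y).arg * Complex.I) - Complex.exp ((-y').arg * Complex.I) with hu
  set dx := ((‖x‖ - 1 : ℝ) : ℂ) * Complex.exp (x.arg * Complex.I) -
        ((‖x'‖ - 1 : ℝ) : ℂ) * Complex.exp (x'.arg * Complex.I) with hdx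
  set dz := ((‖-y‖ - 1 : ℝ) : ℂ) * Complex.exp ((-y).arg * Complex.I) -
        ((‖-y'‖ - 1 : ℝ) : ℂ) * Complex.exp ((-y').arg * Complex.I) with hdz
  have nv : ‖v‖ ≤ a' - a := by
    have := norm_exp_sub_le x.arg x'.arg
    rw [abs_sub_comm, abs_of_nonneg (by linarith)] at this
    exact this
  have nu : ‖u‖ ≤ b - b' := by
    have := norm_exp_sub_le (-y).arg (-y').arg
    rw [abs_of_nonneg (by linarith)] at this
    exact this
  have huv : (u * conj v).re =
      Real.cos (b - a) - Real.cos (b - a') - Real.cos (b' - a) + Real.cos (b' - a') := by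
    rw [hu, hv, map_sub]
    have e1 : (Complex.exp ((-y).arg * Complex.I) - Complex.exp ((-y').arg * Complex.I)) *
        (conj (Complex.exp (x.arg * Complex.I)) - conj (Complex.exp (x'.arg * Complex.I))) =
        Complex.exp ((-y).arg * Complex.I) * conj (Complex.exp (x.arg * Complex.I)) -
        Complex.exp ((-y).arg * Complex.I) * conj (Complex.exp (x'.arg * Complex.I)) -
        Complex.exp ((-y').arg * Complex.I) * conj (Complex.exp (x.arg * Complex.I)) +
        Complex.exp ((-y').arg * Complex.I) * conj (Complex.exp (x'.arg * Complex.I)) := by ring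
    rw [e1, Complex.add_re, Complex.sub_re, Complex.sub_re, re_exp, re_exp, re_exp, re_exp]
  have hexp : ((-y - -y') * conj (x - x')).re = (u * conj v).re + (u * conj dx).re +
      (dz * conj v).re + (dz * conj dx).re := by
    rw [ex, ey, map_add]
    have : (u + dz) * (conj v + conj dx) = u * conj v + u * conj dx + dz * conj v +
        dz * conj dx := by ring
    rw [this, Complex.add_re, Complex.add_re, Complex.add_re]
  have b1 := le_of_abs_le (abs_re_mul_conj_le u dx)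
  have b2 := le_of_abs_le (abs_re_mul_conj_le dz v)
  have b3 := le_of_abs_le (abs_re_mul_conj_le dz dx)
  set α := a' - a with hα
  set β := b - b' with hβ
  have hα0 : 0 < α := by linarith
  have hβ0 : 0 < β := by linarith
  have c1 : ‖u‖ * ‖dx‖ ≤ β * (2 * T) := mul_le_mul nu nx (norm_nonneg _) hβ0.le
  have c2 : ‖dz‖ * ‖v‖ ≤ (2 * T) * α := mul_le_mul ny nv (norm_nonneg _) (by positivity)
  have c3 : ‖dz‖ * ‖dx‖ ≤ (2 * T) * (2 * T) := mul_le_mul ny nx (norm_nonneg _) (by positivity)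
  have d1 : β * (2 * T) ≤ β * (α / 50) := mul_le_mul_of_nonneg_left (by linarith) hβ0.le
  have d2 : (2 * T) * α ≤ (β / 50) * α := mul_le_mul_of_nonneg_right (by linarith) hα0.le
  have d3 : (2 * T) * (2 * T) ≤ (β / 50) * (α / 50) :=
    mul_le_mul (by linarith) (by linarith) (by positivity) (by positivity)
  have hαβ : 0 < α * β := mul_pos hα0 hβ0
  rw [hexp, huv] at hsw
  nlinarith

/-- PROOF: `dist x y ^ 2 + dist x' y' ^ 2 - dist x y' ^ 2 - dist x' y ^ 2
= 2 Re ((y' - y) conj (x - x'))`, and `dist x x' ≤ (1 + T) t + 2 T ≤ 1.1 t`, `dist y y' ≤ 1.1 t`. -/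
theorem cross_ge {x y x' y' : ℂ} {T t r : ℝ} (hT : 100 * T ≤ t) (ht0 : 0 < t)
    (ht : t ≤ 1 / 10 ^ 4) (hx : |‖x‖ ^ 2 - 1| ≤ T) (hy : |‖y‖ ^ 2 - 1| ≤ T)
    (hx' : |‖x'‖ ^ 2 - 1| ≤ T) (hy' : |‖y'‖ ^ 2 - 1| ≤ T)
    (h : r ≤ dist x y ^ 2) (h' : r ≤ dist x' y' ^ 2)
    (ha : |Complex.arg x - Complex.arg x'| ≤ t)
    (hb : |Complex.arg (-y) - Complex.arg (-y')| ≤ t) :
    r - 2 * t ^ 2 ≤ dist x y' ^ 2 ∨ r - 2 * t ^ 2 ≤ dist x' y ^ 2 := by
  by_contra hcon
  push Not at hcon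
  obtain ⟨h1, h2⟩ := hcon
  have e1 : ((-y - -y') * conj (x - x')).re = (-y * conj x).re + (-y' * conj x').re -
      (-y' * conj x).re - (-y * conj x').re := by
    rw [map_sub]
    have : (-y - -y') * (conj x - conj x') = -y * conj x + -y' * conj x' - -y' * conj x -
        -y * conj x' := by ring
    rw [this, Complex.sub_re, Complex.sub_re, Complex.add_re]
  rw [dist_sq_neg x y'] at h1
  rw [dist_sq_neg x' y] at h2
  rw [dist_sq_neg x y] at h
  rw [dist_sq_neg x' y'] at h'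
  have hlow : 2 * t ^ 2 < ((-y - -y') * conj (x - x')).re := by
    rw [e1]; linarith
  have hup := le_of_abs_le (abs_re_mul_conj_le (-y - -y') (x - x'))
  have hnorm : ∀ z z' : ℂ, |‖z‖ ^ 2 - 1| ≤ T → |‖z'‖ ^ 2 - 1| ≤ T →
      |Complex.arg z - Complex.arg z'| ≤ t → ‖z - z'‖ ≤ 11 / 10 * t := by
    intro z z' hz hz' hzz
    have g1 := dist_polar_le z z'
    have g2 := abs_le.1 (norm_sub_one_le hz)
    have g3 := abs_le.1 (norm_sub_one_le hz')
    have g4 : |‖z‖ - ‖z'‖| ≤ 2 * T := by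
      rw [abs_le]; constructor <;> linarith
    have g5 : ‖z'‖ * |Complex.arg z - Complex.arg z'| ≤ 101 / 100 * t :=
      mul_le_mul (by linarith) hzz (abs_nonneg _) (by norm_num)
    rw [← Complex.dist_eq]
    linarith
  have n1 := hnorm x x' hx hx' ha
  have n2 := hnorm (-y) (-y') (by rw [norm_neg]; exact hy) (by rw [norm_neg]; exact hy') hb
  have n3 : ‖-y - -y'‖ * ‖x - x'‖ ≤ (11 / 10 * t) * (11 / 10 * t) :=
    mul_le_mul n2 n1 (norm_nonneg _) (by positivity)
  have n4 : 0 < t ^ 2 := by positivity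
  nlinarith

end Pool.Agent.Vps
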