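import Pool.Agent.Lib.Vps.Defs

/-!
# A point on a given side, or an almost antipodal point
-/

open Finset
open scoped ComplexConjugate

namespace Pool.Agent.Vps

/-- Pointwise inequality: points in the allowed arc have positive product with a fixed direction. -/
theorem centroid_aux {n t T : ℝ} (hT : T ≤ 1 / 10 ^ 8) (hsum : (1 - T) * (1 - T) ≤ n ^ 2 + t ^ 2)
    (ht : t < 2 / 1000) (hn : -(1 - 50 / 10 ^ 6) < n) : 0 < 6 / 1000 * n - t := by
  have hlow : (1 - 1 / 10 ^ 8) * (1 - 1 / 10 ^ 8) ≤ n ^ 2 + t ^ 2 := by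
    refine le_trans ?_ hsum
    nlinarith
  by_cases h0 : 0 ≤ n
  · by_cases h1 : t < 0
    · nlinarith
    · push Not at h1
      have h2 : (999 / 1000 : ℝ) ≤ n := by
        by_contra hc
        push Not at hc
        nlinarith
      nlinarith
  · push Not at h0
    have h3 : n ^ 2 ≤ (1 - 50 / 10 ^ 6) ^ 2 := by nlinarith
    have h4 : t ≤ - (9 / 1000) := by
      by_contra hc
      push Not at hc
      have h5 : t ^ 2 ≤ (9 / 1000) ^ 2 := by nlinarith
      norm_num at h3 h5 hlow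
      linarith
    nlinarith

/-- With `n(y) = Re (y conj x0)`, `t(y) = σ Im (y conj x0)` and `η = 1/1000`: some `y ∈ X` has
`t(y) ≥ 2 η` or `n(y) ≤ -(1 - 50 η^2)`. Otherwise `6 η n(y) - t(y) > 0` for all `y ∈ X`, but the sum
of these numbers is `0`. -/
theorem centroid {X : Finset ℂ} {e T : ℝ} (h : Ann X e T) {x0 : ℂ} (hx0 : x0 ∈ X)
    (hT : T ≤ 1 / 10 ^ 8) {σ : ℝ} (hσ : σ = 1 ∨ σ = -1) :
    ∃ y ∈ X, 2 / 1000 ≤ σ * (y * conj x0).im ∨ (y * conj x0).re ≤ -(1 - 50 / 10 ^ 6) := by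
  by_contra hcon
  push Not at hcon
  have hσ2 : σ ^ 2 = 1 := by
    rcases hσ with h1 | h1 <;> rw [h1] <;> norm_num
  have hpos : ∀ y ∈ X, 0 < 6 / 1000 * (y * conj x0).re - σ * (y * conj x0).im := by
    intro y hy
    obtain ⟨h1, h2⟩ := hcon y hy
    apply centroid_aux hT _ h1 h2
    have h3 := norm_sq_frame x0 y
    have h4 := abs_le.1 (h.ann y hy)
    have h5 := abs_le.1 (h.ann x0 hx0)
    rw [mul_pow, hσ2, one_mul, ← h3]
    apply mul_le_mul
    · linarith
    · linarith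
    · linarith
    · positivity
  have hsum : ∑ y ∈ X, (6 / 1000 * (y * conj x0).re - σ * (y * conj x0).im) = 0 := by
    rw [Finset.sum_sub_distrib, ← Finset.mul_sum, ← Finset.mul_sum]
    have h1 : ∑ y ∈ X, (y * conj x0).re = 0 := by
      rw [← Complex.re_sum, ← Finset.sum_mul, h.sum_zero, zero_mul, Complex.zero_re]
    have h2 : ∑ y ∈ X, (y * conj x0).im = 0 := by
      rw [← Complex.im_sum, ← Finset.sum_mul, h.sum_zero, zero_mul, Complex.zero_im]
    rw [h1, h2]
    ring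
  have := Finset.sum_pos hpos h.nonempty
  linarith

end Pool.Agent.Vps
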