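import Mathlib

/-!
# A union bound
-/

open Finset

namespace Pool.Agent.Vps

namespace ChooseAux

/-- The quadruples. -/
def U (M : ℕ) : Finset ((ℕ × ℕ) × (ℕ × ℕ)) := (range M ×ˢ range M) ×ˢ (range M ×ˢ range M)

theorem mem_U {M : ℕ} {t : (ℕ × ℕ) × (ℕ × ℕ)} :
    t ∈ U M ↔ (t.1.1 < M ∧ t.1.2 < M) ∧ (t.2.1 < M ∧ t.2.2 < M) := by
  unfold U
  rw [Finset.mem_product, Finset.mem_product, Finset.mem_product, Finset.mem_range,
    Finset.mem_range, Finset.mem_range, Finset.mem_range]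

theorem card_U (M : ℕ) : (U M).card = M * M * (M * M) := by
  unfold U
  rw [Finset.card_product, Finset.card_product, Finset.card_range]

theorem cnt {M : ℕ} (f g : (ℕ × ℕ) × (ℕ × ℕ) → ℕ × ℕ)
    (hg : ∀ t ∈ U M, g t ∈ range M ×ˢ range M)
    (hinj : ∀ t ∈ U M, ∀ t' ∈ U M, f t = f t' → g t = g t' → t = t') (Bad : Finset (ℕ × ℕ)) :
    ((U M).filter fun t => f t ∈ Bad).card ≤ M * M * Bad.card := by
  refine Finset.card_le_mul_card_image_of_maps_to (f := f) ?_ _ ?_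
  · intro t ht
    exact (Finset.mem_filter.mp ht).2
  · intro b _
    calc _ ≤ (range M ×ˢ range M).card := by
          refine Finset.card_le_card_of_injOn g ?_ ?_
          · intro t ht
            rw [Finset.mem_coe, Finset.mem_filter, Finset.mem_filter] at ht
            exact hg t ht.1.1
          · intro t ht t' ht' htt
            rw [Finset.mem_coe, Finset.mem_filter, Finset.mem_filter] at ht ht'
            exact hinj t ht.1.1 t' ht'.1.1 (ht.2.trans ht'.2.symm) htt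
      _ = M * M := by rw [Finset.card_product, Finset.card_range]

theorem cnt' {M : ℕ} {b : ℝ} (f g : (ℕ × ℕ) × (ℕ × ℕ) → ℕ × ℕ)
    (hg : ∀ t ∈ U M, g t ∈ range M ×ˢ range M)
    (hinj : ∀ t ∈ U M, ∀ t' ∈ U M, f t = f t' → g t = g t' → t = t') (Bad : Finset (ℕ × ℕ))
    (hb : (Bad.card : ℝ) ≤ b) :
    (((U M).filter fun t => f t ∈ Bad).card : ℝ) ≤ (M : ℝ) ^ 2 * b := by
  have h1 := cnt f g hg hinj Bad
  calc (((U M).filter fun t => f t ∈ Bad).card : ℝ) ≤ ((M * M * Bad.card : ℕ) : ℝ) := by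
        exact_mod_cast h1
    _ = (M : ℝ) ^ 2 * (Bad.card : ℝ) := by push_cast; ring
    _ ≤ _ := mul_le_mul_of_nonneg_left hb (by positivity)

theorem cnt4 {M : ℕ} {b : ℝ} (f g : ℕ → (ℕ × ℕ) × (ℕ × ℕ) → ℕ × ℕ)
    (hg : ∀ k, ∀ t ∈ U M, g k t ∈ range M ×ˢ range M)
    (hinj : ∀ k, ∀ t ∈ U M, ∀ t' ∈ U M, f k t = f k t' → g k t = g k t' → t = t')
    (Bad : Finset (ℕ × ℕ)) (hb : (Bad.card : ℝ) ≤ b) :
    (((range 4).biUnion fun k => (U M).filter fun t => f k t ∈ Bad).card : ℝ) ≤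
      4 * ((M : ℝ) ^ 2 * b) := by
  calc (((range 4).biUnion fun k => (U M).filter fun t => f k t ∈ Bad).card : ℝ)
      ≤ ((∑ k ∈ range 4, ((U M).filter fun t => f k t ∈ Bad).card : ℕ) : ℝ) := by
        exact_mod_cast Finset.card_biUnion_le
    _ = ∑ k ∈ range 4, (((U M).filter fun t => f k t ∈ Bad).card : ℝ) := by push_cast; rfl
    _ ≤ ∑ k ∈ range 4, (M : ℝ) ^ 2 * b :=
        Finset.sum_le_sum fun k _ => cnt' (f k) (g k) (hg k) (hinj k) Bad hb
    _ = _ := by rw [Finset.sum_const, Finset.card_range, nsmul_eq_mul]; norm_num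

end ChooseAux

open ChooseAux

/-- PROOF. Suppose not. Then `range M ^ 4` is covered by the 15 sets of quadruples
`(i1, i2, i3, j)` for which one of the 15 requirements fails; each has at most `b M ^ 2`
elements (two coordinates are free; for the requirements with `j + k`, `j + k < M + 3` and
`j ↦ j + k` is injective). So `M ^ 4 ≤ 15 b M ^ 2`. -/
theorem choose4 (M : ℕ) (b : ℝ) (G12 G13 G23 G1 G2 G3 : ℕ → ℕ → Prop)
    [DecidableRel G12] [DecidableRel G13] [DecidableRel G23] [DecidableRel G1] [DecidableRel G2]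
    [DecidableRel G3]
    (h12 : (((range M ×ˢ range M).filter fun t => ¬ G12 t.1 t.2).card : ℝ) ≤ b)
    (h13 : (((range M ×ˢ range M).filter fun t => ¬ G13 t.1 t.2).card : ℝ) ≤ b)
    (h23 : (((range M ×ˢ range M).filter fun t => ¬ G23 t.1 t.2).card : ℝ) ≤ b)
    (h1 : (((range M ×ˢ range (M + 3)).filter fun t => ¬ G1 t.1 t.2).card : ℝ) ≤ b)
    (h2 : (((range M ×ˢ range (M + 3)).filter fun t => ¬ G2 t.1 t.2).card : ℝ) ≤ b)
    (h3 : (((range M ×ˢ range (M + 3)).filter fun t => ¬ G3 t.1 t.2).card : ℝ) ≤ b)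
    (hb : 15 * b < (M : ℝ) ^ 2) :
    ∃ i1 < M, ∃ i2 < M, ∃ i3 < M, ∃ j < M, G12 i1 i2 ∧ G13 i1 i3 ∧ G23 i2 i3 ∧
      ∀ k < 4, G1 i1 (j + k) ∧ G2 i2 (j + k) ∧ G3 i3 (j + k) := by
  classical
  by_contra hcon
  have hb0 : 0 ≤ b := le_trans (by positivity) h12
  have hM0 : (0:ℝ) < (M : ℝ) ^ 2 := by linarith
  set B12 := (range M ×ˢ range M).filter fun t => ¬ G12 t.1 t.2 with hB12
  set B13 := (range M ×ˢ range M).filter fun t => ¬ G13 t.1 t.2 with hB13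
  set B23 := (range M ×ˢ range M).filter fun t => ¬ G23 t.1 t.2 with hB23
  set B1 := (range M ×ˢ range (M + 3)).filter fun t => ¬ G1 t.1 t.2 with hB1
  set B2 := (range M ×ˢ range (M + 3)).filter fun t => ¬ G2 t.1 t.2 with hB2
  set B3 := (range M ×ˢ range (M + 3)).filter fun t => ¬ G3 t.1 t.2 with hB3
  set A12 := (U M).filter fun t => (t.1.1, t.1.2) ∈ B12 with hA12
  set A13 := (U M).filter fun t => (t.1.1, t.2.1) ∈ B13 with hA13
  set A23 := (U M).filter fun t => (t.1.2, t.2.1) ∈ B23 with hA23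
  set A1 := (range 4).biUnion fun k => (U M).filter fun t => (t.1.1, t.2.2 + k) ∈ B1 with hA1
  set A2 := (range 4).biUnion fun k => (U M).filter fun t => (t.1.2, t.2.2 + k) ∈ B2 with hA2
  set A3 := (range 4).biUnion fun k => (U M).filter fun t => (t.2.1, t.2.2 + k) ∈ B3 with hA3
  have c12 : (A12.card : ℝ) ≤ (M : ℝ) ^ 2 * b := by
    refine cnt' (fun t => (t.1.1, t.1.2)) (fun t => (t.2.1, t.2.2)) ?_ ?_ B12 h12
    · intro t ht
      rw [mem_U] at ht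
      simp only [Finset.mem_product, Finset.mem_range]
      exact ht.2
    · rintro ⟨⟨a, b⟩, c, d⟩ _ ⟨⟨a', b'⟩, c', d'⟩ _ hf hg
      simp only [Prod.mk.injEq] at hf hg ⊢
      exact ⟨hf, hg⟩
  have c13 : (A13.card : ℝ) ≤ (M : ℝ) ^ 2 * b := by
    refine cnt' (fun t => (t.1.1, t.2.1)) (fun t => (t.1.2, t.2.2)) ?_ ?_ B13 h13
    · intro t ht
      rw [mem_U] at ht
      simp only [Finset.mem_product, Finset.mem_range]
      exact ⟨ht.1.2, ht.2.2⟩
    · rintro ⟨⟨a, b⟩, c, d⟩ _ ⟨⟨a', b'⟩, c', d'⟩ _ hf hg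
      simp only [Prod.mk.injEq] at hf hg ⊢
      exact ⟨⟨hf.1, hg.1⟩, hf.2, hg.2⟩
  have c23 : (A23.card : ℝ) ≤ (M : ℝ) ^ 2 * b := by
    refine cnt' (fun t => (t.1.2, t.2.1)) (fun t => (t.1.1, t.2.2)) ?_ ?_ B23 h23
    · intro t ht
      rw [mem_U] at ht
      simp only [Finset.mem_product, Finset.mem_range]
      exact ⟨ht.1.1, ht.2.2⟩
    · rintro ⟨⟨a, b⟩, c, d⟩ _ ⟨⟨a', b'⟩, c', d'⟩ _ hf hg
      simp only [Prod.mk.injEq] at hf hg ⊢
      exact ⟨⟨hg.1, hf.1⟩, hf.2, hg.2⟩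
  have c1 : (A1.card : ℝ) ≤ 4 * ((M : ℝ) ^ 2 * b) := by
    refine cnt4 (fun k t => (t.1.1, t.2.2 + k)) (fun _ t => (t.1.2, t.2.1)) ?_ ?_ B1 h1
    · intro k t ht
      rw [mem_U] at ht
      simp only [Finset.mem_product, Finset.mem_range]
      exact ⟨ht.1.2, ht.2.1⟩
    · rintro k ⟨⟨a, b⟩, c, d⟩ _ ⟨⟨a', b'⟩, c', d'⟩ _ hf hg
      simp only [Prod.mk.injEq] at hf hg ⊢
      exact ⟨⟨hf.1, hg.1⟩, hg.2, by omega⟩
  have c2 : (A2.card : ℝ) ≤ 4 * ((M : ℝ) ^ 2 * b) := by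
    refine cnt4 (fun k t => (t.1.2, t.2.2 + k)) (fun _ t => (t.1.1, t.2.1)) ?_ ?_ B2 h2
    · intro k t ht
      rw [mem_U] at ht
      simp only [Finset.mem_product, Finset.mem_range]
      exact ⟨ht.1.1, ht.2.1⟩
    · rintro k ⟨⟨a, b⟩, c, d⟩ _ ⟨⟨a', b'⟩, c', d'⟩ _ hf hg
      simp only [Prod.mk.injEq] at hf hg ⊢
      exact ⟨⟨hg.1, hf.1⟩, hg.2, by omega⟩
  have c3 : (A3.card : ℝ) ≤ 4 * ((M : ℝ) ^ 2 * b) := by
    refine cnt4 (fun k t => (t.2.1, t.2.2 + k)) (fun _ t => (t.1.1, t.1.2)) ?_ ?_ B3 h3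
    · intro k t ht
      rw [mem_U] at ht
      simp only [Finset.mem_product, Finset.mem_range]
      exact ⟨ht.1.1, ht.1.2⟩
    · rintro k ⟨⟨a, b⟩, c, d⟩ _ ⟨⟨a', b'⟩, c', d'⟩ _ hf hg
      simp only [Prod.mk.injEq] at hf hg ⊢
      exact ⟨⟨hg.1, hg.2⟩, hf.1, by omega⟩
  have hcov : U M ⊆ A12 ∪ (A13 ∪ (A23 ∪ (A1 ∪ (A2 ∪ A3)))) := by
    rintro ⟨⟨i1, i2⟩, i3, j⟩ ht
    have ht' := mem_U.mp ht
    simp only at ht'
    by_contra hnot
    simp only [Finset.mem_union, not_or] at hnot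
    obtain ⟨n12, n13, n23, n1, n2, n3⟩ := hnot
    have g12 : G12 i1 i2 := by
      by_contra h'
      refine n12 (Finset.mem_filter.mpr ⟨ht, ?_⟩)
      rw [hB12, Finset.mem_filter, Finset.mem_product, Finset.mem_range, Finset.mem_range]
      exact ⟨⟨ht'.1.1, ht'.1.2⟩, h'⟩
    have g13 : G13 i1 i3 := by
      by_contra h'
      refine n13 (Finset.mem_filter.mpr ⟨ht, ?_⟩)
      rw [hB13, Finset.mem_filter, Finset.mem_product, Finset.mem_range, Finset.mem_range]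
      exact ⟨⟨ht'.1.1, ht'.2.1⟩, h'⟩
    have g23 : G23 i2 i3 := by
      by_contra h'
      refine n23 (Finset.mem_filter.mpr ⟨ht, ?_⟩)
      rw [hB23, Finset.mem_filter, Finset.mem_product, Finset.mem_range, Finset.mem_range]
      exact ⟨⟨ht'.1.2, ht'.2.1⟩, h'⟩
    refine hcon ⟨i1, ht'.1.1, i2, ht'.1.2, i3, ht'.2.1, j, ht'.2.2, g12, g13, g23, ?_⟩
    intro k hk
    refine ⟨?_, ?_, ?_⟩
    · by_contra h'
      refine n1 (Finset.mem_biUnion.mpr ⟨k, Finset.mem_range.mpr hk,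
        Finset.mem_filter.mpr ⟨ht, ?_⟩⟩)
      rw [hB1, Finset.mem_filter, Finset.mem_product, Finset.mem_range, Finset.mem_range]
      exact ⟨⟨ht'.1.1, by simp only; omega⟩, h'⟩
    · by_contra h'
      refine n2 (Finset.mem_biUnion.mpr ⟨k, Finset.mem_range.mpr hk,
        Finset.mem_filter.mpr ⟨ht, ?_⟩⟩)
      rw [hB2, Finset.mem_filter, Finset.mem_product, Finset.mem_range, Finset.mem_range]
      exact ⟨⟨ht'.1.2, by simp only; omega⟩, h'⟩
    · by_contra h'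
      refine n3 (Finset.mem_biUnion.mpr ⟨k, Finset.mem_range.mpr hk,
        Finset.mem_filter.mpr ⟨ht, ?_⟩⟩)
      rw [hB3, Finset.mem_filter, Finset.mem_product, Finset.mem_range, Finset.mem_range]
      exact ⟨⟨ht'.2.1, by simp only; omega⟩, h'⟩
  have hc := (Finset.card_le_card hcov).trans ((Finset.card_union_le _ _).trans
    (Nat.add_le_add_left ((Finset.card_union_le _ _).trans
      (Nat.add_le_add_left ((Finset.card_union_le _ _).trans
        (Nat.add_le_add_left ((Finset.card_union_le _ _).trans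
          (Nat.add_le_add_left (Finset.card_union_le _ _) _)) _)) _)) _))
  rw [card_U] at hc
  have hc' : ((M * M * (M * M) : ℕ) : ℝ) ≤ (A12.card : ℝ) + (A13.card + (A23.card +
      (A1.card + (A2.card + A3.card)))) := by exact_mod_cast hc
  push_cast at hc'
  have h4 : (M : ℝ) ^ 2 * (M : ℝ) ^ 2 ≤ (M : ℝ) ^ 2 * (15 * b) := by
    calc (M : ℝ) ^ 2 * (M : ℝ) ^ 2 = (M : ℝ) * M * (M * M) := by ring
      _ ≤ _ := hc'
      _ ≤ (M : ℝ) ^ 2 * b + ((M : ℝ) ^ 2 * b + ((M : ℝ) ^ 2 * b + (4 * ((M : ℝ) ^ 2 * b) +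
          (4 * ((M : ℝ) ^ 2 * b) + 4 * ((M : ℝ) ^ 2 * b))))) := by
        gcongr
      _ = _ := by ring
  have h5 := le_of_mul_le_mul_left h4 hM0
  linarith

end Pool.Agent.Vps
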