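import Pool.Agent.Lib.Vps.Defs

/-!
# The conjugate system
-/

open Finset
open scoped ComplexConjugate

namespace Pool.Agent.Vps

theorem conj_inj' {a b : ℂ} : conj a = conj b ↔ a = b :=
  (starRingEnd ℂ).injective.eq_iff

theorem dist_conj' (a b : ℂ) : dist (conj a) (conj b) = dist a b := by
  rw [Complex.dist_eq, Complex.dist_eq, ← map_sub, Complex.norm_conj]

theorem Dset_cX (X : Finset ℂ) : Dset (cX X) = Dset X := by
  ext d
  rw [mem_Dset, mem_Dset]
  constructor
  · rintro ⟨x, hx, y, hy, hxy, h⟩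
    exact ⟨conj x, mem_cX.1 hx, conj y, mem_cX.1 hy, fun h' => hxy (conj_inj'.1 h'),
      by rw [dist_conj', h]⟩
  · rintro ⟨x, hx, y, hy, hxy, h⟩
    exact ⟨conj x, mem_cX.2 (by simpa using hx), conj y, mem_cX.2 (by simpa using hy),
      fun h' => hxy (conj_inj'.1 h'), by rw [dist_conj', h]⟩

theorem mem_ball_cX {X : Finset ℂ} {z y : ℂ} {ρ : ℝ} :
    y ∈ ball (cX X) (conj z) ρ ↔ conj y ∈ ball X z ρ := by
  rw [mem_ball, mem_ball, mem_cX]
  have : dist y (conj z) = dist (conj y) z := by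
    rw [← dist_conj' y (conj z), Complex.conj_conj]
  rw [this]

theorem ball_cX (X : Finset ℂ) (z : ℂ) (ρ : ℝ) :
    ball (cX X) (conj z) ρ = (ball X z ρ).image (fun z => conj z) := by
  ext y
  rw [mem_ball_cX, Finset.mem_image]
  constructor
  · intro h; exact ⟨conj y, h, by simp⟩
  · rintro ⟨w, hw, rfl⟩; simpa using hw

theorem card_ball_cX (X : Finset ℂ) (z : ℂ) (ρ : ℝ) :
    (ball (cX X) (conj z) ρ).card = (ball X z ρ).card := by
  rw [ball_cX]
  exact Finset.card_image_of_injective _ (starRingEnd ℂ).injective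

theorem sys_cX {X : Finset ℂ} {e : ℝ} (h : Sys X e) : Sys (cX X) e where
  valid := by
    intro x hx r
    have h1 := h.valid (conj x) (mem_cX.1 hx) r
    refine le_trans ?_ h1
    refine Finset.card_le_card_of_injOn (fun z => conj z) ?_
      (fun a _ b _ hab => conj_inj'.1 hab)
    intro y hy
    simp only [Finset.coe_filter, Set.mem_setOf_eq] at hy ⊢
    refine ⟨mem_cX.1 hy.1, fun h' => hy.2.1 (conj_inj'.1 h'), ?_⟩
    rw [dist_conj', hy.2.2]
  defect := by rw [Dset_cX, card_cX]; exact h.defect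
  nonneg := h.nonneg

theorem ann_cX {X : Finset ℂ} {e T : ℝ} (h : Ann X e T) : Ann (cX X) e T where
  toSys := sys_cX h.toSys
  sum_zero := by
    unfold cX
    rw [Finset.sum_image (fun a _ b _ hab => conj_inj'.1 hab)]
    rw [← map_sum, h.sum_zero, map_zero]
  ann := by
    intro x hx
    have := h.ann (conj x) (mem_cX.1 hx)
    rwa [Complex.norm_conj] at this
  nonempty := by
    obtain ⟨x, hx⟩ := h.nonempty
    exact ⟨conj x, mem_cX.2 (by simpa using hx)⟩

end Pool.Agent.Vps
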