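import Pool.Agent.Lib.Vps.Defs

/-!
# An isometry moving a sequence one step
-/

open Finset
open scoped ComplexConjugate

namespace Pool.Agent.Vps

namespace IsomAux

theorem sq_eq {a z : ℂ} : dist a z ^ 2 = (a.re - z.re) ^ 2 + (a.im - z.im) ^ 2 := by
  rw [Complex.dist_eq, ← Complex.normSq_eq_norm_sq, Complex.normSq_apply]
  simp only [Complex.sub_re, Complex.sub_im]
  ring

theorem im_eq (a b c : ℂ) : ((b - a) * conj (c - a)).im =
    (b.im - a.im) * (c.re - a.re) - (b.re - a.re) * (c.im - a.im) := by
  simp only [Complex.mul_im, Complex.sub_re, Complex.sub_im, Complex.conj_re, Complex.conj_im]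
  ring

theorem im_self (δ : ℂ) : (δ * conj (δ + δ)).im = 0 := by
  simp only [Complex.mul_im, Complex.conj_re, Complex.conj_im, Complex.add_re, Complex.add_im]
  ring

theorem mul_conj_of_norm {α : ℂ} (h : ‖α‖ = 1) : α * conj α = 1 := by
  rw [Complex.mul_conj, Complex.normSq_eq_norm_sq, h]
  norm_num

end IsomAux

open IsomAux

/-- The distances to three non-collinear points determine a point.
PROOF: subtract the squared distance equations. -/
theorem eq_of_dist {a b c z z' : ℂ} (hnc : ((b - a) * conj (c - a)).im ≠ 0)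
    (ha : dist a z = dist a z') (hb : dist b z = dist b z') (hc : dist c z = dist c z') :
    z = z' := by
  rw [im_eq] at hnc
  have ha2 : dist a z ^ 2 = dist a z' ^ 2 := by rw [ha]
  have hb2 : dist b z ^ 2 = dist b z' ^ 2 := by rw [hb]
  have hc2 : dist c z ^ 2 = dist c z' ^ 2 := by rw [hc]
  rw [sq_eq, sq_eq] at ha2 hb2 hc2
  have h1 : (z'.re - z.re) * (b.re - a.re) + (z'.im - z.im) * (b.im - a.im) = 0 := by
    linear_combination (hb2 - ha2) / 2
  have h2 : (z'.re - z.re) * (c.re - a.re) + (z'.im - z.im) * (c.im - a.im) = 0 := by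
    linear_combination (hc2 - ha2) / 2
  have h3 : (z'.re - z.re) * ((b.im - a.im) * (c.re - a.re) - (b.re - a.re) * (c.im - a.im)) = 0 := by
    linear_combination (b.im - a.im) * h2 - (c.im - a.im) * h1
  have h4 : (z'.im - z.im) * ((b.im - a.im) * (c.re - a.re) - (b.re - a.re) * (c.im - a.im)) = 0 := by
    linear_combination (c.re - a.re) * h1 - (b.re - a.re) * h2
  have h5 := (mul_eq_zero.mp h3).resolve_right hnc
  have h6 := (mul_eq_zero.mp h4).resolve_right hnc
  apply Complex.ext <;> linarith

/-- Congruent triangles. PROOF: with `α = (b' - a') / (b - a)`, `‖α‖ = 1`, the point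
`γ = (c' - a') / α` has the same distances to `0` and `b - a` as `c - a`, so `γ = c - a` or `γ` is the mirror
image of `c - a` in the line `ℝ (b - a)`, i.e. `γ = (b - a) / conj (b - a) * conj (c - a)`. -/
theorem exists_isom {a b c a' b' c' : ℂ} (hnc : ((b - a) * conj (c - a)).im ≠ 0)
    (h1 : dist a b = dist a' b') (h2 : dist a c = dist a' c') (h3 : dist b c = dist b' c') :
    (∃ α β : ℂ, ‖α‖ = 1 ∧ a' = α * a + β ∧ b' = α * b + β ∧ c' = α * c + β) ∨
    (∃ α β : ℂ, ‖α‖ = 1 ∧ a' = α * conj a + β ∧ b' = α * conj b + β ∧ c' = α * conj c + β) := by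
  have hd : b - a ≠ 0 := by
    intro h0
    apply hnc
    rw [h0, zero_mul, Complex.zero_im]
  have hdc : conj (b - a) ≠ 0 := by
    intro h0
    exact hd ((map_eq_zero _).mp h0)
  set d := b - a with hd_def
  set α := (b' - a') / d with hα
  have hnorm : ‖b' - a'‖ = ‖d‖ := by
    rw [hd_def, ← Complex.dist_eq, ← Complex.dist_eq, dist_comm b' a', dist_comm b a, h1]
  have hα1 : ‖α‖ = 1 := by
    rw [hα, norm_div, hnorm, div_self (norm_ne_zero_iff.mpr hd)]
  have hα0 : α ≠ 0 := by
    rw [← norm_pos_iff, hα1]; norm_num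
  have hαd : α * d = b' - a' := by rw [hα]; field_simp
  set s := c - a with hs
  set γ := (c' - a') / α with hγ
  have hαγ : α * γ = c' - a' := by rw [hγ]; field_simp
  have hγ1 : ‖γ‖ = ‖s‖ := by
    rw [hγ, norm_div, hα1, div_one, hs, ← Complex.dist_eq, ← Complex.dist_eq, dist_comm c' a',
      dist_comm c a, h2]
  have hγ2 : ‖γ - d‖ = ‖s - d‖ := by
    have e1 : ‖γ - d‖ = ‖α * (γ - d)‖ := by rw [norm_mul, hα1, one_mul]
    have e2 : α * (γ - d) = c' - b' := by rw [mul_sub, hαγ, hαd]; ring
    have e3 : s - d = c - b := by rw [hs, hd_def]; ring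
    rw [e1, e2, e3, ← Complex.dist_eq, ← Complex.dist_eq, dist_comm c' b', dist_comm c b, h3]
  have hγ1' : γ.re ^ 2 + γ.im ^ 2 = s.re ^ 2 + s.im ^ 2 := by
    have : ‖γ‖ ^ 2 = ‖s‖ ^ 2 := by rw [hγ1]
    rw [← Complex.normSq_eq_norm_sq, ← Complex.normSq_eq_norm_sq, Complex.normSq_apply,
      Complex.normSq_apply] at this
    linarith
  have hγ2' : (γ.re - d.re) ^ 2 + (γ.im - d.im) ^ 2 = (s.re - d.re) ^ 2 + (s.im - d.im) ^ 2 := by
    have : ‖γ - d‖ ^ 2 = ‖s - d‖ ^ 2 := by rw [hγ2]
    rw [← Complex.normSq_eq_norm_sq, ← Complex.normSq_eq_norm_sq, Complex.normSq_apply,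
      Complex.normSq_apply] at this
    simp only [Complex.sub_re, Complex.sub_im] at this
    linarith
  have hre : γ.re * d.re + γ.im * d.im = s.re * d.re + s.im * d.im := by
    linear_combination (hγ1' - hγ2') / 2
  have him2 : (γ.im * d.re - γ.re * d.im) ^ 2 = (s.im * d.re - s.re * d.im) ^ 2 := by
    have e1 : (γ.im * d.re - γ.re * d.im) ^ 2 =
        (γ.re ^ 2 + γ.im ^ 2) * (d.re ^ 2 + d.im ^ 2) - (γ.re * d.re + γ.im * d.im) ^ 2 := by ring
    have e2 : (s.im * d.re - s.re * d.im) ^ 2 =
        (s.re ^ 2 + s.im ^ 2) * (d.re ^ 2 + d.im ^ 2) - (s.re * d.re + s.im * d.im) ^ 2 := by ring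
    rw [e1, e2, hγ1', hre]
  rcases sq_eq_sq_iff_eq_or_eq_neg.mp him2 with him | him
  · left
    have hp : γ * conj d = s * conj d := by
      apply Complex.ext
      · simp only [Complex.mul_re, Complex.conj_re, Complex.conj_im]
        linarith
      · simp only [Complex.mul_im, Complex.conj_re, Complex.conj_im]
        linarith
    have hγs : γ = s := mul_right_cancel₀ hdc hp
    refine ⟨α, a' - α * a, hα1, by ring, ?_, ?_⟩
    · have : α * b + (a' - α * a) = α * d + a' := by rw [hd_def]; ring
      rw [this, hαd]; ring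
    · have : α * c + (a' - α * a) = α * s + a' := by rw [hs]; ring
      rw [this, ← hγs, hαγ]; ring
  · right
    have hp : γ * conj d = conj s * d := by
      apply Complex.ext
      · simp only [Complex.mul_re, Complex.conj_re, Complex.conj_im]
        linarith
      · simp only [Complex.mul_im, Complex.conj_re, Complex.conj_im]
        linarith
    set α' := α * (d / conj d) with hα'
    have hα'1 : ‖α'‖ = 1 := by
      rw [hα', norm_mul, hα1, norm_div, Complex.norm_conj, div_self (norm_ne_zero_iff.mpr hd),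
        one_mul]
    have e1 : α' * conj d = α * d := by rw [hα']; field_simp
    have e2 : α' * conj s = α * γ := by
      have : γ = conj s * d / conj d := by rw [eq_div_iff hdc, hp]
      rw [this, hα']; field_simp
    refine ⟨α', a' - α' * conj a, hα'1, by ring, ?_, ?_⟩
    · have : α' * conj b + (a' - α' * conj a) = α' * conj d + a' := by
        rw [hd_def, map_sub]; ring
      rw [this, e1, hαd]; ring
    · have : α' * conj c + (a' - α' * conj a) = α' * conj s + a' := by
        rw [hs, map_sub]; ring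
      rw [this, e2, hαγ]; ring

/-- PROOF. `exists_isom` gives an isometry `g` of the plane with `g p_i = p_i'`; then
`dist (g p_i) (g (q k)) = dist p_i (q k) = dist p_i' (q (k + 1))` and `eq_of_dist` give
`g (q k) = q (k + 1)` for `k < 4`. If `g z = α z + β` with `α = 1`: `q 1 - q 0 = q 2 - q 1 = β`,
collinear. If `α ≠ 1`, with `w = β / (1 - α)`, all of `q 0, …, q 3` are at the same distance from
`w`. If `g z = α conj z + β` then `g (g z) = z + (α conj β + β)`, so `q 0, q 2, q 4` are
collinear. -/
theorem isom_contra {p1 p2 p3 p1' p2' p3' : ℂ} {q : ℕ → ℂ}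
    (hnc : ((p2 - p1) * conj (p3 - p1)).im ≠ 0)
    (h12 : dist p1 p2 = dist p1' p2') (h13 : dist p1 p3 = dist p1' p3')
    (h23 : dist p2 p3 = dist p2' p3')
    (hq : ∀ k < 4, dist p1 (q k) = dist p1' (q (k + 1)) ∧ dist p2 (q k) = dist p2' (q (k + 1)) ∧
      dist p3 (q k) = dist p3' (q (k + 1))) :
    ((q 1 - q 0) * conj (q 2 - q 0)).im = 0 ∨ ((q 2 - q 0) * conj (q 4 - q 0)).im = 0 ∨
      ∃ w : ℂ, ∃ r : ℝ, dist (q 0) w = r ∧ dist (q 1) w = r ∧ dist (q 2) w = r ∧
        dist (q 3) w = r := by
  rcases exists_isom hnc h12 h13 h23 with ⟨α, β, hα, e1, e2, e3⟩ | ⟨α, β, hα, e1, e2, e3⟩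
  · have hcc := mul_conj_of_norm hα
    have hnc' : ((p2' - p1') * conj (p3' - p1')).im ≠ 0 := by
      have : (p2' - p1') * conj (p3' - p1') = (p2 - p1) * conj (p3 - p1) := by
        rw [e1, e2, e3]
        have : (α * p2 + β - (α * p1 + β)) * conj (α * p3 + β - (α * p1 + β)) =
            (α * conj α) * ((p2 - p1) * conj (p3 - p1)) := by
          simp only [map_add, map_sub, map_mul]
          ring
        rw [this, hcc, one_mul]
      rw [this]; exact hnc
    have hd : ∀ z w : ℂ, dist (α * z + β) (α * w + β) = dist z w := by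
      intro z w
      rw [Complex.dist_eq, Complex.dist_eq]
      have : α * z + β - (α * w + β) = α * (z - w) := by ring
      rw [this, norm_mul, hα, one_mul]
    have hstep : ∀ k < 4, α * q k + β = q (k + 1) := by
      intro k hk
      obtain ⟨k1, k2, k3⟩ := hq k hk
      refine eq_of_dist hnc' ?_ ?_ ?_
      · rw [← k1, e1, hd]
      · rw [← k2, e2, hd]
      · rw [← k3, e3, hd]
    have s0 := hstep 0 (by norm_num)
    have s1 := hstep 1 (by norm_num)
    have s2 := hstep 2 (by norm_num)
    simp only [zero_add, Nat.reduceAdd] at s0 s1 s2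
    by_cases hα1 : α = 1
    · left
      rw [hα1] at s0 s1
      have f1 : q 1 - q 0 = β := by rw [← s0]; ring
      have f2 : q 2 - q 0 = β + β := by rw [← s1, ← s0]; ring
      rw [f1, f2]
      exact im_self β
    · right; right
      have h1α : 1 - α ≠ 0 := sub_ne_zero.mpr (Ne.symm hα1)
      refine ⟨β / (1 - α), dist (q 0) (β / (1 - α)), rfl, ?_⟩
      have hw : α * (β / (1 - α)) + β = β / (1 - α) := by field_simp; ring
      have key : ∀ z : ℂ, dist (α * z + β) (β / (1 - α)) = dist z (β / (1 - α)) := by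
        intro z
        have := hd z (β / (1 - α))
        rw [hw] at this
        exact this
      have t1 : dist (q 1) (β / (1 - α)) = dist (q 0) (β / (1 - α)) := by rw [← s0, key]
      have t2 : dist (q 2) (β / (1 - α)) = dist (q 0) (β / (1 - α)) := by rw [← s1, key, t1]
      have t3 : dist (q 3) (β / (1 - α)) = dist (q 0) (β / (1 - α)) := by rw [← s2, key, t2]
      exact ⟨t1, t2, t3⟩
  · have hcc := mul_conj_of_norm hα
    have hnc' : ((p2' - p1') * conj (p3' - p1')).im ≠ 0 := by
      have : (p2' - p1') * conj (p3' - p1') = conj ((p2 - p1) * conj (p3 - p1)) := by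
        rw [e1, e2, e3]
        have : (α * conj p2 + β - (α * conj p1 + β)) *
            conj (α * conj p3 + β - (α * conj p1 + β)) =
            (α * conj α) * conj ((p2 - p1) * conj (p3 - p1)) := by
          simp only [map_add, map_sub, map_mul, Complex.conj_conj]
          ring
        rw [this, hcc, one_mul]
      rw [this, Complex.conj_im]
      exact neg_ne_zero.mpr hnc
    have hd : ∀ z w : ℂ, dist (α * conj z + β) (α * conj w + β) = dist z w := by
      intro z w
      rw [Complex.dist_eq, Complex.dist_eq]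
      have : α * conj z + β - (α * conj w + β) = α * conj (z - w) := by
        rw [map_sub]; ring
      rw [this, norm_mul, hα, one_mul, Complex.norm_conj]
    have hstep : ∀ k < 4, α * conj (q k) + β = q (k + 1) := by
      intro k hk
      obtain ⟨k1, k2, k3⟩ := hq k hk
      refine eq_of_dist hnc' ?_ ?_ ?_
      · rw [← k1, e1, hd]
      · rw [← k2, e2, hd]
      · rw [← k3, e3, hd]
    right; left
    have s0 := hstep 0 (by norm_num)
    have s1 := hstep 1 (by norm_num)
    have s2 := hstep 2 (by norm_num)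
    have s3 := hstep 3 (by norm_num)
    simp only [zero_add, Nat.reduceAdd] at s0 s1 s2 s3
    have two : ∀ z : ℂ, α * conj (α * conj z + β) + β = z + (α * conj β + β) := by
      intro z
      simp only [map_add, map_mul, Complex.conj_conj]
      linear_combination z * hcc
    have f1 : q 2 = q 0 + (α * conj β + β) := by rw [← s1, ← s0, two]
    have f2 : q 4 = q 2 + (α * conj β + β) := by rw [← s3, ← s2, two]
    have g1 : q 2 - q 0 = α * conj β + β := by rw [f1]; ring
    have g2 : q 4 - q 0 = (α * conj β + β) + (α * conj β + β) := by rw [f2, f1]; ring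
    rw [g1, g2]
    exact im_self _

end Pool.Agent.Vps
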