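import Pool.Agent.Lib.Vps.Pairs
import Pool.Agent.Lib.Vps.Choose
import Pool.Agent.Lib.Vps.Isom

/-!
# The core contradiction
-/

open Finset
open scoped ComplexConjugate

namespace Pool.Agent.Vps

namespace CoreAux

theorem arg_small {w : ℂ} (hw : ‖w - 1‖ ≤ 1 / 100) : |Complex.arg w| ≤ 1 / 20 := by
  have hre : |w.re - 1| ≤ 1 / 100 := by
    have := Complex.abs_re_le_norm (w - 1)
    simpa using this.trans hw
  have him : |w.im| ≤ 1 / 100 := by
    have := Complex.abs_im_le_norm (w - 1)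
    simpa using this.trans hw
  have hre0 : 0 ≤ w.re := by
    have := (abs_le.mp hre).1
    linarith
  have hnorm : 99 / 100 ≤ ‖w‖ := by
    have h1 := Complex.abs_re_le_norm w
    have h2 := (abs_le.mp hre).1
    have h3 := le_abs_self w.re
    linarith
  have hn0 : 0 < ‖w‖ := by linarith
  have h1 : |Complex.arg w| ≤ Real.pi / 2 := Complex.abs_arg_le_pi_div_two_iff.mpr hre0
  have h2 : Real.sin |Complex.arg w| = |w.im| / ‖w‖ := by
    rw [← Real.abs_sin_eq_sin_abs_of_abs_le_pi (h1.trans (by linarith [Real.pi_pos])), Complex.sin_arg,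
      abs_div, abs_norm]
  have h3 := Real.mul_le_sin (abs_nonneg (Complex.arg w)) h1
  have h4 : |w.im| / ‖w‖ ≤ 1 / 99 := by
    rw [div_le_iff₀ hn0]; linarith
  have h5 : 2 / Real.pi * |Complex.arg w| ≤ 1 / 99 := h3.trans (h2.le.trans h4)
  have h6 : |Complex.arg w| ≤ Real.pi / 2 * (1 / 99) := by
    have hp := Real.pi_pos
    rw [div_mul_eq_mul_div, div_le_iff₀ hp] at h5
    linarith
  have h7 := Real.pi_lt_d2
  linarith

theorem arg_near {y : ℂ} {c : ℝ} (hc0 : 0 ≤ c) (hc1 : c ≤ 21 / 10)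
    (hy : dist y (Complex.exp (c * Complex.I)) ≤ 1 / 100) : |Complex.arg y - c| ≤ 1 / 20 := by
  set u := Complex.exp (c * Complex.I) with hu
  have hun : ‖u‖ = 1 := Complex.norm_exp_ofReal_mul_I c
  have hu0 : u ≠ 0 := by
    rw [← norm_pos_iff, hun]; norm_num
  have hpi := Real.pi_gt_three
  have hargu : Complex.arg u = c := by
    rw [hu, Complex.exp_mul_I]
    exact Complex.arg_cos_add_sin_mul_I ⟨by linarith, by linarith⟩
  have hw : ‖y / u - 1‖ ≤ 1 / 100 := by
    have : y / u - 1 = (y - u) / u := by field_simp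
    rw [this, norm_div, hun, div_one]
    rwa [Complex.dist_eq] at hy
  have hsm := arg_small hw
  have hw0 : y / u ≠ 0 := by
    intro h0
    rw [h0, zero_sub, norm_neg, norm_one] at hw
    norm_num at hw
  have hmul : Complex.arg (u * (y / u)) = Complex.arg u + Complex.arg (y / u) := by
    refine Complex.arg_mul hu0 hw0 ?_
    rw [hargu]
    have := abs_le.mp hsm
    constructor <;> linarith
  rw [mul_div_cancel₀ _ hu0, hargu] at hmul
  rw [hmul]
  simpa using hsm

theorem card_arc {Y : Finset ℂ} {c ν : ℝ} (hc0 : 0 ≤ c) (hc1 : c ≤ 21 / 10)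
    (hdense : ∀ u : ℂ, ‖u‖ = 1 → ν ≤ ((ball Y u (1 / 100)).card : ℝ)) :
    ν ≤ ((arc Y c).card : ℝ) := by
  refine (hdense (Complex.exp (c * Complex.I)) (Complex.norm_exp_ofReal_mul_I c)).trans ?_
  have : ball Y (Complex.exp (c * Complex.I)) (1 / 100) ⊆ arc Y c := by
    intro y hy
    rw [mem_ball] at hy
    exact Finset.mem_filter.mpr ⟨hy.1, arg_near hc0 hc1 hy.2⟩
  exact_mod_cast Finset.card_le_card this

end CoreAux

open CoreAux

/-- PROOF. Arcs `P1, P2, P3, Q = arc Y c` with `c = 0, 7/10, 14/10, 21/10`; each has at least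
`n / 2000` points (`y` within `1/100` of `exp (i c)` has `|arg y - c| ≤ 1/20`). Enumerate them
(`exists_enum`, `arc_injOn`). `M = min card - 5`, so `M + 4 < ` all the cards and
`M ≥ n / 2100`. `arc_pairs` bounds the bad pairs by `b = (2 M + 3) B`, `B = e + card (X \ Y)`, and
`15 (2 M + 3) B < M ^ 2` since `B ≤ n / 10 ^ 5`. `choose4` gives the indices, `isom_contra` with
`p_a = P_a i_a`, `p_a' = P_a (i_a + 1)`, `q k = Q (j + k)`, a contradiction with `NoCol`, `NoCirc`
(the points of an arc are different, the arcs are disjoint). -/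
theorem core {X Y : Finset ℂ} {e : ℝ} (h : Sys X e) (hYX : Y ⊆ X)
    (hann : ∀ x ∈ X, |‖x‖ - 1| ≤ 1 / 1000) (hs : Slope Y)
    (hdense : ∀ u : ℂ, ‖u‖ = 1 → (X.card : ℝ) / 2000 ≤ ((ball Y u (1 / 100)).card : ℝ))
    (hB : 10 ^ 5 * (e + ((X \ Y).card : ℝ)) ≤ X.card) (hn : 10 ^ 6 ≤ (X.card : ℝ))
    (hcol : NoCol X) (hcirc : NoCirc X) : False := by
  classical
  have hannY : ∀ x ∈ Y, |‖x‖ - 1| ≤ 1 / 1000 := fun x hx => hann x (hYX hx)
  set n : ℝ := (X.card : ℝ) with hndef
  set B : ℝ := e + ((X \ Y).card : ℝ) with hBdef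
  have hB0 : 0 ≤ B := by
    have := h.nonneg
    positivity
  have c1 := card_arc (Y := Y) (c := 0) (le_refl _) (by norm_num) hdense
  have c2 := card_arc (Y := Y) (c := 7 / 10) (by norm_num) (by norm_num) hdense
  have c3 := card_arc (Y := Y) (c := 14 / 10) (by norm_num) (by norm_num) hdense
  have c4 := card_arc (Y := Y) (c := 21 / 10) (by norm_num) (by norm_num) hdense
  obtain ⟨P1, hP1⟩ := exists_enum (arc Y 0) (arc_injOn hannY hs _)
  obtain ⟨P2, hP2⟩ := exists_enum (arc Y (7 / 10)) (arc_injOn hannY hs _)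
  obtain ⟨P3, hP3⟩ := exists_enum (arc Y (14 / 10)) (arc_injOn hannY hs _)
  obtain ⟨Q, hQ⟩ := exists_enum (arc Y (21 / 10)) (arc_injOn hannY hs _)
  set m1 := (arc Y 0).card with hm1
  set m2 := (arc Y (7 / 10)).card with hm2
  set m3 := (arc Y (14 / 10)).card with hm3
  set m4 := (arc Y (21 / 10)).card with hm4
  set m := min (min m1 m2) (min m3 m4) with hm
  have hmn : n / 2000 ≤ (m : ℝ) := by
    rw [hm]
    push_cast
    exact le_min (le_min c1 c2) (le_min c3 c4)
  have hmle1 : m ≤ m1 := (min_le_left _ _).trans (min_le_left _ _)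
  have hmle2 : m ≤ m2 := (min_le_left _ _).trans (min_le_right _ _)
  have hmle3 : m ≤ m3 := (min_le_right _ _).trans (min_le_left _ _)
  have hmle4 : m ≤ m4 := (min_le_right _ _).trans (min_le_right _ _)
  have hm500 : 500 ≤ m := by
    have : (500 : ℝ) ≤ (m : ℝ) := by
      refine le_trans ?_ hmn
      rw [le_div_iff₀ (by norm_num)]
      linarith
    exact_mod_cast this
  obtain ⟨M, hM⟩ : ∃ M, m = M + 5 := ⟨m - 5, by omega⟩
  have hMR : (m : ℝ) = M + 5 := by rw [hM]; push_cast; ring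
  have hMn : n / 2100 ≤ (M : ℝ) := by
    rw [hMR] at hmn
    rw [div_le_iff₀ (by norm_num)] at hmn ⊢
    linarith
  have hM400 : (400 : ℝ) ≤ M := by
    rw [div_le_iff₀ (by norm_num)] at hMn
    linarith
  set b : ℝ := ((M : ℝ) + ((M + 3 : ℕ) : ℝ)) * B with hb
  have hb15 : 15 * b < (M : ℝ) ^ 2 := by
    rw [hb]
    push_cast
    rw [div_le_iff₀ (by norm_num)] at hMn
    have hBn : B ≤ 2100 * M / 10 ^ 5 := by
      rw [le_div_iff₀ (by norm_num)]
      linarith
    have h1 : ((M : ℝ) + (M + 3)) * B ≤ ((M : ℝ) + (M + 3)) * (2100 * M / 10 ^ 5) :=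
      mul_le_mul_of_nonneg_left hBn (by positivity)
    nlinarith
  have hbM : ((M : ℝ) + M) * B ≤ b := by
    rw [hb]
    refine mul_le_mul_of_nonneg_right ?_ hB0
    push_cast
    linarith
  have h12 := arc_pairs h hYX hann hs (c := 0) (c' := 7 / 10) (by norm_num) (by norm_num) hP1 hP2
    (M := M) (M' := M) (by omega) (by omega)
  have h13 := arc_pairs h hYX hann hs (c := 0) (c' := 14 / 10) (by norm_num) (by norm_num) hP1 hP3
    (M := M) (M' := M) (by omega) (by omega)
  have h23 := arc_pairs h hYX hann hs (c := 7 / 10) (c' := 14 / 10) (by norm_num) (by norm_num)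
    hP2 hP3 (M := M) (M' := M) (by omega) (by omega)
  have h14 := arc_pairs h hYX hann hs (c := 0) (c' := 21 / 10) (by norm_num) (by norm_num) hP1 hQ
    (M := M) (M' := M + 3) (by omega) (by omega)
  have h24 := arc_pairs h hYX hann hs (c := 7 / 10) (c' := 21 / 10) (by norm_num) (by norm_num)
    hP2 hQ (M := M) (M' := M + 3) (by omega) (by omega)
  have h34 := arc_pairs h hYX hann hs (c := 14 / 10) (c' := 21 / 10) (by norm_num) (by norm_num)
    hP3 hQ (M := M) (M' := M + 3) (by omega) (by omega)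
  obtain ⟨i1, hi1, i2, hi2, i3, hi3, j, hj, g12, g13, g23, hG⟩ := choose4 M b
    (fun i i' => dist (P1 i) (P2 i') = dist (P1 (i + 1)) (P2 (i' + 1)))
    (fun i i' => dist (P1 i) (P3 i') = dist (P1 (i + 1)) (P3 (i' + 1)))
    (fun i i' => dist (P2 i) (P3 i') = dist (P2 (i + 1)) (P3 (i' + 1)))
    (fun i i' => dist (P1 i) (Q i') = dist (P1 (i + 1)) (Q (i' + 1)))
    (fun i i' => dist (P2 i) (Q i') = dist (P2 (i + 1)) (Q (i' + 1)))
    (fun i i' => dist (P3 i) (Q i') = dist (P3 (i + 1)) (Q (i' + 1)))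
    (h12.trans hbM) (h13.trans hbM) (h23.trans hbM) h14 h24 h34 hb15
  have hdisj : ∀ {c c' : ℝ} {y y' : ℂ}, y ∈ arc Y c → y' ∈ arc Y c' → 7 / 10 ≤ c' - c → y ≠ y' := by
    intro c c' y y' hy hy' hcc hyy
    have h1 := abs_le.mp (Finset.mem_filter.mp hy).2
    have h2 := abs_le.mp (Finset.mem_filter.mp hy').2
    rw [hyy] at h1
    linarith
  have hX : ∀ {c : ℝ} {y : ℂ}, y ∈ arc Y c → y ∈ X := fun hy => hYX (Finset.mem_filter.mp hy).1
  have e1 := hP1.mem i1 (by omega)
  have e2 := hP2.mem i2 (by omega)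
  have e3 := hP3.mem i3 (by omega)
  have hnc := hcol (P1 i1) (hX e1) (P2 i2) (hX e2) (P3 i3) (hX e3)
    (hdisj e1 e2 (by norm_num)) (hdisj e1 e3 (by norm_num)) (hdisj e2 e3 (by norm_num))
  have hQne : ∀ k k', k < k' → k' ≤ 4 → Q (j + k) ≠ Q (j + k') := by
    intro k k' hkk hk' hqq
    have h1 := hQ.lt (j + k) (j + k') (by omega) (by omega)
    rw [hqq] at h1
    exact lt_irrefl _ h1
  have hQm : ∀ k, k ≤ 4 → Q (j + k) ∈ X := fun k hk => hX (hQ.mem (j + k) (by omega))
  rcases isom_contra (p1' := P1 (i1 + 1)) (p2' := P2 (i2 + 1)) (p3' := P3 (i3 + 1))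
    (q := fun k => Q (j + k)) hnc g12 g13 g23 (fun k hk => hG k hk) with h1 | h1 | h1
  · exact hcol _ (hQm 0 (by norm_num)) _ (hQm 1 (by norm_num)) _ (hQm 2 (by norm_num))
      (hQne 0 1 (by norm_num) (by norm_num)) (hQne 0 2 (by norm_num) (by norm_num))
      (hQne 1 2 (by norm_num) (by norm_num)) h1
  · exact hcol _ (hQm 0 (by norm_num)) _ (hQm 2 (by norm_num)) _ (hQm 4 (by norm_num))
      (hQne 0 2 (by norm_num) (by norm_num)) (hQne 0 4 (by norm_num) (by norm_num))
      (hQne 2 4 (by norm_num) (by norm_num)) h1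
  · exact hcirc _ (hQm 0 (by norm_num)) _ (hQm 1 (by norm_num)) _ (hQm 2 (by norm_num))
      _ (hQm 3 (by norm_num))
      (hQne 0 1 (by norm_num) (by norm_num)) (hQne 0 2 (by norm_num) (by norm_num))
      (hQne 0 3 (by norm_num) (by norm_num)) (hQne 1 2 (by norm_num) (by norm_num))
      (hQne 1 3 (by norm_num) (by norm_num)) (hQne 2 3 (by norm_num) (by norm_num)) h1

end Pool.Agent.Vps
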