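import Mathlib

/-!
# A finite set of reals that meets every short interval has many isolated blocks
-/

open Finset

namespace Pool.Agent.Vps

namespace DGapsAux

/-- `s` is a start: no element of `D` just before `s`. -/
def Start (D : Finset ℝ) (δ s : ℝ) : Prop := s ∈ D ∧ ∀ d ∈ D, s - δ ≤ d → s ≤ d

theorem chain {D : Finset ℝ} {δ p d0 : ℝ} (hδ : 0 < δ) (hd0 : d0 ∈ D)
    (hno : ∀ s, p < s → s ≤ d0 → ¬ Start D δ s) (k : ℕ) (hk : k * δ < d0 - p) :
    ∃ d ∈ D, d0 - k * δ ≤ d ∧ d ≤ d0 ∧ k + 1 ≤ (D.filter fun z => d ≤ z ∧ z ≤ d0).card := by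
  classical
  induction k with
  | zero =>
    refine ⟨d0, hd0, by simp, le_rfl, ?_⟩
    have : 0 < (D.filter fun z => d0 ≤ z ∧ z ≤ d0).card :=
      Finset.card_pos.2 ⟨d0, by simp [hd0]⟩
    omega
  | succ k ih =>
    push_cast at hk
    obtain ⟨d, hd, h1, h2, h3⟩ := ih (by nlinarith)
    have hns := hno d (by nlinarith) h2
    unfold Start at hns
    push Not at hns
    obtain ⟨d', hd', h4, h5⟩ := hns hd
    refine ⟨d', hd', by push_cast; linarith, by linarith, ?_⟩
    have h6 : (D.filter fun z => d ≤ z ∧ z ≤ d0) ⊂ (D.filter fun z => d' ≤ z ∧ z ≤ d0) := by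
      refine (Finset.ssubset_iff_of_subset ?_).2 ⟨d', ?_, ?_⟩
      · intro z hz
        rw [Finset.mem_filter] at hz ⊢
        exact ⟨hz.1, by linarith [hz.2.1], hz.2.2⟩
      · rw [Finset.mem_filter]
        exact ⟨hd', le_rfl, by linarith⟩
      · rw [Finset.mem_filter]
        rintro ⟨-, h7, -⟩
        linarith
    have := Finset.card_lt_card h6
    omega

theorem many {D : Finset ℝ} {δ G p : ℝ} (hδ : 0 < δ) (hG : 0 < G) {d0 : ℝ} (hd0 : d0 ∈ D)
    (h1 : p + G ≤ d0) (hno : ∀ s, p < s → s ≤ d0 → ¬ Start D δ s) :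
    G ≤ ((D.filter fun z => p < z ∧ z ≤ d0).card : ℝ) * δ := by
  classical
  set m : ℕ := ⌈G / δ⌉₊ with hm
  have hx : 0 < G / δ := div_pos hG hδ
  have hm1 : 1 ≤ m := Nat.one_le_iff_ne_zero.2 (Nat.ceil_pos.2 hx).ne'
  obtain ⟨k, hk⟩ : ∃ k, m = k + 1 := ⟨m - 1, by omega⟩
  have hlt : (m : ℝ) < G / δ + 1 := Nat.ceil_lt_add_one hx.le
  have hge : G / δ ≤ m := Nat.le_ceil _
  have hkr : (k : ℝ) < G / δ := by
    have : (m : ℝ) = k + 1 := by exact_mod_cast hk
    linarith
  rw [lt_div_iff₀ hδ] at hkr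
  obtain ⟨d, hd, h2, h3, h4⟩ := chain hδ hd0 hno k (by linarith)
  have h5 : (D.filter fun z => d ≤ z ∧ z ≤ d0) ⊆ (D.filter fun z => p < z ∧ z ≤ d0) := by
    intro z hz
    rw [Finset.mem_filter] at hz ⊢
    exact ⟨hz.1, by linarith [hz.2.1], hz.2.2⟩
  have h6 : m ≤ (D.filter fun z => p < z ∧ z ≤ d0).card := by
    rw [hk]; exact h4.trans (Finset.card_le_card h5)
  have h7 : (m : ℝ) ≤ ((D.filter fun z => p < z ∧ z ≤ d0).card : ℝ) := by exact_mod_cast h6
  rw [div_le_iff₀ hδ] at hge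
  refine hge.trans (mul_le_mul_of_nonneg_right h7 hδ.le)

end DGapsAux

open DGapsAux

/-- PROOF. Call `s ∈ D` a start if no element of `D` is in `[s - δ, s)`. For `p` with `A ≤ p`,
`p + 2 G ≤ A'`: if there is no start in `(p, p + 2 G]` then, beginning with some
`d_0 ∈ D ∩ [p + G, p + 2 G]` (`hmeet`), as long as `d_k > p` there is
`d_(k+1) ∈ D ∩ [d_k - δ, d_k)`, `d_k ≥ p + G - k δ`: at least `G / δ` elements of `D` lie in
`(p, p + 2 G]`. The intervals `(A + 2 G j, A + 2 G (j + 1)]`, `j < J = ⌊(A' - A) / (2 G)⌋₊`, are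
disjoint, so at most `D.card * δ / G ≤ (A' - A) / (10 G)` of them contain no start, and there are
`m ≥ 0.4 (A' - A) / G - 1` starts in `(A, A']`. For two consecutive starts `s < s'` in `(A, A']` let
`b1 = s`, `b2 = max (D ∩ [s, s'))`: this satisfies everything but the condition on `Z`. These
`m - 1` intervals `[b1, b2]` are disjoint and `m - 1 > Z.card`, since
`0.15 (A' - A) / G ≥ 15`; so one of them contains no element of `Z`. -/
theorem exists_block {D Z : Finset ℝ} {A A' G δ : ℝ} (hG : 0 < G) (hGA : 100 * G ≤ A' - A)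
    (hmeet : ∀ d, A ≤ d → d + G ≤ A' → ∃ d' ∈ D, d ≤ d' ∧ d' ≤ d + G)
    (hδ : 0 < δ) (hD : 10 * (D.card * δ) ≤ A' - A) (hZ : 4 * G * Z.card < A' - A) :
    ∃ b1 ∈ D, ∃ b2 ∈ D, A ≤ b1 ∧ b1 ≤ b2 ∧ b2 ≤ A' ∧
      (∀ d ∈ D, b1 - δ ≤ d → d ≤ b2 + δ → b1 ≤ d ∧ d ≤ b2) ∧
      ∀ d ∈ D, b1 ≤ d → d ≤ b2 → d ∉ Z := by
  classical
  by_contra hcon
  push Not at hcon
  set S : Finset ℝ := D.filter fun s => (A < s ∧ s ≤ A') ∧ Start D δ s with hS
  -- the blocks
  have hblock : ∀ s ∈ S, ∀ s' ∈ S, s < s' → (∀ t ∈ S, s < t → s' ≤ t) →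
      ∃ z ∈ Z, s ≤ z ∧ z < s' := by
    intro s hs s' hs' hlt hnext
    rw [hS, Finset.mem_filter] at hs hs'
    obtain ⟨hsD, ⟨hs1, hs2⟩, hss⟩ := hs
    obtain ⟨hs'D, ⟨hs'1, hs'2⟩, hss'⟩ := hs'
    have hne : (D.filter fun d => s ≤ d ∧ d < s').Nonempty :=
      ⟨s, Finset.mem_filter.2 ⟨hsD, le_rfl, hlt⟩⟩
    obtain ⟨b2, hb2, hmax⟩ := Finset.exists_max_image _ (fun d : ℝ => d) hne
    rw [Finset.mem_filter] at hb2
    obtain ⟨z, hzD, hz1, hz2, hzZ⟩ := hcon s hsD b2 hb2.1 hs1.le hb2.2.1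
      (by linarith [hb2.2.2]) (by
        intro d hd h1 h2
        have h3 : s ≤ d := hss.2 d hd h1
        refine ⟨h3, ?_⟩
        by_contra h4
        push Not at h4
        have h5 : s' ≤ d := by
          by_contra h6
          push Not at h6
          have := hmax d (Finset.mem_filter.2 ⟨hd, h3, h6⟩)
          linarith
        have h6 := hss'.2 b2 hb2.1 (by linarith)
        linarith [hb2.2.2])
    exact ⟨z, hzZ, hz1, by linarith [hb2.2.2]⟩
  -- the number of starts is at most `card Z + 1`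
  have hScard : S.card ≤ Z.card + 1 := by
    by_cases hSne : S.Nonempty
    · obtain ⟨M, hM, hMmax⟩ := Finset.exists_max_image S (fun d : ℝ => d) hSne
      have hnext : ∀ s ∈ S.erase M, ∃ s' ∈ S, s < s' ∧ ∀ t ∈ S, s < t → s' ≤ t := by
        intro s hs
        rw [Finset.mem_erase] at hs
        have hne : (S.filter fun t => s < t).Nonempty :=
          ⟨M, Finset.mem_filter.2 ⟨hM, lt_of_le_of_ne (hMmax s hs.2) hs.1⟩⟩
        obtain ⟨s', hs', hmin⟩ := Finset.exists_min_image _ (fun d : ℝ => d) hne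
        rw [Finset.mem_filter] at hs'
        exact ⟨s', hs'.1, hs'.2, fun t ht h => hmin t (Finset.mem_filter.2 ⟨ht, h⟩)⟩
      have hz : ∀ s ∈ S.erase M, ∃ z ∈ Z, s ≤ z ∧ ∀ t ∈ S, s < t → z < t := by
        intro s hs
        obtain ⟨s', hs', hlt, hn⟩ := hnext s hs
        obtain ⟨z, hz, h1, h2⟩ := hblock s (Finset.mem_of_mem_erase hs) s' hs' hlt hn
        exact ⟨z, hz, h1, fun t ht h => lt_of_lt_of_le h2 (hn t ht h)⟩
      choose! f hf1 hf2 hf3 using hz
      have h1 : (S.erase M).card ≤ Z.card := by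
        apply Finset.card_le_card_of_injOn f (fun s hs => hf1 s hs)
        intro s hs t ht hst
        have hs' : s ∈ S.erase M := hs
        have ht' : t ∈ S.erase M := ht
        rcases lt_trichotomy s t with h | h | h
        · have h2 := hf3 s hs' t (Finset.mem_of_mem_erase ht') h
          have h3 := hf2 t ht'
          rw [← hst] at h3
          linarith
        · exact h
        · have h2 := hf3 t ht' s (Finset.mem_of_mem_erase hs') h
          have h3 := hf2 s hs'
          rw [hst] at h3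
          linarith
      rw [Finset.card_erase_of_mem hM] at h1
      omega
    · rw [Finset.not_nonempty_iff_eq_empty] at hSne
      rw [hSne]; simp
  -- the intervals
  set L : ℝ := A' - A with hL
  set J : ℕ := ⌊L / (2 * G)⌋₊ with hJ
  have hLpos : 0 < L := by linarith
  have hJ1 : (J : ℝ) ≤ L / (2 * G) := Nat.floor_le (by positivity)
  have hJ2 : L / (2 * G) < J + 1 := Nat.lt_floor_add_one _
  rw [le_div_iff₀ (by positivity)] at hJ1
  rw [div_lt_iff₀ (by positivity)] at hJ2
  set bad : Finset ℕ := (range J).filter fun j =>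
    ∀ s ∈ S, ¬ (A + 2 * G * j < s ∧ s ≤ A + 2 * G * (j + 1)) with hbad
  have hbadcard : (bad.card : ℝ) * G ≤ D.card * δ := by
    have h1 : ∀ j ∈ bad, G ≤
        ((D.filter fun z => A + 2 * G * j < z ∧ z ≤ A + 2 * G * (j + 1)).card : ℝ) * δ := by
      intro j hj
      rw [hbad, Finset.mem_filter, Finset.mem_range] at hj
      obtain ⟨hjJ, hj⟩ := hj
      have hjJ' : (j : ℝ) + 1 ≤ J := by exact_mod_cast hjJ
      have hend : A + 2 * G * (j + 1) ≤ A' := by nlinarith
      have hj0 : (0 : ℝ) ≤ j := Nat.cast_nonneg j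
      have hjG : 0 ≤ G * (j : ℝ) := by positivity
      obtain ⟨d0, hd0, h2, h3⟩ := hmeet (A + 2 * G * j + G) (by nlinarith) (by linarith)
      have h4 : d0 ≤ A + 2 * G * (j + 1) := by linarith
      have h5 := many hδ hG hd0 (p := A + 2 * G * j) h2 (by
        intro s hs1 hs2 hst
        refine hj s ?_ ⟨hs1, hs2.trans h4⟩
        rw [hS, Finset.mem_filter]
        exact ⟨hst.1, ⟨by nlinarith, by linarith⟩, hst⟩)
      refine h5.trans (mul_le_mul_of_nonneg_right ?_ hδ.le)
      have h6 : (D.filter fun z => A + 2 * G * j < z ∧ z ≤ d0) ⊆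
          (D.filter fun z => A + 2 * G * j < z ∧ z ≤ A + 2 * G * (j + 1)) := by
        intro z hz
        rw [Finset.mem_filter] at hz ⊢
        exact ⟨hz.1, hz.2.1, hz.2.2.trans h4⟩
      exact_mod_cast Finset.card_le_card h6
    have h2 : ∑ j ∈ bad, (D.filter fun z => A + 2 * G * (j : ℝ) < z ∧
        z ≤ A + 2 * G * ((j : ℝ) + 1)).card ≤ D.card := by
      rw [← Finset.card_biUnion]
      · exact Finset.card_le_card (Finset.biUnion_subset.2 fun j _ => Finset.filter_subset _ _)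
      · intro i _ j _ hij
        rw [Function.onFun, Finset.disjoint_left]
        intro z hz1 hz2
        rw [Finset.mem_filter] at hz1 hz2
        rcases Nat.lt_or_gt_of_ne hij with h | h
        · have h3 : (i : ℝ) + 1 ≤ j := by exact_mod_cast h
          have h4 : 2 * G * ((i : ℝ) + 1) ≤ 2 * G * j :=
            mul_le_mul_of_nonneg_left h3 (by positivity)
          linarith [hz1.2.2, hz2.2.1]
        · have h3 : (j : ℝ) + 1 ≤ i := by exact_mod_cast h
          have h4 : 2 * G * ((j : ℝ) + 1) ≤ 2 * G * i :=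
            mul_le_mul_of_nonneg_left h3 (by positivity)
          linarith [hz1.2.1, hz2.2.2]
    have h3 : (∑ j ∈ bad, ((D.filter fun z => A + 2 * G * (j : ℝ) < z ∧
        z ≤ A + 2 * G * ((j : ℝ) + 1)).card : ℝ)) ≤ D.card := by exact_mod_cast h2
    have h4 : ∑ _j ∈ bad, G ≤ ∑ j ∈ bad, ((D.filter fun z => A + 2 * G * (j : ℝ) < z ∧
        z ≤ A + 2 * G * ((j : ℝ) + 1)).card : ℝ) * δ := Finset.sum_le_sum h1
    rw [Finset.sum_const, nsmul_eq_mul, ← Finset.sum_mul] at h4
    exact h4.trans (mul_le_mul_of_nonneg_right h3 hδ.le)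
  -- the good intervals
  have hgood : (range J \ bad).card ≤ S.card := by
    have h1 : ∀ j ∈ range J \ bad, ∃ s ∈ S, A + 2 * G * (j : ℝ) < s ∧
        s ≤ A + 2 * G * ((j : ℝ) + 1) := by
      intro j hj
      rw [Finset.mem_sdiff, hbad, Finset.mem_filter] at hj
      by_contra h2
      push Not at h2
      exact hj.2 ⟨hj.1, fun s hs h3 => absurd h3.2 (not_le.2 (h2 s hs h3.1))⟩
    choose! f hf1 hf2 hf3 using h1
    apply Finset.card_le_card_of_injOn f (fun j hj => hf1 j hj)
    intro i hi j hj hij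
    have hi' : i ∈ range J \ bad := hi
    have hj' : j ∈ range J \ bad := hj
    rcases lt_trichotomy i j with h | h | h
    · have h3 : (i : ℝ) + 1 ≤ j := by exact_mod_cast h
      have h4 : 2 * G * ((i : ℝ) + 1) ≤ 2 * G * j :=
        mul_le_mul_of_nonneg_left h3 (by positivity)
      have h5 := hf3 i hi'
      have h6 := hf2 j hj'
      rw [hij] at h5
      linarith
    · exact h
    · have h3 : (j : ℝ) + 1 ≤ i := by exact_mod_cast h
      have h4 : 2 * G * ((j : ℝ) + 1) ≤ 2 * G * i :=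
        mul_le_mul_of_nonneg_left h3 (by positivity)
      have h5 := hf3 j hj'
      have h6 := hf2 i hi'
      rw [← hij] at h5
      linarith
  have hcount : (J : ℝ) ≤ (Z.card : ℝ) + 1 + bad.card := by
    have h1 : J ≤ (range J \ bad).card + bad.card := by
      have h2 : (range J).card ≤ (range J \ bad).card + bad.card := by
        have := Finset.card_le_card_sdiff_add_card (s := range J) (t := bad)
        exact this
      rwa [Finset.card_range] at h2
    have h3 : J ≤ Z.card + 1 + bad.card := by omega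
    exact_mod_cast h3
  have h1 : (J : ℝ) * G ≤ ((Z.card : ℝ) + 1 + bad.card) * G :=
    mul_le_mul_of_nonneg_right hcount hG.le
  nlinarith

end Pool.Agent.Vps
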