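import Mathlib

/-!
# Valid planar sets: definitions (MP_733c86_co)

Everything is done in the complex plane. `X` is a finite set, `Dset X` its set of distances,
`ball X z ρ` the set of points of `X` at distance at most `ρ` from `z`.
`Sys X e`: `X` is valid and `2 D - (n - 1) ≤ e`.
`Ann X e T`: moreover the centroid is `0` and `| ‖x‖^2 - 1 | ≤ T` on `X`.
-/

open Finset
open scoped ComplexConjugate

namespace Pool.Agent.Vps

/-- The set of distances determined by `X`. -/
noncomputable def Dset (X : Finset ℂ) : Finset ℝ :=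
  X.offDiag.image fun p => dist p.1 p.2

/-- The points of `X` in the closed disc of centre `z` and radius `ρ`. -/
noncomputable def ball (X : Finset ℂ) (z : ℂ) (ρ : ℝ) : Finset ℂ :=
  X.filter fun y => dist y z ≤ ρ

/-- `X` is valid, and `2 D(X) - (|X| - 1) ≤ e`. -/
structure Sys (X : Finset ℂ) (e : ℝ) : Prop where
  valid : ∀ x ∈ X, ∀ r : ℝ, (X.filter fun y => y ≠ x ∧ dist x y = r).card ≤ 2
  defect : 2 * ((Dset X).card : ℝ) ≤ (X.card : ℝ) - 1 + e
  nonneg : 0 ≤ e

/-- Normalised systems: centroid `0`, all points in a thin annulus around the unit circle. -/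
structure Ann (X : Finset ℂ) (e T : ℝ) : Prop extends Sys X e where
  sum_zero : ∑ x ∈ X, x = 0
  ann : ∀ x ∈ X, |‖x‖ ^ 2 - 1| ≤ T
  nonempty : X.Nonempty

/-- No three points of `X` on a line. -/
def NoCol (X : Finset ℂ) : Prop :=
  ∀ a ∈ X, ∀ b ∈ X, ∀ c ∈ X, a ≠ b → a ≠ c → b ≠ c → ((b - a) * conj (c - a)).im ≠ 0

/-- No four points of `X` on a circle. -/
def NoCirc (X : Finset ℂ) : Prop :=
  ∀ a ∈ X, ∀ b ∈ X, ∀ c ∈ X, ∀ d ∈ X, a ≠ b → a ≠ c → a ≠ d → b ≠ c → b ≠ d → c ≠ d →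
    ¬ ∃ w : ℂ, ∃ r : ℝ, dist a w = r ∧ dist b w = r ∧ dist c w = r ∧ dist d w = r

/-- The rank of the distance of `x` and `y` in the set of distances. -/
noncomputable def R (X : Finset ℂ) (x y : ℂ) : ℕ := ((Dset X).filter fun d => d ≤ dist x y).card

theorem mem_ball {X : Finset ℂ} {z y : ℂ} {ρ : ℝ} : y ∈ ball X z ρ ↔ y ∈ X ∧ dist y z ≤ ρ := by
  simp [ball]

theorem ball_subset {X : Finset ℂ} {z : ℂ} {ρ : ℝ} : ball X z ρ ⊆ X := by
  simp [ball]

theorem dist_mem_Dset {X : Finset ℂ} {x y : ℂ} (hx : x ∈ X) (hy : y ∈ X) (h : x ≠ y) :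
    dist x y ∈ Dset X := by
  unfold Dset
  exact Finset.mem_image.2 ⟨(x, y), by simp [hx, hy, h], rfl⟩

theorem mem_Dset {X : Finset ℂ} {d : ℝ} :
    d ∈ Dset X ↔ ∃ x ∈ X, ∃ y ∈ X, x ≠ y ∧ dist x y = d := by
  unfold Dset
  simp only [Finset.mem_image, Finset.mem_offDiag, Prod.exists]
  constructor
  · rintro ⟨a, b, ⟨ha, hb, hab⟩, h⟩
    exact ⟨a, ha, b, hb, hab, h⟩
  · rintro ⟨a, ha, b, hb, hab, h⟩
    exact ⟨a, b, ⟨ha, hb, hab⟩, h⟩

theorem R_comm (X : Finset ℂ) (x y : ℂ) : R X x y = R X y x := by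
  unfold R; rw [dist_comm]

/-- Equal rank means equal distance. -/
theorem dist_eq_of_R_eq {X : Finset ℂ} {x y x' y' : ℂ} (h : dist x y ∈ Dset X)
    (h' : dist x' y' ∈ Dset X) (hR : R X x y = R X x' y') : dist x y = dist x' y' := by
  unfold R at hR
  rcases lt_trichotomy (dist x y) (dist x' y') with hlt | heq | hgt
  · exfalso
    have : ((Dset X).filter fun d => d ≤ dist x y) ⊂ ((Dset X).filter fun d => d ≤ dist x' y') := by
      refine Finset.ssubset_iff_of_subset ?_ |>.2 ⟨dist x' y', ?_, ?_⟩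
      · intro d hd
        simp only [Finset.mem_filter] at hd ⊢
        exact ⟨hd.1, hd.2.trans hlt.le⟩
      · simp [h']
      · simp [hlt]
    exact absurd hR (Finset.card_lt_card this).ne
  · exact heq
  · exfalso
    have : ((Dset X).filter fun d => d ≤ dist x' y') ⊂ ((Dset X).filter fun d => d ≤ dist x y) := by
      refine Finset.ssubset_iff_of_subset ?_ |>.2 ⟨dist x y, ?_, ?_⟩
      · intro d hd
        simp only [Finset.mem_filter] at hd ⊢
        exact ⟨hd.1, hd.2.trans hgt.le⟩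
      · simp [h]
      · simp [hgt]
    exact absurd hR (Finset.card_lt_card this).ne'

/-- Coordinates in the frame of `x0`: `n(z) = Re (z conj x0)`, `t(z) = Im (z conj x0)`. The
scalar product `Re (v conj y)`. -/
theorem re_mul_conj_frame {x0 : ℂ} (h0 : x0 ≠ 0) (v y : ℂ) :
    (v * conj y).re = ((v * conj x0).re * (y * conj x0).re +
      (v * conj x0).im * (y * conj x0).im) / ‖x0‖ ^ 2 := by
  have h1 : ‖x0‖ ^ 2 = x0.re * x0.re + x0.im * x0.im := by
    rw [← Complex.normSq_eq_norm_sq, Complex.normSq_apply]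
  have h2 : x0.re * x0.re + x0.im * x0.im ≠ 0 := by
    rw [← Complex.normSq_apply]; exact (Complex.normSq_pos.2 h0).ne'
  rw [h1, eq_div_iff h2]
  simp only [Complex.mul_re, Complex.mul_im, Complex.conj_re, Complex.conj_im]
  ring

theorem norm_sq_frame (x0 v : ℂ) :
    ‖v‖ ^ 2 * ‖x0‖ ^ 2 = (v * conj x0).re ^ 2 + (v * conj x0).im ^ 2 := by
  rw [← Complex.normSq_eq_norm_sq, ← Complex.normSq_eq_norm_sq, Complex.normSq_apply,
    Complex.normSq_apply]
  simp only [Complex.mul_re, Complex.mul_im, Complex.conj_re, Complex.conj_im]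
  ring

/-- `|x - y|^2 - |x' - y|^2 = Re ((x - x') conj (x + x' - 2 y))`. -/
theorem dist_sq_sub (x x' y : ℂ) :
    dist x y ^ 2 - dist x' y ^ 2 = ((x - x') * conj (x + x' - 2 * y)).re := by
  rw [Complex.dist_eq, Complex.dist_eq, ← Complex.normSq_eq_norm_sq, ← Complex.normSq_eq_norm_sq,
    Complex.normSq_apply, Complex.normSq_apply]
  simp
  ring

/-- `|y|^2 = |x|^2 + 2 Re ((y - x) conj x) + |y - x|^2`. -/
theorem norm_sq_expand (x y : ℂ) :
    ‖y‖ ^ 2 = ‖x‖ ^ 2 + 2 * ((y - x) * conj x).re + dist x y ^ 2 := by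
  rw [Complex.dist_eq, ← Complex.normSq_eq_norm_sq, ← Complex.normSq_eq_norm_sq,
    ← Complex.normSq_eq_norm_sq, Complex.normSq_apply, Complex.normSq_apply,
    Complex.normSq_apply]
  simp
  ring

/-- `|x - y|^2 = |x|^2 + |y|^2 - 2 Re (y conj x)`. -/
theorem dist_sq_eq (x y : ℂ) :
    dist x y ^ 2 = ‖x‖ ^ 2 + ‖y‖ ^ 2 - 2 * (y * conj x).re := by
  rw [Complex.dist_eq, ← Complex.normSq_eq_norm_sq, ← Complex.normSq_eq_norm_sq,
    ← Complex.normSq_eq_norm_sq, Complex.normSq_apply, Complex.normSq_apply,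
    Complex.normSq_apply]
  simp
  ring

/-- Conjugation of a system. -/
noncomputable def cX (X : Finset ℂ) : Finset ℂ := X.image (fun z => conj z)

theorem mem_cX {X : Finset ℂ} {z : ℂ} : z ∈ cX X ↔ conj z ∈ X := by
  unfold cX
  constructor
  · intro h
    obtain ⟨w, hw, rfl⟩ := Finset.mem_image.1 h
    simpa using hw
  · intro h
    exact Finset.mem_image.2 ⟨conj z, h, by simp⟩

theorem card_cX (X : Finset ℂ) : (cX X).card = X.card :=
  Finset.card_image_of_injective _ (starRingEnd ℂ).injective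

end Pool.Agent.Vps
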