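import Pool.Agent.Lib.Vps.Gap

/-!
# Density of `X` in the unit circle
-/

open Finset
open scoped ComplexConjugate

namespace Pool.Agent.Vps

namespace DensityAux

/-- The difference of the arguments. -/
theorem arg_sub_aux {u x y : ℂ} (hu : u ≠ 0) (hx : x ≠ 0) (hy : y ≠ 0)
    (hb0 : 0 ≤ (y * conj x).arg) (hbpi : (y * conj x).arg ≠ Real.pi)
    (hba : (y * conj x).arg ≤ (u * conj x).arg) :
    (u * conj y).arg = (u * conj x).arg - (y * conj x).arg := by
  have hxc : conj x ≠ 0 := (map_ne_zero _).2 hx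
  have hyc : conj y ≠ 0 := (map_ne_zero _).2 hy
  have h1 : u * conj x * conj (y * conj x) = ((‖x‖ ^ 2 : ℝ) : ℂ) * (u * conj y) := by
    rw [map_mul, Complex.conj_conj]
    have : ((‖x‖ ^ 2 : ℝ) : ℂ) = x * conj x := by
      rw [Complex.mul_conj, Complex.normSq_eq_norm_sq]
    rw [this]; ring
  have h2 : (u * conj y).arg = (u * conj x * conj (y * conj x)).arg := by
    rw [h1, Complex.arg_real_mul _ (by positivity)]
  have h3 : (conj (y * conj x)).arg = -(y * conj x).arg := by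
    rw [Complex.arg_conj, if_neg hbpi]
  have h4 := Complex.arg_le_pi (u * conj x)
  have hpi := Real.pi_pos
  rw [h2, Complex.arg_mul (mul_ne_zero hu hxc) ((map_ne_zero _).2 (mul_ne_zero hy hxc)), h3]
  · ring
  · rw [h3]
    constructor <;> linarith

theorem norm_bounds {T g : ℝ} (hg0 : 0 < g) (hg : g ≤ 1 / 10 ^ 8) (hT : T ≤ g / 10 ^ 11)
    {x : ℂ} (h : |‖x‖ ^ 2 - 1| ≤ T) :
    99 / 100 ≤ ‖x‖ ∧ ‖x‖ ≤ 101 / 100 ∧ (‖x‖ - 1) ^ 2 ≤ g ^ 2 := by
  have h1 : T ≤ 1 / 10 ^ 8 := by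
    refine hT.trans ?_
    rw [div_le_iff₀ (by norm_num)]
    linarith
  obtain ⟨h2, h3⟩ := abs_le.mp h
  have h0 : 0 ≤ ‖x‖ := norm_nonneg x
  have hlo : 99 / 100 ≤ ‖x‖ := by nlinarith
  have hhi : ‖x‖ ≤ 101 / 100 := by nlinarith
  refine ⟨hlo, hhi, ?_⟩
  have hTg : T ≤ g := by
    refine hT.trans ?_
    rw [div_le_iff₀ (by norm_num)]
    linarith
  have h4 : |‖x‖ - 1| ≤ |‖x‖ ^ 2 - 1| := by
    have : ‖x‖ ^ 2 - 1 = (‖x‖ - 1) * (‖x‖ + 1) := by ring
    rw [this, abs_mul]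
    have h5 : 1 ≤ |‖x‖ + 1| := by rw [abs_of_nonneg (by linarith)]; linarith
    exact le_mul_of_one_le_right (abs_nonneg _) h5
  rw [← sq_abs (‖x‖ - 1)]
  exact pow_le_pow_left₀ (abs_nonneg _) (by linarith) 2

end DensityAux

open DensityAux

/-- PROOF. Since `∑ x ∈ X, x = 0`, `∑ Im (u conj x) = 0`, so some `x ∈ X` has
`Im (u conj x) ≥ 0`, i.e. `arg (u / x) ≥ 0` (points of `X` are nonzero). Take such an `x` with
`α = arg (u / x) ∈ [0, π]` minimal. `gap` gives `y ∈ X` with `dist y x ≤ g`,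
`Im (y conj x) > 0`, i.e. `β = arg (y / x) ∈ (0, π)`, and `β ≤ 2 g` (`sin β ≤ 1.01 g` and
`Re (y / x) > 0`). If `β ≤ α` then `arg (u / y) = α - β ∈ [0, α)`, contradiction with minimality.
So `α < β ≤ 2 g` and `dist x u ≤ |‖x‖ - 1| + α ≤ 3 g`. -/
theorem density {X : Finset ℂ} {e T : ℝ} (h : Ann X e T) {g : ℝ} (hg0 : 0 < g)
    (hg : g ≤ 1 / 10 ^ 8) (hT : T ≤ g / 10 ^ 11) (hn : 2 * 10 ^ 12 * (e + 1) ≤ X.card * g)
    {u : ℂ} (hu : ‖u‖ = 1) : ∃ x ∈ X, dist x u ≤ 3 * g := by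
  classical
  have hune : u ≠ 0 := by
    intro h0; rw [h0, norm_zero] at hu; exact zero_ne_one hu
  have hnb : ∀ x ∈ X, 99 / 100 ≤ ‖x‖ ∧ ‖x‖ ≤ 101 / 100 ∧ (‖x‖ - 1) ^ 2 ≤ g ^ 2 :=
    fun x hx => norm_bounds hg0 hg hT (h.ann x hx)
  have hne : ∀ x ∈ X, x ≠ 0 := by
    intro x hx h0
    have := (hnb x hx).1
    rw [h0, norm_zero] at this
    linarith
  -- some `x` on the right side
  have hex : ∃ x ∈ X, 0 ≤ (u * conj x).im := by
    by_contra hcon
    push Not at hcon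
    have h1 : ∑ x ∈ X, (u * conj x).im < 0 := Finset.sum_neg hcon h.nonempty
    have h2 : ∑ x ∈ X, (u * conj x).im = (u * conj (∑ x ∈ X, x)).im := by
      rw [map_sum, Finset.mul_sum, Complex.im_sum]
    rw [h2, h.sum_zero] at h1
    simp at h1
  obtain ⟨x1, hx1, hx1'⟩ := hex
  have hne' : (X.filter fun x => 0 ≤ (u * conj x).im).Nonempty :=
    ⟨x1, Finset.mem_filter.2 ⟨hx1, hx1'⟩⟩
  obtain ⟨x, hxm, hmin⟩ := Finset.exists_min_image _ (fun x => (u * conj x).arg) hne'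
  rw [Finset.mem_filter] at hxm
  obtain ⟨hxX, hxim⟩ := hxm
  obtain ⟨y, hyX, hyd, hyim⟩ := gap h hg0 hg hT hn hxX
  have ha0 : 0 ≤ (u * conj x).arg := Complex.arg_nonneg_iff.2 hxim
  have hb0 : 0 ≤ (y * conj x).arg := Complex.arg_nonneg_iff.2 hyim.le
  have hbpos : (y * conj x).arg ≠ 0 := by
    intro h0
    have := (Complex.arg_eq_zero_iff.1 h0).2
    linarith
  have hbpi : (y * conj x).arg ≠ Real.pi := by
    intro h0
    have := (Complex.arg_eq_pi_iff.1 h0).2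
    linarith
  -- `α < β`
  have hlt : (u * conj x).arg < (y * conj x).arg := by
    by_contra hcon
    push Not at hcon
    have h1 := arg_sub_aux hune (hne x hxX) (hne y hyX) hb0 hbpi hcon
    have h2 : 0 ≤ (u * conj y).arg := by rw [h1]; linarith
    have h3 : 0 ≤ (u * conj y).im := Complex.arg_nonneg_iff.1 h2
    have h4 := hmin y (Finset.mem_filter.2 ⟨hyX, h3⟩)
    rw [h1] at h4
    exact hbpos (le_antisymm (by linarith) hb0)
  -- `β ≤ 2 g`
  obtain ⟨hxlo, hxhi, hxsq⟩ := hnb x hxX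
  obtain ⟨hylo, hyhi, _⟩ := hnb y hyX
  have hnorm_yx : ‖y - x‖ ≤ g := by rw [← Complex.dist_eq]; exact hyd
  have hdiff : y * conj x = (y - x) * conj x + ((‖x‖ ^ 2 : ℝ) : ℂ) := by
    have : ((‖x‖ ^ 2 : ℝ) : ℂ) = x * conj x := by
      rw [Complex.mul_conj, Complex.normSq_eq_norm_sq]
    rw [this]; ring
  have hnm : ‖(y - x) * conj x‖ ≤ g * ‖x‖ := by
    rw [norm_mul, Complex.norm_conj]
    exact mul_le_mul_of_nonneg_right hnorm_yx (norm_nonneg _)
  have him : (y * conj x).im ≤ g * ‖x‖ := by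
    rw [hdiff, Complex.add_im, Complex.ofReal_im, add_zero]
    exact ((le_abs_self _).trans (Complex.abs_im_le_norm _)).trans hnm
  have hre : 0 < (y * conj x).re := by
    rw [hdiff, Complex.add_re, Complex.ofReal_re]
    have h1 : -(g * ‖x‖) ≤ ((y - x) * conj x).re :=
      neg_le_of_abs_le ((Complex.abs_re_le_norm _).trans hnm)
    have h2 : g * ‖x‖ < ‖x‖ ^ 2 := by nlinarith
    linarith
  have hbhalf : (y * conj x).arg < Real.pi / 2 := by
    have := Complex.abs_arg_lt_pi_div_two_iff.2 (Or.inl hre)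
    exact (abs_lt.mp this).2
  have hsin : Real.sin (y * conj x).arg ≤ 101 / 100 * g * (101 / 100) := by
    have h1 := Complex.norm_mul_sin_arg (y * conj x)
    rw [norm_mul, Complex.norm_conj] at h1
    have h2 : ‖y‖ * ‖x‖ * Real.sin (y * conj x).arg ≤ g * ‖x‖ := by rw [h1]; exact him
    have hxpos : 0 < ‖x‖ := by linarith
    have h3 : ‖y‖ * Real.sin (y * conj x).arg ≤ g := by
      have : (‖y‖ * Real.sin (y * conj x).arg) * ‖x‖ ≤ g * ‖x‖ := by linarith
      exact le_of_mul_le_mul_right this hxpos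
    have h4 : 0 ≤ Real.sin (y * conj x).arg :=
      Real.sin_nonneg_of_nonneg_of_le_pi hb0 (Complex.arg_le_pi _)
    nlinarith
  have hb2 : (y * conj x).arg ≤ 2 * g := by
    have h1 := Real.mul_le_sin hb0 hbhalf.le
    have h2 : 2 / Real.pi * (y * conj x).arg ≤ 101 / 100 * g * (101 / 100) := h1.trans hsin
    have hpi := Real.pi_pos
    have hpi2 := Real.pi_lt_d2
    have h3 : (y * conj x).arg = (2 / Real.pi * (y * conj x).arg) * (Real.pi / 2) := by
      field_simp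
    rw [h3]
    calc (2 / Real.pi * (y * conj x).arg) * (Real.pi / 2)
        ≤ (101 / 100 * g * (101 / 100)) * (Real.pi / 2) :=
          mul_le_mul_of_nonneg_right h2 (by positivity)
      _ ≤ (101 / 100 * g * (101 / 100)) * (3.15 / 2) := by
          apply mul_le_mul_of_nonneg_left _ (by positivity)
          linarith
      _ ≤ 2 * g := by nlinarith
  -- conclusion
  refine ⟨x, hxX, ?_⟩
  have hal : (u * conj x).arg ≤ 2 * g := by linarith
  have hcos := Real.one_sub_sq_div_two_le_cos (x := (u * conj x).arg)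
  have hre2 := Complex.norm_mul_cos_arg (u * conj x)
  rw [norm_mul, Complex.norm_conj, hu, one_mul] at hre2
  have hd := dist_sq_eq x u
  rw [hu, ← hre2] at hd
  have hxpos : 0 < ‖x‖ := by linarith
  have h1 : ‖x‖ * (1 - (u * conj x).arg ^ 2 / 2) ≤ ‖x‖ * Real.cos (u * conj x).arg :=
    mul_le_mul_of_nonneg_left hcos hxpos.le
  have h2 : (u * conj x).arg ^ 2 ≤ (2 * g) ^ 2 := pow_le_pow_left₀ ha0 hal 2
  have h3 : ‖x‖ * (u * conj x).arg ^ 2 ≤ 101 / 100 * (2 * g) ^ 2 :=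
    mul_le_mul hxhi h2 (sq_nonneg _) (by norm_num)
  have h4 : dist x u ^ 2 ≤ (3 * g) ^ 2 := by
    rw [hd]
    nlinarith [sq_nonneg g]
  exact le_of_sq_le_sq h4 (by positivity)

end Pool.Agent.Vps
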