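import Pool.Agent.Lib.Vps.Top

/-!
# Points of `X` are close to the boundary of the convex hull of `X`
-/

open Finset
open scoped ComplexConjugate

namespace Pool.Agent.Vps

namespace DepthAux

/-- The clamp of `t - r2` to `[0, w]`. -/
noncomputable def c (r2 w t : ℝ) : ℝ := min (max (t - r2) 0) w

theorem c_nonneg {r2 w t : ℝ} (hw : 0 ≤ w) : 0 ≤ c r2 w t :=
  le_min (le_max_right _ _) hw

theorem c_le {r2 w t : ℝ} : c r2 w t ≤ w := min_le_right _ _

theorem c_le_max {r2 w t : ℝ} : c r2 w t ≤ max (t - r2) 0 := min_le_left _ _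

theorem c_eq {r2 w t : ℝ} (hw : 0 ≤ w) (h : t ≤ r2 + w) : c r2 w t = max (t - r2) 0 :=
  min_eq_left (max_le (by linarith) hw)

theorem c_mono {r2 w t t' : ℝ} (h : t ≤ t') : c r2 w t ≤ c r2 w t' :=
  min_le_min (max_le_max (by linarith) le_rfl) le_rfl

/-- Three points are enough. -/
theorem exists_comb {X : Finset ℂ} {z : ℂ} (hz : z ∈ convexHull ℝ (X : Set ℂ)) :
    ∃ t : Finset ℂ, t ⊆ X ∧ t.card ≤ 3 ∧ ∃ l : ℂ → ℝ, (∀ v ∈ t, 0 ≤ l v) ∧ ∑ v ∈ t, l v = 1 ∧
      ∑ v ∈ t, l v • v = z := by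
  rw [convexHull_eq_union] at hz
  simp only [Set.mem_iUnion] at hz
  obtain ⟨t, ht, hind, hz⟩ := hz
  refine ⟨t, by exact_mod_cast ht, ?_, ?_⟩
  · have h1 := hind.card_le_finrank_succ
    have h2 : Module.finrank ℝ (vectorSpan ℝ (Set.range ((↑) : t → ℂ))) ≤ 2 := by
      rw [← Complex.finrank_real_complex]
      exact Submodule.finrank_le _
    have h3 : Fintype.card t = t.card := Fintype.card_coe t
    omega
  · exact Finset.mem_convexHull'.1 hz

/-- Convexity of the square of the distance. -/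
theorem dist_sq_le {t : Finset ℂ} {l : ℂ → ℝ} (hl : ∀ v ∈ t, 0 ≤ l v) (hl1 : ∑ v ∈ t, l v = 1)
    {z : ℂ} (hz : ∑ v ∈ t, l v • v = z) (y : ℂ) :
    dist z y ^ 2 ≤ ∑ v ∈ t, l v * dist v y ^ 2 := by
  have e1 : z - y = ∑ v ∈ t, l v • (v - y) := by
    simp only [smul_sub, Finset.sum_sub_distrib, hz, ← Finset.sum_smul, hl1, one_smul]
  have h1 : dist z y ≤ ∑ v ∈ t, l v * dist v y := by
    rw [Complex.dist_eq, e1]
    refine (norm_sum_le _ _).trans (Finset.sum_le_sum fun v hv => ?_)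
    rw [norm_smul, Real.norm_eq_abs, abs_of_nonneg (hl v hv), Complex.dist_eq]
  have h2 : (∑ v ∈ t, l v * dist v y) ^ 2 ≤ ∑ v ∈ t, l v * dist v y ^ 2 := by
    have h4 : 0 ≤ ∑ v ∈ t, l v * (dist v y - ∑ u ∈ t, l u * dist u y) ^ 2 :=
      Finset.sum_nonneg fun v hv => mul_nonneg (hl v hv) (sq_nonneg _)
    have h5 : ∀ S : ℝ, ∑ v ∈ t, l v * (dist v y - S) ^ 2 =
        ∑ v ∈ t, l v * dist v y ^ 2 - 2 * S * ∑ v ∈ t, l v * dist v y + S ^ 2 * ∑ v ∈ t, l v := by
      intro S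
      rw [Finset.mul_sum, Finset.mul_sum, ← Finset.sum_sub_distrib, ← Finset.sum_add_distrib]
      exact Finset.sum_congr rfl fun v _ => by ring
    rw [h5, hl1] at h4
    nlinarith
  exact (pow_le_pow_left₀ dist_nonneg h1 2).trans h2

end DepthAux

open DepthAux in
/-- PROOF. Carathéodory (`convexHull_eq_union`, affinely independent families in `ℂ` have at most
three points; or any way to get three points): `z = (1 + s) x = ∑ i, l i • v i` with
`v : Fin 3 → ℂ` in `X`, `l ≥ 0`, `∑ l = 1`. Let `r2 = ρ - w`,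
`c(τ) = min (max (τ - r2) 0) w`, `F(v) = ∑ y ∈ X, c (dist v y ^ 2)`. `psi` with `ψ d = c (d ^ 2)`, `M = w`:
`F (v i) ≤ F x + e w`. Call `y ∈ X` exceptional if `ρ < dist (v i) y ^ 2` for some `i`: at most
`3 (3 e + 2)` of them. For `y` not exceptional `dist z y ^ 2 ≤ ∑ l i dist (v i) y ^ 2 ≤ ρ` and
(convexity of `max (τ - r2) 0`, monotonicity) `c (dist z y ^ 2) ≤ ∑ l i c (dist (v i) y ^ 2)`; for the
exceptional ones `c ≤ w`. So `F z ≤ F x + e w + 3 (3 e + 2) w`.
On the other hand, if `y ∈ top X x r2` then `Re (x conj (x - y)) = (‖x‖^2 - ‖y‖^2 + dist x y ^ 2) / 2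
≥ 1.99`, so `dist z y ^ 2 ≥ dist x y ^ 2 + 3 s`, and if moreover `y` is not exceptional,
`c (dist z y ^ 2) ≥ c (dist x y ^ 2) + 3 s`; for the other `y`, `c (dist z y ^ 2) ≥ c (dist x y ^ 2)`.
So `F z ≥ F x + 3 s (card (top X x r2) - 3 (3 e + 2))`. -/
theorem depth {X : Finset ℂ} {e T : ℝ} (h : Ann X e T) (hT : T ≤ 1 / 10 ^ 6) {ρ w s : ℝ}
    (hρ : 3999 / 1000 ≤ ρ) (hexc : ∀ x ∈ X, ((exc X x ρ).card : ℝ) ≤ 3 * e + 2)
    (hw : 0 < w) (hw1 : w ≤ 1 / 10 ^ 4) (hs : 0 ≤ s) {x : ℂ} (hx : x ∈ X)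
    (hconv : ((1 + s : ℝ) : ℂ) * x ∈ convexHull ℝ (X : Set ℂ)) :
    3 * s * (((top X x (ρ - w)).card : ℝ) - (9 * e + 6)) ≤ (10 * e + 6) * w := by
  obtain ⟨t, htX, ht3, l, hl0, hl1, hlz⟩ := exists_comb hconv
  set z : ℂ := ((1 + s : ℝ) : ℂ) * x with hz
  set r2 := ρ - w with hr2
  have hr2' : r2 + w = ρ := by rw [hr2]; ring
  have hr2pos : 0 < r2 := by linarith
  have he := h.nonneg
  -- the exceptional points
  set E : Finset ℂ := t.biUnion fun v => exc X v ρ with hE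
  have hEcard : (E.card : ℝ) ≤ 9 * e + 6 := by
    have h1 : (E.card : ℝ) ≤ ∑ v ∈ t, ((exc X v ρ).card : ℝ) := by
      exact_mod_cast Finset.card_biUnion_le
    have h2 : ∑ v ∈ t, ((exc X v ρ).card : ℝ) ≤ ∑ v ∈ t, (3 * e + 2) :=
      Finset.sum_le_sum fun v hv => hexc v (htX hv)
    rw [Finset.sum_const, nsmul_eq_mul] at h2
    have h3 : (t.card : ℝ) ≤ 3 := by exact_mod_cast ht3
    nlinarith
  have hEX : E ⊆ X := by
    rw [hE]
    exact Finset.biUnion_subset.2 fun v _ => Finset.filter_subset _ _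
  have hnE : ∀ y ∈ X, y ∉ E → ∀ v ∈ t, dist v y ^ 2 ≤ ρ := by
    intro y hy hyE v hv
    by_contra hcon
    apply hyE
    rw [hE, Finset.mem_biUnion]
    exact ⟨v, hv, Finset.mem_filter.2 ⟨hy, not_le.1 hcon⟩⟩
  have hzρ : ∀ y ∈ X, y ∉ E → dist z y ^ 2 ≤ ρ := by
    intro y hy hyE
    refine (dist_sq_le hl0 hl1 hlz y).trans ?_
    calc ∑ v ∈ t, l v * dist v y ^ 2 ≤ ∑ v ∈ t, l v * ρ :=
          Finset.sum_le_sum fun v hv => mul_le_mul_of_nonneg_left (hnE y hy hyE v hv) (hl0 v hv)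
      _ = ρ := by rw [← Finset.sum_mul, hl1, one_mul]
  -- comparison of the sums at `v` and `x`
  have hF : ∀ v ∈ t, ∑ y ∈ X, c r2 w (dist v y ^ 2) ≤ ∑ y ∈ X, c r2 w (dist x y ^ 2) + e * w := by
    intro v hv
    refine psi h.toSys (htX hv) hx (fun d => c r2 w (d ^ 2)) w ?_ ?_ ?_ hw.le
    · show min (max ((0 : ℝ) ^ 2 - r2) 0) w = 0
      rw [max_eq_right (by nlinarith), min_eq_left hw.le]
    · intro d _; exact c_nonneg hw.le
    · intro d _; exact c_le
  -- upper bound for `F z`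
  have hup : ∑ y ∈ X, c r2 w (dist z y ^ 2) ≤
      ∑ y ∈ X, c r2 w (dist x y ^ 2) + e * w + (9 * e + 6) * w := by
    have h1 : ∀ y ∈ X, c r2 w (dist z y ^ 2) ≤
        ∑ v ∈ t, l v * c r2 w (dist v y ^ 2) + (if y ∈ E then w else 0) := by
      intro y hy
      by_cases hyE : y ∈ E
      · rw [if_pos hyE]
        have h2 : 0 ≤ ∑ v ∈ t, l v * c r2 w (dist v y ^ 2) :=
          Finset.sum_nonneg fun v hv => mul_nonneg (hl0 v hv) (c_nonneg hw.le)
        have h3 : c r2 w (dist z y ^ 2) ≤ w := c_le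
        linarith
      · rw [if_neg hyE, add_zero]
        refine c_le_max.trans (max_le ?_ ?_)
        · have h2 := dist_sq_le hl0 hl1 hlz y
          calc dist z y ^ 2 - r2 ≤ ∑ v ∈ t, l v * dist v y ^ 2 - (∑ v ∈ t, l v) * r2 := by
                rw [hl1]; linarith
            _ = ∑ v ∈ t, l v * (dist v y ^ 2 - r2) := by
                rw [Finset.sum_mul, ← Finset.sum_sub_distrib]
                exact Finset.sum_congr rfl fun v _ => by ring
            _ ≤ _ := by
                refine Finset.sum_le_sum fun v hv => mul_le_mul_of_nonneg_left ?_ (hl0 v hv)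
                rw [c_eq hw.le (by rw [hr2']; exact hnE y hy hyE v hv)]
                exact le_max_left _ _
        · exact Finset.sum_nonneg fun v hv => mul_nonneg (hl0 v hv) (c_nonneg hw.le)
    have h2 := Finset.sum_le_sum h1
    rw [Finset.sum_add_distrib, Finset.sum_comm] at h2
    have h3 : ∑ v ∈ t, ∑ y ∈ X, l v * c r2 w (dist v y ^ 2) ≤
        ∑ y ∈ X, c r2 w (dist x y ^ 2) + e * w := by
      calc ∑ v ∈ t, ∑ y ∈ X, l v * c r2 w (dist v y ^ 2) =
            ∑ v ∈ t, l v * ∑ y ∈ X, c r2 w (dist v y ^ 2) :=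
            Finset.sum_congr rfl fun v _ => by rw [Finset.mul_sum]
        _ ≤ ∑ v ∈ t, l v * (∑ y ∈ X, c r2 w (dist x y ^ 2) + e * w) :=
            Finset.sum_le_sum fun v hv => mul_le_mul_of_nonneg_left (hF v hv) (hl0 v hv)
        _ = _ := by rw [← Finset.sum_mul, hl1, one_mul]
    have h4 : ∑ y ∈ X, (if y ∈ E then w else 0) ≤ (9 * e + 6) * w := by
      rw [← Finset.sum_filter, Finset.sum_const, nsmul_eq_mul]
      refine mul_le_mul_of_nonneg_right ?_ hw.le
      refine le_trans ?_ hEcard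
      exact_mod_cast Finset.card_le_card fun y hy => (Finset.mem_filter.1 hy).2
    linarith
  -- lower bound
  have hdist : ∀ y : ℂ, dist z y ^ 2 - dist x y ^ 2 =
      s ^ 2 * ‖x‖ ^ 2 + s * (‖x‖ ^ 2 - ‖y‖ ^ 2 + dist x y ^ 2) := by
    intro y
    have h1 := dist_sq_eq z y
    have h2 := dist_sq_eq x y
    have h3 : ‖z‖ ^ 2 = (1 + s) ^ 2 * ‖x‖ ^ 2 := by
      rw [hz, norm_mul, Complex.norm_real, Real.norm_eq_abs, mul_pow, sq_abs]
    have h4 : (y * conj z).re = (1 + s) * (y * conj x).re := by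
      rw [hz, map_mul, Complex.conj_ofReal, ← mul_assoc, mul_comm y, mul_assoc,
        Complex.re_ofReal_mul]
    rw [h1, h2, h3, h4]
    ring
  have hlow : ∑ y ∈ X, c r2 w (dist x y ^ 2) + 3 * s * (((top X x r2).card : ℝ) - (9 * e + 6)) ≤
      ∑ y ∈ X, c r2 w (dist z y ^ 2) := by
    have h1 : ∀ y ∈ X, c r2 w (dist x y ^ 2) + (if y ∈ top X x r2 \ E then 3 * s else 0) ≤
        c r2 w (dist z y ^ 2) := by
      intro y hy
      have hbig : y ∈ top X x r2 → dist x y ^ 2 + 3 * s ≤ dist z y ^ 2 := by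
        intro hyt
        have h2 : r2 ≤ dist x y ^ 2 := (Finset.mem_filter.1 hyt).2
        have h3 := hdist y
        have h4 := abs_le.1 (h.ann x hx)
        have h5 := abs_le.1 (h.ann y hy)
        have h6 : 0 ≤ s ^ 2 * ‖x‖ ^ 2 := by positivity
        have h7 : 3 ≤ ‖x‖ ^ 2 - ‖y‖ ^ 2 + dist x y ^ 2 := by
          have : r2 = ρ - w := hr2
          norm_num at hT hw1
          linarith [h4.1, h5.2]
        have h8 : s * 3 ≤ s * (‖x‖ ^ 2 - ‖y‖ ^ 2 + dist x y ^ 2) :=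
          mul_le_mul_of_nonneg_left h7 hs
        linarith
      by_cases hyt : y ∈ top X x r2 \ E
      · rw [if_pos hyt]
        obtain ⟨hyt1, hyE⟩ := Finset.mem_sdiff.1 hyt
        have h2 : r2 ≤ dist x y ^ 2 := (Finset.mem_filter.1 hyt1).2
        have h3 : c r2 w (dist x y ^ 2) ≤ dist x y ^ 2 - r2 :=
          c_le_max.trans (max_le le_rfl (by linarith))
        have h4 : c r2 w (dist z y ^ 2) = max (dist z y ^ 2 - r2) 0 :=
          c_eq hw.le (by rw [hr2']; exact hzρ y hy hyE)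
        have h5 := hbig hyt1
        rw [h4]
        refine le_trans ?_ (le_max_left _ _)
        linarith
      · rw [if_neg hyt, add_zero]
        by_cases hyt1 : y ∈ top X x r2
        · exact c_mono (by linarith [hbig hyt1])
        · have h2 : dist x y ^ 2 < r2 := by
            by_contra hcon
            exact hyt1 (Finset.mem_filter.2 ⟨hy, not_lt.1 hcon⟩)
          have h3 : c r2 w (dist x y ^ 2) ≤ 0 :=
            c_le_max.trans (max_le (by linarith) le_rfl)
          exact h3.trans (c_nonneg hw.le)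
    have h2 := Finset.sum_le_sum h1
    rw [Finset.sum_add_distrib, ← Finset.sum_filter, Finset.sum_const, nsmul_eq_mul] at h2
    have h3 : X.filter (fun y => y ∈ top X x r2 \ E) = top X x r2 \ E := by
      ext y
      simp only [Finset.mem_filter, and_iff_right_iff_imp]
      intro hy
      exact (Finset.mem_filter.1 (Finset.mem_sdiff.1 hy).1).1
    rw [h3] at h2
    have h4 : ((top X x r2).card : ℝ) - (9 * e + 6) ≤ ((top X x r2 \ E).card : ℝ) := by
      have h5 : (top X x r2).card ≤ (top X x r2 \ E).card + E.card := by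
        have := Finset.card_le_card_sdiff_add_card (s := top X x r2) (t := E)
        omega
      have h6 : ((top X x r2).card : ℝ) ≤ ((top X x r2 \ E).card : ℝ) + E.card := by
        exact_mod_cast h5
      linarith
    have h5 : 3 * s * (((top X x r2).card : ℝ) - (9 * e + 6)) ≤
        3 * s * ((top X x r2 \ E).card : ℝ) := mul_le_mul_of_nonneg_left h4 (by positivity)
    linarith
  linarith

end Pool.Agent.Vps
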