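import Pool.Agent.Lib.Vps.MainA
import Pool.Agent.Lib.Vps.Wrap

/-!
# The unconditional result
-/

open Finset
open scoped ComplexConjugate

namespace Pool.Agent.Vps

theorem finalA :
    ∃ c : ℝ, 0 < c ∧ ∃ N : ℕ, ∀ n : ℕ, N ≤ n →
      ∀ x : Fin n → EuclideanSpace ℝ (Fin 2),
        Function.Injective x →
        (∀ i j k : Fin n, i ≠ j → i ≠ k → j ≠ k →
          ¬ Collinear ℝ ({x i, x j, x k} : Set (EuclideanSpace ℝ (Fin 2)))) →
        (∀ i j k l : Fin n, i ≠ j → i ≠ k → i ≠ l → j ≠ k → j ≠ l → k ≠ l →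
          ¬ EuclideanGeometry.Cospherical
              ({x i, x j, x k, x l} : Set (EuclideanSpace ℝ (Fin 2)))) →
        (∀ i : Fin n, ∀ r : ℝ,
          (Finset.univ.filter (fun j : Fin n => j ≠ i ∧ dist (x i) (x j) = r)).card ≤ 2) →
        (n : ℝ) / 2 + c * Real.sqrt n ≤
          (((Finset.univ.filter (fun p : Fin n × Fin n => p.1 ≠ p.2)).image
            (fun p : Fin n × Fin n => dist (x p.1) (x p.2))).card : ℝ) := by
  refine ⟨1 / 10 ^ 21, by positivity, 10 ^ 42, ?_⟩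
  intro n hn x hx hcol hcirc hvalid
  by_contra hlt
  push Not at hlt
  have hn' : (10 : ℝ) ^ 42 ≤ n := by exact_mod_cast hn
  have hn2 : 2 ≤ n := le_trans (by norm_num) hn
  obtain ⟨f, κ, hκ, hf, h0, h1⟩ := exists_similarity hn2 x hx
  set D := (((Finset.univ.filter (fun p : Fin n × Fin n => p.1 ≠ p.2)).image
            (fun p : Fin n × Fin n => dist (x p.1) (x p.2))).card : ℝ) with hD
  have hinj : Function.Injective (fun i => f (x i)) := fun i j hij => hx (f.injective hij)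
  have hcard : (univ.image fun i => f (x i)).card = n := by
    rw [Finset.card_image_of_injective _ hinj]; simp
  have hsys := sys_of (le_trans (by norm_num) hn2) hx f hκ hf hvalid
  rw [← hD] at hsys
  refine mainA hsys ?_ ?_ (noCol_of hx f hcol) (noCirc_of hx f hκ hf hcirc) ?_
  · rw [Finset.sum_image (fun a _ b _ hab => hinj hab)]; exact h0
  · rw [Finset.sum_image (fun a _ b _ hab => hinj hab), h1, hcard]
  · rw [hcard]
    have hs0 : 0 ≤ Real.sqrt n := Real.sqrt_nonneg _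
    have hs2 : Real.sqrt n ^ 2 = n := Real.sq_sqrt (by positivity)
    have hnn := hsys.nonneg
    have h3 : 2 * D - (n - 1) + 1 ≤ 2 + 2 / 10 ^ 21 * Real.sqrt n := by
      linarith
    have h4 : (2 * D - (n - 1) + 1) ^ 2 ≤ (2 + 2 / 10 ^ 21 * Real.sqrt n) ^ 2 :=
      pow_le_pow_left₀ (by linarith) h3 2
    have h5 : (2 + 2 / 10 ^ 21 * Real.sqrt n) ^ 2 ≤ 8 + 8 / 10 ^ 42 * n := by
      have h6 : (2 + 2 / 10 ^ 21 * Real.sqrt n) ^ 2 + (2 - 2 / 10 ^ 21 * Real.sqrt n) ^ 2 =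
          8 + 8 / 10 ^ 42 * Real.sqrt n ^ 2 := by ring
      rw [hs2] at h6
      have h7 := sq_nonneg (2 - 2 / 10 ^ 21 * Real.sqrt n)
      linarith
    have h8 : (2 * D - (n - 1) + 1) ^ 2 ≤ 8 + 8 / 10 ^ 42 * n := h4.trans h5
    linarith

end Pool.Agent.Vps
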