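import Pool.Agent.Lib.Vps.FlatTiny
import Pool.Agent.Lib.Vps.Conj

/-!
# Clusters are flat
-/

open Finset
open scoped ComplexConjugate

namespace Pool.Agent.Vps

namespace Flat

/-- A tiny cluster, the case `t(v) ≥ 0`. -/
theorem tiny_pos {X : Finset ℂ} {e T : ℝ} (h : Ann X e T) {x0 : ℂ} (hx0 : x0 ∈ X) {s D : ℝ}
    (hs0 : 0 < s) (hs : s ≤ 1 / 10 ^ 8) (hT : T ≤ s / 10 ^ 8) (hD0 : 0 ≤ D)
    (hD : D ≤ s / 10 ^ 6)
    (hC : ∀ x ∈ ball X x0 s, ∀ x' ∈ ball X x0 s, dist x x' ≤ D)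
    (hk : 10 ^ 9 * (e + 1) ≤ ((ball X x0 s).card : ℝ)) {x x' : ℂ} (hx : x ∈ ball X x0 s)
    (hx' : x' ∈ ball X x0 s) (htv : 0 ≤ ((x - x') * conj x0).im) :
    ((x - x') * conj x0).re ≤ D / 50 := by
  have hT6 : T ≤ s / 10 ^ 6 := by
    refine hT.trans ?_
    gcongr
    · norm_num
    · norm_num
  have hT1 : T ≤ 1 / 10 ^ 8 := by
    refine hT.trans ?_
    have : s ≤ 1 := hs.trans (by norm_num)
    gcongr
  obtain ⟨y, hy, h1⟩ := centroid h hx0 hT1 (σ := -1) (Or.inr rfl)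
  rcases h1 with h1 | h1
  · exact flatTiny_side h hx0 hs0 hs hT6 hD0 hD hC hk hx hx' hy (by linarith) htv
  · exact flatTiny_anti h hx0 hs0 hs hT6 hD0 hD hC hk hx hx' hy h1

/-- The one-sided estimate. -/
theorem one {X : Finset ℂ} {e T : ℝ} (h : Ann X e T) {x0 : ℂ} (hx0 : x0 ∈ X) {s D : ℝ}
    (hs0 : 0 < s) (hs : s ≤ 1 / 10 ^ 8) (hT : T ≤ s / 10 ^ 8) (hD0 : 0 ≤ D)
    (hC : ∀ x ∈ ball X x0 s, ∀ x' ∈ ball X x0 s, dist x x' ≤ D)
    (hk : 10 ^ 9 * (e + 1) ≤ ((ball X x0 s).card : ℝ)) {x x' : ℂ} (hx : x ∈ ball X x0 s)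
    (hx' : x' ∈ ball X x0 s) :
    ((x - x') * conj x0).re ≤ D / 50 := by
  by_cases hD : D ≤ s / 10 ^ 6
  · by_cases htv : 0 ≤ ((x - x') * conj x0).im
    · exact tiny_pos h hx0 hs0 hs hT hD0 hD hC hk hx hx' htv
    · push Not at htv
      have hkey : (conj x - conj x') * conj (conj x0) = conj ((x - x') * conj x0) := by
        rw [map_mul, map_sub]
      have hC' : ∀ a ∈ ball (cX X) (conj x0) s, ∀ b ∈ ball (cX X) (conj x0) s, dist a b ≤ D := by
        intro a ha b hb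
        have := hC (conj a) (mem_ball_cX.1 ha) (conj b) (mem_ball_cX.1 hb)
        rwa [dist_conj'] at this
      have hres := tiny_pos (ann_cX h) (x0 := conj x0) (mem_cX.2 (by simpa using hx0)) hs0 hs hT
        hD0 hD hC' (by rw [card_ball_cX]; exact hk) (x := conj x) (x' := conj x')
        (mem_ball_cX.2 (by simpa using hx)) (mem_ball_cX.2 (by simpa using hx'))
        (by rw [hkey, Complex.conj_im]; linarith)
      rwa [hkey, Complex.conj_re] at hres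
  · push Not at hD
    have hxb := mem_ball.1 hx
    have hxb' := mem_ball.1 hx'
    have h1 : ‖x‖ ^ 2 - ‖x'‖ ^ 2 = 2 * ((x - x') * conj x0).re +
        ((x - x') * conj ((x - x0) + (x' - x0))).re := by
      have h2 := dist_sq_sub x x' 0
      rw [dist_zero_right, dist_zero_right] at h2
      rw [h2]
      simp
      ring
    have h2 := abs_le.1 (h.ann x hxb.1)
    have h3 := abs_le.1 (h.ann x' hxb'.1)
    have h4 : |((x - x') * conj ((x - x0) + (x' - x0))).re| ≤ D * (2 * s) := by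
      refine (Complex.abs_re_le_norm _).trans ?_
      rw [norm_mul, Complex.norm_conj]
      have h5 : ‖(x - x0) + (x' - x0)‖ ≤ 2 * s := by
        refine (norm_add_le _ _).trans ?_
        rw [← Complex.dist_eq, ← Complex.dist_eq]
        linarith [hxb.2, hxb'.2]
      have h6 : ‖x - x'‖ ≤ D := by
        rw [← Complex.dist_eq]; exact hC x hx x' hx'
      exact mul_le_mul h6 h5 (norm_nonneg _) hD0
    have h5 := abs_le.1 h4
    have h6 : D * (2 * s) ≤ D * (2 * (1 / 10 ^ 8)) := by gcongr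
    norm_num at h6 hT hD
    linarith [h2.1, h2.2, h3.1, h3.2, h5.1, h5.2]

end Flat

/-- PROOF. By symmetry (exchange `x, x'`) it suffices to bound `Re ((x - x') conj x0) ≤ D / 50`.
If `D ≤ s / 10 ^ 6`: let `t(v) = Im ((x - x') conj x0)`. If `t(v) ≥ 0` apply `centroid` with
`σ = -1` and then `flatTiny_side` or `flatTiny_anti`. If `t(v) < 0` do the same for the
conjugate system (`ann_cX`, `mem_ball_cX`, `card_ball_cX` in `Conj.lean`).
If `D > s / 10 ^ 6`: `‖x‖^2 - ‖x'‖^2 = Re (v conj (x + x'))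
= 2 Re (v conj x0) + Re (v conj (x + x' - 2 x0))`, so
`|2 Re (v conj x0)| ≤ 2 T + 2 s D`, and `T ≤ s / 10 ^ 8 ≤ D / 100`. -/
theorem flat {X : Finset ℂ} {e T : ℝ} (h : Ann X e T) {x0 : ℂ} (hx0 : x0 ∈ X) {s D : ℝ}
    (hs0 : 0 < s) (hs : s ≤ 1 / 10 ^ 8) (hT : T ≤ s / 10 ^ 8) (hD0 : 0 ≤ D)
    (hC : ∀ x ∈ ball X x0 s, ∀ x' ∈ ball X x0 s, dist x x' ≤ D)
    (hk : 10 ^ 9 * (e + 1) ≤ ((ball X x0 s).card : ℝ)) :
    ∀ x ∈ ball X x0 s, ∀ x' ∈ ball X x0 s, |((x - x') * conj x0).re| ≤ D / 50 := by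
  intro x hx x' hx'
  rw [abs_le]
  constructor
  · have h1 := Flat.one h hx0 hs0 hs hT hD0 hC hk hx' hx
    have h2 : ((x' - x) * conj x0).re = -((x - x') * conj x0).re := by
      rw [← Complex.neg_re, ← neg_mul, neg_sub]
    linarith
  · exact Flat.one h hx0 hs0 hs hT hD0 hC hk hx hx'

end Pool.Agent.Vps
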