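import Pool.Agent.Lib.Vps.Psi
import Pool.Agent.Lib.Vps.Centroid

/-!
# Very small clusters are flat
-/

open Finset
open scoped ComplexConjugate

namespace Pool.Agent.Vps

theorem norm_le_of_ann {T : ℝ} (hT : T ≤ 1 / 10 ^ 6) {z : ℂ} (hz : |‖z‖ ^ 2 - 1| ≤ T) :
    ‖z‖ ≤ 1 + 1 / 10 ^ 6 := by
  have h1 := (abs_le.1 hz).2
  have h2 : ‖z‖ ^ 2 ≤ (1 + 1 / 10 ^ 6) ^ 2 := by norm_num at hT ⊢; linarith
  exact abs_le_of_sq_le_sq' h2 (by norm_num) |>.2

theorem sq_diff_le {a b y : ℂ} (ha : ‖a‖ ≤ 1 + 1 / 10 ^ 6) (hb : ‖b‖ ≤ 1 + 1 / 10 ^ 6)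
    (hy : ‖y‖ ≤ 1 + 1 / 10 ^ 6) : |dist a y ^ 2 - dist b y ^ 2| ≤ 41 / 10 * dist a b := by
  have h1 : dist a y ≤ 2 + 2 / 10 ^ 6 := by
    rw [Complex.dist_eq]; refine (norm_sub_le _ _).trans ?_; linarith
  have h2 : dist b y ≤ 2 + 2 / 10 ^ 6 := by
    rw [Complex.dist_eq]; refine (norm_sub_le _ _).trans ?_; linarith
  have h3 : |dist a y - dist b y| ≤ dist a b := abs_dist_sub_le a b y
  have h4 : dist a y ^ 2 - dist b y ^ 2 = (dist a y - dist b y) * (dist a y + dist b y) := by ring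
  rw [h4, abs_mul]
  have h5 : |dist a y + dist b y| ≤ 41 / 10 := by
    rw [abs_of_nonneg (add_nonneg dist_nonneg dist_nonneg)]; norm_num at h1 h2 ⊢; linarith
  calc |dist a y - dist b y| * |dist a y + dist b y| ≤ dist a b * (41 / 10) :=
        mul_le_mul h3 h5 (abs_nonneg _) dist_nonneg
    _ = _ := by ring

theorem abs_re_le_of_frame (x0 v : ℂ) : |(v * conj x0).re| ≤ ‖v‖ * ‖x0‖ := by
  refine (Complex.abs_re_le_norm _).trans ?_
  rw [norm_mul, Complex.norm_conj]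

theorem abs_im_le_of_frame (x0 v : ℂ) : |(v * conj x0).im| ≤ ‖v‖ * ‖x0‖ := by
  refine (Complex.abs_im_le_norm _).trans ?_
  rw [norm_mul, Complex.norm_conj]

/-- main expansion -/
theorem phi_expand {x0 x x' : ℂ} (h0 : x0 ≠ 0) (y : ℂ) :
    (dist x y ^ 2 - dist x' y ^ 2) * ‖x0‖ ^ 2 =
      2 * (((x - x') * conj x0).re * (‖x0‖ ^ 2 - (y * conj x0).re) -
        ((x - x') * conj x0).im * (y * conj x0).im) +
      ((x - x') * conj (x + x' - 2 * x0)).re * ‖x0‖ ^ 2 := by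
  have h1 := re_mul_conj_frame h0 (x - x') y
  have hN : ‖x0‖ ^ 2 ≠ 0 := by positivity
  have h2 : ((x - x') * conj (x + x' - 2 * y)).re =
      ((x - x') * conj (x + x' - 2 * x0)).re + 2 * ((x - x') * conj x0).re -
        2 * ((x - x') * conj y).re := by
    simp; ring
  rw [dist_sq_sub, h2, h1]
  field_simp
  ring

theorem phi_err {x0 x x' : ℂ} {D : ℝ} (h1 : dist x x' ≤ D) (h2 : dist x x0 ≤ D)
    (h3 : dist x' x0 ≤ D) (hD : 0 ≤ D) :
    |((x - x') * conj (x + x' - 2 * x0)).re| ≤ 2 * D ^ 2 := by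
  refine (Complex.abs_re_le_norm _).trans ?_
  rw [norm_mul, Complex.norm_conj, ← Complex.dist_eq]
  have : ‖x + x' - 2 * x0‖ ≤ 2 * D := by
    have : x + x' - 2 * x0 = (x - x0) + (x' - x0) := by ring
    rw [this]
    refine (norm_add_le _ _).trans ?_
    rw [← Complex.dist_eq, ← Complex.dist_eq]; linarith
  calc dist x x' * ‖x + x' - 2 * x0‖ ≤ D * (2 * D) := mul_le_mul h1 this (norm_nonneg _) hD
    _ = _ := by ring


/-- the window estimate -/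
theorem win_est {x0 x y y0 : ℂ} {T D : ℝ} (hT : T ≤ 1 / 10 ^ 6) (hD : 0 ≤ D)
    (a0 : |‖x0‖ ^ 2 - 1| ≤ T) (ax : |‖x‖ ^ 2 - 1| ≤ T) (ay : |‖y‖ ^ 2 - 1| ≤ T)
    (ay0 : |‖y0‖ ^ 2 - 1| ≤ T) (hx : dist x x0 ≤ D)
    (hw : |dist x y ^ 2 - dist x y0 ^ 2| ≤ 141 / 10 * D) :
    |(y * conj x0).re - (y0 * conj x0).re| ≤ T + 12 * D ∧
    |(y * conj x0).im ^ 2 - (y0 * conj x0).im ^ 2| ≤ 30 * (T + D) := by
  have n0 := norm_le_of_ann hT a0
  have nx := norm_le_of_ann hT ax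
  have ny := norm_le_of_ann hT ay
  have ny0 := norm_le_of_ann hT ay0
  have h1 := sq_diff_le nx n0 ny
  have h2 := sq_diff_le nx n0 ny0
  have e1 := dist_sq_eq x0 y
  have e2 := dist_sq_eq x0 y0
  have hT0 : 0 ≤ T := le_trans (abs_nonneg _) a0
  rw [abs_le] at h1 h2 hw a0 ay ay0
  have key : |(y * conj x0).re - (y0 * conj x0).re| ≤ T + 12 * D := by
    rw [abs_le]
    constructor <;> linarith [h1.1, h1.2, h2.1, h2.2, hw.1, hw.2, ay.1, ay.2, ay0.1, ay0.2]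
  refine ⟨key, ?_⟩
  have f1 := norm_sq_frame x0 y
  have f2 := norm_sq_frame x0 y0
  have b1 : |(y * conj x0).re| ≤ 1 + 3 / 10 ^ 6 := by
    refine (abs_re_le_of_frame x0 y).trans ?_
    calc ‖y‖ * ‖x0‖ ≤ (1 + 1 / 10 ^ 6) * (1 + 1 / 10 ^ 6) :=
          mul_le_mul ny n0 (norm_nonneg _) (by norm_num)
      _ ≤ _ := by norm_num
  have b2 : |(y0 * conj x0).re| ≤ 1 + 3 / 10 ^ 6 := by
    refine (abs_re_le_of_frame x0 y0).trans ?_
    calc ‖y0‖ * ‖x0‖ ≤ (1 + 1 / 10 ^ 6) * (1 + 1 / 10 ^ 6) :=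
          mul_le_mul ny0 n0 (norm_nonneg _) (by norm_num)
      _ ≤ _ := by norm_num
  have e3 : (y * conj x0).im ^ 2 - (y0 * conj x0).im ^ 2 =
      (‖y‖ ^ 2 - ‖y0‖ ^ 2) * ‖x0‖ ^ 2 -
      ((y * conj x0).re - (y0 * conj x0).re) * ((y * conj x0).re + (y0 * conj x0).re) := by
    linarith [f1, f2, sq_sub_sq (y * conj x0).re (y0 * conj x0).re]
  rw [e3]
  have c1 : |(‖y‖ ^ 2 - ‖y0‖ ^ 2) * ‖x0‖ ^ 2| ≤ 2 * T * (1 + T) := by
    rw [abs_mul]
    refine mul_le_mul ?_ ?_ (abs_nonneg _) (by linarith)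
    · rw [abs_le]; constructor <;> linarith [ay.1, ay.2, ay0.1, ay0.2]
    · rw [abs_of_nonneg (by positivity)]; linarith [a0.2]
  have c2 : |((y * conj x0).re - (y0 * conj x0).re) * ((y * conj x0).re + (y0 * conj x0).re)| ≤
      (T + 12 * D) * (2 + 6 / 10 ^ 6) := by
    rw [abs_mul]
    refine mul_le_mul key ?_ (abs_nonneg _) (by linarith)
    refine (abs_add_le _ _).trans ?_; linarith
  refine (abs_sub _ _).trans ?_
  have hTT : T * T ≤ T := by nlinarith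
  have c3 : 2 * T * (1 + T) + (T + 12 * D) * (2 + 6 / 10 ^ 6) ≤ 30 * (T + D) := by
    have : 2 * T * (1 + T) = 2 * T + 2 * (T * T) := by ring
    rw [this]
    norm_num
    linarith
  linarith



theorem ft_A {nv tv N n1 τ D ny ty : ℝ} (hD0 : 0 ≤ D) (h1 : 0 ≤ nv) (h2 : nv ≤ D * (1 + 1 / 10 ^ 6))
    (h3 : 0 ≤ tv) (h4 : tv ≤ D * (1 + 1 / 10 ^ 6)) (h5 : ny ≤ n1 + D * (1 + 1 / 10 ^ 6))
    (h6 : ty ≤ -τ + D * (1 + 1 / 10 ^ 6)) :
    2 * (nv * (N - n1)) + 2 * (tv * τ) - 7 * D ^ 2 ≤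
      2 * (nv * (N - ny) - tv * ty) - 21 / 10 * D ^ 2 := by
  have e1 : nv * (ny - n1) ≤ D * (1 + 1 / 10 ^ 6) * (D * (1 + 1 / 10 ^ 6)) :=
    (mul_le_mul_of_nonneg_left (by linarith : ny - n1 ≤ D * (1 + 1 / 10 ^ 6)) h1).trans
      (mul_le_mul_of_nonneg_right h2 (by positivity))
  have e2 : tv * (ty + τ) ≤ D * (1 + 1 / 10 ^ 6) * (D * (1 + 1 / 10 ^ 6)) :=
    (mul_le_mul_of_nonneg_left (by linarith : ty + τ ≤ D * (1 + 1 / 10 ^ 6)) h3).trans
      (mul_le_mul_of_nonneg_right h4 (by positivity))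
  have e3 : D * (1 + 1 / 10 ^ 6) * (D * (1 + 1 / 10 ^ 6)) ≤ 11 / 10 * D ^ 2 := by
    have : D * (1 + 1 / 10 ^ 6) * (D * (1 + 1 / 10 ^ 6)) = (1 + 1 / 10 ^ 6) ^ 2 * D ^ 2 := by ring
    rw [this]
    exact mul_le_mul_of_nonneg_right (by norm_num) (sq_nonneg D)
  have e4 := sq_nonneg D
  nlinarith [e1, e2, e3, e4]

theorem ft_B {nv tv N n1 τ D ny ty T : ℝ} (hD0 : 0 ≤ D) (h1 : 0 ≤ nv)
    (h2 : nv ≤ D * (1 + 1 / 10 ^ 6))
    (h3 : 0 ≤ tv) (h4 : tv ≤ D * (1 + 1 / 10 ^ 6)) (h5 : ny ≤ n1 + (T + 12 * D))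
    (h6 : ty ≤ τ + 7500 * (T + D)) (hT0 : 0 ≤ T) (hTD : T + D ≤ 2 / 10 ^ 14) :
    2 * (nv * (N - n1)) - 2 * (tv * τ) - 4 / 10 ^ 10 * D ≤
      2 * (nv * (N - ny) - tv * ty) - 21 / 10 * D ^ 2 := by
  have e1 : nv * (ny - n1) ≤ D * (1 + 1 / 10 ^ 6) * (T + 12 * D) :=
    (mul_le_mul_of_nonneg_left (by linarith : ny - n1 ≤ T + 12 * D) h1).trans
      (mul_le_mul_of_nonneg_right h2 (by positivity))
  have e2 : tv * (ty - τ) ≤ D * (1 + 1 / 10 ^ 6) * (7500 * (T + D)) :=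
    (mul_le_mul_of_nonneg_left (by linarith : ty - τ ≤ 7500 * (T + D)) h3).trans
      (mul_le_mul_of_nonneg_right h4 (by positivity))
  have e3 : D * (1 + 1 / 10 ^ 6) * (T + 12 * D) ≤ D * (26 / 10 ^ 14) := by
    have : (1 + 1 / 10 ^ 6) * (T + 12 * D) ≤ 26 / 10 ^ 14 := by
      norm_num at hTD ⊢; linarith
    calc D * (1 + 1 / 10 ^ 6) * (T + 12 * D) = D * ((1 + 1 / 10 ^ 6) * (T + 12 * D)) := by ring
      _ ≤ _ := mul_le_mul_of_nonneg_left this hD0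
  have e4 : D * (1 + 1 / 10 ^ 6) * (7500 * (T + D)) ≤ D * (151 / 10 ^ 12) := by
    have : (1 + 1 / 10 ^ 6) * (7500 * (T + D)) ≤ 151 / 10 ^ 12 := by
      norm_num at hTD ⊢; linarith
    calc D * (1 + 1 / 10 ^ 6) * (7500 * (T + D)) =
          D * ((1 + 1 / 10 ^ 6) * (7500 * (T + D))) := by ring
      _ ≤ _ := mul_le_mul_of_nonneg_left this hD0
  have e5 : D ^ 2 ≤ D * (2 / 10 ^ 14) := by
    rw [pow_two]; exact mul_le_mul_of_nonneg_left (by linarith) hD0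
  have e6 : nv * (N - ny) = nv * (N - n1) - nv * (ny - n1) := by ring
  have e7 : tv * ty = tv * τ + tv * (ty - τ) := by ring
  rw [e6, e7]
  norm_num at e3 e4 e5 e1 e2 ⊢
  linarith

theorem ft_C {nv tv N n1 D ny ty T : ℝ} (hD0 : 0 < D) (h1 : D / 50 < nv)
    (h3 : 0 ≤ tv) (h5 : ny ≤ n1 + (T + 12 * D)) (h6 : ty ≤ 0) (hT0 : 0 ≤ T)
    (hTD : T + D ≤ 2 / 10 ^ 14) (hN : 199 / 10 ^ 8 ≤ N - n1) :
    0 ≤ 2 * (nv * (N - ny) - tv * ty) - 21 / 10 * D ^ 2 := by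
  have f1 : D / 50 * (198 / 10 ^ 8) ≤ nv * (N - ny) := by
    refine mul_le_mul h1.le ?_ (by norm_num) (by linarith)
    norm_num at hTD hN ⊢; linarith
  have f2 : tv * ty ≤ 0 := mul_nonpos_of_nonneg_of_nonpos h3 h6
  have e5 : D ^ 2 ≤ D * (2 / 10 ^ 14) := by
    rw [pow_two]; exact mul_le_mul_of_nonneg_left (by linarith) hD0.le
  norm_num at f1 e5 ⊢
  linarith

theorem ft_ty {τ ty T D : ℝ} (hτ : 2 / 1000 ≤ τ) (hTD : 0 ≤ T + D)
    (h : ty ^ 2 ≤ τ ^ 2 + 30 * (T + D)) : ty ≤ τ + 7500 * (T + D) := by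
  by_contra hcon
  push Not at hcon
  have hp : 0 ≤ τ + 7500 * (T + D) := by linarith
  have h1 : (τ + 7500 * (T + D)) ^ 2 < ty ^ 2 := pow_lt_pow_left₀ hcon hp (by norm_num)
  have h2 : τ ^ 2 + 30 * (T + D) ≤ (τ + 7500 * (T + D)) ^ 2 := by
    have h3 : 0 ≤ (τ - 2 / 1000) * (T + D) := mul_nonneg (by linarith) hTD
    have h4 := sq_nonneg (T + D)
    have : (τ + 7500 * (T + D)) ^ 2 = τ ^ 2 + 15000 * (τ * (T + D)) + 7500 ^ 2 * (T + D) ^ 2 := by
      ring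
    rw [this]
    have h5 : (τ - 2 / 1000) * (T + D) = τ * (T + D) - 2 / 1000 * (T + D) := by ring
    rw [h5] at h3
    linarith
  linarith

theorem ft_low {τ u T D : ℝ} (hτ : 2 / 1000 ≤ τ) (hTD : T + D ≤ 2 / 10 ^ 14) (hu : 0 < u)
    (h : |u ^ 2 - τ ^ 2| ≤ 30 * (T + D)) : 19 / 10000 ≤ u := by
  by_contra hcon
  push Not at hcon
  have h1 : u ^ 2 < (19 / 10000) ^ 2 := pow_lt_pow_left₀ hcon hu.le (by norm_num)
  have h2 : (2 / 1000 : ℝ) ^ 2 ≤ τ ^ 2 := pow_le_pow_left₀ (by norm_num) hτ 2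
  have h3 := (abs_le.1 h).1
  norm_num at h1 h2 hTD
  linarith

theorem ft_D {n n' n1 u u' τ T D s d N : ℝ} (hτ : 2 / 1000 ≤ τ) (hT0 : 0 ≤ T) (hD0 : 0 ≤ D)
    (hTD : T + D ≤ 2 / 10 ^ 14) (hs0 : 0 < s) (hTDs : T + D ≤ 2 / 10 ^ 6 * s)
    (d1 : |n - n1| ≤ T + 12 * D) (d1' : |n' - n1| ≤ T + 12 * D)
    (d2 : |u ^ 2 - τ ^ 2| ≤ 30 * (T + D)) (d2' : |u' ^ 2 - τ ^ 2| ≤ 30 * (T + D))
    (hu : 0 < u) (hu' : 0 < u') (hfr : d ^ 2 * N = (n - n') ^ 2 + (u - u') ^ 2)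
    (hN : 1 / 2 ≤ N) : d ≤ s := by
  have l1 := ft_low hτ hTD hu d2
  have l2 := ft_low hτ hTD hu' d2'
  have hnn : |n - n'| ≤ 24 * (T + D) := by
    rw [abs_le] at d1 d1' ⊢
    constructor <;> linarith [d1.1, d1.2, d1'.1, d1'.2]
  have huu : |u - u'| ≤ 15800 * (T + D) := by
    have h1 : |u - u'| * (u + u') ≤ 60 * (T + D) := by
      have h2 : |u - u'| * (u + u') = |u ^ 2 - u' ^ 2| := by
        have h3 : u ^ 2 - u' ^ 2 = (u - u') * (u + u') := by ring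
        rw [h3, abs_mul, abs_of_pos (by linarith : 0 < u + u')]
      rw [h2, abs_le]
      rw [abs_le] at d2 d2'
      constructor <;> linarith [d2.1, d2.2, d2'.1, d2'.2]
    have h2 : |u - u'| * (38 / 10000) ≤ |u - u'| * (u + u') :=
      mul_le_mul_of_nonneg_left (by linarith) (abs_nonneg _)
    have hTDp : 0 ≤ T + D := by positivity
    linarith
  have q1 : (n - n') ^ 2 ≤ (24 * (T + D)) ^ 2 := sq_le_sq' (abs_le.1 hnn).1 (abs_le.1 hnn).2
  have q2 : (u - u') ^ 2 ≤ (15800 * (T + D)) ^ 2 := sq_le_sq' (abs_le.1 huu).1 (abs_le.1 huu).2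
  have q3 : (T + D) ^ 2 ≤ (2 / 10 ^ 6 * s) ^ 2 := pow_le_pow_left₀ (by positivity) hTDs 2
  have q4 : d ^ 2 * N ≤ (1 / 10) * s ^ 2 := by
    rw [hfr]
    have e1 : (24 * (T + D)) ^ 2 = 576 * (T + D) ^ 2 := by ring
    have e2 : (15800 * (T + D)) ^ 2 = 249640000 * (T + D) ^ 2 := by ring
    have e3 : (2 / 10 ^ 6 * s) ^ 2 = 4 / 10 ^ 12 * s ^ 2 := by ring
    rw [e1] at q1
    rw [e2] at q2
    rw [e3] at q3
    have := sq_nonneg s
    norm_num at q3 ⊢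
    linarith
  by_contra hcon
  push Not at hcon
  have h1 : s ^ 2 < d ^ 2 := pow_lt_pow_left₀ hcon hs0.le (by norm_num)
  have h2 : s ^ 2 * (1 / 2) ≤ d ^ 2 * N :=
    mul_le_mul h1.le hN (by norm_num) (sq_nonneg _)
  have := pow_pos hs0 2
  linarith

/-- final count -/
theorem ft_E {k e W R D N A B b' : ℝ} (he : 0 ≤ e) (hk : 10 ^ 9 * (e + 1) ≤ k) (hW : k - e ≤ W)
    (hR : R ≤ k + e) (hD0 : 0 < D) (hD14 : D ≤ 1 / 10 ^ 14) (hN : 0 < N) (hN1 : N ≤ 1 + 1 / 10 ^ 6)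
    (hA : 398 / 10 ^ 10 * D ≤ A) (hB0 : 0 ≤ B) (hB1 : B ≤ 105 / 100 * D)
    (hb' : b' = max 0 (2 * B - 2 * A + 4 / 10 ^ 10 * D))
    (hcount : W * ((2 * A + 2 * B - 7 * D ^ 2) / N) ≤ 2 * (10 * D) * e + R * (b' / N)) :
    False := by
  have hb0 : 0 ≤ b' := by rw [hb']; exact le_max_left _ _
  have hDD : D ^ 2 ≤ 1 / 10 ^ 14 * D := by
    rw [pow_two]; exact mul_le_mul_of_nonneg_right hD14 hD0.le
  have h1 : W * (2 * A + 2 * B - 7 * D ^ 2) ≤ 21 * D * e + R * b' := by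
    have h2 := mul_le_mul_of_nonneg_right hcount hN.le
    have e1 : W * ((2 * A + 2 * B - 7 * D ^ 2) / N) * N = W * (2 * A + 2 * B - 7 * D ^ 2) := by
      field_simp
    have e2 : (2 * (10 * D) * e + R * (b' / N)) * N = 20 * D * e * N + R * b' := by
      field_simp; ring
    rw [e1, e2] at h2
    have e3 : 20 * D * e * N ≤ 21 * D * e := by
      have : N ≤ 21 / 20 := by norm_num at hN1 ⊢; linarith
      have h4 : 0 ≤ D * e := by positivity
      nlinarith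
    linarith
  have ha0 : 7 / 10 ^ 8 * D ≤ 2 * A + 2 * B - 7 * D ^ 2 := by
    norm_num at hA hDD ⊢; linarith
  have hke : 10 ^ 9 * (e + 1) - e ≤ k - e := by linarith
  have hk0 : 0 ≤ k - e := by norm_num at hke; linarith
  have h3 : (k - e) * (2 * A + 2 * B - 7 * D ^ 2) ≤ 21 * D * e + (k + e) * b' := by
    have g1 : (k - e) * (2 * A + 2 * B - 7 * D ^ 2) ≤ W * (2 * A + 2 * B - 7 * D ^ 2) :=
      mul_le_mul_of_nonneg_right hW (le_trans (by positivity) ha0)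
    have g2 : R * b' ≤ (k + e) * b' := mul_le_mul_of_nonneg_right hR hb0
    linarith
  have hDe : 0 ≤ D * e := by positivity
  rcases le_or_gt (2 * B - 2 * A + 4 / 10 ^ 10 * D) 0 with hc | hc
  · have hb1 : b' = 0 := by rw [hb']; exact max_eq_left hc
    rw [hb1, mul_zero, add_zero] at h3
    have g1 : (k - e) * (7 / 10 ^ 8 * D) ≤ (k - e) * (2 * A + 2 * B - 7 * D ^ 2) :=
      mul_le_mul_of_nonneg_left ha0 hk0
    have g2 : (10 ^ 9 * (e + 1) - e) * (7 / 10 ^ 8 * D) ≤ (k - e) * (7 / 10 ^ 8 * D) :=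
      mul_le_mul_of_nonneg_right hke (by positivity)
    norm_num at g1 g2
    nlinarith
  · have hb1 : b' = 2 * B - 2 * A + 4 / 10 ^ 10 * D := by rw [hb']; exact max_eq_right hc.le
    have hb2 : b' ≤ 22 / 10 * D := by rw [hb1]; norm_num at hA ⊢; linarith
    have g0 : 15 / 10 ^ 8 * D ≤ (2 * A + 2 * B - 7 * D ^ 2) - b' := by
      rw [hb1]; norm_num at hA hDD ⊢; linarith
    have g3 : (k - e) * ((2 * A + 2 * B - 7 * D ^ 2) - b') ≤ 21 * D * e + 2 * e * b' := by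
      linarith
    have g4 : 2 * e * b' ≤ 2 * e * (22 / 10 * D) := mul_le_mul_of_nonneg_left hb2 (by positivity)
    have g1 : (k - e) * (15 / 10 ^ 8 * D) ≤ (k - e) * ((2 * A + 2 * B - 7 * D ^ 2) - b') :=
      mul_le_mul_of_nonneg_left g0 hk0
    have g2 : (10 ^ 9 * (e + 1) - e) * (15 / 10 ^ 8 * D) ≤ (k - e) * (15 / 10 ^ 8 * D) :=
      mul_le_mul_of_nonneg_right hke (by positivity)
    norm_num at g1 g2
    nlinarith

/-- membership in the window -/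
theorem win_of_not {dx dx' r2 w D : ℝ} (hdiff : |dx - dx'| ≤ 41 / 10 * D) (hw : w = 10 * D)
    (h1 : ¬ (dx ≤ r2 - w ∧ dx' ≤ r2 - w)) (h2 : ¬ (r2 + w ≤ dx ∧ r2 + w ≤ dx')) :
    |dx - r2| ≤ 141 / 10 * D := by
  rw [abs_le] at hdiff ⊢
  subst hw
  constructor
  · by_contra hc
    push Not at hc
    apply h1
    constructor <;> linarith [hdiff.1, hdiff.2]
  · by_contra hc
    push Not at hc
    apply h2
    constructor <;> linarith [hdiff.1, hdiff.2]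

theorem flatTiny_side {X : Finset ℂ} {e T : ℝ} (h : Ann X e T) {x0 : ℂ} (hx0 : x0 ∈ X) {s D : ℝ}
    (hs0 : 0 < s) (hs : s ≤ 1 / 10 ^ 8) (hT : T ≤ s / 10 ^ 6) (hD0 : 0 ≤ D) (hD : D ≤ s / 10 ^ 6)
    (hC : ∀ x ∈ ball X x0 s, ∀ x' ∈ ball X x0 s, dist x x' ≤ D)
    (hk : 10 ^ 9 * (e + 1) ≤ ((ball X x0 s).card : ℝ)) {x x' y0 : ℂ} (hx : x ∈ ball X x0 s)
    (hx' : x' ∈ ball X x0 s) (hy0 : y0 ∈ X) (hty : (y0 * conj x0).im ≤ -(2 / 1000))
    (htv : 0 ≤ ((x - x') * conj x0).im) :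
    ((x - x') * conj x0).re ≤ D / 50 := by
  by_contra hc
  push Not at hc
  have he := h.toSys.nonneg
  have hx0C : x0 ∈ ball X x0 s := mem_ball.2 ⟨hx0, by simp [hs0.le]⟩
  have hxX := (mem_ball.1 hx).1
  have hx'X := (mem_ball.1 hx').1
  have hT0 : 0 ≤ T := le_trans (abs_nonneg _) (h.ann x0 hx0)
  have hT14 : T ≤ 1 / 10 ^ 14 := by
    have : s / 10 ^ 6 ≤ 1 / 10 ^ 14 := by norm_num at hs ⊢; linarith
    linarith
  have hD14 : D ≤ 1 / 10 ^ 14 := by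
    have : s / 10 ^ 6 ≤ 1 / 10 ^ 14 := by norm_num at hs ⊢; linarith
    linarith
  have hT6 : T ≤ 1 / 10 ^ 6 := by norm_num at hT14 ⊢; linarith
  have ax0 := h.ann x0 hx0
  have n0 := norm_le_of_ann hT6 ax0
  have hN0 := abs_le.1 ax0
  set N := ‖x0‖ ^ 2 with hN
  have hNpos : 0 < N := by norm_num at hT6; linarith [hN0.1]
  have hx00 : x0 ≠ 0 := by
    rintro rfl
    simp [hN] at hNpos
  have hN1 : N ≤ 1 + 1 / 10 ^ 6 := by linarith [hN0.2]
  have hN2 : 1 - 1 / 10 ^ 6 ≤ N := by linarith [hN0.1]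
  set nv := ((x - x') * conj x0).re with hnv
  set tv := ((x - x') * conj x0).im with htvd
  have hxx' : dist x x' ≤ D := hC x hx x' hx'
  have hv : ‖x - x'‖ ≤ D := by rw [← Complex.dist_eq]; exact hxx'
  have hnvD : nv ≤ D * (1 + 1 / 10 ^ 6) := by
    refine (le_abs_self _).trans ((abs_re_le_of_frame x0 (x - x')).trans ?_)
    exact mul_le_mul hv n0 (norm_nonneg _) hD0
  have htvD : tv ≤ D * (1 + 1 / 10 ^ 6) := by
    refine (le_abs_self _).trans ((abs_im_le_of_frame x0 (x - x')).trans ?_)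
    exact mul_le_mul hv n0 (norm_nonneg _) hD0
  have hDpos : 0 < D := by
    rcases hD0.lt_or_eq with h1 | h1
    · exact h1
    · exfalso; rw [← h1] at hc hnvD; linarith
  have hnv0 : 0 < nv := by linarith
  -- y0
  set n1 := (y0 * conj x0).re with hn1
  set τ := -(y0 * conj x0).im with hτ
  have hτ1 : 2 / 1000 ≤ τ := by linarith
  have ay0 := h.ann y0 hy0
  have ny0 := norm_le_of_ann hT6 ay0
  have hτ2 : τ ≤ 1 + 3 / 10 ^ 6 := by
    have h1 : τ ≤ |(y0 * conj x0).im| := neg_le_abs _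
    refine h1.trans ((abs_im_le_of_frame x0 y0).trans ?_)
    calc ‖y0‖ * ‖x0‖ ≤ (1 + 1 / 10 ^ 6) * (1 + 1 / 10 ^ 6) :=
          mul_le_mul ny0 n0 (norm_nonneg _) (by norm_num)
      _ ≤ _ := by norm_num
  have hdy0 : 399 / 10 ^ 8 ≤ dist x0 y0 ^ 2 := by
    have h1 := norm_sq_frame x0 (y0 - x0)
    have h2 : ((y0 - x0) * conj x0).im = -τ := by
      rw [sub_mul, Complex.sub_im, Complex.mul_conj]; simp [hτ]
    rw [h2, ← Complex.dist_eq, dist_comm y0 x0, ← hN] at h1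
    have h3 : (2 / 1000) ^ 2 ≤ τ ^ 2 := by nlinarith
    have h4 : (2 / 1000 : ℝ) ^ 2 ≤ dist x0 y0 ^ 2 * N := by
      rw [h1]; nlinarith [sq_nonneg ((y0 - x0) * conj x0).re]
    by_contra h5
    push Not at h5
    have : dist x0 y0 ^ 2 * N ≤ 399 / 10 ^ 8 * (1 + 1 / 10 ^ 6) :=
      mul_le_mul h5.le hN1 hNpos.le (by norm_num)
    norm_num at this h4
    linarith
  have hNn : 199 / 10 ^ 8 ≤ N - n1 := by
    have h1 := dist_sq_eq x0 y0
    have h2 := abs_le.1 ay0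
    norm_num at hT14 hdy0 ⊢
    rw [← hn1] at h1
    linarith [h2.1, h2.2, hN0.1, hN0.2]
  have hNn2 : N - n1 ≤ 21 / 10 := by
    have h1 : -n1 ≤ |(y0 * conj x0).re| := neg_le_abs _
    have h2 := h1.trans ((abs_re_le_of_frame x0 y0).trans (mul_le_mul ny0 n0 (norm_nonneg _) (by norm_num)))
    norm_num at h2 hN1 ⊢
    linarith
  -- errors
  have hTD : T + D ≤ 2 / 10 ^ 14 := by norm_num at hT14 hD14 ⊢; linarith
  -- the general lower bound
  have hphi : ∀ y, 2 * (nv * (N - (y * conj x0).re) - tv * (y * conj x0).im) - 21 / 10 * D ^ 2 ≤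
      (dist x y ^ 2 - dist x' y ^ 2) * N := by
    intro y
    have h1 := phi_expand (x := x) (x' := x') hx00 y
    have h2 := phi_err hxx' (hC x hx x0 hx0C) (hC x' hx' x0 hx0C) hD0
    rw [← hN] at h1
    rw [h1]
    have h3 : -(2 * D ^ 2 * N) ≤ ((x - x') * conj (x + x' - 2 * x0)).re * N := by
      have := mul_le_mul_of_nonneg_right (abs_le.1 h2).1 hNpos.le
      linarith
    have h4 : 2 * D ^ 2 * N ≤ 21 / 10 * D ^ 2 := by
      have h5 : 2 * N ≤ 21 / 10 := by norm_num at hN1 ⊢; linarith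
      calc 2 * D ^ 2 * N = (2 * N) * D ^ 2 := by ring
        _ ≤ _ := mul_le_mul_of_nonneg_right h5 (sq_nonneg D)
    linarith
  set r2 := dist x y0 ^ 2 with hr2
  have axx := norm_le_of_ann hT6 (h.ann x hxX)
  have axx' := norm_le_of_ann hT6 (h.ann x' hx'X)
  have hxx0 : dist x x0 ≤ D := hC x hx x0 hx0C
  have hr2l : 10 * D ≤ r2 := by
    have h1 := (abs_le.1 (sq_diff_le axx n0 ny0)).1
    norm_num at hD14 hdy0
    linarith
  have hdiffall : ∀ y ∈ X, |dist x y ^ 2 - dist x' y ^ 2| ≤ 41 / 10 * D := by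
    intro y hy
    refine (sq_diff_le axx axx' (norm_le_of_ann hT6 (h.ann y hy))).trans ?_
    linarith
  set W := ball X y0 D with hW
  set R := X.filter (fun y => 0 < (y * conj x0).im ∧ |dist x y ^ 2 - r2| ≤ 141 / 10 * D) with hR
  have hWfr : ∀ y ∈ W, (y * conj x0).re ≤ n1 + D * (1 + 1 / 10 ^ 6) ∧
      (y * conj x0).im ≤ -τ + D * (1 + 1 / 10 ^ 6) := by
    intro y hy
    have hyd := (mem_ball.1 hy).2
    rw [Complex.dist_eq] at hyd
    have e1 : (y * conj x0) = (y0 * conj x0) + (y - y0) * conj x0 := by ring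
    have e2 := (le_abs_self _).trans ((abs_re_le_of_frame x0 (y - y0)).trans
      (mul_le_mul hyd n0 (norm_nonneg _) hD0))
    have e3 := (le_abs_self _).trans ((abs_im_le_of_frame x0 (y - y0)).trans
      (mul_le_mul hyd n0 (norm_nonneg _) hD0))
    rw [e1, Complex.add_re, Complex.add_im]
    constructor
    · linarith
    · rw [hτ]; linarith
  have hWR : Disjoint W R := by
    rw [Finset.disjoint_left]
    intro y hy hyR
    have h1 := (hWfr y hy).2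
    have h2 := (Finset.mem_filter.1 hyR).2.1
    have h3 : D * (1 + 1 / 10 ^ 6) ≤ 1 / 1000 := by norm_num at hD14 ⊢; linarith
    linarith
  set A := nv * (N - n1) with hA
  set B := tv * τ with hB
  have hA1 : 398 / 10 ^ 10 * D ≤ A := by
    have : D / 50 * (199 / 10 ^ 8) ≤ nv * (N - n1) :=
      mul_le_mul hc.le hNn (by norm_num) hnv0.le
    calc 398 / 10 ^ 10 * D = D / 50 * (199 / 10 ^ 8) := by ring
      _ ≤ _ := this
  have hB0 : 0 ≤ B := mul_nonneg htv (by linarith)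
  have hB1 : B ≤ 105 / 100 * D := by
    calc B ≤ D * (1 + 1 / 10 ^ 6) * (1 + 3 / 10 ^ 6) :=
          mul_le_mul htvD hτ2 (by linarith) (by positivity)
      _ = ((1 + 1 / 10 ^ 6) * (1 + 3 / 10 ^ 6)) * D := by ring
      _ ≤ _ := mul_le_mul_of_nonneg_right (by norm_num) hD0
  set a := (2 * A + 2 * B - 7 * D ^ 2) / N with ha
  set b' := max 0 (2 * B - 2 * A + 4 / 10 ^ 10 * D) with hb'
  have hb0 : 0 ≤ b' := le_max_left _ _
  have hTDp : 0 ≤ T + D := add_nonneg hT0 hD0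
  have hWin : ∀ y ∈ W, |dist x y ^ 2 - r2| ≤ 10 * D ∧ |dist x' y ^ 2 - r2| ≤ 10 * D ∧
      a ≤ dist x y ^ 2 - dist x' y ^ 2 := by
    intro y hy
    obtain ⟨hyX, hyd⟩ := mem_ball.1 hy
    have ayn := norm_le_of_ann hT6 (h.ann y hyX)
    have c1 : |dist x y ^ 2 - r2| ≤ 41 / 10 * D := by
      have := sq_diff_le ayn ny0 axx
      rw [dist_comm y x, dist_comm y0 x] at this
      exact this.trans (by linarith)
    have c2 := hdiffall y hyX
    refine ⟨c1.trans (by linarith), ?_, ?_⟩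
    · rw [abs_le] at c1 c2 ⊢
      constructor <;> linarith [c1.1, c1.2, c2.1, c2.2]
    · rw [ha, div_le_iff₀ hNpos]
      refine le_trans ?_ (hphi y)
      obtain ⟨d1, d2⟩ := hWfr y hy
      exact ft_A hD0 hnv0.le hnvD htv htvD d1 d2
  have hest : ∀ y ∈ X, |dist x y ^ 2 - r2| ≤ 141 / 10 * D →
      |(y * conj x0).re - n1| ≤ T + 12 * D ∧ |(y * conj x0).im ^ 2 - τ ^ 2| ≤ 30 * (T + D) := by
    intro y hy hw
    have := win_est hT6 hD0 ax0 (h.ann x hxX) (h.ann y hy) ay0 hxx0 hw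
    refine ⟨this.1, ?_⟩
    rw [hτ, neg_sq]; exact this.2
  have hRin : ∀ y ∈ R, -(b' / N) ≤ dist x y ^ 2 - dist x' y ^ 2 := by
    intro y hy
    obtain ⟨hyX, hy0', hw⟩ := Finset.mem_filter.1 hy
    obtain ⟨d1, d2⟩ := hest y hyX hw
    have d1' := (abs_le.1 d1).2
    have d2' := (abs_le.1 d2).2
    have d3 : (y * conj x0).im ≤ τ + 7500 * (T + D) := ft_ty hτ1 hTDp (by linarith)
    rw [← neg_div, div_le_iff₀ hNpos]
    refine le_trans ?_ (hphi y)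
    refine le_trans ?_ (ft_B hD0 hnv0.le hnvD htv htvD (by linarith : _ ≤ n1 + (T + 12 * D)) d3
      hT0 hTD)
    have f3 : 2 * B - 2 * A + 4 / 10 ^ 10 * D ≤ b' := le_max_right _ _
    rw [← hA, ← hB]
    linarith
  have hrest : ∀ y ∈ X, y ∉ R → (dist x y ^ 2 ≤ r2 - 10 * D ∧ dist x' y ^ 2 ≤ r2 - 10 * D) ∨
      (r2 + 10 * D ≤ dist x y ^ 2 ∧ r2 + 10 * D ≤ dist x' y ^ 2) ∨
      dist x' y ^ 2 ≤ dist x y ^ 2 := by
    intro y hy hyR
    by_cases g1 : dist x y ^ 2 ≤ r2 - 10 * D ∧ dist x' y ^ 2 ≤ r2 - 10 * D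
    · exact Or.inl g1
    by_cases g2 : r2 + 10 * D ≤ dist x y ^ 2 ∧ r2 + 10 * D ≤ dist x' y ^ 2
    · exact Or.inr (Or.inl g2)
    right; right
    have hw := win_of_not (hdiffall y hy) rfl g1 g2
    have hty' : (y * conj x0).im ≤ 0 := by
      by_contra hcon
      push Not at hcon
      exact hyR (Finset.mem_filter.2 ⟨hy, hcon, hw⟩)
    obtain ⟨d1, d2⟩ := hest y hy hw
    have d1' := (abs_le.1 d1).2
    have h1 := hphi y
    have d4 : (y * conj x0).re ≤ n1 + (T + 12 * D) := by linarith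
    have h2 := ft_C (N := N) hDpos hc htv d4 hty' hT0 hTD hNn
    have := nonneg_of_mul_nonneg_left (h2.trans h1) hNpos
    linarith
  have hcount := window_count (h := h.toSys) hxX hx'X (r2 := r2) (w := 10 * D) (a := a)
    (b := b' / N) (by positivity) hr2l (div_nonneg hb0 hNpos.le) W R ball_subset
    (Finset.filter_subset _ _) hWR hWin hRin hrest
  -- card W
  have hWcard : ((ball X x0 s).card : ℝ) - e ≤ (W.card : ℝ) := by
    have h1 := cnt_le h.toSys hxX hy0 hD0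
    have h2 : (ball X x0 s).card ≤ (ball X x D).card := by
      apply Finset.card_le_card
      intro z hz
      exact mem_ball.2 ⟨(mem_ball.1 hz).1, hC z hz x hx⟩
    have h3 : ((ball X x0 s).card : ℝ) ≤ ((ball X x D).card : ℝ) := by exact_mod_cast h2
    linarith
  have hRcard : (R.card : ℝ) ≤ ((ball X x0 s).card : ℝ) + e := by
    rcases R.eq_empty_or_nonempty with hemp | ⟨y', hy'⟩
    · rw [hemp]; simp; positivity
    obtain ⟨hyX', hyp', hyw'⟩ := Finset.mem_filter.1 hy'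
    have hTDs : T + D ≤ 2 / 10 ^ 6 * s := by
      have : s / 10 ^ 6 = 1 / 10 ^ 6 * s := by ring
      rw [this] at hT hD
      linarith
    have hN12 : 1 / 2 ≤ N := by norm_num at hN2; linarith
    have hsub : R ⊆ ball X y' s := by
      intro y hy
      obtain ⟨hyX, hyp, hyw⟩ := Finset.mem_filter.1 hy
      obtain ⟨d1, d2⟩ := hest y hyX hyw
      obtain ⟨d1', d2'⟩ := hest y' hyX' hyw'
      refine mem_ball.2 ⟨hyX, ?_⟩
      have hfr := norm_sq_frame x0 (y - y')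
      have e1 : ((y - y') * conj x0).re = (y * conj x0).re - (y' * conj x0).re := by
        rw [sub_mul, Complex.sub_re]
      have e2 : ((y - y') * conj x0).im = (y * conj x0).im - (y' * conj x0).im := by
        rw [sub_mul, Complex.sub_im]
      rw [e1, e2, ← Complex.dist_eq, ← hN] at hfr
      exact ft_D hτ1 hT0 hD0 hTD hs0 hTDs d1 d1' d2 d2' hyp hyp' hfr hN12
    have h1 : (R.card : ℝ) ≤ ((ball X y' s).card : ℝ) := by
      exact_mod_cast Finset.card_le_card hsub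
    exact h1.trans (cnt_le h.toSys hyX' hx0 hs0.le)
  exact ft_E he hk hWcard hRcard hDpos hD14 hNpos hN1 hA1 hB0 hB1 hb' hcount


theorem ft_F {nv tv N ny ty D T : ℝ} (hD0 : 0 < D) (hD14 : D ≤ 1 / 10 ^ 14) (hT : T ≤ 1 / 10 ^ 14)
    (hN : |N - 1| ≤ T) (h1 : D / 50 < nv) (h4 : |tv| ≤ D * (1 + 1 / 10 ^ 6))
    (h5 : ny ≤ -(1 - 51 / 10 ^ 6)) (h6 : ny ^ 2 + ty ^ 2 ≤ (1 + T) * (1 + T)) :
    1 / 20 * D ≤ 2 * (nv * (N - ny) - tv * ty) - 21 / 10 * D ^ 2 := by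
  have hT0 : 0 ≤ T := le_trans (abs_nonneg _) hN
  have hN' := (abs_le.1 hN).1
  have f1 : D / 50 * (1999 / 1000) ≤ nv * (N - ny) := by
    refine mul_le_mul h1.le ?_ (by norm_num) (by linarith)
    norm_num at hT h5 ⊢; linarith
  have hny2 : (1 - 51 / 10 ^ 6) ^ 2 ≤ ny ^ 2 := by nlinarith
  have hTT : (1 + T) * (1 + T) ≤ 1 + 3 / 10 ^ 14 := by
    have : T * T ≤ 1 / 10 ^ 14 * 1 := mul_le_mul hT (hT.trans (by norm_num)) hT0 (by norm_num)
    norm_num at this hT ⊢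
    linarith
  have hty : |ty| ≤ 103 / 10000 := by
    apply abs_le_of_sq_le_sq _ (by norm_num)
    norm_num at hny2 hTT ⊢
    linarith
  have f2 : tv * ty ≤ D * (1 + 1 / 10 ^ 6) * (103 / 10000) := by
    refine (le_abs_self _).trans ?_
    rw [abs_mul]
    exact mul_le_mul h4 hty (abs_nonneg _) (by positivity)
  have e5 : D ^ 2 ≤ D * (1 / 10 ^ 14) := by
    rw [pow_two]; exact mul_le_mul_of_nonneg_left hD14 hD0.le
  norm_num at f1 f2 e5 ⊢
  linarith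

theorem flatTiny_anti {X : Finset ℂ} {e T : ℝ} (h : Ann X e T) {x0 : ℂ} (hx0 : x0 ∈ X) {s D : ℝ}
    (hs0 : 0 < s) (hs : s ≤ 1 / 10 ^ 8) (hT : T ≤ s / 10 ^ 6) (hD0 : 0 ≤ D) (hD : D ≤ s / 10 ^ 6)
    (hC : ∀ x ∈ ball X x0 s, ∀ x' ∈ ball X x0 s, dist x x' ≤ D)
    (hk : 10 ^ 9 * (e + 1) ≤ ((ball X x0 s).card : ℝ)) {x x' y0 : ℂ} (hx : x ∈ ball X x0 s)
    (hx' : x' ∈ ball X x0 s) (hy0 : y0 ∈ X) (hty : (y0 * conj x0).re ≤ -(1 - 50 / 10 ^ 6)) :
    ((x - x') * conj x0).re ≤ D / 50 := by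
  by_contra hc
  push Not at hc
  have he := h.toSys.nonneg
  have hx0C : x0 ∈ ball X x0 s := mem_ball.2 ⟨hx0, by simp [hs0.le]⟩
  have hxX := (mem_ball.1 hx).1
  have hx'X := (mem_ball.1 hx').1
  have hT0 : 0 ≤ T := le_trans (abs_nonneg _) (h.ann x0 hx0)
  have hT14 : T ≤ 1 / 10 ^ 14 := by
    have : s / 10 ^ 6 ≤ 1 / 10 ^ 14 := by norm_num at hs ⊢; linarith
    linarith
  have hD14 : D ≤ 1 / 10 ^ 14 := by
    have : s / 10 ^ 6 ≤ 1 / 10 ^ 14 := by norm_num at hs ⊢; linarith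
    linarith
  have hT6 : T ≤ 1 / 10 ^ 6 := by norm_num at hT14 ⊢; linarith
  have ax0 := h.ann x0 hx0
  have n0 := norm_le_of_ann hT6 ax0
  have hN0 := abs_le.1 ax0
  set N := ‖x0‖ ^ 2 with hN
  have hNpos : 0 < N := by norm_num at hT6; linarith [hN0.1]
  have hx00 : x0 ≠ 0 := by
    rintro rfl
    simp [hN] at hNpos
  have hN1 : N ≤ 1 + 1 / 10 ^ 6 := by linarith [hN0.2]
  set nv := ((x - x') * conj x0).re with hnv
  set tv := ((x - x') * conj x0).im with htvd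
  have hxx' : dist x x' ≤ D := hC x hx x' hx'
  have hv : ‖x - x'‖ ≤ D := by rw [← Complex.dist_eq]; exact hxx'
  have hnvD : nv ≤ D * (1 + 1 / 10 ^ 6) := by
    refine (le_abs_self _).trans ((abs_re_le_of_frame x0 (x - x')).trans ?_)
    exact mul_le_mul hv n0 (norm_nonneg _) hD0
  have htvD : |tv| ≤ D * (1 + 1 / 10 ^ 6) := by
    refine (abs_im_le_of_frame x0 (x - x')).trans ?_
    exact mul_le_mul hv n0 (norm_nonneg _) hD0
  have hDpos : 0 < D := by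
    rcases hD0.lt_or_eq with h1 | h1
    · exact h1
    · exfalso; rw [← h1] at hc hnvD; linarith
  have ay0 := h.ann y0 hy0
  have ny0 := norm_le_of_ann hT6 ay0
  have hphi : ∀ y, 2 * (nv * (N - (y * conj x0).re) - tv * (y * conj x0).im) - 21 / 10 * D ^ 2 ≤
      (dist x y ^ 2 - dist x' y ^ 2) * N := by
    intro y
    have h1 := phi_expand (x := x) (x' := x') hx00 y
    have h2 := phi_err hxx' (hC x hx x0 hx0C) (hC x' hx' x0 hx0C) hD0
    rw [← hN] at h1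
    rw [h1]
    have h3 : -(2 * D ^ 2 * N) ≤ ((x - x') * conj (x + x' - 2 * x0)).re * N := by
      have := mul_le_mul_of_nonneg_right (abs_le.1 h2).1 hNpos.le
      linarith
    have h4 : 2 * D ^ 2 * N ≤ 21 / 10 * D ^ 2 := by
      have h5 : 2 * N ≤ 21 / 10 := by norm_num at hN1 ⊢; linarith
      calc 2 * D ^ 2 * N = (2 * N) * D ^ 2 := by ring
        _ ≤ _ := mul_le_mul_of_nonneg_right h5 (sq_nonneg D)
    linarith
  set r2 := dist x y0 ^ 2 with hr2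
  have axx := norm_le_of_ann hT6 (h.ann x hxX)
  have axx' := norm_le_of_ann hT6 (h.ann x' hx'X)
  have hxx0 : dist x x0 ≤ D := hC x hx x0 hx0C
  have hD100 : D ≤ 1 / 100 := by norm_num at hD14 ⊢; linarith
  set n1 := (y0 * conj x0).re with hn1
  have hdy0 : 1 ≤ dist x0 y0 ^ 2 := by
    have h1 := dist_sq_eq x0 y0
    have h2 := abs_le.1 ay0
    rw [← hN, ← hn1] at h1
    have h3 : (1 : ℝ) - 50 / 10 ^ 6 = 99995 / 100000 := by norm_num
    rw [h3] at hty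
    have h4 : T ≤ 1 / 100 := by norm_num at hT14 ⊢; linarith
    linarith [h2.1, hN0.1]
  have hr2l : 10 * D ≤ r2 := by
    have h1 := (abs_le.1 (sq_diff_le axx n0 ny0)).1
    linarith
  have hdiffall : ∀ y ∈ X, |dist x y ^ 2 - dist x' y ^ 2| ≤ 41 / 10 * D := by
    intro y hy
    refine (sq_diff_le axx axx' (norm_le_of_ann hT6 (h.ann y hy))).trans ?_
    linarith
  have hbig : ∀ y ∈ X, |dist x y ^ 2 - r2| ≤ 141 / 10 * D →
      1 / 20 * D / N ≤ dist x y ^ 2 - dist x' y ^ 2 := by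
    intro y hy hw
    have h1 := (win_est hT6 hD0 ax0 (h.ann x hxX) (h.ann y hy) ay0 hxx0 hw).1
    have h2 := (abs_le.1 h1).2
    rw [div_le_iff₀ hNpos]
    refine le_trans ?_ (hphi y)
    refine ft_F hDpos hD14 hT14 ax0 hc htvD ?_ ?_
    · rw [← hn1] at h2
      have h4 : T + 12 * D ≤ 1 / 10 ^ 6 := by norm_num at hT14 hD14 ⊢; linarith
      have h5 : -(1 - 50 / 10 ^ 6) + 1 / 10 ^ 6 = -(1 - 51 / 10 ^ 6 : ℝ) := by norm_num
      rw [← h5]
      linarith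
    · rw [← norm_sq_frame x0 y, ← hN]
      have h3 := (abs_le.1 (h.ann y hy)).2
      exact mul_le_mul (by linarith) (by linarith [hN0.2]) hNpos.le (by linarith)
  set W := ball X y0 D with hW
  have hWin : ∀ y ∈ W, |dist x y ^ 2 - r2| ≤ 10 * D ∧ |dist x' y ^ 2 - r2| ≤ 10 * D ∧
      1 / 20 * D / N ≤ dist x y ^ 2 - dist x' y ^ 2 := by
    intro y hy
    obtain ⟨hyX, hyd⟩ := mem_ball.1 hy
    have ayn := norm_le_of_ann hT6 (h.ann y hyX)
    have c1 : |dist x y ^ 2 - r2| ≤ 41 / 10 * D := by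
      have := sq_diff_le ayn ny0 axx
      rw [dist_comm y x, dist_comm y0 x] at this
      exact this.trans (by linarith)
    have c2 := hdiffall y hyX
    refine ⟨c1.trans (by linarith), ?_, hbig y hyX (c1.trans (by linarith))⟩
    rw [abs_le] at c1 c2 ⊢
    constructor <;> linarith [c1.1, c1.2, c2.1, c2.2]
  have hrest : ∀ y ∈ X, y ∉ (∅ : Finset ℂ) →
      (dist x y ^ 2 ≤ r2 - 10 * D ∧ dist x' y ^ 2 ≤ r2 - 10 * D) ∨
      (r2 + 10 * D ≤ dist x y ^ 2 ∧ r2 + 10 * D ≤ dist x' y ^ 2) ∨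
      dist x' y ^ 2 ≤ dist x y ^ 2 := by
    intro y hy _
    by_cases g1 : dist x y ^ 2 ≤ r2 - 10 * D ∧ dist x' y ^ 2 ≤ r2 - 10 * D
    · exact Or.inl g1
    by_cases g2 : r2 + 10 * D ≤ dist x y ^ 2 ∧ r2 + 10 * D ≤ dist x' y ^ 2
    · exact Or.inr (Or.inl g2)
    right; right
    have h1 := hbig y hy (win_of_not (hdiffall y hy) rfl g1 g2)
    have h2 : 0 ≤ 1 / 20 * D / N := by positivity
    linarith
  have hcount := window_count (h := h.toSys) hxX hx'X (r2 := r2) (w := 10 * D)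
    (a := 1 / 20 * D / N) (b := 0) (by positivity) hr2l le_rfl W ∅ ball_subset
    (Finset.empty_subset _) (Finset.disjoint_empty_right _) hWin (by simp) hrest
  have hWcard : ((ball X x0 s).card : ℝ) - e ≤ (W.card : ℝ) := by
    have h1 := cnt_le h.toSys hxX hy0 hD0
    have h2 : (ball X x0 s).card ≤ (ball X x D).card := by
      apply Finset.card_le_card
      intro z hz
      exact mem_ball.2 ⟨(mem_ball.1 hz).1, hC z hz x hx⟩
    have h3 : ((ball X x0 s).card : ℝ) ≤ ((ball X x D).card : ℝ) := by exact_mod_cast h2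
    linarith
  rw [mul_zero, add_zero] at hcount
  have hNlt : 1 / 30 * D ≤ 1 / 20 * D / N := by
    rw [le_div_iff₀ hNpos]
    have : 1 / 30 * N ≤ 1 / 20 := by norm_num at hN1 ⊢; linarith
    nlinarith
  have h1 : (W.card : ℝ) * (1 / 30 * D) ≤ 20 * D * e := by
    have := mul_le_mul_of_nonneg_left hNlt (Nat.cast_nonneg' (α := ℝ) W.card)
    linarith
  have h2 : (10 ^ 9 * (e + 1) - e) * (1 / 30 * D) ≤ (W.card : ℝ) * (1 / 30 * D) :=
    mul_le_mul_of_nonneg_right (by linarith) (by positivity)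
  have hDe : 0 ≤ D * e := by positivity
  norm_num at h2
  nlinarith

end Pool.Agent.Vps
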