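import Pool.Agent.Lib.Vps.Acc
import Pool.Agent.Lib.Vps.Conj

/-!
# No gaps: every point has a neighbour close to it on each side
-/

open Finset
open scoped ComplexConjugate

namespace Pool.Agent.Vps

/-- PROOF. Let `n(z) = Re (z conj x)`, `t(z) = Im (z conj x)` (so `t(x) = 0`). By `norm_sq_expand`,
`|n(z - x)| ≤ T + dist x z ^ 2 / 2` for `z = x', y`, so
`|n(x' - y)| ≤ 2 T + g ^ 2 ≤ τ / 10 ^ 5` where `τ = dist x x'`. `|t(y)| ≤ ‖x‖ dist x y`, `|t(x')| ≤ ‖x‖ τ` and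
`|t(x')| ≥ ‖x‖ τ - |n(x' - x)|`. Both `t(y), t(x') ≤ 0`, so
`|t(x' - y)| = ||t(y)| - |t(x')|| ≤ max (‖x‖ (dist x y - τ) + τ / 10 ^ 5) (‖x‖ τ)`, and
`‖x‖ dist x' y ≤ |n(x' - y)| + |t(x' - y)|`. -/
theorem gap_geo {T g ρ : ℝ} {x x' y : ℂ} (hg0 : 0 < g) (hg : g ≤ 1 / 10 ^ 8)
    (hT0 : 0 ≤ T) (hT : T ≤ g / 10 ^ 11)
    (hx : |‖x‖ ^ 2 - 1| ≤ T) (hx' : |‖x'‖ ^ 2 - 1| ≤ T) (hy : |‖y‖ ^ 2 - 1| ≤ T)
    (h1 : g / 160 ≤ dist x x') (h2 : 2 * dist x x' ≤ ρ) (h3 : ρ + 9 / 10 * dist x x' ≤ g)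
    (h4 : dist x y ≤ ρ + 9 / 10 * dist x x')
    (h5 : (x' * conj x).im ≤ 0) (h6 : (y * conj x).im ≤ 0) : dist x' y ≤ ρ := by
  have hx1 := abs_le.1 hx
  have hx2 := abs_le.1 hx'
  have hx3 := abs_le.1 hy
  have hT1 : T ≤ 1 / 10 := by
    refine hT.trans ?_
    rw [div_le_iff₀ (by positivity)]
    exact hg.trans (by norm_num)
  have hxn : 9 / 10 ≤ ‖x‖ := by
    by_contra hc
    push Not at hc
    have : ‖x‖ ^ 2 < (9 / 10 : ℝ) ^ 2 := by gcongr
    norm_num at this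
    linarith [hx1.1]
  set τ := dist x x' with hτ
  set δ := dist x y with hδ
  have hδ0 : 0 ≤ δ := dist_nonneg
  have hτ0 : 0 < τ := by linarith [div_pos hg0 (by norm_num : (0 : ℝ) < 160)]
  have hδg : δ ≤ g := h4.trans h3
  have hτg : τ ≤ g := by linarith
  -- expansions
  have e1 := norm_sq_expand x x'
  have e2 := norm_sq_expand x y
  rw [← hτ] at e1
  rw [← hδ] at e2
  have i1 : ((x' - x) * conj x).im = (x' * conj x).im := by
    rw [sub_mul, Complex.sub_im, Complex.mul_conj]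
    simp
  have i2 : ((y - x) * conj x).im = (y * conj x).im := by
    rw [sub_mul, Complex.sub_im, Complex.mul_conj]
    simp
  have r3 : ((x' - y) * conj x).re = ((x' - x) * conj x).re - ((y - x) * conj x).re := by
    rw [← Complex.sub_re, ← sub_mul]
    congr 2
    ring
  have i3 : ((x' - y) * conj x).im = (x' * conj x).im - (y * conj x).im := by
    rw [sub_mul, Complex.sub_im]
  have f1 := norm_sq_frame x (x' - x)
  have f2 := norm_sq_frame x (y - x)
  have f3 := norm_sq_frame x (x' - y)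
  rw [← Complex.dist_eq, dist_comm, ← hτ, i1] at f1
  rw [← Complex.dist_eq, dist_comm, ← hδ, i2] at f2
  rw [← Complex.dist_eq, r3, i3] at f3
  set n1 := ((x' - x) * conj x).re
  set n2 := ((y - x) * conj x).re
  set t1 := (x' * conj x).im
  set t2 := (y * conj x).im
  set a := ‖x‖
  have ha0 : 0 < a := by linarith
  have hgg : g * g ≤ 1 / 10 ^ 8 * g := mul_le_mul_of_nonneg_right hg hg0.le
  have hττ : τ ^ 2 ≤ g * g := by nlinarith
  have hδδ : δ ^ 2 ≤ g * g := by nlinarith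
  have hττ0 : 0 ≤ τ ^ 2 := sq_nonneg _
  have hδδ0 : 0 ≤ δ ^ 2 := sq_nonneg _
  have hsmall : 2 * T + g * g ≤ τ / 10 ^ 5 := by
    norm_num at hgg hT ⊢
    linarith
  have hn1 : |n1| ≤ τ / 10 ^ 5 := by
    rw [abs_le]
    constructor <;> linarith [hx1.1, hx1.2, hx2.1, hx2.2]
  have hn12 : |n1 - n2| ≤ τ / 10 ^ 5 := by
    rw [abs_le]
    constructor <;> linarith [hx1.1, hx1.2, hx2.1, hx2.2, hx3.1, hx3.2]
  -- sizes of the tangential coordinates
  have ht1 : |t1| ≤ a * τ := by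
    refine abs_le_of_sq_le_sq ?_ (by positivity)
    have hq : (a * τ) ^ 2 = τ ^ 2 * a ^ 2 := by ring
    rw [hq, f1]
    linarith [sq_nonneg n1]
  have ht2 : |t2| ≤ a * δ := by
    refine abs_le_of_sq_le_sq ?_ (by positivity)
    have hq : (a * δ) ^ 2 = δ ^ 2 * a ^ 2 := by ring
    rw [hq, f2]
    linarith [sq_nonneg n2]
  have hsum : ∀ u v : ℝ, u ^ 2 + v ^ 2 ≤ (|u| + |v|) ^ 2 := by
    intro u v
    have hq : (|u| + |v|) ^ 2 = |u| ^ 2 + |v| ^ 2 + 2 * (|u| * |v|) := by ring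
    rw [hq, sq_abs, sq_abs]
    linarith [mul_nonneg (abs_nonneg u) (abs_nonneg v)]
  have ht1' : a * τ ≤ |n1| + |t1| := by
    refine le_of_sq_le_sq'' ?_ (by positivity)
    have hq : (a * τ) ^ 2 = τ ^ 2 * a ^ 2 := by ring
    rw [hq, f1]
    exact hsum _ _
  have hfin : a * dist x' y ≤ |n1 - n2| + |t1 - t2| := by
    refine le_of_sq_le_sq'' ?_ (by positivity)
    have hq : (a * dist x' y) ^ 2 = dist x' y ^ 2 * a ^ 2 := by ring
    rw [hq, f3]
    exact hsum _ _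
  have hab1 : |t1| = -t1 := abs_of_nonpos h5
  have hab2 : |t2| = -t2 := abs_of_nonpos h6
  have haδ : a * δ ≤ a * (ρ + 9 / 10 * τ) := mul_le_mul_of_nonneg_left h4 ha0.le
  have haρ : a * (2 * τ) ≤ a * ρ := mul_le_mul_of_nonneg_left h2 ha0.le
  have haτ : 9 / 10 * τ ≤ a * τ := mul_le_mul_of_nonneg_right hxn hτ0.le
  have hT' : τ / 10 ^ 5 ≤ τ / 100 := by
    norm_num
    linarith
  have hgoal : a * dist x' y ≤ a * ρ := by
    rcases le_total 0 (t1 - t2) with hc | hc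
    · rw [abs_of_nonneg hc] at hfin
      have : a * (ρ + 9 / 10 * τ) = a * ρ + 9 / 10 * (a * τ) := by ring
      linarith
    · rw [abs_of_nonpos hc] at hfin
      have : a * (2 * τ) = 2 * (a * τ) := by ring
      linarith
  exact le_of_mul_le_mul_left hgoal ha0
where
  le_of_sq_le_sq'' {a b : ℝ} (h : a ^ 2 ≤ b ^ 2) (hb : 0 ≤ b) : a ≤ b := by
    by_contra hc
    push Not at hc
    nlinarith
  abs_le_of_sq_le_sq {a b : ℝ} (h : a ^ 2 ≤ b ^ 2) (hb : 0 ≤ b) : |a| ≤ b := by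
    have := sq_le_sq.mp h
    rwa [abs_of_nonneg hb] at this

/-- PROOF. Suppose not: `hno : ∀ y ∈ X, dist y x ≤ g → Im (y conj x) ≤ 0`.
`f(ρ) = card (ball X x ρ)`. By `avg`, `f(g / 160) ≥ n g / 1600 - e ≥ 10 ^ 9 (e + 1)`, so `acc`
(`s = g / 160`) gives `x' ∈ X` with `g / 160 < τ ≤ g / 40`, `τ = dist x' x`. By `gap_geo`,
`f(ρ + 0.9 τ) ≤ card (ball X x' ρ) ≤ f(ρ) + e` if `2 τ ≤ ρ` and `ρ + 0.9 τ ≤ g`. Iterating from
`ρ = g / 20` at most `81` times (until the radius is `≥ g / 2`): `f(g / 2) ≤ f(g / 20) + 81 e`.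
By `acc` with `s = g / 10` there is `x'' ∈ X` with `g / 10 < dist x'' x ≤ 4 g / 10`. The sets
`ball X x (g / 20)` and `ball X x'' (g / 20)` are disjoint and contained in `ball X x (g / 2)`:
`f(g / 2) ≥ 2 f(g / 20) - e`. So `f(g / 20) ≤ 82 e`, but by `avg`
`f(g / 20) ≥ n g / 200 - e > 82 e`. -/
theorem gap {X : Finset ℂ} {e T : ℝ} (h : Ann X e T) {g : ℝ} (hg0 : 0 < g) (hg : g ≤ 1 / 10 ^ 8)
    (hT : T ≤ g / 10 ^ 11) (hn : 2 * 10 ^ 12 * (e + 1) ≤ X.card * g) {x : ℂ} (hx : x ∈ X) :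
    ∃ y ∈ X, dist y x ≤ g ∧ 0 < (y * conj x).im := by
  by_contra hcon
  push Not at hcon
  have he := h.nonneg
  have hT0 : 0 ≤ T := (abs_nonneg _).trans (h.ann x hx)
  have hg1 : g ≤ 1 := hg.trans (by norm_num)
  norm_num at hT hn
  have havg : ∀ σ : ℝ, g / 160 ≤ σ → σ ≤ 1 → ∀ z ∈ X,
      (X.card : ℝ) * σ / 10 - e ≤ ((ball X z σ).card : ℝ) := by
    intro σ hσ hσ1 z hz
    exact avg h (by linarith) (by linarith) hσ1 hz
  -- first accumulation point
  obtain ⟨x', hx', hlt, hle⟩ := acc h hx (s := g / 160) (by linarith)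
    (by linarith) (by norm_num; linarith) (by
      have := havg (g / 160) le_rfl (by linarith) x hx
      norm_num
      linarith)
  rw [dist_comm] at hlt hle
  set τ := dist x x' with hτ
  have hτ0 : 0 < τ := by linarith
  have step : ∀ ρ : ℝ, 2 * τ ≤ ρ → ρ + 9 / 10 * τ ≤ g →
      ((ball X x (ρ + 9 / 10 * τ)).card : ℝ) ≤ ((ball X x ρ).card : ℝ) + e := by
    intro ρ h2 h3
    have hsub : ball X x (ρ + 9 / 10 * τ) ⊆ ball X x' ρ := by
      intro y hy
      have hy1 := (mem_ball.1 hy).1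
      have hy2 := (mem_ball.1 hy).2
      refine mem_ball.2 ⟨hy1, ?_⟩
      rw [dist_comm]
      refine gap_geo hg0 hg hT0 (by norm_num; linarith) (h.ann x hx) (h.ann x' hx')
        (h.ann y hy1) hlt.le h2 h3 (by rw [dist_comm]; exact hy2) ?_ ?_
      · exact hcon x' hx' (by rw [dist_comm]; linarith)
      · exact hcon y hy1 (by linarith)
    have h4 : ((ball X x (ρ + 9 / 10 * τ)).card : ℝ) ≤ ((ball X x' ρ).card : ℝ) := by
      exact_mod_cast Finset.card_le_card hsub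
    have h5 := cnt_le h.toSys hx' hx (ρ := ρ) (by linarith)
    linarith
  have iter : ∀ k : ℕ, g / 20 + k * (9 / 10 * τ) ≤ g →
      ((ball X x (g / 20 + k * (9 / 10 * τ))).card : ℝ)
        ≤ ((ball X x (g / 20)).card : ℝ) + k * e := by
    intro k
    induction k with
    | zero => intro _; simp
    | succ k ih =>
      intro hk
      push_cast at hk ⊢
      have h1 : g / 20 + (k + 1) * (9 / 10 * τ) = (g / 20 + k * (9 / 10 * τ)) + 9 / 10 * τ := by
        ring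
      rw [h1] at hk ⊢
      have h2 := ih (by linarith)
      have h3 : 0 ≤ (k : ℝ) * (9 / 10 * τ) := by positivity
      have h4 := step (g / 20 + k * (9 / 10 * τ)) (by linarith) hk
      linarith
  set k := ⌈g / (2 * τ)⌉₊ with hk
  have hk1 : g / (2 * τ) ≤ k := Nat.le_ceil _
  have hk2 : (k : ℝ) < g / (2 * τ) + 1 := Nat.ceil_lt_add_one (by positivity)
  have hk3 : g / (2 * τ) ≤ 80 := by
    rw [div_le_iff₀ (by positivity)]
    linarith
  have hk4 : g / (2 * τ) * (9 / 10 * τ) = 9 / 20 * g := by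
    field_simp
    norm_num
  have hkτ : 9 / 20 * g ≤ k * (9 / 10 * τ) := by
    rw [← hk4]
    exact mul_le_mul_of_nonneg_right hk1 (by positivity)
  have hkτ' : (k : ℝ) * (9 / 10 * τ) ≤ 9 / 20 * g + 9 / 10 * τ := by
    have := mul_le_mul_of_nonneg_right hk2.le (by positivity : (0 : ℝ) ≤ 9 / 10 * τ)
    rw [add_mul, hk4, one_mul] at this
    exact this
  have hmain := iter k (by linarith)
  have hmono : ((ball X x (g / 2)).card : ℝ)
      ≤ ((ball X x (g / 20 + k * (9 / 10 * τ))).card : ℝ) := by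
    have : ball X x (g / 2) ⊆ ball X x (g / 20 + k * (9 / 10 * τ)) := by
      intro y hy
      exact mem_ball.2 ⟨(mem_ball.1 hy).1, (mem_ball.1 hy).2.trans (by linarith)⟩
    exact_mod_cast Finset.card_le_card this
  have hke : (k : ℝ) * e ≤ 81 * e := mul_le_mul_of_nonneg_right (by linarith) he
  -- second accumulation point
  obtain ⟨x2, hx2, hlt2, hle2⟩ := acc h hx (s := g / 10) (by linarith)
    (by linarith) (by norm_num; linarith) (by
      have := havg (g / 10) (by linarith) (by linarith) x hx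
      norm_num
      linarith)
  have hdisj : Disjoint (ball X x (g / 20)) (ball X x2 (g / 20)) := by
    rw [Finset.disjoint_left]
    intro y hy hy'
    have h1 := (mem_ball.1 hy).2
    have h2 := (mem_ball.1 hy').2
    have h3 := dist_triangle_left x2 x y
    linarith
  have hun : ball X x (g / 20) ∪ ball X x2 (g / 20) ⊆ ball X x (g / 2) := by
    intro y hy
    rcases Finset.mem_union.1 hy with hy | hy
    · exact mem_ball.2 ⟨(mem_ball.1 hy).1, (mem_ball.1 hy).2.trans (by linarith)⟩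
    · refine mem_ball.2 ⟨(mem_ball.1 hy).1, ?_⟩
      have h1 := (mem_ball.1 hy).2
      have h2 := dist_triangle y x2 x
      linarith
  have hcard : ((ball X x (g / 20)).card : ℝ) + ((ball X x2 (g / 20)).card : ℝ)
      ≤ ((ball X x (g / 2)).card : ℝ) := by
    have := Finset.card_le_card hun
    rw [Finset.card_union_of_disjoint hdisj] at this
    exact_mod_cast this
  have hcmp := cnt_le h.toSys hx hx2 (ρ := g / 20) (by linarith)
  have hlow := havg (g / 20) (by linarith) (by linarith) x hx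
  linarith

/-- PROOF: `gap` for `cX X`. -/
theorem gap' {X : Finset ℂ} {e T : ℝ} (h : Ann X e T) {g : ℝ} (hg0 : 0 < g) (hg : g ≤ 1 / 10 ^ 8)
    (hT : T ≤ g / 10 ^ 11) (hn : 2 * 10 ^ 12 * (e + 1) ≤ X.card * g) {x : ℂ} (hx : x ∈ X) :
    ∃ y ∈ X, dist y x ≤ g ∧ (y * conj x).im < 0 := by
  obtain ⟨y, hy, hd, hpos⟩ := gap (ann_cX h) hg0 hg hT (by rw [card_cX]; exact hn)
    (x := conj x) (mem_cX.2 (by simpa using hx))
  refine ⟨conj y, mem_cX.1 hy, ?_, ?_⟩
  · rw [← dist_conj', Complex.conj_conj]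
    exact hd
  · rw [Complex.conj_conj] at hpos
    have : conj y * conj x = conj (y * x) := (map_mul _ _ _).symm
    rw [this, Complex.conj_im]
    linarith

end Pool.Agent.Vps
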