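import Mathlib

/-!
# An optimal partial matching
-/

open Finset

namespace Pool.Agent.Vps

/-- PROOF. Among the finitely many subsets `M` of `X ×ˢ X` satisfying the two injectivity
conditions (the empty set is one) take one maximising `∑ p ∈ M, f p.1 p.2`. A pair with negative
weight could be removed. If `f p.1 q.2 + f q.1 p.2 > f p.1 p.2 + f q.1 q.2` (so `p ≠ q`, hence
`p.1 ≠ q.1`, `p.2 ≠ q.2`), replace `p, q` by `(p.1, q.2), (q.1, p.2)`. If `f x y > 0` and neither `x`
nor `y` is matched, add `(x, y)`. -/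
theorem exists_matching (X : Finset ℂ) (f : ℂ → ℂ → ℝ) :
    ∃ M : Finset (ℂ × ℂ), M ⊆ X ×ˢ X ∧ (∀ p ∈ M, ∀ q ∈ M, p.1 = q.1 → p = q) ∧
      (∀ p ∈ M, ∀ q ∈ M, p.2 = q.2 → p = q) ∧ (∀ p ∈ M, 0 ≤ f p.1 p.2) ∧
      (∀ p ∈ M, ∀ q ∈ M, f p.1 q.2 + f q.1 p.2 ≤ f p.1 p.2 + f q.1 q.2) ∧
      ∀ x ∈ X, ∀ y ∈ X, 0 < f x y → (∃ p ∈ M, p.1 = x) ∨ ∃ p ∈ M, p.2 = y := by
  classical
  set V : Finset (Finset (ℂ × ℂ)) := (X ×ˢ X).powerset.filter
    (fun M => (∀ p ∈ M, ∀ q ∈ M, p.1 = q.1 → p = q) ∧ (∀ p ∈ M, ∀ q ∈ M, p.2 = q.2 → p = q)) with hV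
  have hmem : ∀ M, M ∈ V ↔ M ⊆ X ×ˢ X ∧ (∀ p ∈ M, ∀ q ∈ M, p.1 = q.1 → p = q) ∧
      (∀ p ∈ M, ∀ q ∈ M, p.2 = q.2 → p = q) := by
    intro M
    rw [hV, mem_filter, mem_powerset]
  have hne : V.Nonempty := ⟨∅, by rw [hmem]; simp⟩
  obtain ⟨M, hM, hmax⟩ := V.exists_max_image (fun M => ∑ p ∈ M, f p.1 p.2) hne
  obtain ⟨hsub, h1, h2⟩ := (hmem M).1 hM
  refine ⟨M, hsub, h1, h2, ?_, ?_, ?_⟩
  · intro p hp
    by_contra hcon
    push Not at hcon
    have hV' : M.erase p ∈ V := by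
      rw [hmem]
      exact ⟨(erase_subset _ _).trans hsub,
        fun a ha b hb => h1 a (mem_of_mem_erase ha) b (mem_of_mem_erase hb),
        fun a ha b hb => h2 a (mem_of_mem_erase ha) b (mem_of_mem_erase hb)⟩
    have h3 := hmax _ hV'
    have h4 := Finset.add_sum_erase M (fun p => f p.1 p.2) hp
    linarith
  · intro p hp q hq
    by_contra hcon
    push Not at hcon
    have hpq : p ≠ q := by
      rintro rfl
      linarith
    have hp1 : p.1 ≠ q.1 := fun h => hpq (h1 p hp q hq h)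
    have hp2 : p.2 ≠ q.2 := fun h => hpq (h2 p hp q hq h)
    set M0 := (M.erase p).erase q with hM0
    have hM0mem : ∀ a, a ∈ M0 → a ∈ M ∧ a ≠ p ∧ a ≠ q := by
      intro a ha
      rw [hM0, mem_erase, mem_erase] at ha
      exact ⟨ha.2.2, ha.2.1, ha.1⟩
    have n1 : (q.1, p.2) ∉ M0 := by
      intro h
      obtain ⟨a1, a2, a3⟩ := hM0mem _ h
      exact a3 (h1 _ a1 _ hq rfl)
    have n2 : (p.1, q.2) ∉ insert (q.1, p.2) M0 := by
      intro h
      rcases mem_insert.1 h with h | h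
      · exact hp1 (Prod.mk.injEq _ _ _ _ ▸ h).1
      · obtain ⟨a1, a2, a3⟩ := hM0mem _ h
        exact a2 (h1 _ a1 _ hp rfl)
    have hV' : insert (p.1, q.2) (insert (q.1, p.2) M0) ∈ V := by
      rw [hmem]
      have pX := mem_product.1 (hsub hp)
      have qX := mem_product.1 (hsub hq)
      refine ⟨?_, ?_, ?_⟩
      · intro a ha
        rcases mem_insert.1 ha with rfl | ha
        · exact mem_product.2 ⟨pX.1, qX.2⟩
        rcases mem_insert.1 ha with rfl | ha
        · exact mem_product.2 ⟨qX.1, pX.2⟩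
        · exact hsub (hM0mem a ha).1
      · intro a ha b hb hab
        rcases mem_insert.1 ha with rfl | ha
        · rcases mem_insert.1 hb with rfl | hb
          · rfl
          rcases mem_insert.1 hb with rfl | hb
          · exact absurd hab hp1
          · obtain ⟨b1, b2, b3⟩ := hM0mem b hb
            exact absurd (h1 _ b1 _ hp hab.symm) b2
        rcases mem_insert.1 ha with rfl | ha
        · rcases mem_insert.1 hb with rfl | hb
          · exact absurd hab.symm hp1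
          rcases mem_insert.1 hb with rfl | hb
          · rfl
          · obtain ⟨b1, b2, b3⟩ := hM0mem b hb
            exact absurd (h1 _ b1 _ hq hab.symm) b3
        · obtain ⟨a1, a2, a3⟩ := hM0mem a ha
          rcases mem_insert.1 hb with rfl | hb
          · exact absurd (h1 _ a1 _ hp hab) a2
          rcases mem_insert.1 hb with rfl | hb
          · exact absurd (h1 _ a1 _ hq hab) a3
          · exact h1 _ a1 _ (hM0mem b hb).1 hab
      · intro a ha b hb hab
        rcases mem_insert.1 ha with rfl | ha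
        · rcases mem_insert.1 hb with rfl | hb
          · rfl
          rcases mem_insert.1 hb with rfl | hb
          · exact absurd hab.symm hp2
          · obtain ⟨b1, b2, b3⟩ := hM0mem b hb
            exact absurd (h2 _ b1 _ hq hab.symm) b3
        rcases mem_insert.1 ha with rfl | ha
        · rcases mem_insert.1 hb with rfl | hb
          · exact absurd hab hp2
          rcases mem_insert.1 hb with rfl | hb
          · rfl
          · obtain ⟨b1, b2, b3⟩ := hM0mem b hb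
            exact absurd (h2 _ b1 _ hp hab.symm) b2
        · obtain ⟨a1, a2, a3⟩ := hM0mem a ha
          rcases mem_insert.1 hb with rfl | hb
          · exact absurd (h2 _ a1 _ hq hab) a3
          rcases mem_insert.1 hb with rfl | hb
          · exact absurd (h2 _ a1 _ hp hab) a2
          · exact h2 _ a1 _ (hM0mem b hb).1 hab
    have h3 := hmax _ hV'
    rw [sum_insert n2, sum_insert n1] at h3
    have h4 := Finset.add_sum_erase M (fun p => f p.1 p.2) hp
    have h5 := Finset.add_sum_erase (M.erase p) (fun p => f p.1 p.2)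
      (mem_erase.2 ⟨hpq.symm, hq⟩)
    rw [← hM0] at h5
    linarith
  · intro x hx y hy hxy
    by_contra hcon
    push Not at hcon
    obtain ⟨c1, c2⟩ := hcon
    have n1 : (x, y) ∉ M := fun h => c1 _ h rfl
    have hV' : insert (x, y) M ∈ V := by
      rw [hmem]
      refine ⟨?_, ?_, ?_⟩
      · intro a ha
        rcases mem_insert.1 ha with rfl | ha
        · exact mem_product.2 ⟨hx, hy⟩
        · exact hsub ha
      · intro a ha b hb hab
        rcases mem_insert.1 ha with rfl | ha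
        · rcases mem_insert.1 hb with rfl | hb
          · rfl
          · exact absurd hab.symm (c1 b hb)
        · rcases mem_insert.1 hb with rfl | hb
          · exact absurd hab (c1 a ha)
          · exact h1 a ha b hb hab
      · intro a ha b hb hab
        rcases mem_insert.1 ha with rfl | ha
        · rcases mem_insert.1 hb with rfl | hb
          · rfl
          · exact absurd hab.symm (c2 b hb)
        · rcases mem_insert.1 hb with rfl | hb
          · exact absurd hab (c2 a ha)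
          · exact h2 a ha b hb hab
    have h3 := hmax _ hV'
    rw [sum_insert n1] at h3
    simp only at h3
    linarith

/-- PROOF. Double counting of `G`: every `p ∈ G` has its first coordinate among the at most
`card M` first coordinates of `M`, or its second coordinate among the second coordinates. -/
theorem match_card {X : Finset ℂ} {G M : Finset (ℂ × ℂ)} (hG : G ⊆ X ×ˢ X) (hM : M ⊆ X ×ˢ X)
    {a b : ℝ} (hcover : ∀ p ∈ G, (∃ q ∈ M, q.1 = p.1) ∨ ∃ q ∈ M, q.2 = p.2)
    (hlo : ∀ x ∈ X, a ≤ ((G.filter fun p => p.1 = x).card : ℝ))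
    (hrow : ∀ x ∈ X, ((G.filter fun p => p.1 = x).card : ℝ) ≤ b)
    (hcol : ∀ y ∈ X, ((G.filter fun p => p.2 = y).card : ℝ) ≤ b) :
    (X.card : ℝ) * a ≤ 2 * b * M.card := by
  classical
  have h1 : G.card = ∑ x ∈ X, (G.filter fun p => p.1 = x).card :=
    card_eq_sum_card_fiberwise fun p hp => (mem_product.1 (hG hp)).1
  have h2 : (X.card : ℝ) * a ≤ G.card := by
    rw [h1]
    push_cast
    calc (X.card : ℝ) * a = ∑ x ∈ X, a := by rw [sum_const, nsmul_eq_mul]
      _ ≤ _ := sum_le_sum hlo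
  have h3 : G ⊆ M.biUnion fun q => (G.filter fun p => p.1 = q.1) ∪ (G.filter fun p => p.2 = q.2) := by
    intro p hp
    rw [mem_biUnion]
    rcases hcover p hp with ⟨q, hq, h⟩ | ⟨q, hq, h⟩
    · exact ⟨q, hq, mem_union_left _ (mem_filter.2 ⟨hp, h.symm⟩)⟩
    · exact ⟨q, hq, mem_union_right _ (mem_filter.2 ⟨hp, h.symm⟩)⟩
  have h4 : (G.card : ℝ) ≤ ∑ q ∈ M, 2 * b := by
    have h5 : G.card ≤ ∑ q ∈ M,
        ((G.filter fun p => p.1 = q.1) ∪ (G.filter fun p => p.2 = q.2)).card :=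
      (card_le_card h3).trans card_biUnion_le
    have h6 : (G.card : ℝ) ≤ ∑ q ∈ M,
        (((G.filter fun p => p.1 = q.1) ∪ (G.filter fun p => p.2 = q.2)).card : ℝ) := by
      exact_mod_cast h5
    refine h6.trans (sum_le_sum fun q hq => ?_)
    have hqX := mem_product.1 (hM hq)
    have h7 : (((G.filter fun p => p.1 = q.1) ∪ (G.filter fun p => p.2 = q.2)).card : ℝ) ≤
        ((G.filter fun p => p.1 = q.1).card : ℝ) + ((G.filter fun p => p.2 = q.2).card : ℝ) := by
      exact_mod_cast card_union_le _ _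
    have h8 := hrow _ hqX.1
    have h9 := hcol _ hqX.2
    linarith
  rw [sum_const, nsmul_eq_mul] at h4
  linarith

/-- PROOF. Cells `(⌊A i / t⌋, ⌊B i / t⌋)`. If two cells `(α, β)`, `(α', β')` have the same sum
`α + β = α' + β'` and `α' ≥ α + 2`, then `β' ≤ β - 2` and points `i`, `j` in them have
`A j - A i ≥ t`, `B i - B j ≥ t`, which is excluded. So each of the at most `16 / t + 3` possible
sums belongs to at most two occupied cells: at most `38 / t` occupied cells, and some cell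
contains at least `card P * t / 50` of the points. -/
theorem staircase {ι : Type*} [DecidableEq ι] (P : Finset ι) (A B : ι → ℝ) {t : ℝ} (ht : 0 < t)
    (ht1 : t ≤ 1) (hA : ∀ i ∈ P, |A i| ≤ 4) (hB : ∀ i ∈ P, |B i| ≤ 4)
    (hmono : ∀ i ∈ P, ∀ j ∈ P, ¬ (t ≤ A j - A i ∧ t ≤ B i - B j)) :
    ∃ a b : ℝ, (P.card : ℝ) * t / 50 ≤
      ((P.filter fun i => a ≤ A i ∧ A i ≤ a + t ∧ b ≤ B i ∧ B i ≤ b + t).card : ℝ) := by
  classical
  rcases P.eq_empty_or_nonempty with rfl | hne
  · exact ⟨0, 0, by simp⟩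
  have hfl : ∀ x : ℝ, (⌊x / t⌋ : ℝ) * t ≤ x ∧ x < ((⌊x / t⌋ : ℝ) + 1) * t := by
    intro x
    constructor
    · rw [← le_div_iff₀ ht]; exact Int.floor_le _
    · rw [← div_lt_iff₀ ht]; exact Int.lt_floor_add_one _
  set g : ι → ℤ × ℤ := fun i => (⌊A i / t⌋, ⌊B i / t⌋) with hg
  set C := P.image g with hC
  -- sums
  have hrange : C.image (fun c : ℤ × ℤ => c.1 + c.2) ⊆ Icc (2 * ⌊-4 / t⌋) (2 * ⌊4 / t⌋) := by
    intro s hs
    obtain ⟨c, hc, rfl⟩ := mem_image.1 hs
    obtain ⟨i, hi, rfl⟩ := mem_image.1 hc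
    have a1 := abs_le.1 (hA i hi)
    have b1 := abs_le.1 (hB i hi)
    have u1 : ⌊-4 / t⌋ ≤ ⌊A i / t⌋ := Int.floor_le_floor (by gcongr; exact a1.1)
    have u2 : ⌊A i / t⌋ ≤ ⌊4 / t⌋ := Int.floor_le_floor (by gcongr; exact a1.2)
    have v1 : ⌊-4 / t⌋ ≤ ⌊B i / t⌋ := Int.floor_le_floor (by gcongr; exact b1.1)
    have v2 : ⌊B i / t⌋ ≤ ⌊4 / t⌋ := Int.floor_le_floor (by gcongr; exact b1.2)
    rw [mem_Icc]
    simp only [hg]
    constructor <;> linarith
  have hfib : ∀ s ∈ C.image (fun c : ℤ × ℤ => c.1 + c.2),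
      (C.filter fun c => c.1 + c.2 = s).card ≤ 2 := by
    intro s hs
    obtain ⟨c0, hc0, hmin⟩ := (C.filter fun c : ℤ × ℤ => c.1 + c.2 = s).exists_min_image
      (fun c => c.1) (by
        obtain ⟨c, hc, hcs⟩ := mem_image.1 hs
        exact ⟨c, mem_filter.2 ⟨hc, hcs⟩⟩)
    have hsub : (C.filter fun c : ℤ × ℤ => c.1 + c.2 = s) ⊆ {c0, (c0.1 + 1, c0.2 - 1)} := by
      intro c hc
      have h1 := hmin c hc
      have hc' := mem_filter.1 hc
      have hc0' := mem_filter.1 hc0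
      have h2 : c.1 ≤ c0.1 + 1 := by
        by_contra hcon
        push Not at hcon
        obtain ⟨j, hj, hj'⟩ := mem_image.1 hc'.1
        obtain ⟨i, hi, hi'⟩ := mem_image.1 hc0'.1
        have e1 : ⌊A j / t⌋ = c.1 := by rw [← hj']
        have e2 : ⌊B j / t⌋ = c.2 := by rw [← hj']
        have e3 : ⌊A i / t⌋ = c0.1 := by rw [← hi']
        have e4 : ⌊B i / t⌋ = c0.2 := by rw [← hi']
        have f1 := hfl (A j)
        have f2 := hfl (B j)
        have f3 := hfl (A i)
        have f4 := hfl (B i)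
        rw [e1] at f1
        rw [e2] at f2
        rw [e3] at f3
        rw [e4] at f4
        have g1 : (c0.1 : ℝ) + 2 ≤ c.1 := by
          have : c0.1 + 2 ≤ c.1 := by omega
          exact_mod_cast this
        have g2 : (c.2 : ℝ) + 2 ≤ c0.2 := by
          have : c.2 + 2 ≤ c0.2 := by omega
          exact_mod_cast this
        refine hmono i hi j hj ⟨?_, ?_⟩
        · nlinarith [f1.1, f3.2]
        · nlinarith [f2.2, f4.1]
      rw [mem_insert, mem_singleton]
      rcases (by omega : c.1 = c0.1 ∨ c.1 = c0.1 + 1) with h | h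
      · left
        exact Prod.ext h (by omega)
      · right
        exact Prod.ext h (by simp only; omega)
    exact (card_le_card hsub).trans card_le_two
  have hCcard : (C.card : ℝ) ≤ 38 / t := by
    have h1 := card_le_mul_card_image C 2 hfib
    have h2 := card_le_card hrange
    rw [Int.card_Icc] at h2
    have h3 : (((2 * ⌊4 / t⌋ + 1 - 2 * ⌊-4 / t⌋).toNat : ℕ) : ℝ) ≤ 16 / t + 3 := by
      have h4 : ⌊-4 / t⌋ ≤ ⌊4 / t⌋ := Int.floor_le_floor (by gcongr; norm_num)
      have h5 : (((2 * ⌊4 / t⌋ + 1 - 2 * ⌊-4 / t⌋).toNat : ℕ) : ℤ) =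
          2 * ⌊4 / t⌋ + 1 - 2 * ⌊-4 / t⌋ := Int.toNat_of_nonneg (by linarith)
      have h6 : (((2 * ⌊4 / t⌋ + 1 - 2 * ⌊-4 / t⌋).toNat : ℕ) : ℝ) =
          2 * (⌊4 / t⌋ : ℝ) + 1 - 2 * (⌊-4 / t⌋ : ℝ) := by exact_mod_cast h5
      rw [h6]
      have h7 : (⌊4 / t⌋ : ℝ) ≤ 4 / t := Int.floor_le _
      have h8 : -4 / t < (⌊-4 / t⌋ : ℝ) + 1 := Int.lt_floor_add_one _
      have h9 : -4 / t = -(4 / t) := by ring
      have h10 : 16 / t = 4 * (4 / t) := by ring
      linarith
    have h4 : (C.card : ℝ) ≤ 2 * (16 / t + 3) := by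
      have h5 : C.card ≤ 2 * (2 * ⌊4 / t⌋ + 1 - 2 * ⌊-4 / t⌋).toNat :=
        h1.trans (Nat.mul_le_mul_left 2 h2)
      have h6 : (C.card : ℝ) ≤ 2 * (((2 * ⌊4 / t⌋ + 1 - 2 * ⌊-4 / t⌋).toNat : ℕ) : ℝ) := by
        exact_mod_cast h5
      linarith
    have h7 : 1 ≤ 1 / t := by rw [le_div_iff₀ ht]; linarith
    have h8 : 38 / t = 32 * (1 / t) + 6 * (1 / t) := by ring
    have h9 : 16 / t = 16 * (1 / t) := by ring
    linarith
  have hpig : C.card • ((P.card : ℝ) * t / 50) ≤ (P.card : ℝ) := by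
    rw [nsmul_eq_mul]
    have h1 : (C.card : ℝ) * t ≤ 38 := by
      rw [← le_div_iff₀ ht]; exact hCcard
    have h2 : (0:ℝ) ≤ P.card := Nat.cast_nonneg _
    have h3 : (C.card : ℝ) * ((P.card : ℝ) * t / 50) = (P.card : ℝ) * ((C.card : ℝ) * t / 50) := by
      ring
    rw [h3]
    nlinarith
  obtain ⟨c, _, hc⟩ := exists_le_card_fiber_of_nsmul_le_card_of_maps_to
    (fun i hi => mem_image_of_mem g hi) (hne.image g) hpig
  refine ⟨c.1 * t, c.2 * t, hc.trans ?_⟩
  have hsub : (P.filter fun i => g i = c) ⊆ P.filter fun i => (c.1:ℝ) * t ≤ A i ∧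
      A i ≤ (c.1:ℝ) * t + t ∧ (c.2:ℝ) * t ≤ B i ∧ B i ≤ (c.2:ℝ) * t + t := by
    intro i hi
    obtain ⟨hi, hgi⟩ := mem_filter.1 hi
    have e1 : ⌊A i / t⌋ = c.1 := by rw [← hgi]
    have e2 : ⌊B i / t⌋ = c.2 := by rw [← hgi]
    have f1 := hfl (A i)
    have f2 := hfl (B i)
    rw [e1] at f1
    rw [e2] at f2
    refine mem_filter.2 ⟨hi, f1.1, ?_, f2.1, ?_⟩
    · linarith [f1.2]
    · linarith [f2.2]
  exact_mod_cast card_le_card hsub

/-- PROOF. For `i ≠ j` in `P` one of `(i, j)`, `(j, i)` is good; so at least `p (p - 1) / 2` ordered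
pairs are good, and some `i` has at least `(p - 1) / 2` good `j`. -/
theorem exists_half {ι : Type*} [DecidableEq ι] (P : Finset ι) (hP : P.Nonempty)
    (G : ι → ι → Prop) [DecidableRel G] (hG : ∀ i ∈ P, ∀ j ∈ P, i ≠ j → G i j ∨ G j i) :
    ∃ i ∈ P, ((P.card : ℝ) - 1) / 2 ≤ ((P.filter fun j => G i j).card : ℝ) := by
  by_contra hcon
  push Not at hcon
  have h1 : ∑ i ∈ P, ((P.filter fun j => G i j).card : ℝ) < ∑ i ∈ P, ((P.card : ℝ) - 1) / 2 :=
    sum_lt_sum_of_nonempty hP hcon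
  rw [sum_const, nsmul_eq_mul] at h1
  have h2 : ∀ i, ((P.filter fun j => G i j).card : ℝ) = ∑ j ∈ P, if G i j then (1:ℝ) else 0 := by
    intro i
    rw [card_filter]
    push_cast
    rfl
  simp only [h2] at h1
  have h3 : ∑ i ∈ P, ∑ j ∈ P, (if G i j then (1:ℝ) else 0) =
      ∑ i ∈ P, ∑ j ∈ P, (if G j i then (1:ℝ) else 0) := sum_comm
  have h4 : ∑ i ∈ P, ((P.card : ℝ) - 1) ≤
      ∑ i ∈ P, ∑ j ∈ P, ((if G i j then (1:ℝ) else 0) + (if G j i then (1:ℝ) else 0)) := by
    refine sum_le_sum fun i hi => ?_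
    have h5 : ∑ j ∈ P.erase i, (1:ℝ) ≤
        ∑ j ∈ P.erase i, ((if G i j then (1:ℝ) else 0) + (if G j i then (1:ℝ) else 0)) := by
      refine sum_le_sum fun j hj => ?_
      obtain ⟨hji, hj⟩ := mem_erase.1 hj
      rcases hG i hi j hj (Ne.symm hji) with h | h
      · rw [if_pos h]
        split_ifs <;> norm_num
      · rw [if_pos h]
        split_ifs <;> norm_num
    have h6 : ∑ j ∈ P.erase i, ((if G i j then (1:ℝ) else 0) + (if G j i then (1:ℝ) else 0)) ≤
        ∑ j ∈ P, ((if G i j then (1:ℝ) else 0) + (if G j i then (1:ℝ) else 0)) := by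
      refine sum_le_sum_of_subset_of_nonneg (erase_subset _ _) fun j _ _ => ?_
      split_ifs <;> norm_num
    have h7 : ∑ j ∈ P.erase i, (1:ℝ) = (P.card : ℝ) - 1 := by
      rw [sum_const, nsmul_eq_mul, mul_one, card_erase_of_mem hi, Nat.cast_sub hP.card_pos]
      norm_num
    linarith
  simp only [sum_add_distrib] at h4
  rw [← h3, sum_const, nsmul_eq_mul] at h4
  linarith

end Pool.Agent.Vps
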