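import Pool.Agent.Lib.Vps.Top
import Pool.Agent.Lib.Vps.Upper
import Pool.Agent.Lib.Vps.Matching
import Pool.Agent.Lib.Vps.Backward

/-!
# Many distances close to the maximal ones
-/

open Finset
open scoped ComplexConjugate

namespace Pool.Agent.Vps

namespace TopCountAux

theorem norm_sub_one_le {T : ℝ} {x : ℂ} (h : |‖x‖ ^ 2 - 1| ≤ T) : |‖x‖ - 1| ≤ T := by
  have h0 := norm_nonneg x
  have h4 : |‖x‖ - 1| ≤ |‖x‖ ^ 2 - 1| := by
    have : ‖x‖ ^ 2 - 1 = (‖x‖ - 1) * (‖x‖ + 1) := by ring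
    rw [this, abs_mul]
    have h5 : 1 ≤ |‖x‖ + 1| := by rw [abs_of_nonneg (by linarith)]; linarith
    exact le_mul_of_one_le_right (abs_nonneg _) h5
  exact h4.trans h

/-- A point close to the antipode is far away. -/
theorem far_of {T : ℝ} (hT : T ≤ 1 / 10 ^ 6) {x y : ℂ} (hx : |‖x‖ ^ 2 - 1| ≤ T)
    (hy : |‖y‖ ^ 2 - 1| ≤ T) (h : dist y (-x / ‖x‖) ≤ 101 / 10000) :
    3999 / 1000 ≤ dist x y ^ 2 := by
  have hx1 := abs_le.1 (norm_sub_one_le hx)
  have hxpos : 0 < ‖x‖ := by linarith [hx1.1]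
  have hxc : (‖x‖ : ℂ) ≠ 0 := by exact_mod_cast hxpos.ne'
  have h1 : y * conj x = (y - (-x / ‖x‖)) * conj x - (‖x‖ : ℂ) := by
    have h2 : x * conj x = (‖x‖ : ℂ) ^ 2 := by
      rw [Complex.mul_conj, Complex.normSq_eq_norm_sq]; push_cast; ring
    have h3 : (-x / ‖x‖) * conj x = -(‖x‖ : ℂ) := by
      rw [div_mul_eq_mul_div, neg_mul, h2]
      field_simp
    rw [sub_mul, h3]
    ring
  have h2 : ‖(y - (-x / ‖x‖)) * conj x‖ ≤ 102 / 10000 := by
    rw [norm_mul, Complex.norm_conj, ← Complex.dist_eq]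
    have h3 : dist y (-x / ‖x‖) * ‖x‖ ≤ 101 / 10000 * (1 + 1 / 10 ^ 6) :=
      mul_le_mul h (by linarith [hx1.2]) hxpos.le (by norm_num)
    linarith
  have him : |(y * conj x).im| ≤ 102 / 10000 := by
    rw [h1, Complex.sub_im, Complex.ofReal_im, sub_zero]
    exact (Complex.abs_im_le_norm _).trans h2
  have hre : (y * conj x).re ≤ 0 := by
    rw [h1, Complex.sub_re, Complex.ofReal_re]
    have := (Complex.re_le_norm ((y - (-x / ‖x‖)) * conj x)).trans h2
    linarith [hx1.1]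
  have e1 := norm_sq_frame x y
  have e2 := dist_sq_eq x y
  have him2 : (y * conj x).im ^ 2 ≤ (102 / 10000) ^ 2 := by
    rw [← sq_abs]; exact pow_le_pow_left₀ (abs_nonneg _) him 2
  rw [abs_le] at hx hy
  have h4 : 99999 / 100000 * (99999 / 100000) ≤ ‖y‖ ^ 2 * ‖x‖ ^ 2 :=
    mul_le_mul (by linarith) (by linarith) (by norm_num) (by positivity)
  have h5 : (9998 / 10000) ^ 2 ≤ (y * conj x).re ^ 2 := by linarith
  have h6 : (y * conj x).re ≤ -(9998 / 10000) := by
    by_contra hcon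
    push Not at hcon
    have : (-(y * conj x).re) ^ 2 < (9998 / 10000) ^ 2 :=
      pow_lt_pow_left₀ (by linarith) (by linarith) (by norm_num)
    rw [neg_sq] at this
    linarith
  linarith

theorem dist_neg_one_le {T : ℝ} (hT : T ≤ 1 / 10 ^ 6) {x : ℂ} (hx : |‖x‖ ^ 2 - 1| ≤ T)
    (h : 31 / 10 - 1 / 100 < |Complex.arg x|) : dist x (-1) ≤ 6 / 100 := by
  have hx1 := norm_sub_one_le hx
  have key : ∀ z : ℂ, ‖z‖ = ‖x‖ → 31 / 10 - 1 / 100 < Complex.arg z → dist z (-1) ≤ 6 / 100 := by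
    intro z hz ha
    have h1 := dist_polar_le z (-1)
    rw [norm_neg, norm_one, Complex.arg_neg_one, hz, one_mul] at h1
    have h2 := Complex.arg_le_pi z
    have h3 := Real.pi_lt_d4
    have h4 : |Complex.arg z - Real.pi| ≤ 52 / 1000 := by
      rw [abs_le]; constructor <;> linarith
    linarith
  rcases lt_abs.1 h with h1 | h1
  · exact key x rfl h1
  · have h2 : Complex.arg x ≠ Real.pi := by
      intro h3
      rw [h3] at h1
      linarith [Real.pi_pos]
    have h3 : Complex.arg (conj x) = -Complex.arg x := by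
      rw [Complex.arg_conj, if_neg h2]
    have h4 := key (conj x) (Complex.norm_conj x) (by rw [h3]; exact h1)
    have h5 : dist (conj x) (-1) = dist x (-1) := by
      have : (-1 : ℂ) = conj (-1) := by simp
      rw [this, Complex.dist_conj_conj, ← this]
    rwa [h5] at h4

end TopCountAux

open TopCountAux

/-- PROOF: `density` for `u = - x / ‖x‖` and `avg` with `σ = 1/100`: at least
`n / 1000 - e ≥ 3 e + 4` points `y` with `dist y (- x / ‖x‖) ≤ 0.0101`; for them
`|Im (y conj x)| ≤ 0.0102`, so `Re (y conj x) ≤ - 0.9999` and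
`dist x y ^ 2 = ‖x‖^2 + ‖y‖^2 - 2 Re (y conj x) ≥ 3.999`. -/
theorem top_big {X : Finset ℂ} {e T : ℝ} (h : Ann X e T) {g : ℝ} (hg0 : 0 < g)
    (hg : g ≤ 1 / 10 ^ 8) (hT : T ≤ g / 10 ^ 11) (hn : 2 * 10 ^ 12 * (e + 1) ≤ X.card * g)
    {x : ℂ} (hx : x ∈ X) : 3 * e + 4 ≤ ((top X x (3999 / 1000)).card : ℝ) := by
  have he := h.nonneg
  have hn1 : 2 * 10 ^ 20 * (e + 1) ≤ X.card := by
    have h1 : (X.card : ℝ) * g ≤ X.card * (1 / 10 ^ 8) :=
      mul_le_mul_of_nonneg_left hg (by positivity)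
    linarith
  have hT6 : T ≤ 1 / 10 ^ 6 := by
    refine hT.trans ?_
    rw [div_le_iff₀ (by norm_num)]
    linarith
  have hx1 := abs_le.1 (norm_sub_one_le (h.ann x hx))
  have hxpos : 0 < ‖x‖ := by linarith [hx1.1]
  have hun : ‖-x / (‖x‖ : ℂ)‖ = 1 := by
    rw [norm_div, norm_neg, Complex.norm_real, norm_norm, div_self hxpos.ne']
  obtain ⟨x0, hx0, hx0u⟩ := density h hg0 hg hT hn hun
  have h2 := avg h (σ := 1 / 100) (by
    have : T ≤ 1 / 10 ^ 8 := by
      refine hT.trans ?_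
      rw [div_le_iff₀ (by norm_num)]
      linarith
    linarith) (by norm_num) (by norm_num) hx0
  have hsub : ball X x0 (1 / 100) ⊆ top X x (3999 / 1000) := by
    intro y hy
    rw [mem_ball] at hy
    refine Finset.mem_filter.2 ⟨hy.1, far_of hT6 (h.ann x hx) (h.ann y hy.1) ?_⟩
    have h3 := dist_triangle y x0 (-x / ‖x‖)
    linarith [hy.2]
  have h3 : ((ball X x0 (1 / 100)).card : ℝ) ≤ ((top X x (3999 / 1000)).card : ℝ) := by
    exact_mod_cast Finset.card_le_card hsub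
  linarith

/-- PROOF: the points `y ∈ X` with `|arg y| > 3.09` are within `0.06` of `- 1`, hence within
`0.061` of a point of `X` (`density`); `upper` with `ρ = 0.061`. -/
theorem few_left {X : Finset ℂ} {e T : ℝ} (h : Ann X e T) {g : ℝ} (hg0 : 0 < g)
    (hg : g ≤ 1 / 10 ^ 8) (hT : T ≤ g / 10 ^ 11) (hn : 2 * 10 ^ 12 * (e + 1) ≤ X.card * g) :
    ((X.filter fun x => 31 / 10 - 1 / 100 < |Complex.arg x|).card : ℝ) ≤ X.card / 8 + e := by
  have hT6 : T ≤ 1 / 10 ^ 6 := by
    refine hT.trans ?_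
    rw [div_le_iff₀ (by norm_num)]
    linarith
  obtain ⟨x0, hx0, hx0u⟩ := density h hg0 hg hT hn (u := -1) (by simp)
  have h1 := upper h hg0 hg hT hn (ρ := 61 / 1000) (by linarith) (by norm_num) hx0
  have hsub : (X.filter fun x => 31 / 10 - 1 / 100 < |Complex.arg x|) ⊆ ball X x0 (61 / 1000) := by
    intro y hy
    rw [Finset.mem_filter] at hy
    refine mem_ball.2 ⟨hy.1, ?_⟩
    have h2 := dist_neg_one_le hT6 (h.ann y hy.1) hy.2
    have h3 := dist_triangle y (-1) x0
    rw [dist_comm (-1 : ℂ) x0] at h3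
    linarith
  have h3 : ((X.filter fun x => 31 / 10 - 1 / 100 < |Complex.arg x|).card : ℝ) ≤
      ((ball X x0 (61 / 1000)).card : ℝ) := by
    exact_mod_cast Finset.card_le_card hsub
  have h4 : (0 : ℝ) ≤ X.card := by positivity
  linarith

namespace TopCountAux

theorem top_card_le {X : Finset ℂ} {e : ℝ} (h : Sys X e) {x : ℂ} (hx : x ∈ X) {ρ : ℝ}
    (hρ : 0 < ρ) : ((top X x ρ).card : ℝ) ≤ ((exc X x ρ).card : ℝ) + 2 := by
  classical
  have h1 : top X x ρ ⊆ exc X x ρ ∪ X.filter fun y => y ≠ x ∧ dist x y = Real.sqrt ρ := by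
    intro y hy
    rw [top, Finset.mem_filter] at hy
    rw [Finset.mem_union]
    by_cases h2 : ρ < dist x y ^ 2
    · exact Or.inl (Finset.mem_filter.2 ⟨hy.1, h2⟩)
    · right
      have h3 : dist x y ^ 2 = ρ := le_antisymm (not_lt.1 h2) hy.2
      refine Finset.mem_filter.2 ⟨hy.1, ?_, ?_⟩
      · rintro rfl
        rw [dist_self] at h3
        norm_num at h3
        linarith
      · rw [← h3, Real.sqrt_sq dist_nonneg]
  have h2 := (Finset.card_le_card h1).trans (Finset.card_union_le _ _)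
  have h3 := h.valid x hx (Real.sqrt ρ)
  have h4 : (top X x ρ).card ≤ (exc X x ρ).card + 2 := by omega
  exact_mod_cast h4

theorem final_arith {n t e P0 c : ℝ} (hnt : 10 ^ 5 * (e + 1) ≤ n * t) (he : 0 ≤ e)
    (h1 : n * t / 450 ≤ P0) (h2 : (P0 - 1) / 2 ≤ c + e) : n * t / 2000 ≤ c := by
  linarith

end TopCountAux

/-- PROOF. `exists_matching` with `f x y = dist x y ^ 2 - ρ + t ^ 2`; `G` = the pairs of `X ×ˢ X`
with `ρ ≤ dist x y ^ 2`. Every `x` has between `2 e + 2` and `3 e + 4` neighbours in `G`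
(`exc` and at most two points at squared distance exactly `ρ`, `Sys.valid`), so by `match_card`
`card M ≥ n / 4`. Let `P` be the pairs of `M` with `|arg x| ≤ 3.09`: `card P ≥ n / 4 - n / 8 - e
≥ n / 9`. For `p ∈ M`, `dist ^ 2 ≥ ρ - t ^ 2 ≥ 3.998`. By `no_backward`, `staircase` applies to
`A = arg x`, `B = arg (-y)`: a set `P0` of at least `n t / 450` pairs whose `arg x` are within
`t` of each other, and same for `arg (-y)`. By `cross_ge` (`r = ρ - t ^ 2`) and `exists_half`, some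
`x` of `P0` has at least `(card P0 - 1) / 2` of the `y` of `P0` in `top X x (ρ - 3 t ^ 2)` (the
`y` of different pairs are different). Then `top_le` for all `x`:
`(n t / 450 - 1) / 2 - e ≥ n t / 2000`. -/
theorem top_count {X : Finset ℂ} {e T : ℝ} (h : Ann X e T) {g : ℝ} (hg0 : 0 < g)
    (hg : g ≤ 1 / 10 ^ 8) (hT : T ≤ g / 10 ^ 11) (hn : 2 * 10 ^ 12 * (e + 1) ≤ X.card * g)
    {t ρ : ℝ} (ht0 : 0 < t) (ht1 : t ≤ 1 / 10 ^ 4) (hTt : 100 * T ≤ t)
    (hnt : 10 ^ 5 * (e + 1) ≤ X.card * t) (hρ : 3999 / 1000 ≤ ρ)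
    (hlo : ∀ x ∈ X, 2 * e + 2 ≤ ((top X x ρ).card : ℝ))
    (hexc : ∀ x ∈ X, ((exc X x ρ).card : ℝ) ≤ 3 * e + 2) {x : ℂ} (hx : x ∈ X) :
    (X.card : ℝ) * t / 2000 ≤ ((top X x (ρ - 3 * t ^ 2)).card : ℝ) := by
  classical
  have he := h.nonneg
  have ht2 : t ^ 2 ≤ 1 / 10 ^ 8 := by
    have := pow_le_pow_left₀ ht0.le ht1 2
    have h2 : ((1 : ℝ) / 10 ^ 4) ^ 2 = 1 / 10 ^ 8 := by norm_num
    linarith
  have ht2' : 0 < t ^ 2 := by positivity
  have hn1 : 2 * 10 ^ 20 * (e + 1) ≤ X.card := by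
    have h1 : (X.card : ℝ) * g ≤ X.card * (1 / 10 ^ 8) :=
      mul_le_mul_of_nonneg_left hg (by positivity)
    linarith
  have hT6 : T ≤ 1 / 10 ^ 6 := by
    refine hT.trans ?_
    rw [div_le_iff₀ (by norm_num)]
    linarith
  obtain ⟨M, hMX, hM1, hM2, hMpos, hMopt, hMcov⟩ :=
    exists_matching X (fun x y => dist x y ^ 2 - ρ + t ^ 2)
  set G : Finset (ℂ × ℂ) := (X ×ˢ X).filter fun p => ρ ≤ dist p.1 p.2 ^ 2 with hG
  have hrow : ∀ x ∈ X, (G.filter fun p => p.1 = x).card = (top X x ρ).card := by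
    intro x hx
    have h1 : (G.filter fun p => p.1 = x) = (top X x ρ).image fun y => (x, y) := by
      ext p
      rw [Finset.mem_filter, hG, Finset.mem_filter, Finset.mem_product, Finset.mem_image]
      constructor
      · rintro ⟨⟨⟨h1, h2⟩, h3⟩, h4⟩
        refine ⟨p.2, Finset.mem_filter.2 ⟨h2, by rw [← h4]; exact h3⟩, ?_⟩
        rw [← h4]
      · rintro ⟨y, hy, rfl⟩
        rw [top, Finset.mem_filter] at hy
        exact ⟨⟨⟨hx, hy.1⟩, hy.2⟩, rfl⟩
    rw [h1, Finset.card_image_of_injective]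
    intro a b hab
    exact (Prod.ext_iff.1 hab).2
  have hcol : ∀ y ∈ X, (G.filter fun p => p.2 = y).card = (top X y ρ).card := by
    intro y hy
    have h1 : (G.filter fun p => p.2 = y) = (top X y ρ).image fun x => (x, y) := by
      ext p
      rw [Finset.mem_filter, hG, Finset.mem_filter, Finset.mem_product, Finset.mem_image]
      constructor
      · rintro ⟨⟨⟨h1, h2⟩, h3⟩, h4⟩
        refine ⟨p.1, Finset.mem_filter.2 ⟨h1, by rw [← h4, dist_comm]; exact h3⟩, ?_⟩
        rw [← h4]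
      · rintro ⟨x, hx, rfl⟩
        rw [top, Finset.mem_filter] at hx
        exact ⟨⟨⟨hx.1, hy⟩, by rw [dist_comm]; exact hx.2⟩, rfl⟩
    rw [h1, Finset.card_image_of_injective]
    intro a b hab
    exact (Prod.ext_iff.1 hab).1
  have htop : ∀ x ∈ X, ((top X x ρ).card : ℝ) ≤ 3 * e + 4 := by
    intro x hx
    have h1 := top_card_le h.toSys hx (ρ := ρ) (by linarith)
    linarith [hexc x hx]
  have hMcard := match_card (G := G) (M := M) (Finset.filter_subset _ _) hMX (a := 2 * e + 2)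
    (b := 3 * e + 4) (by
      intro p hp
      rw [hG, Finset.mem_filter, Finset.mem_product] at hp
      exact hMcov p.1 hp.1.1 p.2 hp.1.2 (by linarith [hp.2]))
    (fun x hx => by rw [hrow x hx]; exact hlo x hx)
    (fun x hx => by rw [hrow x hx]; exact htop x hx)
    (fun y hy => by rw [hcol y hy]; exact htop y hy)
  have hM4 : (X.card : ℝ) / 4 ≤ M.card := by
    have h1 : (X.card : ℝ) * (3 * e + 4) ≤ X.card * (4 * e + 4) :=
      mul_le_mul_of_nonneg_left (by linarith) (by positivity)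
    have h2 : (X.card : ℝ) * (3 * e + 4) ≤ 4 * M.card * (3 * e + 4) := by linarith
    have h3 := le_of_mul_le_mul_right h2 (by linarith)
    linarith
  -- the pairs away from `- 1`
  set P : Finset (ℂ × ℂ) := M.filter fun p => |Complex.arg p.1| ≤ 31 / 10 - 1 / 100 with hP
  have hPcard : (X.card : ℝ) / 9 ≤ P.card := by
    have h1 : M.card ≤ P.card + (X.filter fun x => 31 / 10 - 1 / 100 < |Complex.arg x|).card := by
      have h2 : M.card = P.card + (M.filter fun p => ¬ |Complex.arg p.1| ≤ 31 / 10 - 1 / 100).card := by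
        rw [hP, Finset.card_filter_add_card_filter_not]
      have h3 : (M.filter fun p => ¬ |Complex.arg p.1| ≤ 31 / 10 - 1 / 100).card ≤
          (X.filter fun x => 31 / 10 - 1 / 100 < |Complex.arg x|).card := by
        apply Finset.card_le_card_of_injOn Prod.fst
        · intro p hp
          have hp' := Finset.mem_filter.1 hp
          exact Finset.mem_filter.2 ⟨(Finset.mem_product.1 (hMX hp'.1)).1, not_le.1 hp'.2⟩
        · intro p hp q hq hpq
          exact hM1 p (Finset.mem_filter.1 hp).1 q (Finset.mem_filter.1 hq).1 hpq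
      omega
    have h2 : (M.card : ℝ) ≤ P.card +
        (X.filter fun x => 31 / 10 - 1 / 100 < |Complex.arg x|).card := by exact_mod_cast h1
    have h3 := few_left h hg0 hg hT hn
    linarith
  have hMd : ∀ p ∈ M, 3998 / 1000 ≤ dist p.1 p.2 ^ 2 := by
    intro p hp
    have := hMpos p hp
    linarith
  have hMann1 : ∀ p ∈ M, |‖p.1‖ ^ 2 - 1| ≤ T := fun p hp =>
    h.ann _ (Finset.mem_product.1 (hMX hp)).1
  have hMann2 : ∀ p ∈ M, |‖p.2‖ ^ 2 - 1| ≤ T := fun p hp =>
    h.ann _ (Finset.mem_product.1 (hMX hp)).2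
  have habs : ∀ z : ℂ, |Complex.arg z| ≤ 4 := fun z => by
    have h1 := Complex.abs_arg_le_pi z
    linarith [Real.pi_lt_d2]
  obtain ⟨a, b, hab⟩ := staircase P (fun p => Complex.arg p.1) (fun p => Complex.arg (-p.2)) ht0
    (by linarith) (fun p _ => habs _) (fun p _ => habs _) (by
      intro p hp q hq
      obtain ⟨hpM, hpa⟩ := Finset.mem_filter.1 hp
      obtain ⟨hqM, hqa⟩ := Finset.mem_filter.1 hq
      refine no_backward hTt ht0 ht1 (hMann1 p hpM) (hMann2 p hpM) (hMann1 q hqM) (hMann2 q hqM)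
        (hMd p hpM) (hMd q hqM) hpa hqa ?_
      have := hMopt p hpM q hqM
      linarith)
  set P0 : Finset (ℂ × ℂ) := P.filter fun p => a ≤ Complex.arg p.1 ∧ Complex.arg p.1 ≤ a + t ∧
    b ≤ Complex.arg (-p.2) ∧ Complex.arg (-p.2) ≤ b + t with hP0
  have hP0card : (X.card : ℝ) * t / 450 ≤ P0.card := by
    have h1 : (X.card : ℝ) / 9 * t ≤ P.card * t := mul_le_mul_of_nonneg_right hPcard ht0.le
    linarith
  have hP0ne : P0.Nonempty := by
    rw [← Finset.card_pos]
    have h1 : (0 : ℝ) < P0.card := by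
      refine lt_of_lt_of_le ?_ hP0card
      linarith
    exact_mod_cast h1
  obtain ⟨p, hp, hhalf⟩ := exists_half P0 hP0ne
    (fun p q => ρ - 3 * t ^ 2 ≤ dist p.1 q.2 ^ 2) (by
      intro p hp q hq _
      obtain ⟨hpP, p1, p2, p3, p4⟩ := Finset.mem_filter.1 hp
      obtain ⟨hqP, q1, q2, q3, q4⟩ := Finset.mem_filter.1 hq
      have hpM := (Finset.mem_filter.1 hpP).1
      have hqM := (Finset.mem_filter.1 hqP).1
      have h1 := cross_ge (r := ρ - t ^ 2) hTt ht0 ht1 (hMann1 p hpM) (hMann2 p hpM)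
        (hMann1 q hqM) (hMann2 q hqM) (by linarith [hMpos p hpM]) (by linarith [hMpos q hqM])
        (by rw [abs_le]; constructor <;> linarith) (by rw [abs_le]; constructor <;> linarith)
      rcases h1 with h1 | h1
      · left; linarith
      · right; linarith)
  have hpM := (Finset.mem_filter.1 (Finset.mem_filter.1 hp).1).1
  have hpX : p.1 ∈ X := (Finset.mem_product.1 (hMX hpM)).1
  have hcard : ((P0.filter fun q => ρ - 3 * t ^ 2 ≤ dist p.1 q.2 ^ 2).card : ℝ) ≤
      ((top X p.1 (ρ - 3 * t ^ 2)).card : ℝ) := by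
    have h1 : (P0.filter fun q => ρ - 3 * t ^ 2 ≤ dist p.1 q.2 ^ 2).card ≤
        (top X p.1 (ρ - 3 * t ^ 2)).card := by
      apply Finset.card_le_card_of_injOn Prod.snd
      · intro q hq
        obtain ⟨hq0, hq1⟩ := Finset.mem_filter.1 hq
        have hqM := (Finset.mem_filter.1 (Finset.mem_filter.1 hq0).1).1
        exact Finset.mem_filter.2 ⟨(Finset.mem_product.1 (hMX hqM)).2, hq1⟩
      · intro q hq r hr hqr
        have hqM := (Finset.mem_filter.1 (Finset.mem_filter.1 (Finset.mem_filter.1 hq).1).1).1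
        have hrM := (Finset.mem_filter.1 (Finset.mem_filter.1 (Finset.mem_filter.1 hr).1).1).1
        exact hM2 q hqM r hrM hqr
    exact_mod_cast h1
  have hle := top_le h.toSys hpX hx (r := ρ - 3 * t ^ 2) (by linarith)
  exact final_arith hnt he hP0card (by linarith)

end Pool.Agent.Vps
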