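import Pool.Agent.Lib.Vps.NoTwin
import Pool.Agent.Lib.Vps.TopCount
import Pool.Agent.Lib.Vps.Depth
import Pool.Agent.Lib.Vps.ApproxSlope
import Pool.Agent.Lib.Vps.Core

/-!
# The main theorem for sets of complex numbers, without convexity
-/

open Finset
open scoped ComplexConjugate

namespace Pool.Agent.Vps

namespace MainAAux

/-- All the numerical conditions. -/
theorem consts {n e : ℝ} (he : 0 ≤ e) (hn : 10 ^ 40 * (e + 1) ^ 2 ≤ n) :
    10 ^ 40 ≤ n ∧ 10 ^ 40 * (e + 1) ≤ n ∧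
    0 < 2 * 10 ^ 12 * (e + 1) / n ∧ 2 * 10 ^ 12 * (e + 1) / n ≤ 1 / 10 ^ 8 ∧
    5 * e / n ≤ 2 * 10 ^ 12 * (e + 1) / n / 10 ^ 11 ∧
    2 * 10 ^ 12 * (e + 1) ≤ n * (2 * 10 ^ 12 * (e + 1) / n) ∧ 5 * e / n ≤ 1 / 10 ^ 20 ∧
    0 ≤ 5 * e / n := by
  have h1 : (10 : ℝ) ^ 40 * (e + 1) ≤ n := by
    have : (e + 1) ≤ (e + 1) ^ 2 := by nlinarith
    nlinarith
  have h0 : (10 : ℝ) ^ 40 ≤ n := by nlinarith
  have hn0 : 0 < n := by linarith [show (0 : ℝ) < 10 ^ 40 by positivity]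
  refine ⟨h0, h1, by positivity, ?_, ?_, ?_, ?_, by positivity⟩
  · rw [div_le_div_iff₀ hn0 (by positivity)]
    nlinarith
  · rw [div_div, mul_comm n, ← div_div]
    apply div_le_div_of_nonneg_right _ hn0.le
    rw [le_div_iff₀ (by positivity)]
    nlinarith
  · rw [mul_div_cancel₀ _ hn0.ne']
  · rw [div_le_div_iff₀ hn0 (by positivity)]
    nlinarith

theorem norm_sub_one_le {T : ℝ} {x : ℂ} (h : |‖x‖ ^ 2 - 1| ≤ T) : |‖x‖ - 1| ≤ T := by
  have h0 := norm_nonneg x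
  have h4 : |‖x‖ - 1| ≤ |‖x‖ ^ 2 - 1| := by
    have : ‖x‖ ^ 2 - 1 = (‖x‖ - 1) * (‖x‖ + 1) := by ring
    rw [this, abs_mul]
    have h5 : 1 ≤ |‖x‖ + 1| := by rw [abs_of_nonneg (by linarith)]; linarith
    exact le_mul_of_one_le_right (abs_nonneg _) h5
  exact h4.trans h

theorem dist_le_arg {y z : ℂ} (hy : y ≠ 0) (hz : z ≠ 0) :
    dist y z ≤ |‖y‖ - ‖z‖| + ‖z‖ * |Complex.arg (z / y)| := by
  have h1 : ∃ k : ℤ, y.arg - z.arg = -Complex.arg (z / y) + k * (2 * Real.pi) := by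
    have h2 := Complex.arg_div_coe_angle hz hy
    have h3 : ((y.arg - z.arg : ℝ) : Real.Angle) = ((-Complex.arg (z / y) : ℝ) : Real.Angle) := by
      rw [Real.Angle.coe_sub, Real.Angle.coe_neg, h2]
      abel
    obtain ⟨k, hk⟩ := Real.Angle.angle_eq_iff_two_pi_dvd_sub.1 h3
    exact ⟨k, by linarith⟩
  obtain ⟨k, hk⟩ := h1
  have hy' := Complex.norm_mul_exp_arg_mul_I y
  have hz' := Complex.norm_mul_exp_arg_mul_I z
  have h2 : Complex.exp (y.arg * Complex.I) =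
      Complex.exp (((z.arg - Complex.arg (z / y) : ℝ) : ℂ) * Complex.I) := by
    have h3 : y.arg = (z.arg - Complex.arg (z / y)) + k * (2 * Real.pi) := by linarith
    rw [h3]
    push_cast
    have h4 : ((z.arg : ℂ) - (Complex.arg (z / y) : ℂ) + k * (2 * Real.pi)) * Complex.I =
        ((z.arg : ℂ) - (Complex.arg (z / y) : ℂ)) * Complex.I + k * (2 * Real.pi * Complex.I) := by
      ring
    rw [h4, Complex.exp_add, Complex.exp_int_mul_two_pi_mul_I, mul_one]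
  have h5 : y - z = ((‖y‖ - ‖z‖ : ℝ) : ℂ) * Complex.exp (y.arg * Complex.I)
      + (‖z‖ : ℂ) * (Complex.exp (((z.arg - Complex.arg (z / y) : ℝ) : ℂ) * Complex.I) -
        Complex.exp (z.arg * Complex.I)) := by
    rw [← h2]
    conv_lhs => rw [← hy', ← hz']
    push_cast
    ring
  rw [dist_eq_norm, h5]
  refine (norm_add_le _ _).trans ?_
  rw [norm_mul, norm_mul, Complex.norm_exp_ofReal_mul_I, mul_one, Complex.norm_real,
    Complex.norm_real, Real.norm_eq_abs, norm_norm]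
  gcongr
  refine (norm_exp_sub_le _ _).trans ?_
  rw [sub_sub_cancel_left, abs_neg]

end MainAAux

open MainAAux

/-- PROOF. `E = e + 1`, `n = card X`, `t = 10 ^ 5 E / n`, `g = 2 * 10 ^ 12 E / n`. `top_big`,
`exists_rho`, `top_count`: all `x ∈ X` have `card (top X x (ρ - 3 t ^ 2)) ≥ n t / 2000 = 50 E`. If
`(1 + t ^ 2) x` were in the convex hull then `depth` with `w = 3 t ^ 2`, `s = t ^ 2` would give
`3 t ^ 2 (50 E - 9 e - 6) ≤ (10 e + 6) 3 t ^ 2`, false. So `approx_slope` applies with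
`s = t ^ 2` (`density` for `hdense`). -/
theorem slope_all {X : Finset ℂ} {e : ℝ} (h : Ann X e (5 * e / X.card))
    (hn : 10 ^ 40 * (e + 1) ^ 2 ≤ X.card) :
    ∀ y ∈ X, ∀ y' ∈ X, |Complex.arg (y' / y)| ≤ 1 / 50 →
      |‖y‖ - ‖y'‖| ≤ 1 / 10 * |Complex.arg (y' / y)| +
        2 * (10 ^ 5 * (e + 1) / X.card) ^ 2 := by
  have he := h.nonneg
  obtain ⟨c1, c2, c3, c4, c5, c6, c7, c8⟩ := consts he hn
  have hn0 : (0 : ℝ) < X.card := by linarith [show (0 : ℝ) < 10 ^ 40 by positivity]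
  set t : ℝ := 10 ^ 5 * (e + 1) / X.card with ht
  have ht0 : 0 < t := by positivity
  have hnt : X.card * t = 10 ^ 5 * (e + 1) := by
    rw [ht, mul_div_cancel₀ _ hn0.ne']
  have ht1 : t ≤ 1 / 10 ^ 30 := by
    rw [ht, div_le_div_iff₀ hn0 (by positivity)]
    nlinarith
  obtain ⟨ρ, hρ, hlo, hexc⟩ := exists_rho h.toSys h.nonempty
    (fun x hx => top_big h c3 c4 c5 c6 hx)
  have hTt : 100 * (5 * e / X.card) ≤ t := by
    rw [ht, ← mul_div_assoc]
    apply div_le_div_of_nonneg_right _ hn0.le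
    nlinarith
  have ht4 : t ≤ 1 / 10 ^ 4 := ht1.trans (by norm_num)
  have hdepth : ∀ x ∈ X, ((1 + t ^ 2 : ℝ) : ℂ) * x ∉ convexHull ℝ (X : Set ℂ) := by
    intro x hx hcon
    have h1 := top_count h c3 c4 c5 c6 ht0 ht4 hTt hnt.ge hρ hlo hexc hx
    have h2 := depth h (c7.trans (by norm_num)) hρ hexc (w := 3 * t ^ 2) (s := t ^ 2)
      (by positivity) (by nlinarith) (by positivity) hx hcon
    have h3 : 50 * (e + 1) ≤ ((top X x (ρ - 3 * t ^ 2)).card : ℝ) := by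
      have : (X.card : ℝ) * t / 2000 = 50 * (e + 1) := by rw [hnt]; ring
      rwa [this] at h1
    have ht2 : 0 < t ^ 2 := by positivity
    have h4 : 3 * t ^ 2 * (50 * (e + 1) - (9 * e + 6)) ≤
        3 * t ^ 2 * (((top X x (ρ - 3 * t ^ 2)).card : ℝ) - (9 * e + 6)) :=
      mul_le_mul_of_nonneg_left (by linarith) (by positivity)
    have h5 : 3 * t ^ 2 * (50 * (e + 1) - (9 * e + 6)) ≤ (10 * e + 6) * (3 * t ^ 2) := h4.trans h2
    have h6 : 3 * t ^ 2 * (50 * (e + 1) - (9 * e + 6)) - (10 * e + 6) * (3 * t ^ 2) =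
        3 * t ^ 2 * (31 * e + 38) := by ring
    have h7 : 0 < 3 * t ^ 2 * (31 * e + 38) := by positivity
    linarith
  refine approx_slope (fun x hx => (norm_sub_one_le (h.ann x hx)).trans
    (c7.trans (by norm_num))) ?_ (s := t ^ 2) (by positivity) (by nlinarith) hdepth
  intro u hu
  obtain ⟨x, hx, hxu⟩ := density h c3 c4 c5 c6 hu
  exact ⟨x, hx, hxu.trans (by linarith)⟩

/-- PROOF. `E`, `g` as above, `K = 2 n g + e ≤ 5 * 10 ^ 12 E` (`upper` with `ρ = g`). `Y` = the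
`x ∈ X` with `card (coin X x) ≤ n / (10 ^ 16 E)`; `sum_coin` gives
`card (X \ Y) ≤ 2 n K 10 ^ 16 E / n ≤ 10 ^ 29 E ^ 2`. For different `y, y' ∈ Y`, `no_twin` with
`δ = 1 / (10 ^ 4 n)`. -/
theorem exists_Y {X : Finset ℂ} {e : ℝ} (h : Ann X e (5 * e / X.card)) (hcol : NoCol X)
    (hn : 10 ^ 40 * (e + 1) ^ 2 ≤ X.card) :
    ∃ Y ⊆ X, ((X \ Y).card : ℝ) ≤ 10 ^ 29 * (e + 1) ^ 2 ∧
      ∀ y ∈ Y, ∀ y' ∈ Y, y ≠ y' → 1 / (10 ^ 4 * (X.card : ℝ)) < dist y y' := by
  classical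
  have he := h.nonneg
  obtain ⟨c1, c2, c3, c4, c5, c6, c7, c8⟩ := consts he hn
  have hn0 : (0 : ℝ) < X.card := by linarith [show (0 : ℝ) < 10 ^ 40 by positivity]
  set n : ℝ := (X.card : ℝ) with hndef
  set g : ℝ := 2 * 10 ^ 12 * (e + 1) / n with hg
  have hng : n * g = 2 * 10 ^ 12 * (e + 1) := by rw [hg, mul_div_cancel₀ _ hn0.ne']
  set K : ℝ := 5 * 10 ^ 12 * (e + 1) with hK
  have hKub : ∀ y ∈ X, ((ball X y g).card : ℝ) ≤ K := by
    intro y hy
    have h1 := upper h c3 c4 c5 c6 (ρ := g) le_rfl (c4.trans (by norm_num)) hy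
    have h2 : 2 * n * g + e ≤ K := by
      have : 2 * n * g = 4 * 10 ^ 12 * (e + 1) := by linarith
      rw [this, hK]
      nlinarith
    exact h1.trans h2
  have hsum := sum_coin h (c7.trans (by norm_num)) hcol (g := g) (K := K)
    (by
      have : g / 10 ^ 11 ≤ g / 20 := by
        apply div_le_div_of_nonneg_left c3.le (by norm_num) (by norm_num)
      linarith) hKub
  set θ : ℝ := n / (10 ^ 16 * (e + 1)) with hθ
  have hθ0 : 0 < θ := by positivity
  refine ⟨X.filter fun x => ((coin X x).card : ℝ) ≤ θ, Finset.filter_subset _ _, ?_, ?_⟩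
  · have hsd : X \ (X.filter fun x => ((coin X x).card : ℝ) ≤ θ) =
        X.filter fun x => ¬ ((coin X x).card : ℝ) ≤ θ := by
      ext x
      simp only [Finset.mem_sdiff, Finset.mem_filter]
      tauto
    rw [hsd]
    have h1 : ((X.filter fun x => ¬ ((coin X x).card : ℝ) ≤ θ).card : ℝ) * θ ≤
        ∑ x ∈ X, ((coin X x).card : ℝ) := by
      have h2 : ∑ x ∈ X.filter (fun x => ¬ ((coin X x).card : ℝ) ≤ θ), ((coin X x).card : ℝ) ≤
          ∑ x ∈ X, ((coin X x).card : ℝ) :=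
        Finset.sum_le_sum_of_subset_of_nonneg (Finset.filter_subset _ _)
          (fun _ _ _ => by positivity)
      refine le_trans ?_ h2
      rw [← nsmul_eq_mul]
      apply Finset.card_nsmul_le_sum
      intro x hx
      rw [Finset.mem_filter] at hx
      exact (not_le.1 hx.2).le
    have h3 : ((X.filter fun x => ¬ ((coin X x).card : ℝ) ≤ θ).card : ℝ) * θ ≤ 2 * n * K :=
      h1.trans hsum
    rw [← le_div_iff₀ hθ0] at h3
    refine h3.trans ?_
    rw [hθ, hK, div_div_eq_mul_div, div_le_iff₀ hn0]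
    have h4 : 2 * n * (5 * 10 ^ 12 * (e + 1)) * (10 ^ 16 * (e + 1)) =
        10 ^ 29 * (e + 1) ^ 2 * n := by ring
    rw [h4]
  · intro y hy y' hy' hne
    rw [Finset.mem_filter] at hy hy'
    by_contra hcon
    push Not at hcon
    refine no_twin h c3 c4 c5 c6 (δ := 1 / (10 ^ 4 * n)) (by positivity) ?_ hy.1 hy'.1 hne hcon ?_
    · rw [← hndef]
      have : (10 : ℝ) ^ 4 * (n * (1 / (10 ^ 4 * n))) = 1 := by
        field_simp
      exact this.le
    · have h1 : 2 * e + ((coin X y).card : ℝ) + ((coin X y').card : ℝ) ≤ 2 * e + 2 * θ := by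
        linarith [hy.2, hy'.2]
      have h2 : 200 * g * (2 * e + ((coin X y).card : ℝ) + ((coin X y').card : ℝ)) ≤
          200 * g * (2 * e + 2 * θ) := mul_le_mul_of_nonneg_left h1 (by positivity)
      refine lt_of_le_of_lt h2 ?_
      have h3 : 200 * g * (2 * e + 2 * θ) = 400 * (g * e) + 400 * (g * θ) := by ring
      have h4 : g * θ = 2 / 10 ^ 4 := by
        rw [hg, hθ]
        field_simp
      have h5 : g * e ≤ 1 / 10 ^ 10 := by
        rw [hg, div_mul_eq_mul_div, div_le_div_iff₀ hn0 (by positivity)]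
        nlinarith
      rw [h3, h4]
      linarith

/-- PROOF. `annulus`; `Y` from `exists_Y`. `Slope Y`: `slope_all`, and for `y ≠ y'` in `Y`,
`1 / (10 ^ 4 n) < dist y y' ≤ |‖y‖ - ‖y'‖| + ‖y‖ |arg (y' / y)| ≤ 1.2 |arg (y' / y)| + 2 s`,
`s = (10 ^ 5 E / n) ^ 2`, so `2 s ≤ |arg (y' / y)| / 20`. `core` as in `mainC`. -/
theorem mainA {X : Finset ℂ} {e : ℝ} (h : Sys X e) (h0 : ∑ x ∈ X, x = 0)
    (h1 : ∑ x ∈ X, ‖x‖ ^ 2 = X.card) (hcol : NoCol X) (hcirc : NoCirc X)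
    (hn : 10 ^ 40 * (e + 1) ^ 2 ≤ X.card) : False := by
  classical
  have he := h.nonneg
  obtain ⟨c1, c2, c3, c4, c5, c6, c7, c8⟩ := consts he hn
  have hn0 : (0 : ℝ) < X.card := by linarith [show (0 : ℝ) < 10 ^ 40 by positivity]
  have hne : X.Nonempty := by
    rw [← Finset.card_pos]
    exact_mod_cast hn0
  have hA := annulus h hne h0 h1 (by nlinarith)
  obtain ⟨Y, hYX, hYcard, hYdist⟩ := exists_Y hA hcol hn
  have hsl := slope_all hA hn
  set s : ℝ := (10 ^ 5 * (e + 1) / X.card) ^ 2 with hs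
  have hs1 : s ≤ 1 / 10 ^ 30 * (1 / X.card) := by
    rw [hs, div_pow, div_mul_div_comm, div_le_div_iff₀ (by positivity) (by positivity)]
    have : (10 ^ 5 * (e + 1)) ^ 2 * (10 ^ 30 * (X.card : ℝ)) =
        (10 ^ 40 * (e + 1) ^ 2) * X.card := by ring
    rw [this]
    nlinarith
  have hann : ∀ x ∈ X, |‖x‖ - 1| ≤ 1 / 1000 := fun x hx =>
    (norm_sub_one_le (hA.ann x hx)).trans (c7.trans (by norm_num))
  have hX0 : ∀ x ∈ X, x ≠ 0 := by
    intro x hx hx0
    have := hann x hx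
    rw [hx0, norm_zero] at this
    norm_num at this
  have hslope : Slope Y := by
    intro y hy y' hy' harg
    by_cases hyy : y = y'
    · rw [hyy, sub_self, abs_zero]; positivity
    have h2 := hsl y (hYX hy) y' (hYX hy') harg
    have h3 := hYdist y hy y' hy' hyy
    have h4 := dist_le_arg (hX0 y (hYX hy)) (hX0 y' (hYX hy'))
    have h5 : ‖y'‖ ≤ 11 / 10 := by
      have := (abs_le.1 (hann y' (hYX hy'))).2
      linarith
    have h6 : ‖y'‖ * |Complex.arg (y' / y)| ≤ 11 / 10 * |Complex.arg (y' / y)| :=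
      mul_le_mul_of_nonneg_right h5 (abs_nonneg _)
    have h7 : 1 / (10 ^ 4 * (X.card : ℝ)) < 12 / 10 * |Complex.arg (y' / y)| + 2 * s := by
      linarith
    have h8 : 1 / (10 ^ 4 * (X.card : ℝ)) = 1 / 10 ^ 4 * (1 / X.card) := by
      rw [div_mul_div_comm, one_mul]
    rw [h8] at h7
    have h9 : (0 : ℝ) < 1 / X.card := by positivity
    have h10 : 2 * s ≤ 1 / 20 * |Complex.arg (y' / y)| := by
      nlinarith
    linarith
  have hYn : 10 ^ 11 * ((X \ Y).card : ℝ) ≤ X.card := by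
    nlinarith
  have hcount : ∀ u : ℂ, ‖u‖ = 1 → (X.card : ℝ) / 2000 ≤ ((ball Y u (1 / 100)).card : ℝ) := by
    intro u hu
    obtain ⟨x, hx, hxu⟩ := density hA c3 c4 c5 c6 hu
    have h2 := avg hA (σ := 9 / 1000) (by linarith [c7]) (by norm_num) (by norm_num) hx
    have hsub : ball X x (9 / 1000) ⊆ ball Y u (1 / 100) ∪ (X \ Y) := by
      intro y hy
      rw [mem_ball] at hy
      by_cases hyY : y ∈ Y
      · refine Finset.mem_union_left _ (mem_ball.mpr ⟨hyY, ?_⟩)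
        have h3 := dist_triangle y x u
        linarith [hy.2]
      · exact Finset.mem_union_right _ (Finset.mem_sdiff.mpr ⟨hy.1, hyY⟩)
    have h5 : ((ball X x (9 / 1000)).card : ℝ) ≤ ((ball Y u (1 / 100)).card : ℝ) +
        ((X \ Y).card : ℝ) := by
      exact_mod_cast (Finset.card_le_card hsub).trans (Finset.card_union_le _ _)
    nlinarith
  refine core h hYX hann hslope hcount ?_ (by linarith) hcol hcirc
  nlinarith

end Pool.Agent.Vps
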