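import Pool.Agent.Lib.Vps.SlopeConv

/-!
# Distances increase with the angle
-/

open Finset
open scoped ComplexConjugate

namespace Pool.Agent.Vps

namespace MonoAux

theorem sin_ge {m : ℝ} (h1 : 2 / 5 ≤ m) (h2 : m ≤ 13 / 5) : 38 / 100 ≤ Real.sin m := by
  have hpi := Real.pi_gt_d2
  have h0 : 38 / 100 ≤ Real.sin (2 / 5) := by
    have := Real.sin_gt_sub_cube (x := 2 / 5) (by norm_num)
    norm_num at this ⊢
    linarith
  rcases le_or_gt m (Real.pi / 2) with h | h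
  · refine h0.trans (Real.sin_le_sin_of_le_of_le_pi_div_two (by linarith) h h1)
  · rw [← Real.sin_pi_sub]
    exact h0.trans (Real.sin_le_sin_of_le_of_le_pi_div_two (by linarith) (by linarith)
      (by linarith))

theorem sin_small {x : ℝ} (h0 : 0 < x) (h1 : x ≤ 1 / 100) : 99 / 100 * x ≤ Real.sin x := by
  have := Real.sin_gt_sub_cube (x := x) h0
  have h2 : x ^ 3 ≤ x * (1 / 100) := by
    have : x ^ 2 ≤ 1 / 100 := by nlinarith
    nlinarith
  linarith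

theorem cos_sub {φ δ : ℝ} (h1 : 2 / 5 ≤ φ) (h2 : φ + δ ≤ 13 / 5) (hδ : 0 < δ) (hδ' : δ ≤ 1 / 50) :
    3762 / 10000 * δ ≤ Real.cos φ - Real.cos (φ + δ) := by
  rw [Real.cos_sub_cos]
  have e1 : (φ + (φ + δ)) / 2 = φ + δ / 2 := by ring
  have e2 : (φ - (φ + δ)) / 2 = -(δ / 2) := by ring
  rw [e1, e2, Real.sin_neg]
  have h3 := sin_ge (m := φ + δ / 2) (by linarith) (by linarith)
  have h4 := sin_small (x := δ / 2) (by linarith) (by linarith)
  have h5 : 38 / 100 * (99 / 100 * (δ / 2)) ≤ Real.sin (φ + δ / 2) * Real.sin (δ / 2) :=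
    mul_le_mul h3 h4 (by positivity) (by linarith)
  linarith

end MonoAux

open MonoAux

/-- Polar form. PROOF. `|x|^2 + ρ'^2 - 2 |x| ρ' cos φ' - (|x|^2 + ρ^2 - 2 |x| ρ cos φ)
= (ρ' - ρ) (ρ' + ρ - 2 r cos φ') + 2 r ρ (cos φ - cos φ')`.
If `φ' - φ ≤ 1/50`: `|ρ' - ρ| ≤ 0.15 (φ' - φ)`, `|ρ' + ρ - 2 r cos φ'| ≤ 4.004` and
`cos φ - cos φ' = 2 sin ((φ + φ')/2) sin ((φ' - φ)/2) ≥ 0.3762 (φ' - φ)`.
If `φ' - φ > 1/50`: `|ρ' - ρ| ≤ 0.002`, and
`cos φ - cos φ' ≥ 2 * 0.38 * sin 0.01 ≥ 0.0075` (split at `φ + 1/50`, cos is decreasing). -/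
theorem mono_polar {r ρ ρ' φ φ' : ℝ} (hr : |r - 1| ≤ 1 / 1000) (hρ : |ρ - 1| ≤ 1 / 1000)
    (hρ' : |ρ' - 1| ≤ 1 / 1000) (hs : φ' - φ ≤ 1 / 50 → |ρ - ρ'| ≤ 3 / 20 * (φ' - φ))
    (h1 : 2 / 5 ≤ φ) (h2 : φ < φ') (h3 : φ' ≤ 13 / 5) :
    r ^ 2 + ρ ^ 2 - 2 * r * ρ * Real.cos φ < r ^ 2 + ρ' ^ 2 - 2 * r * ρ' * Real.cos φ' := by
  have hr' := abs_le.mp hr
  have hρ1 := abs_le.mp hρ
  have hρ2 := abs_le.mp hρ'
  have hc1 := Real.cos_le_one φ'
  have hc2 := Real.neg_one_le_cos φ'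
  have hkey : (r ^ 2 + ρ' ^ 2 - 2 * r * ρ' * Real.cos φ') - (r ^ 2 + ρ ^ 2 - 2 * r * ρ * Real.cos φ)
      = (ρ' - ρ) * (ρ' + ρ - 2 * r * Real.cos φ') + 2 * r * ρ * (Real.cos φ - Real.cos φ') := by
    ring
  have hfac : |ρ' + ρ - 2 * r * Real.cos φ'| ≤ 4004 / 1000 := by
    have h5 : r * Real.cos φ' ≤ 1001 / 1000 := by nlinarith
    have h6 : -(1001 / 1000) ≤ r * Real.cos φ' := by nlinarith
    rw [abs_le]
    constructor <;> linarith
  have hrρ : 199 / 100 ≤ 2 * r * ρ := by nlinarith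
  have hfirst : ∀ κ : ℝ, |ρ - ρ'| ≤ κ →
      -(κ * (4004 / 1000)) ≤ (ρ' - ρ) * (ρ' + ρ - 2 * r * Real.cos φ') := by
    intro κ hκ
    have h5 : |(ρ' - ρ) * (ρ' + ρ - 2 * r * Real.cos φ')| ≤ κ * (4004 / 1000) := by
      rw [abs_mul]
      refine mul_le_mul ?_ hfac (abs_nonneg _) ((abs_nonneg _).trans hκ)
      rw [abs_sub_comm]; exact hκ
    exact (abs_le.mp h5).1
  rcases le_or_gt (φ' - φ) (1 / 50) with hδ | hδ
  · have h4 := hfirst _ (hs hδ)
    have h5 := cos_sub (φ := φ) (δ := φ' - φ) h1 (by linarith) (by linarith) hδ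
    rw [add_sub_cancel] at h5
    have h6 : 199 / 100 * (3762 / 10000 * (φ' - φ)) ≤ 2 * r * ρ * (Real.cos φ - Real.cos φ') :=
      mul_le_mul hrρ h5 (by linarith) (by linarith)
    linarith
  · have h4 := hfirst (2 / 1000) (by rw [abs_le]; constructor <;> linarith)
    have h5 := cos_sub (φ := φ) (δ := 1 / 50) h1 (by linarith) (by norm_num) (le_refl _)
    have h7 : Real.cos φ' ≤ Real.cos (φ + 1 / 50) := by
      refine Real.cos_le_cos_of_nonneg_of_le_pi (by linarith) ?_ (by linarith)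
      have := Real.pi_gt_three
      linarith
    have h8 : 3762 / 10000 * (1 / 50) ≤ Real.cos φ - Real.cos φ' := by linarith
    have h6 : 199 / 100 * (3762 / 10000 * (1 / 50)) ≤ 2 * r * ρ * (Real.cos φ - Real.cos φ') :=
      mul_le_mul hrρ h8 (by norm_num) (by linarith)
    linarith

namespace MonoAux

theorem ne_zero_of {x : ℂ} (hx : |‖x‖ - 1| ≤ 1 / 1000) : x ≠ 0 := by
  rw [← norm_pos_iff]
  have := (abs_le.mp hx).1
  linarith

theorem dist_sq_arg {x z : ℂ} (hx : x ≠ 0) (hz : z ≠ 0) :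
    dist x z ^ 2 = ‖x‖ ^ 2 + ‖z‖ ^ 2 - 2 * ‖x‖ * ‖z‖ * Real.cos (Complex.arg (z / x)) := by
  rw [dist_sq_eq]
  have hnx : ‖x‖ ≠ 0 := norm_ne_zero_iff.mpr hx
  have hnz : ‖z‖ ≠ 0 := norm_ne_zero_iff.mpr hz
  have h1 : z * conj x = (z / x) * ((‖x‖ ^ 2 : ℝ) : ℂ) := by
    have h2 : ((‖x‖ ^ 2 : ℝ) : ℂ) = x * conj x := by
      rw [Complex.mul_conj, Complex.normSq_eq_norm_sq]
    rw [h2]
    field_simp
  have h3 : (z * conj x).re = (z / x).re * ‖x‖ ^ 2 := by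
    rw [h1, Complex.re_mul_ofReal]
  have h4 : z / x ≠ 0 := div_ne_zero hz hx
  have h5 := Complex.cos_arg h4
  have h6 : (z / x).re = ‖z‖ / ‖x‖ * Real.cos (Complex.arg (z / x)) := by
    rw [h5, norm_div]
    field_simp
  rw [h3, h6]
  field_simp

theorem arg_div_sub {a b : ℂ} (ha : a ≠ 0) (hb : b ≠ 0) (h1 : -Real.pi < Complex.arg a - Complex.arg b)
    (h2 : Complex.arg a - Complex.arg b ≤ Real.pi) (hb' : Complex.arg b ≠ Real.pi) :
    Complex.arg (a / b) = Complex.arg a - Complex.arg b := by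
  rw [div_eq_mul_inv]
  have hinv : Complex.arg b⁻¹ = -Complex.arg b := by
    rw [Complex.arg_inv, if_neg hb']
  rw [Complex.arg_mul ha (inv_ne_zero hb) (by rw [hinv]; constructor <;> linarith), hinv]
  ring

theorem abs_arg_conj (w : ℂ) : |Complex.arg (conj w)| = |Complex.arg w| := by
  rw [Complex.arg_conj]
  split_ifs with h
  · rw [h]
  · rw [abs_neg]

end MonoAux

/-- PROOF: `dist x z ^ 2 = ‖x‖^2 + ‖z‖^2 - 2 ‖x‖ ‖z‖ cos (arg (z / x))` (`dist_sq_eq`), and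
`arg (z' / z) = arg (z' / x) - arg (z / x)` since the difference is in `(0, π)`;
then `mono_polar`. -/
theorem mono_ccw {x z z' : ℂ} (hx : |‖x‖ - 1| ≤ 1 / 1000) (hz : |‖z‖ - 1| ≤ 1 / 1000)
    (hz' : |‖z'‖ - 1| ≤ 1 / 1000)
    (hs : |Complex.arg (z' / z)| ≤ 1 / 50 → |‖z‖ - ‖z'‖| ≤ 3 / 20 * |Complex.arg (z' / z)|)
    (h1 : 2 / 5 ≤ Complex.arg (z / x)) (h2 : Complex.arg (z / x) < Complex.arg (z' / x))
    (h3 : Complex.arg (z' / x) ≤ 13 / 5) : dist x z < dist x z' := by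
  have hx0 := ne_zero_of hx
  have hz0 := ne_zero_of hz
  have hz0' := ne_zero_of hz'
  have hpi := Real.pi_gt_three
  have harg : Complex.arg (z' / z) = Complex.arg (z' / x) - Complex.arg (z / x) := by
    have e : z' / z = (z' / x) / (z / x) := by field_simp
    rw [e]
    refine arg_div_sub (div_ne_zero hz0' hx0) (div_ne_zero hz0 hx0) (by linarith) (by linarith) ?_
    intro hh
    linarith
  have hs' : Complex.arg (z' / x) - Complex.arg (z / x) ≤ 1 / 50 →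
      |‖z‖ - ‖z'‖| ≤ 3 / 20 * (Complex.arg (z' / x) - Complex.arg (z / x)) := by
    intro h
    have h4 : |Complex.arg (z' / z)| = Complex.arg (z' / x) - Complex.arg (z / x) := by
      rw [harg, abs_of_pos (by linarith)]
    rw [h4] at hs
    exact hs h
  have h4 := mono_polar hx hz hz' hs' h1 h2 h3
  rw [← dist_sq_arg hx0 hz0, ← dist_sq_arg hx0 hz0'] at h4
  exact lt_of_pow_lt_pow_left₀ 2 dist_nonneg h4

/-- PROOF: `mono_ccw` for the conjugates (`Complex.arg_conj`, all the arguments are `≠ π`). -/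
theorem mono_cw {x z z' : ℂ} (hx : |‖x‖ - 1| ≤ 1 / 1000) (hz : |‖z‖ - 1| ≤ 1 / 1000)
    (hz' : |‖z'‖ - 1| ≤ 1 / 1000)
    (hs : |Complex.arg (z' / z)| ≤ 1 / 50 → |‖z‖ - ‖z'‖| ≤ 3 / 20 * |Complex.arg (z' / z)|)
    (h1 : Complex.arg (z / x) ≤ -(2 / 5)) (h2 : Complex.arg (z' / x) < Complex.arg (z / x))
    (h3 : -(13 / 5) ≤ Complex.arg (z' / x)) : dist x z < dist x z' := by
  have hpi := Real.pi_gt_three
  have e1 : ∀ w : ℂ, Complex.arg w ≤ -(2 / 5) → Complex.arg (conj w) = -Complex.arg w := by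
    intro w hw
    rw [Complex.arg_conj, if_neg]
    intro hh
    linarith
  have a1 : Complex.arg (conj z / conj x) = -Complex.arg (z / x) := by
    rw [← map_div₀]; exact e1 _ h1
  have a2 : Complex.arg (conj z' / conj x) = -Complex.arg (z' / x) := by
    rw [← map_div₀]; exact e1 _ (by linarith)
  have a3 : |Complex.arg (conj z' / conj z)| = |Complex.arg (z' / z)| := by
    rw [← map_div₀]; exact abs_arg_conj _
  have hd : ∀ a b : ℂ, dist (conj a) (conj b) = dist a b := by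
    intro a b
    rw [Complex.dist_eq, Complex.dist_eq, ← map_sub, Complex.norm_conj]
  rw [← hd x z, ← hd x z']
  refine mono_ccw (by rwa [Complex.norm_conj]) (by rwa [Complex.norm_conj])
    (by rwa [Complex.norm_conj]) ?_ ?_ ?_ ?_
  · rw [a3, Complex.norm_conj, Complex.norm_conj]; exact hs
  · rw [a1]; linarith
  · rw [a1, a2]; linarith
  · rw [a2]; linarith

end Pool.Agent.Vps
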