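import Pool.Agent.Lib.Vps.BlockSum
import Pool.Agent.Lib.Vps.DGaps
import Pool.Agent.Lib.Vps.Density
import Pool.Agent.Lib.Vps.Rank

/-!
# No two points of `X` with few coincidences are too close to each other
-/

open Finset
open scoped ComplexConjugate

namespace Pool.Agent.Vps

namespace NoTwinAux

theorem norm_sub_one_le {T : ℝ} {x : ℂ} (h : |‖x‖ ^ 2 - 1| ≤ T) : |‖x‖ - 1| ≤ T := by
  have h0 := norm_nonneg x
  have h4 : |‖x‖ - 1| ≤ |‖x‖ ^ 2 - 1| := by
    have : ‖x‖ ^ 2 - 1 = (‖x‖ - 1) * (‖x‖ + 1) := by ring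
    rw [this, abs_mul]
    have h5 : 1 ≤ |‖x‖ + 1| := by rw [abs_of_nonneg (by linarith)]; linarith
    exact le_mul_of_one_le_right (abs_nonneg _) h5
  exact h4.trans h

end NoTwinAux

open NoTwinAux

/-- PROOF. Some `u` with `‖u‖ = 1` has `dist (x / ‖x‖) u = d + 4 g ≤ 2`; `density` gives `y ∈ X`
with `dist y u ≤ 3 g`; `|dist x y - (d + 4 g)| ≤ 3 g + |‖x‖ - 1| ≤ 4 g`, and `y ≠ x`. -/
theorem meet {X : Finset ℂ} {e T : ℝ} (h : Ann X e T) {g : ℝ} (hg0 : 0 < g)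
    (hg : g ≤ 1 / 10 ^ 8) (hT : T ≤ g / 10 ^ 11) (hn : 2 * 10 ^ 12 * (e + 1) ≤ X.card * g)
    {d : ℝ} (hd : 3 / 10 ≤ d) (hd' : d ≤ 19 / 10) :
    ∃ d' ∈ Dset X, d ≤ d' ∧ d' ≤ d + 8 * g := by
  obtain ⟨x, hx⟩ := h.nonempty
  have hTg : T ≤ g := by
    refine hT.trans ?_
    rw [div_le_iff₀ (by norm_num)]
    linarith
  have hx1 : |‖x‖ - 1| ≤ g := (norm_sub_one_le (h.ann x hx)).trans hTg
  have hxpos : 0 < ‖x‖ := by
    have := (abs_le.1 hx1).1
    linarith
  set u0 : ℂ := x / ‖x‖ with hu0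
  have hu0n : ‖u0‖ = 1 := by
    rw [hu0, norm_div, Complex.norm_real, norm_norm, div_self hxpos.ne']
  have hxu : dist x u0 ≤ g := by
    have h1 : x - u0 = ((‖x‖ - 1 : ℝ) : ℂ) * u0 := by
      rw [hu0]
      push_cast
      have : (‖x‖ : ℂ) ≠ 0 := by exact_mod_cast hxpos.ne'
      field_simp
    rw [Complex.dist_eq, h1, norm_mul, hu0n, mul_one, Complex.norm_real, Real.norm_eq_abs]
    exact hx1
  set θ : ℝ := 2 * Real.arcsin ((d + 4 * g) / 2) with hθ
  set u : ℂ := u0 * Complex.exp (Complex.I * θ) with hu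
  have hun : ‖u‖ = 1 := by
    rw [hu, norm_mul, hu0n, one_mul, mul_comm, Complex.norm_exp_ofReal_mul_I]
  have hdu : dist u0 u = d + 4 * g := by
    have h1 : u - u0 = u0 * (Complex.exp (Complex.I * θ) - 1) := by rw [hu]; ring
    rw [dist_comm, Complex.dist_eq, h1, norm_mul, hu0n, one_mul]
    rw [Complex.norm_exp_I_mul_ofReal_sub_one, hθ, mul_div_cancel_left₀ _ (by norm_num : (2:ℝ) ≠ 0),
      Real.sin_arcsin (by linarith) (by linarith)]
    rw [mul_div_cancel₀ _ (by norm_num : (2:ℝ) ≠ 0), Real.norm_eq_abs, abs_of_nonneg (by linarith)]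
  obtain ⟨y, hy, hyu⟩ := density h hg0 hg hT hn hun
  have h1 : |dist x y - (d + 4 * g)| ≤ 4 * g := by
    have h2 := dist_triangle4 x u0 u y
    have h3 := dist_triangle4 u0 x y u
    rw [dist_comm u y, hdu] at h2
    rw [hdu, dist_comm u0 x] at h3
    rw [abs_le]
    constructor <;> linarith
  have h2 := abs_le.1 h1
  refine ⟨dist x y, dist_mem_Dset hx hy ?_, by linarith [h2.1], by linarith [h2.2]⟩
  intro hxy
  rw [hxy, dist_self] at h2
  linarith [h2.1]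

/-- PROOF. `δ ≤ 1 / 10 ^ 6` and `card (Dset X) ≤ card X` (`Sys.defect`, `e ≤ card X`). Let
`Z = coin X x1 ∪ coin X x2 ∪` the `d ∈ Dset X` with at most one `z ∈ X`, `dist x_k z = d`,
`k = 1, 2`; `card Z < 1 / (200 g)` by `badcount` with `Y = X`. `exists_block` with `G = 8 g` and
`(A, A') = (6/10, 8/10)` resp. `(12/10, 14/10)` (`meet`), `block_sum`, `frame_bounds1` resp.
`frame_bounds2` and `vec_of_sum` give `α₁ n = β₁ t`, `α₂ n = β₂ t` for
`n = Re ((x1 - x2) conj x1)`, `t = Im ((x1 - x2) conj x1)`, with `α₁ ≤ 0.322`, `β₁ ≥ 0.569`,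
`α₂ ≥ 0.718`, `β₂ ≤ 1.002`; so `(α₁ β₂ - α₂ β₁) n = 0`, `n = 0`, `t = 0`, `x1 = x2`. -/
theorem no_twin {X : Finset ℂ} {e T : ℝ} (h : Ann X e T) {g : ℝ} (hg0 : 0 < g)
    (hg : g ≤ 1 / 10 ^ 8) (hT : T ≤ g / 10 ^ 11) (hn : 2 * 10 ^ 12 * (e + 1) ≤ X.card * g)
    {δ : ℝ} (hδ0 : 0 < δ) (hδ : 10 ^ 4 * (X.card * δ) ≤ 1) {x1 x2 : ℂ} (hx1 : x1 ∈ X)
    (hx2 : x2 ∈ X) (hne : x1 ≠ x2) (h12 : dist x1 x2 ≤ δ)
    (hZ : 200 * g * (2 * e + (coin X x1).card + (coin X x2).card) < 1) : False := by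
  classical
  have he := h.nonneg
  have hn1 : (2 : ℝ) * 10 ^ 20 ≤ X.card := by
    have h1 : (X.card : ℝ) * g ≤ X.card * (1 / 10 ^ 8) :=
      mul_le_mul_of_nonneg_left hg (by positivity)
    linarith
  have hen : e ≤ X.card := by
    have h1 : (X.card : ℝ) * g ≤ X.card * 1 :=
      mul_le_mul_of_nonneg_left (hg.trans (by norm_num)) (by positivity)
    linarith
  have hδ6 : δ ≤ 1 / 10 ^ 6 := by
    have h1 : 2 * 10 ^ 20 * δ ≤ X.card * δ := mul_le_mul_of_nonneg_right hn1 hδ0.le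
    linarith
  have hT6 : T ≤ 1 / 10 ^ 6 := by
    refine hT.trans ?_
    rw [div_le_iff₀ (by norm_num)]
    linarith
  have hD : ((Dset X).card : ℝ) ≤ X.card := by
    have := h.defect
    linarith
  have hDδ : 10 * (((Dset X).card : ℝ) * δ) ≤ 2 / 10 := by
    have h1 : ((Dset X).card : ℝ) * δ ≤ X.card * δ := mul_le_mul_of_nonneg_right hD hδ0.le
    linarith
  set B1 := (Dset X).filter fun d => (X.filter fun z => dist x1 z = d).card ≤ 1 with hB1
  set B2 := (Dset X).filter fun d => (X.filter fun z => dist x2 z = d).card ≤ 1 with hB2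
  have hb1 : (B1.card : ℝ) ≤ e := by
    have := badcount h.toSys (Finset.Subset.refl X) hx1
    simpa using this
  have hb2 : (B2.card : ℝ) ≤ e := by
    have := badcount h.toSys (Finset.Subset.refl X) hx2
    simpa using this
  set Z := (coin X x1 ∪ coin X x2) ∪ (B1 ∪ B2) with hZdef
  have hZcard : (Z.card : ℝ) ≤ 2 * e + (coin X x1).card + (coin X x2).card := by
    have h1 : Z.card ≤ ((coin X x1).card + (coin X x2).card) + (B1.card + B2.card) :=
      (Finset.card_union_le _ _).trans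
        (add_le_add (Finset.card_union_le _ _) (Finset.card_union_le _ _))
    have h2 : (Z.card : ℝ) ≤ ((coin X x1).card + (coin X x2).card) + (B1.card + B2.card) := by
      exact_mod_cast h1
    linarith
  have hZ' : 4 * (8 * g) * Z.card < 2 / 10 := by
    have h1 : 200 * g * Z.card ≤ 200 * g * (2 * e + (coin X x1).card + (coin X x2).card) :=
      mul_le_mul_of_nonneg_left hZcard (by positivity)
    linarith
  have key : ∀ A A' : ℝ, 3 / 10 ≤ A → A' ≤ 19 / 10 → A' - A = 2 / 10 →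
      ∃ S : Finset ℂ, S ⊆ X ∧ S.Nonempty ∧
      (∀ y ∈ S, A ≤ dist x1 y ∧ dist x1 y ≤ A' ∧ 0 < (y * conj x1).im) ∧
      ∑ y ∈ S, (dist x1 y ^ 2 - dist x2 y ^ 2) = 0 := by
    intro A A' hA hA' hAA
    obtain ⟨b1, hb1D, b2, hb2D, hAb, hbb, hbA, hiso, hnZ⟩ :=
      exists_block (D := Dset X) (Z := Z) (A := A) (A' := A') (G := 8 * g) (δ := δ) (by positivity)
        (by linarith) (fun d hd hd' => meet h hg0 hg hT hn (by linarith) (by linarith)) hδ0
        (by linarith) (by linarith)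
    have hnot : ∀ d ∈ Dset X, b1 ≤ d → d ≤ b2 →
        d ∉ coin X x1 ∧ d ∉ coin X x2 ∧ d ∉ B1 ∧ d ∉ B2 := by
      intro d hd h1 h2
      have h3 := hnZ d hd h1 h2
      rw [hZdef] at h3
      simp only [Finset.mem_union, not_or] at h3
      exact ⟨h3.1.1, h3.1.2, h3.2.1, h3.2.2⟩
    obtain ⟨S, hS, hSne, hSb, hSsum⟩ := block_sum h hT6 hδ6 hx1 hx2 h12 (b1 := b1) (b2 := b2)
      (by linarith) (by linarith) hbb hb1D hiso
      (fun d hd h1 h2 => by
        by_contra hcon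
        push Not at hcon
        exact (hnot d hd h1 h2).2.2.1 (Finset.mem_filter.2 ⟨hd, hcon⟩))
      (fun d hd h1 h2 => by
        by_contra hcon
        push Not at hcon
        exact (hnot d hd h1 h2).2.2.2 (Finset.mem_filter.2 ⟨hd, hcon⟩))
      (fun d hd h1 h2 => (hnot d hd h1 h2).1)
      (fun d hd h1 h2 => (hnot d hd h1 h2).2.1)
    refine ⟨S, hS, hSne, ?_, hSsum⟩
    intro y hy
    obtain ⟨h1, h2, h3⟩ := hSb y hy
    exact ⟨by linarith, by linarith, h3⟩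
  obtain ⟨S1, hS1, hS1ne, hS1b, hS1s⟩ := key (6 / 10) (8 / 10) (by norm_num) (by norm_num)
    (by norm_num)
  obtain ⟨S2, hS2, hS2ne, hS2b, hS2s⟩ := key (12 / 10) (14 / 10) (by norm_num) (by norm_num)
    (by norm_num)
  obtain ⟨α, β, h1, h2, h3, h4, h5⟩ := vec_of_sum hT6 hδ6 (h.ann x1 hx1) h12 hS1ne
    (fun y hy => (frame_bounds1 hT6 (h.ann x1 hx1) (h.ann y (hS1 hy)) (hS1b y hy).1
      (hS1b y hy).2.1 (hS1b y hy).2.2).1)
    (fun y hy => (frame_bounds1 hT6 (h.ann x1 hx1) (h.ann y (hS1 hy)) (hS1b y hy).1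
      (hS1b y hy).2.1 (hS1b y hy).2.2).2) hS1s
  obtain ⟨α', β', h1', h2', h3', h4', h5'⟩ := vec_of_sum hT6 hδ6 (h.ann x1 hx1) h12 hS2ne
    (fun y hy => (frame_bounds2 hT6 (h.ann x1 hx1) (h.ann y (hS2 hy)) (hS2b y hy).1
      (hS2b y hy).2.1 (hS2b y hy).2.2).1)
    (fun y hy => (frame_bounds2 hT6 (h.ann x1 hx1) (h.ann y (hS2 hy)) (hS2b y hy).1
      (hS2b y hy).2.1 (hS2b y hy).2.2).2) hS2s
  set n := ((x1 - x2) * conj x1).re with hndef
  set t := ((x1 - x2) * conj x1).im with htdef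
  have h6 : (α' * β - α * β') * n = 0 := by
    linear_combination β * h1' - β' * h1
  have h7 : 0 < α' * β - α * β' := by
    have h8 : 718 / 1000 * (569 / 1000) ≤ α' * β := by
      apply mul_le_mul <;> linarith
    have h9 : α * β' ≤ 322 / 1000 * (1002 / 1000) := by
      apply mul_le_mul <;> linarith
    linarith
  have hn0 : n = 0 := by
    rcases mul_eq_zero.1 h6 with h8 | h8
    · exact absurd h8 h7.ne'
    · exact h8
  have ht0 : t = 0 := by
    rw [hn0, mul_zero] at h1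
    rcases mul_eq_zero.1 h1.symm with h8 | h8
    · linarith
    · exact h8
  have hz : (x1 - x2) * conj x1 = 0 := Complex.ext hn0 ht0
  rcases mul_eq_zero.1 hz with h8 | h8
  · exact hne (sub_eq_zero.1 h8)
  · have h9 : x1 = 0 := (map_eq_zero _).1 h8
    have h10 := abs_le.1 (h.ann x1 hx1)
    rw [h9, norm_zero] at h10
    linarith [h10.1]

end Pool.Agent.Vps
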