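import Pool.Agent.Lib.Vps.Mono

/-!
# Distances not seen in an arc are seen at most once
-/

open Finset
open scoped ComplexConjugate

namespace Pool.Agent.Vps

/-- The points of `Y` with argument within `1/20` of `c`. -/
noncomputable def arc (Y : Finset ℂ) (c : ℝ) : Finset ℂ :=
  Y.filter fun y => |Complex.arg y - c| ≤ 1 / 20

/-- The argument of a quotient. -/
theorem sd_arg_div {x y : ℂ} (hx : x ≠ 0) (hy : y ≠ 0)
    (h1 : -Real.pi < Complex.arg y - Complex.arg x)
    (h2 : Complex.arg y - Complex.arg x ≤ Real.pi) :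
    Complex.arg (y / x) = Complex.arg y - Complex.arg x := by
  have h := Complex.arg_div_coe_angle hy hx
  rw [← Complex.arg_coe_angle_toReal_eq_arg (y / x), h, ← Real.Angle.coe_sub,
    Real.Angle.toReal_coe_eq_self_iff]
  exact ⟨h1, h2⟩

theorem sd_ne_zero {x : ℂ} (h : |‖x‖ - 1| ≤ 1 / 1000) : x ≠ 0 := by
  rintro rfl
  rw [norm_zero] at h
  norm_num [abs_le] at h

theorem sd_norm {x : ℂ} (h : |‖x‖ - 1| ≤ 1 / 1000) :
    999 / 1000 ≤ ‖x‖ ∧ ‖x‖ ≤ 1001 / 1000 := by
  rw [abs_le] at h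
  constructor <;> linarith [h.1, h.2]

/-- The points of the arc are increasing in distance from `x` when moving away from `x`.
PROOF: `arg (y / x) = arg y - arg x` (it is in `(-π, π]`), which is in `[0.4, 2.6]` or
`[-2.6, -0.4]`; `mono_ccw` or `mono_cw`. -/
theorem arc_mono {X Y : Finset ℂ} (hYX : Y ⊆ X) (hann : ∀ x ∈ X, |‖x‖ - 1| ≤ 1 / 1000)
    (hs : Slope Y) {x : ℂ} (hx : x ∈ X) {c : ℝ} (h1 : 3 / 5 ≤ c - Complex.arg x)
    (h2 : c - Complex.arg x ≤ 11 / 5) {y y' : ℂ} (hy : y ∈ arc Y c) (hy' : y' ∈ arc Y c)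
    (hlt : Complex.arg y < Complex.arg y') : dist x y < dist x y' := by
  obtain ⟨hyY, hyc⟩ := Finset.mem_filter.1 hy
  obtain ⟨hyY', hyc'⟩ := Finset.mem_filter.1 hy'
  rw [abs_le] at hyc hyc'
  have hpi := Real.pi_gt_d2
  have e1 : Complex.arg (y / x) = Complex.arg y - Complex.arg x :=
    sd_arg_div (sd_ne_zero (hann x hx)) (sd_ne_zero (hann y (hYX hyY)))
      (by linarith [hyc.1]) (by linarith [hyc.2])
  have e2 : Complex.arg (y' / x) = Complex.arg y' - Complex.arg x :=
    sd_arg_div (sd_ne_zero (hann x hx)) (sd_ne_zero (hann y' (hYX hyY')))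
      (by linarith [hyc'.1]) (by linarith [hyc'.2])
  apply mono_ccw (hann x hx) (hann y (hYX hyY)) (hann y' (hYX hyY')) (hs y hyY y' hyY')
  · rw [e1]; linarith [hyc.1]
  · rw [e1, e2]; linarith
  · rw [e2]; linarith [hyc'.2]

theorem arc_anti {X Y : Finset ℂ} (hYX : Y ⊆ X) (hann : ∀ x ∈ X, |‖x‖ - 1| ≤ 1 / 1000)
    (hs : Slope Y) {x : ℂ} (hx : x ∈ X) {c : ℝ} (h1 : 3 / 5 ≤ Complex.arg x - c)
    (h2 : Complex.arg x - c ≤ 11 / 5) {y y' : ℂ} (hy : y ∈ arc Y c) (hy' : y' ∈ arc Y c)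
    (hlt : Complex.arg y < Complex.arg y') : dist x y' < dist x y := by
  obtain ⟨hyY, hyc⟩ := Finset.mem_filter.1 hy
  obtain ⟨hyY', hyc'⟩ := Finset.mem_filter.1 hy'
  rw [abs_le] at hyc hyc'
  have hpi := Real.pi_gt_d2
  have e1 : Complex.arg (y / x) = Complex.arg y - Complex.arg x :=
    sd_arg_div (sd_ne_zero (hann x hx)) (sd_ne_zero (hann y (hYX hyY)))
      (by linarith [hyc.1]) (by linarith [hyc.2])
  have e2 : Complex.arg (y' / x) = Complex.arg y' - Complex.arg x :=
    sd_arg_div (sd_ne_zero (hann x hx)) (sd_ne_zero (hann y' (hYX hyY')))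
      (by linarith [hyc'.1]) (by linarith [hyc'.2])
  apply mono_cw (hann x hx) (hann y' (hYX hyY')) (hann y (hYX hyY)) (hs y' hyY' y hyY)
  · rw [e2]; linarith [hyc'.2]
  · rw [e1, e2]; linarith
  · rw [e1]; linarith [hyc.1]

/-- Law of cosines with the argument of the quotient. -/
theorem sd_dist_sq {x y : ℂ} (hx : x ≠ 0) :
    dist x y ^ 2 = (‖x‖ - ‖y‖) ^ 2 + 2 * (‖x‖ * ‖y‖) * (1 - Real.cos (Complex.arg (y / x))) := by
  have hn : ‖x‖ ≠ 0 := norm_ne_zero_iff.2 hx
  have h1 : (y * conj x).re = ‖x‖ * ‖y‖ * Real.cos (Complex.arg (y / x)) := by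
    have h2 : y * conj x = (y / x) * ((‖x‖ ^ 2 : ℝ) : ℂ) := by
      have h3 : ((‖x‖ ^ 2 : ℝ) : ℂ) = x * conj x := by
        rw [Complex.mul_conj, Complex.normSq_eq_norm_sq]
      rw [h3]
      field_simp
    rw [h2, Complex.re_mul_ofReal, ← Complex.norm_mul_cos_arg (y / x), norm_div]
    field_simp
  rw [dist_sq_eq, h1]
  ring

/-- Lower and upper bound for the distance in terms of the cosine. -/
theorem sd_lower {x y : ℂ} (hx : |‖x‖ - 1| ≤ 1 / 1000) (hy : |‖y‖ - 1| ≤ 1 / 1000) {C : ℝ}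
    (hC : Real.cos (Complex.arg (y / x)) ≤ C) (hC1 : C ≤ 1) :
    199 / 100 * (1 - C) ≤ dist x y ^ 2 := by
  obtain ⟨a1, a2⟩ := sd_norm hx
  obtain ⟨b1, b2⟩ := sd_norm hy
  rw [sd_dist_sq (sd_ne_zero hx)]
  have h1 : 998 / 1000 ≤ ‖x‖ * ‖y‖ := by nlinarith
  have h2 : 0 ≤ (‖x‖ - ‖y‖) ^ 2 := sq_nonneg _
  nlinarith [mul_le_mul h1 (sub_le_sub_left hC 1) (by linarith) (by linarith)]

theorem sd_upper {x y : ℂ} (hx : |‖x‖ - 1| ≤ 1 / 1000) (hy : |‖y‖ - 1| ≤ 1 / 1000) {C : ℝ}
    (hC : C ≤ Real.cos (Complex.arg (y / x))) :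
    dist x y ^ 2 ≤ 1 / 1000 + 201 / 100 * (1 - C) := by
  obtain ⟨a1, a2⟩ := sd_norm hx
  obtain ⟨b1, b2⟩ := sd_norm hy
  rw [sd_dist_sq (sd_ne_zero hx)]
  have h1 : ‖x‖ * ‖y‖ ≤ 1005 / 1000 := by nlinarith
  have h2 : (‖x‖ - ‖y‖) ^ 2 ≤ 1 / 1000 := by nlinarith
  have h3 : 0 ≤ 1 - Real.cos (Complex.arg (y / x)) := by
    linarith [Real.cos_le_one (Complex.arg (y / x))]
  have h4 : 0 ≤ 1 - C := by linarith
  nlinarith [mul_le_mul h1 (sub_le_sub_left hC 1) h3 (by norm_num)]

theorem sd_cos1 : Real.cos (11 / 20) ≤ 86 / 100 := by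
  have h := Real.cos_bound (x := 11 / 20) (by norm_num [abs_le])
  rw [abs_le] at h
  have h2 := h.2
  norm_num [abs_of_pos] at h2
  linarith

theorem sd_cos2 : 92 / 100 ≤ Real.cos (2 / 5) := by
  have h := Real.one_sub_sq_div_two_le_cos (x := 2 / 5)
  norm_num at h
  linarith

theorem sd_cos3 : -(64 / 100) ≤ Real.cos (9 / 4) := by
  have h1 : Real.cos (9 / 4) = -Real.cos (Real.pi - 9 / 4) := by
    rw [Real.cos_pi_sub]; ring
  have h2 : Real.cos (Real.pi - 9 / 4) ≤ Real.cos (89 / 100) := by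
    apply Real.cos_le_cos_of_nonneg_of_le_pi
    · norm_num
    · linarith [Real.pi_pos]
    · linarith [Real.pi_gt_d2]
  have h := Real.cos_bound (x := 89 / 100) (by norm_num [abs_le])
  rw [abs_le] at h
  have h3 := h.2
  norm_num [abs_of_pos] at h3
  linarith

theorem sd_cos4 : Real.cos (13 / 5) ≤ -(84 / 100) := by
  have h1 : Real.cos (13 / 5) = -Real.cos (Real.pi - 13 / 5) := by
    rw [Real.cos_pi_sub]; ring
  have h := Real.one_sub_sq_div_two_le_cos (x := Real.pi - 13 / 5)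
  have h2 : (Real.pi - 13 / 5) ^ 2 ≤ 32 / 100 := by
    nlinarith [Real.pi_gt_d2, Real.pi_lt_d2]
  linarith

/-- Two points of `Y` with the same direction from the origin are equal. -/
theorem sd_eq_of_arg {Y : Finset ℂ} (hs : Slope Y) {x z z' : ℂ} (hx : x ≠ 0) (hz : z ∈ Y)
    (hz' : z' ∈ Y) (hz0 : z ≠ 0) (hz0' : z' ≠ 0)
    (h : Complex.arg (z / x) = Complex.arg (z' / x)) : z = z' := by
  have h1 : Complex.arg (z' / z) = 0 := by
    have h2 : z' / z = (z' / x) / (z / x) := by field_simp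
    rw [h2, sd_arg_div (div_ne_zero hz0 hx) (div_ne_zero hz0' hx) (by rw [h]; simp [Real.pi_pos])
      (by rw [h]; simp [Real.pi_pos.le]), h, sub_self]
  have h3 := hs z hz z' hz' (by rw [h1]; norm_num)
  rw [h1] at h3
  have h4 : ‖z‖ = ‖z'‖ := by
    have h5 : |‖z‖ - ‖z'‖| ≤ 0 := by simpa using h3
    have h6 := abs_nonpos_iff.1 h5
    linarith
  have h7 : z / x = z' / x := by
    apply Complex.ext_norm_arg _ h
    rw [norm_div, norm_div, h4]
  field_simp at h7
  exact h7

/-- `|arg (z / x)|` is in `[0.4, 2.6]` when the distance is intermediate. -/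
theorem sd_angle_range {x z y1 y2 : ℂ} (hx : |‖x‖ - 1| ≤ 1 / 1000) (hz : |‖z‖ - 1| ≤ 1 / 1000)
    (hy1 : |‖y1‖ - 1| ≤ 1 / 1000) (hy2 : |‖y2‖ - 1| ≤ 1 / 1000)
    (h1 : 11 / 20 ≤ |Complex.arg (y1 / x)|) (h2 : |Complex.arg (y2 / x)| ≤ 9 / 4)
    (hd1 : dist x y1 < dist x z) (hd2 : dist x z < dist x y2) :
    2 / 5 ≤ |Complex.arg (z / x)| ∧ |Complex.arg (z / x)| ≤ 13 / 5 := by
  have hd1' : dist x y1 ^ 2 < dist x z ^ 2 := by
    have := dist_nonneg (x := x) (y := y1)
    nlinarith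
  have hd2' : dist x z ^ 2 < dist x y2 ^ 2 := by
    have := dist_nonneg (x := x) (y := z)
    nlinarith
  constructor
  · by_contra hcon
    push Not at hcon
    have c1 : Real.cos (Complex.arg (y1 / x)) ≤ 86 / 100 := by
      rw [← Real.cos_abs]
      refine (Real.cos_le_cos_of_nonneg_of_le_pi (by norm_num) (Complex.abs_arg_le_pi _) h1).trans
        sd_cos1
    have c2 : 92 / 100 ≤ Real.cos (Complex.arg (z / x)) := by
      rw [← Real.cos_abs (Complex.arg (z / x))]
      refine sd_cos2.trans (Real.cos_le_cos_of_nonneg_of_le_pi (abs_nonneg _) ?_ hcon.le)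
      linarith [Real.pi_gt_d2]
    have l1 := sd_lower hx hy1 c1 (by norm_num)
    have l2 := sd_upper hx hz c2
    linarith
  · by_contra hcon
    push Not at hcon
    have c1 : -(64 / 100) ≤ Real.cos (Complex.arg (y2 / x)) := by
      rw [← Real.cos_abs (Complex.arg (y2 / x))]
      refine sd_cos3.trans (Real.cos_le_cos_of_nonneg_of_le_pi (abs_nonneg _) ?_ h2)
      linarith [Real.pi_gt_d2]
    have c2 : Real.cos (Complex.arg (z / x)) ≤ -(84 / 100) := by
      rw [← Real.cos_abs]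
      refine (Real.cos_le_cos_of_nonneg_of_le_pi (by norm_num) (Complex.abs_arg_le_pi _)
        hcon.le).trans sd_cos4
    have l1 := sd_upper hx hy2 c1
    have l2 := sd_lower hx hz c2 (by norm_num)
    linarith

/-- PROOF. `arg (y1 / x) = arg y1 - arg x` has absolute value in `[0.55, 2.25]`, same for `y2`. For
`z ∈ Y` with `dist x z = d`: `d^2` is between `dist x y1 ^ 2 ≥ 2 - 2 cos 0.55 - 0.01 ≥ 0.28` and
`dist x y2 ^ 2 ≤ 2 - 2 cos 2.25 + 0.01 ≤ 3.27`, hence `|arg (z / x)| ∈ [0.4, 2.6]` (`2 - 2 cos 0.4 < 0.16`,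
`2 - 2 cos 2.6 > 3.7`). Two different `z, z' ∈ Y` at distance `d` on the same side
contradict `mono_ccw` / `mono_cw` (equal arguments `arg (z / x)` give `arg (z' / z) = 0`, so
`‖z‖ = ‖z'‖` by `Slope` and `z = z'`). A `z` at distance `d` on the side of the arc
has, by `mono_ccw` / `mono_cw`, `arg (z / x)` strictly between `arg (y1 / x)` and
`arg (y2 / x)`, so `arg z = arg x + arg (z / x)` is strictly between `arg y1` and `arg y2` and
`z ∈ arc Y c`, contradiction with `hno`. So there is at most one `z` (on the other side). -/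
theorem sides {X Y : Finset ℂ} (hYX : Y ⊆ X) (hann : ∀ x ∈ X, |‖x‖ - 1| ≤ 1 / 1000)
    (hs : Slope Y) {x : ℂ} (hx : x ∈ X) {c : ℝ} (h1 : 3 / 5 ≤ |c - Complex.arg x|)
    (h2 : |c - Complex.arg x| ≤ 11 / 5) {y1 y2 : ℂ} (hy1 : y1 ∈ arc Y c) (hy2 : y2 ∈ arc Y c)
    {d : ℝ} (hd1 : dist x y1 < d) (hd2 : d < dist x y2) (hno : ∀ z ∈ arc Y c, dist x z ≠ d) :
    (Y.filter fun z => dist x z = d).card ≤ 1 := by
  obtain ⟨hyY1, hyc1⟩ := Finset.mem_filter.1 hy1
  obtain ⟨hyY2, hyc2⟩ := Finset.mem_filter.1 hy2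
  have hx0 := sd_ne_zero (hann x hx)
  have hy10 := sd_ne_zero (hann y1 (hYX hyY1))
  have hy20 := sd_ne_zero (hann y2 (hYX hyY2))
  rw [abs_le] at hyc1 hyc2
  have hpi := Real.pi_gt_d2
  have h2' := abs_le.1 h2
  have e1 : Complex.arg (y1 / x) = Complex.arg y1 - Complex.arg x :=
    sd_arg_div hx0 hy10 (by linarith [hyc1.1, h2'.1]) (by linarith [hyc1.2, h2'.2])
  have e2 : Complex.arg (y2 / x) = Complex.arg y2 - Complex.arg x :=
    sd_arg_div hx0 hy20 (by linarith [hyc2.1, h2'.1]) (by linarith [hyc2.2, h2'.2])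
  have a1 : 11 / 20 ≤ |Complex.arg (y1 / x)| := by
    rw [e1]
    rcases le_abs.1 h1 with h | h
    · exact le_abs.2 (Or.inl (by linarith [hyc1.1]))
    · exact le_abs.2 (Or.inr (by linarith [hyc1.2]))
  have a2 : |Complex.arg (y2 / x)| ≤ 9 / 4 := by
    rw [e2, abs_le]
    constructor <;> linarith [hyc2.1, hyc2.2, h2'.1, h2'.2]
  -- the range of the argument
  have hrange : ∀ z ∈ Y, dist x z = d →
      2 / 5 ≤ |Complex.arg (z / x)| ∧ |Complex.arg (z / x)| ≤ 13 / 5 := by
    intro z hz hzd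
    exact sd_angle_range (hann x hx) (hann z (hYX hz)) (hann y1 (hYX hyY1)) (hann y2 (hYX hyY2)) a1 a2
      (by rw [hzd]; exact hd1) (by rw [hzd]; exact hd2)
  -- general uniqueness of each side
  have huniq_pos : ∀ z ∈ Y, ∀ z' ∈ Y, dist x z = dist x z' → 2 / 5 ≤ Complex.arg (z / x) →
      Complex.arg (z / x) ≤ 13 / 5 → 2 / 5 ≤ Complex.arg (z' / x) →
      Complex.arg (z' / x) ≤ 13 / 5 → z = z' := by
    intro z hz z' hz' hd p1 p2 p3 p4
    rcases lt_trichotomy (Complex.arg (z / x)) (Complex.arg (z' / x)) with h | h | h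
    · exact absurd hd (mono_ccw (hann x hx) (hann z (hYX hz)) (hann z' (hYX hz')) (hs z hz z' hz')
        p1 h p4).ne
    · exact sd_eq_of_arg hs hx0 hz hz' (sd_ne_zero (hann z (hYX hz)))
        (sd_ne_zero (hann z' (hYX hz'))) h
    · exact absurd hd (mono_ccw (hann x hx) (hann z' (hYX hz')) (hann z (hYX hz)) (hs z' hz' z hz)
        p3 h p2).ne'
  have huniq_neg : ∀ z ∈ Y, ∀ z' ∈ Y, dist x z = dist x z' → Complex.arg (z / x) ≤ -(2 / 5) →
      -(13 / 5) ≤ Complex.arg (z / x) → Complex.arg (z' / x) ≤ -(2 / 5) →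
      -(13 / 5) ≤ Complex.arg (z' / x) → z = z' := by
    intro z hz z' hz' hd p1 p2 p3 p4
    rcases lt_trichotomy (Complex.arg (z / x)) (Complex.arg (z' / x)) with h | h | h
    · exact absurd hd (mono_cw (hann x hx) (hann z' (hYX hz')) (hann z (hYX hz)) (hs z' hz' z hz)
        p3 h p2).ne'
    · exact sd_eq_of_arg hs hx0 hz hz' (sd_ne_zero (hann z (hYX hz)))
        (sd_ne_zero (hann z' (hYX hz'))) h
    · exact absurd hd (mono_cw (hann x hx) (hann z (hYX hz)) (hann z' (hYX hz')) (hs z hz z' hz')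
        p1 h p4).ne
  have hargz : ∀ z ∈ Y, -Real.pi < Complex.arg x + Complex.arg (z / x) →
      Complex.arg x + Complex.arg (z / x) ≤ Real.pi →
      Complex.arg z = Complex.arg x + Complex.arg (z / x) := by
    intro z hz q1 q2
    have hz0 := sd_ne_zero (hann z (hYX hz))
    have h3 : z = x * (z / x) := by field_simp
    conv_lhs => rw [h3]
    exact Complex.arg_mul hx0 (div_ne_zero hz0 hx0) ⟨q1, q2⟩
  rw [Finset.card_le_one]
  intro z hz z' hz'
  obtain ⟨hzY, hzd⟩ := Finset.mem_filter.1 hz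
  obtain ⟨hzY', hzd'⟩ := Finset.mem_filter.1 hz'
  have r1 := hrange z hzY hzd
  have r2 := hrange z' hzY' hzd'
  rcases le_abs.1 h1 with hside | hside
  · -- the arc is on the positive side
    have key : ∀ w ∈ Y, dist x w = d → Complex.arg (w / x) ≤ -(2 / 5) := by
      intro w hw hwd
      have r := hrange w hw hwd
      rcases le_abs.1 r.1 with hp | hp
      · exfalso
        have hp' : Complex.arg (w / x) ≤ 13 / 5 := (le_abs_self _).trans r.2
        have b1 : Complex.arg (y1 / x) < Complex.arg (w / x) := by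
          by_contra hcon
          push Not at hcon
          rcases hcon.lt_or_eq with hlt | heq
          · have := mono_ccw (hann x hx) (hann w (hYX hw)) (hann y1 (hYX hyY1))
              (hs w hw y1 hyY1) hp hlt (by rw [e1]; linarith [hyc1.2, h2'.2])
            linarith
          · have := sd_eq_of_arg hs hx0 hw hyY1 (sd_ne_zero (hann w (hYX hw))) hy10 heq
            rw [this] at hwd
            linarith
        have b2 : Complex.arg (w / x) < Complex.arg (y2 / x) := by
          by_contra hcon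
          push Not at hcon
          rcases hcon.lt_or_eq with hlt | heq
          · have := mono_ccw (hann x hx) (hann y2 (hYX hyY2)) (hann w (hYX hw))
              (hs y2 hyY2 w hw) (by rw [e2]; linarith [hyc2.1]) hlt hp'
            linarith
          · have := sd_eq_of_arg hs hx0 hyY2 hw hy20 (sd_ne_zero (hann w (hYX hw))) heq
            rw [← this] at hwd
            linarith
        rw [e1] at b1
        rw [e2] at b2
        have hw1 := hargz w hw (by linarith [Complex.neg_pi_lt_arg y1])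
          (by linarith [Complex.arg_le_pi y2])
        refine hno w (Finset.mem_filter.2 ⟨hw, ?_⟩) hwd
        rw [abs_le, hw1]
        constructor <;> linarith [hyc1.1, hyc2.2]
      · linarith
    refine huniq_neg z hzY z' hzY' (hzd.trans hzd'.symm) (key z hzY hzd) ?_ (key z' hzY' hzd') ?_
    · exact (abs_le.1 r1.2).1
    · exact (abs_le.1 r2.2).1
  · -- the arc is on the negative side
    have key : ∀ w ∈ Y, dist x w = d → 2 / 5 ≤ Complex.arg (w / x) := by
      intro w hw hwd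
      have r := hrange w hw hwd
      rcases le_abs.1 r.1 with hp | hp
      · exact hp
      · exfalso
        have hp' : -(13 / 5) ≤ Complex.arg (w / x) := (abs_le.1 r.2).1
        have hp2 : Complex.arg (w / x) ≤ -(2 / 5) := by linarith
        have b1 : Complex.arg (w / x) < Complex.arg (y1 / x) := by
          by_contra hcon
          push Not at hcon
          rcases hcon.lt_or_eq with hlt | heq
          · have := mono_cw (hann x hx) (hann w (hYX hw)) (hann y1 (hYX hyY1))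
              (hs w hw y1 hyY1) hp2 hlt (by rw [e1]; linarith [hyc1.1, h2'.1])
            linarith
          · have := sd_eq_of_arg hs hx0 hyY1 hw hy10 (sd_ne_zero (hann w (hYX hw))) heq
            rw [← this] at hwd
            linarith
        have b2 : Complex.arg (y2 / x) < Complex.arg (w / x) := by
          by_contra hcon
          push Not at hcon
          rcases hcon.lt_or_eq with hlt | heq
          · have := mono_cw (hann x hx) (hann y2 (hYX hyY2)) (hann w (hYX hw))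
              (hs y2 hyY2 w hw) (by rw [e2]; linarith [hyc2.2]) hlt hp'
            linarith
          · have := sd_eq_of_arg hs hx0 hw hyY2 (sd_ne_zero (hann w (hYX hw))) hy20 heq
            rw [this] at hwd
            linarith
        rw [e1] at b1
        rw [e2] at b2
        have hw1 := hargz w hw (by linarith [Complex.neg_pi_lt_arg y2])
          (by linarith [Complex.arg_le_pi y1])
        refine hno w (Finset.mem_filter.2 ⟨hw, ?_⟩) hwd
        rw [abs_le, hw1]
        constructor <;> linarith [hyc1.2, hyc2.1]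
    refine huniq_pos z hzY z' hzY' (hzd.trans hzd'.symm) (key z hzY hzd) ?_ (key z' hzY' hzd') ?_
    · exact (le_abs_self _).trans r1.2
    · exact (le_abs_self _).trans r2.2

end Pool.Agent.Vps
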