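import Pool.Agent.Lib.Vps.Rank
import Pool.Agent.Lib.Vps.Sides

/-!
# Most pairs of two arcs can be shifted
-/

open Finset
open scoped ComplexConjugate

namespace Pool.Agent.Vps

/-- PROOF. For fixed `i < M`, `rank_inc` for `x = p i` and the sequence `q`: at most `B` of the `j` are
bad, `B = e + card (X \ Y)`. For fixed `j < M'`, `rank_dec` for `x = q (j + 1)` and the
sequence `p`: at most `B` of the `i` are bad. If `(i, j)` is bad for neither,
`R (p i) (q (j + 1)) = R (p i) (q j) + 1` and `R (q (j + 1)) (p i) = R (q (j + 1)) (p (i + 1)) + 1`, so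
`R (p i) (q j) = R (p (i + 1)) (q (j + 1))` and the distances are equal
(`R_comm`, `dist_eq_of_R_eq`, `dist_mem_Dset`). -/
theorem pairs {X Y : Finset ℂ} {e : ℝ} (h : Sys X e) (hYX : Y ⊆ X) {p q : ℕ → ℂ} {m m' : ℕ}
    (hp : ∀ i < m, p i ∈ Y) (hq : ∀ j < m', q j ∈ Y) (hne : ∀ i < m, ∀ j < m', p i ≠ q j)
    (hinc : ∀ i < m, ∀ j j', j < j' → j' < m' → dist (p i) (q j) < dist (p i) (q j'))
    (hdec : ∀ j < m', ∀ i i', i < i' → i' < m → dist (q j) (p i') < dist (q j) (p i))
    (hs1 : ∀ i < m, ∀ j, j + 1 < m' → ∀ d, dist (p i) (q j) < d → d < dist (p i) (q (j + 1)) →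
      (Y.filter fun z => dist (p i) z = d).card ≤ 1)
    (hs2 : ∀ j < m', ∀ i, i + 1 < m → ∀ d, dist (q j) (p (i + 1)) < d → d < dist (q j) (p i) →
      (Y.filter fun z => dist (q j) z = d).card ≤ 1)
    {M M' : ℕ} (hM : M < m) (hM' : M' < m') :
    (((range M ×ˢ range M').filter fun t =>
      dist (p t.1) (q t.2) ≠ dist (p (t.1 + 1)) (q (t.2 + 1))).card : ℝ) ≤
      ((M : ℝ) + M') * (e + ((X \ Y).card : ℝ)) := by
  classical
  set B : ℝ := e + ((X \ Y).card : ℝ) with hB
  have hJ : ∀ i < M, (((range (m' - 1)).filter fun j =>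
      R X (p i) (q (j + 1)) ≠ R X (p i) (q j) + 1).card : ℝ) ≤ B := by
    intro i hi
    have him : i < m := lt_trans hi hM
    exact rank_inc h hYX (hYX (hp i him)) hq (fun j hj => Ne.symm (hne i him j hj))
      (fun j j' hjj' hj' => hinc i him j j' hjj' hj') (fun j hj d h1 h2 => hs1 i him j hj d h1 h2)
  have hK : ∀ j < M', (((range (m - 1)).filter fun i =>
      R X (q (j + 1)) (p i) ≠ R X (q (j + 1)) (p (i + 1)) + 1).card : ℝ) ≤ B := by
    intro j hj
    have hjm : j + 1 < m' := by omega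
    exact rank_dec h hYX (hYX (hq (j + 1) hjm)) hp (fun i hi => hne i hi (j + 1) hjm)
      (fun i i' hii' hi' => hdec (j + 1) hjm i i' hii' hi')
      (fun i hi d h1 h2 => hs2 (j + 1) hjm i hi d h1 h2)
  set A1 := (range M ×ˢ range M').filter fun t =>
    R X (p t.1) (q (t.2 + 1)) ≠ R X (p t.1) (q t.2) + 1 with hA1
  set A2 := (range M ×ˢ range M').filter fun t =>
    R X (q (t.2 + 1)) (p t.1) ≠ R X (q (t.2 + 1)) (p (t.1 + 1)) + 1 with hA2
  have hsub : ((range M ×ˢ range M').filter fun t =>
      dist (p t.1) (q t.2) ≠ dist (p (t.1 + 1)) (q (t.2 + 1))) ⊆ A1 ∪ A2 := by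
    rintro ⟨i, j⟩ ht
    rw [Finset.mem_filter, Finset.mem_product, Finset.mem_range, Finset.mem_range] at ht
    obtain ⟨⟨hi, hj⟩, hd⟩ := ht
    simp only at hi hj hd
    rw [Finset.mem_union, hA1, hA2, Finset.mem_filter, Finset.mem_filter, Finset.mem_product,
      Finset.mem_range, Finset.mem_range]
    by_contra hcon
    rw [not_or] at hcon
    have e1 : R X (p i) (q (j + 1)) = R X (p i) (q j) + 1 := by
      by_contra h'; exact hcon.1 ⟨⟨hi, hj⟩, h'⟩
    have e2 : R X (q (j + 1)) (p i) = R X (q (j + 1)) (p (i + 1)) + 1 := by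
      by_contra h'; exact hcon.2 ⟨⟨hi, hj⟩, h'⟩
    apply hd
    have him : i < m := lt_trans hi hM
    have him1 : i + 1 < m := by omega
    have hjm : j < m' := lt_trans hj hM'
    have hjm1 : j + 1 < m' := by omega
    refine dist_eq_of_R_eq (dist_mem_Dset (hYX (hp i him)) (hYX (hq j hjm)) (hne i him j hjm))
      (dist_mem_Dset (hYX (hp _ him1)) (hYX (hq _ hjm1)) (hne _ him1 _ hjm1)) ?_
    rw [R_comm X (q (j + 1)) (p i), R_comm X (q (j + 1)) (p (i + 1))] at e2
    omega
  have hc1 : (A1.card : ℝ) ≤ M * B := by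
    have e1 : A1.card = ∑ i ∈ range M, ((range M').filter fun j =>
        R X (p i) (q (j + 1)) ≠ R X (p i) (q j) + 1).card := by
      rw [hA1, Finset.card_filter, Finset.sum_product]
      refine Finset.sum_congr rfl fun i _ => ?_
      rw [Finset.card_filter]
    rw [e1]
    push_cast
    have : ∀ i ∈ range M, ((((range M').filter fun j =>
        R X (p i) (q (j + 1)) ≠ R X (p i) (q j) + 1).card : ℕ) : ℝ) ≤ B := by
      intro i hi
      refine le_trans ?_ (hJ i (Finset.mem_range.mp hi))
      have : ((range M').filter fun j => R X (p i) (q (j + 1)) ≠ R X (p i) (q j) + 1) ⊆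
          ((range (m' - 1)).filter fun j => R X (p i) (q (j + 1)) ≠ R X (p i) (q j) + 1) := by
        refine Finset.filter_subset_filter _ ?_
        rw [Finset.range_subset_range]; omega
      exact_mod_cast Finset.card_le_card this
    refine (Finset.sum_le_sum this).trans ?_
    rw [Finset.sum_const, Finset.card_range, nsmul_eq_mul]
  have hc2 : (A2.card : ℝ) ≤ M' * B := by
    have e1 : A2.card = ∑ j ∈ range M', ((range M).filter fun i =>
        R X (q (j + 1)) (p i) ≠ R X (q (j + 1)) (p (i + 1)) + 1).card := by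
      rw [hA2, Finset.card_filter, Finset.sum_product_right]
      refine Finset.sum_congr rfl fun i _ => ?_
      rw [Finset.card_filter]
    rw [e1]
    push_cast
    have : ∀ j ∈ range M', ((((range M).filter fun i =>
        R X (q (j + 1)) (p i) ≠ R X (q (j + 1)) (p (i + 1)) + 1).card : ℕ) : ℝ) ≤ B := by
      intro j hj
      refine le_trans ?_ (hK j (Finset.mem_range.mp hj))
      have : ((range M).filter fun i => R X (q (j + 1)) (p i) ≠ R X (q (j + 1)) (p (i + 1)) + 1) ⊆
          ((range (m - 1)).filter fun i =>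
            R X (q (j + 1)) (p i) ≠ R X (q (j + 1)) (p (i + 1)) + 1) := by
        refine Finset.filter_subset_filter _ ?_
        rw [Finset.range_subset_range]; omega
      exact_mod_cast Finset.card_le_card this
    refine (Finset.sum_le_sum this).trans ?_
    rw [Finset.sum_const, Finset.card_range, nsmul_eq_mul]
  have hcard : (((range M ×ˢ range M').filter fun t =>
      dist (p t.1) (q t.2) ≠ dist (p (t.1 + 1)) (q (t.2 + 1))).card : ℝ) ≤
      (A1.card : ℝ) + A2.card := by
    exact_mod_cast (Finset.card_le_card hsub).trans (Finset.card_union_le _ _)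
  calc _ ≤ (A1.card : ℝ) + A2.card := hcard
    _ ≤ M * B + M' * B := add_le_add hc1 hc2
    _ = _ := by ring

/-- `p` enumerates `P` by increasing argument. -/
structure IsEnum (P : Finset ℂ) (p : ℕ → ℂ) : Prop where
  mem : ∀ i < P.card, p i ∈ P
  lt : ∀ i j, i < j → j < P.card → Complex.arg (p i) < Complex.arg (p j)
  surj : ∀ y ∈ P, ∃ i < P.card, p i = y

/-- PROOF: sort the image of `P` under `Complex.arg` (`Finset.orderEmbOfFin`). -/
theorem exists_enum (P : Finset ℂ) (hf : Set.InjOn Complex.arg (P : Set ℂ)) :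
    ∃ p, IsEnum P p := by
  classical
  have hc : (P.image Complex.arg).card = P.card := Finset.card_image_of_injOn hf
  set o := (P.image Complex.arg).orderEmbOfFin hc with ho
  have hex : ∀ i : Fin P.card, ∃ y ∈ P, Complex.arg y = o i := by
    intro i
    have := Finset.orderEmbOfFin_mem (P.image Complex.arg) hc i
    exact Finset.mem_image.mp this
  choose f hf1 hf2 using hex
  refine ⟨fun i => if h : i < P.card then f ⟨i, h⟩ else 0, ?_, ?_, ?_⟩
  · intro i hi
    simp only [dif_pos hi]
    exact hf1 _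
  · intro i j hij hj
    have hi : i < P.card := lt_trans hij hj
    simp only [dif_pos hi, dif_pos hj, hf2]
    exact o.strictMono (by simpa using hij)
  · intro y hy
    have h1 : Complex.arg y ∈ Set.range o := by
      rw [ho, Finset.range_orderEmbOfFin]
      exact Finset.mem_coe.mpr (Finset.mem_image_of_mem _ hy)
    obtain ⟨i, hi⟩ := h1
    refine ⟨i, i.2, ?_⟩
    simp only [dif_pos i.2]
    refine hf (Finset.mem_coe.mpr (hf1 _)) (Finset.mem_coe.mpr hy) ?_
    rw [hf2]
    exact hi

/-- PROOF: `Slope` with `arg (y' / y) = 0`. -/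
theorem arc_injOn {Y : Finset ℂ} (hann : ∀ x ∈ Y, |‖x‖ - 1| ≤ 1 / 1000) (hs : Slope Y) (c : ℝ) :
    Set.InjOn Complex.arg (arc Y c : Set ℂ) := by
  intro y hy y' hy' hyy
  have hyY : y ∈ Y := (Finset.mem_filter.mp (Finset.mem_coe.mp hy)).1
  have hyY' : y' ∈ Y := (Finset.mem_filter.mp (Finset.mem_coe.mp hy')).1
  have hn : 0 < ‖y‖ := by
    have := (abs_le.mp (hann y hyY)).1
    linarith
  have hn' : 0 < ‖y'‖ := by
    have := (abs_le.mp (hann y' hyY')).1
    linarith
  have h0 : y ≠ 0 := norm_pos_iff.mp hn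
  have h0' : y' ≠ 0 := norm_pos_iff.mp hn'
  have h1 := (Complex.arg_eq_arg_iff h0 h0').mp hyy
  have h2 : y' / y = ((‖y'‖ / ‖y‖ : ℝ) : ℂ) := by
    rw [div_eq_iff h0]
    push_cast
    exact h1.symm
  have h3 : Complex.arg (y' / y) = 0 := by
    rw [h2]
    exact Complex.arg_ofReal_of_nonneg (by positivity)
  have h4 := hs y hyY y' hyY' (by rw [h3]; norm_num)
  rw [h3, abs_zero, mul_zero] at h4
  have h5 : ‖y‖ = ‖y'‖ := by
    have := abs_nonpos_iff.mp h4
    linarith
  exact Complex.ext_norm_arg h5 hyy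

/-- PROOF: `pairs` with `m = card (arc Y c)`, `m' = card (arc Y c')`; `hinc` by `arc_mono`, `hdec` by
`arc_anti`, `hs1`, `hs2` by `sides` (a `z` in the arc is `q l` for some `l`; `l ≤ j` or `l ≥ j + 1`, so
by monotonicity `dist x z ≠ d`). For `y ∈ arc Y c`, `c' - arg y ∈ [0.65, 2.15]`. -/
theorem arc_pairs {X Y : Finset ℂ} {e : ℝ} (h : Sys X e) (hYX : Y ⊆ X)
    (hann : ∀ x ∈ X, |‖x‖ - 1| ≤ 1 / 1000) (hs : Slope Y) {c c' : ℝ} (h1 : 7 / 10 ≤ c' - c)
    (h2 : c' - c ≤ 21 / 10) {p q : ℕ → ℂ} (hp : IsEnum (arc Y c) p) (hq : IsEnum (arc Y c') q)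
    {M M' : ℕ} (hM : M < (arc Y c).card) (hM' : M' < (arc Y c').card) :
    (((range M ×ˢ range M').filter fun t =>
      dist (p t.1) (q t.2) ≠ dist (p (t.1 + 1)) (q (t.2 + 1))).card : ℝ) ≤
      ((M : ℝ) + M') * (e + ((X \ Y).card : ℝ)) := by
  have hargp : ∀ i < (arc Y c).card, |Complex.arg (p i) - c| ≤ 1 / 20 := fun i hi =>
    (Finset.mem_filter.mp (hp.mem i hi)).2
  have hargq : ∀ i < (arc Y c').card, |Complex.arg (q i) - c'| ≤ 1 / 20 := fun i hi =>
    (Finset.mem_filter.mp (hq.mem i hi)).2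
  have hpY : ∀ i < (arc Y c).card, p i ∈ Y := fun i hi => (Finset.mem_filter.mp (hp.mem i hi)).1
  have hqY : ∀ i < (arc Y c').card, q i ∈ Y := fun i hi => (Finset.mem_filter.mp (hq.mem i hi)).1
  have hp1 : ∀ i < (arc Y c).card, 3 / 5 ≤ c' - Complex.arg (p i) ∧
      c' - Complex.arg (p i) ≤ 11 / 5 := by
    intro i hi
    have := abs_le.mp (hargp i hi)
    constructor <;> linarith
  have hq1 : ∀ j < (arc Y c').card, 3 / 5 ≤ Complex.arg (q j) - c ∧
      Complex.arg (q j) - c ≤ 11 / 5 := by
    intro j hj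
    have := abs_le.mp (hargq j hj)
    constructor <;> linarith
  have hinc : ∀ i < (arc Y c).card, ∀ j j', j < j' → j' < (arc Y c').card →
      dist (p i) (q j) < dist (p i) (q j') := by
    intro i hi j j' hjj' hj'
    exact arc_mono hYX hann hs (hYX (hpY i hi)) (hp1 i hi).1 (hp1 i hi).2
      (hq.mem j (lt_trans hjj' hj')) (hq.mem j' hj') (hq.lt j j' hjj' hj')
  have hdec : ∀ j < (arc Y c').card, ∀ i i', i < i' → i' < (arc Y c).card →
      dist (q j) (p i') < dist (q j) (p i) := by
    intro j hj i i' hii' hi'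
    exact arc_anti hYX hann hs (hYX (hqY j hj)) (hq1 j hj).1 (hq1 j hj).2
      (hp.mem i (lt_trans hii' hi')) (hp.mem i' hi') (hp.lt i i' hii' hi')
  refine pairs h hYX hpY hqY ?_ hinc hdec ?_ ?_ hM hM'
  · intro i hi j hj hpq
    have h3 := abs_le.mp (hargp i hi)
    have h4 := abs_le.mp (hargq j hj)
    rw [hpq] at h3
    linarith
  · intro i hi j hj d hd1 hd2
    refine sides hYX hann hs (hYX (hpY i hi)) (c := c') ?_ ?_
      (hq.mem j (lt_trans (Nat.lt_succ_self j) hj)) (hq.mem (j + 1) hj) hd1 hd2 ?_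
    · exact (hp1 i hi).1.trans (le_abs_self _)
    · rw [abs_le]
      have := hp1 i hi
      constructor <;> linarith
    · intro z hz hzd
      obtain ⟨l, hl, rfl⟩ := hq.surj z hz
      rcases Nat.lt_or_ge j l with hjl | hjl
      · rcases Nat.lt_or_ge (j + 1) l with h5 | h5
        · have := hinc i hi (j + 1) l h5 hl
          linarith
        · have : l = j + 1 := by omega
          rw [this] at hzd
          linarith
      · rcases Nat.lt_or_ge l j with h5 | h5
        · have := hinc i hi l j h5 (lt_trans (Nat.lt_succ_self j) hj)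
          linarith
        · have : l = j := by omega
          rw [this] at hzd
          linarith
  · intro j hj i hi d hd1 hd2
    refine sides hYX hann hs (hYX (hqY j hj)) (c := c) ?_ ?_
      (hp.mem (i + 1) hi) (hp.mem i (lt_trans (Nat.lt_succ_self i) hi)) hd1 hd2 ?_
    · rw [abs_sub_comm]
      exact (hq1 j hj).1.trans (le_abs_self _)
    · rw [abs_le]
      have := hq1 j hj
      constructor <;> linarith
    · intro z hz hzd
      obtain ⟨l, hl, rfl⟩ := hp.surj z hz
      rcases Nat.lt_or_ge i l with hjl | hjl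
      · rcases Nat.lt_or_ge (i + 1) l with h5 | h5
        · have := hdec j hj (i + 1) l h5 hl
          linarith
        · have : l = i + 1 := by omega
          rw [this] at hzd
          linarith
      · rcases Nat.lt_or_ge l i with h5 | h5
        · have := hdec j hj l i h5 (lt_trans (Nat.lt_succ_self i) hi)
          linarith
        · have : l = i := by omega
          rw [this] at hzd
          linarith

end Pool.Agent.Vps
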