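import Pool.Agent.Lib.Vps.Defs

/-!
# Comparison of distance sums
-/

open Finset
open scoped ComplexConjugate

namespace Pool.Agent.Vps

/-- The multiplicity of the distance `d` at `x`. -/
noncomputable def psiM (X : Finset ℂ) (x : ℂ) (d : ℝ) : Finset ℂ :=
  X.filter fun y => y ≠ x ∧ dist x y = d

theorem psi_sum {X : Finset ℂ} {x : ℂ} (hx : x ∈ X) (ψ : ℝ → ℝ) (h0 : ψ 0 = 0) :
    ∑ y ∈ X, ψ (dist x y) = ∑ d ∈ Dset X, ((psiM X x d).card : ℝ) * ψ d := by
  rw [← Finset.add_sum_erase X (fun y => ψ (dist x y)) hx]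
  simp only [dist_self, h0, zero_add]
  rw [← Finset.sum_fiberwise_of_maps_to (s := X.erase x) (t := Dset X) (g := fun y => dist x y)
    (fun y hy => dist_mem_Dset hx (Finset.mem_of_mem_erase hy) (Finset.ne_of_mem_erase hy).symm)
    (fun y => ψ (dist x y))]
  refine Finset.sum_congr rfl fun d _ => ?_
  have h1 : (X.erase x).filter (fun y => dist x y = d) = psiM X x d := by
    unfold psiM
    ext y
    simp only [Finset.mem_filter, Finset.mem_erase]
    tauto
  rw [h1, ← nsmul_eq_mul, ← Finset.sum_const]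
  refine Finset.sum_congr rfl fun y hy => ?_
  unfold psiM at hy
  rw [(Finset.mem_filter.1 hy).2.2]

theorem psi_card {X : Finset ℂ} {x : ℂ} (hx : x ∈ X) :
    (∑ d ∈ Dset X, ((psiM X x d).card : ℝ)) = (X.card : ℝ) - 1 := by
  have h1 : (X.erase x).card = ∑ d ∈ Dset X, (psiM X x d).card := by
    rw [Finset.card_eq_sum_card_fiberwise (s := X.erase x) (t := Dset X) (f := fun y => dist x y)
      (fun y hy => dist_mem_Dset hx (Finset.mem_of_mem_erase hy) (Finset.ne_of_mem_erase hy).symm)]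
    refine Finset.sum_congr rfl fun d _ => ?_
    congr 1
    unfold psiM
    ext y
    simp only [Finset.mem_filter, Finset.mem_erase]
    tauto
  have h2 : (X.erase x).card + 1 = X.card := Finset.card_erase_add_one hx
  have h3 : ((X.erase x).card : ℝ) + 1 = X.card := by exact_mod_cast h2
  rw [← h3, h1]
  push_cast
  ring

/-- PROOF. Every `y ∈ X`, `y ≠ x`, has `dist x y ∈ Dset X`, and `y = x` contributes `ψ 0 = 0`. So
`∑ y ∈ X, ψ (dist x y) = ∑ d ∈ Dset X, m_x(d) ψ d` with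
`m_x(d) = card {y ∈ X | y ≠ x ∧ dist x y = d} ≤ 2`, hence it is `≤ 2 ∑ ψ d`. For `x'`:
`∑ d, m_x'(d) ψ d = 2 ∑ ψ d - ∑ (2 - m_x'(d)) ψ d ≥ 2 ∑ ψ d - M ∑ (2 - m_x'(d))` and
`∑ (2 - m_x'(d)) = 2 D - (n - 1) ≤ e`. -/
theorem psi {X : Finset ℂ} {e : ℝ} (h : Sys X e) {x x' : ℂ} (hx : x ∈ X) (hx' : x' ∈ X)
    (ψ : ℝ → ℝ) (M : ℝ) (h0 : ψ 0 = 0) (hψ : ∀ d, 0 ≤ d → 0 ≤ ψ d) (hM : ∀ d ∈ Dset X, ψ d ≤ M)
    (hM0 : 0 ≤ M) :
    ∑ y ∈ X, ψ (dist x y) ≤ ∑ y ∈ X, ψ (dist x' y) + e * M := by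
  have hd0 : ∀ d ∈ Dset X, 0 ≤ d := by
    intro d hd
    obtain ⟨a, _, b, _, _, rfl⟩ := mem_Dset.1 hd
    exact dist_nonneg
  rw [psi_sum hx ψ h0, psi_sum hx' ψ h0]
  have hm : ∀ z ∈ X, ∀ d, ((psiM X z d).card : ℝ) ≤ 2 := by
    intro z hz d
    exact_mod_cast h.valid z hz d
  have h1 : ∑ d ∈ Dset X, ((psiM X x d).card : ℝ) * ψ d ≤ ∑ d ∈ Dset X, 2 * ψ d :=
    Finset.sum_le_sum fun d hd => mul_le_mul_of_nonneg_right (hm x hx d) (hψ d (hd0 d hd))
  have h2 : ∑ d ∈ Dset X, 2 * ψ d ≤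
      ∑ d ∈ Dset X, (((psiM X x' d).card : ℝ) * ψ d + M * (2 - ((psiM X x' d).card : ℝ))) := by
    refine Finset.sum_le_sum fun d hd => ?_
    nlinarith [hm x' hx' d, hM d hd]
  have h5 : ∑ d ∈ Dset X, M * (2 - ((psiM X x' d).card : ℝ)) =
      M * (((Dset X).card : ℝ) * 2 - ((X.card : ℝ) - 1)) := by
    rw [← Finset.mul_sum, Finset.sum_sub_distrib, psi_card hx', Finset.sum_const, nsmul_eq_mul]
  rw [Finset.sum_add_distrib, h5] at h2
  have h3 := h.defect
  have h4 : M * (((Dset X).card : ℝ) * 2 - ((X.card : ℝ) - 1)) ≤ e * M := by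
    rw [mul_comm e M]
    exact mul_le_mul_of_nonneg_left (by linarith) hM0
  linarith

/-- PROOF: `psi` with `ψ d = if 0 < d ∧ d ≤ ρ then 1 else 0`; `x` and `x'` themselves are in
their balls. -/
theorem cnt_le {X : Finset ℂ} {e : ℝ} (h : Sys X e) {x x' : ℂ} (hx : x ∈ X) (hx' : x' ∈ X)
    {ρ : ℝ} (hρ : 0 ≤ ρ) :
    ((ball X x ρ).card : ℝ) ≤ ((ball X x' ρ).card : ℝ) + e := by
  have h1 := psi h hx hx' (fun d => if 0 < d ∧ d ≤ ρ then (1 : ℝ) else 0) 1 (by simp)
    (fun d _ => by split_ifs <;> norm_num)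
    (fun d _ => by split_ifs <;> norm_num) zero_le_one
  have hb : ∀ z ∈ X, ((ball X z ρ).card : ℝ) =
      ∑ y ∈ X, (if 0 < dist z y ∧ dist z y ≤ ρ then (1 : ℝ) else 0) + 1 := by
    intro z hz
    have h2 : ball X z ρ = insert z (X.filter fun y => 0 < dist z y ∧ dist z y ≤ ρ) := by
      ext y
      rw [mem_ball, Finset.mem_insert, Finset.mem_filter, dist_comm y z]
      constructor
      · rintro ⟨h3, h4⟩
        by_cases h5 : y = z
        · exact Or.inl h5
        · exact Or.inr ⟨h3, dist_pos.2 (fun h6 => h5 h6.symm), h4⟩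
      · rintro (rfl | ⟨h3, _, h4⟩)
        · exact ⟨hz, by rw [dist_self]; exact hρ⟩
        · exact ⟨h3, h4⟩
    rw [h2, Finset.card_insert_of_notMem (by simp), Finset.sum_ite, Finset.sum_const,
      Finset.sum_const_zero]
    push_cast
    simp
  rw [hb x hx, hb x' hx']
  linarith

/-- The clamp of `t - r2` to `[-w, w]`. -/
noncomputable def cl (r2 w t : ℝ) : ℝ := max (-w) (min w (t - r2))

/-- PROOF: `psi` with `ψ d = cl r2 w (d ^ 2) + w`, `M = 2 w`. -/
theorem window {X : Finset ℂ} {e : ℝ} (h : Sys X e) {x x' : ℂ} (hx : x ∈ X) (hx' : x' ∈ X)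
    {r2 w : ℝ} (hw : 0 ≤ w) (hwr : w ≤ r2) :
    ∑ y ∈ X, (cl r2 w (dist x y ^ 2) - cl r2 w (dist x' y ^ 2)) ≤ 2 * w * e := by
  have h1 := psi h hx hx' (fun d => cl r2 w (d ^ 2) + w) (2 * w) (by
      unfold cl
      have h2 : min w ((0 : ℝ) ^ 2 - r2) = -r2 := by
        rw [min_eq_right (by nlinarith)]; ring
      rw [h2, max_eq_left (by linarith)]
      ring)
    (fun d _ => by
      have := le_max_left (-w) (min w (d ^ 2 - r2))
      unfold cl
      linarith)
    (fun d _ => by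
      have : max (-w) (min w (d ^ 2 - r2)) ≤ w := max_le (by linarith) (min_le_left _ _)
      unfold cl
      linarith) (by linarith)
  rw [Finset.sum_sub_distrib]
  simp only [Finset.sum_add_distrib] at h1
  linarith

/-- PROOF: from `window`. For `y ∈ W` the clamp is linear: the term is
`dist x y ^ 2 - dist x' y ^ 2 ≥ a`. For `y ∈ R` the term is `≥ - b` (the clamp is nondecreasing
and 1-Lipschitz, so the term is `≥ min 0 (dist x y ^ 2 - dist x' y ^ 2)`). For the other `y` it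
is `≥ 0`. -/
theorem window_count {X : Finset ℂ} {e : ℝ} (h : Sys X e) {x x' : ℂ} (hx : x ∈ X) (hx' : x' ∈ X)
    {r2 w a b : ℝ} (hw : 0 ≤ w) (hwr : w ≤ r2) (hb : 0 ≤ b) (W R : Finset ℂ)
    (hW : W ⊆ X) (hR : R ⊆ X) (hWR : Disjoint W R)
    (hWin : ∀ y ∈ W, |dist x y ^ 2 - r2| ≤ w ∧ |dist x' y ^ 2 - r2| ≤ w ∧
      a ≤ dist x y ^ 2 - dist x' y ^ 2)
    (hRin : ∀ y ∈ R, -b ≤ dist x y ^ 2 - dist x' y ^ 2)
    (hrest : ∀ y ∈ X, y ∉ R → (dist x y ^ 2 ≤ r2 - w ∧ dist x' y ^ 2 ≤ r2 - w) ∨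
      (r2 + w ≤ dist x y ^ 2 ∧ r2 + w ≤ dist x' y ^ 2) ∨ dist x' y ^ 2 ≤ dist x y ^ 2) :
    (W.card : ℝ) * a ≤ 2 * w * e + R.card * b := by
  have h0 := window h hx hx' hw hwr
  have hmono : ∀ u v : ℝ, u ≤ v → cl r2 w u ≤ cl r2 w v := by
    intro u v huv
    unfold cl
    exact max_le_max le_rfl (min_le_min le_rfl (by linarith))
  have hlip : ∀ u v : ℝ, u ≤ v → cl r2 w v ≤ cl r2 w u + (v - u) := by
    intro u v huv
    unfold cl
    apply max_le
    · linarith [le_max_left (-w) (min w (u - r2))]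
    · have h1 : min w (v - r2) ≤ min w (u - r2) + (v - u) := by
        rcases min_cases w (u - r2) with ⟨h2, _⟩ | ⟨h2, _⟩
        · rw [h2]; linarith [min_le_left w (v - r2)]
        · rw [h2]; linarith [min_le_right w (v - r2)]
      linarith [le_max_right (-w) (min w (u - r2))]
  set T : ℂ → ℝ := fun y => cl r2 w (dist x y ^ 2) - cl r2 w (dist x' y ^ 2) with hT
  have hTW : ∀ y ∈ W, a ≤ T y := by
    intro y hy
    obtain ⟨h1, h2, h3⟩ := hWin y hy
    rw [abs_le] at h1 h2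
    have e1 : cl r2 w (dist x y ^ 2) = dist x y ^ 2 - r2 := by
      unfold cl
      rw [min_eq_right (by linarith), max_eq_right (by linarith)]
    have e2 : cl r2 w (dist x' y ^ 2) = dist x' y ^ 2 - r2 := by
      unfold cl
      rw [min_eq_right (by linarith), max_eq_right (by linarith)]
    rw [hT]
    dsimp only
    rw [e1, e2]
    linarith
  have hTR : ∀ y ∈ R, -b ≤ T y := by
    intro y hy
    have h1 := hRin y hy
    rw [hT]
    dsimp only
    rcases le_total (dist x' y ^ 2) (dist x y ^ 2) with h2 | h2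
    · linarith [hmono _ _ h2]
    · linarith [hlip _ _ h2]
  have hTO : ∀ y ∈ X, y ∉ R → 0 ≤ T y := by
    intro y hy hyR
    rw [hT]
    dsimp only
    rcases hrest y hy hyR with ⟨h1, h2⟩ | ⟨h1, h2⟩ | h1
    · have e1 : cl r2 w (dist x y ^ 2) = -w := by
        unfold cl
        rw [min_eq_right (by linarith), max_eq_left (by linarith)]
      have e2 : cl r2 w (dist x' y ^ 2) = -w := by
        unfold cl
        rw [min_eq_right (by linarith), max_eq_left (by linarith)]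
      rw [e1, e2]; linarith
    · have e1 : cl r2 w (dist x y ^ 2) = w := by
        unfold cl
        rw [min_eq_left (by linarith), max_eq_right (by linarith)]
      have e2 : cl r2 w (dist x' y ^ 2) = w := by
        unfold cl
        rw [min_eq_left (by linarith), max_eq_right (by linarith)]
      rw [e1, e2]; linarith
    · linarith [hmono _ _ h1]
  have hsub : W ∪ R ⊆ X := Finset.union_subset hW hR
  have h1 : ∑ y ∈ W ∪ R, T y ≤ ∑ y ∈ X, T y := by
    apply Finset.sum_le_sum_of_subset_of_nonneg hsub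
    intro y hy hyWR
    exact hTO y hy fun hyR => hyWR (Finset.mem_union_right _ hyR)
  rw [Finset.sum_union hWR] at h1
  have h2 : (W.card : ℝ) * a ≤ ∑ y ∈ W, T y := by
    rw [← nsmul_eq_mul]
    exact Finset.card_nsmul_le_sum W T a hTW
  have h3 : (R.card : ℝ) * (-b) ≤ ∑ y ∈ R, T y := by
    rw [← nsmul_eq_mul]
    exact Finset.card_nsmul_le_sum R T (-b) hTR
  linarith

end Pool.Agent.Vps
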