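import Pool.Agent.Lib.Vps.Defs

/-!
# Coincidences on the same side
-/

open Finset
open scoped ComplexConjugate

namespace Pool.Agent.Vps

open Classical in
/-- The distances `d` in `[3/10, 19/10]` such that `x` sees two points of `X` at distance `d` on
the same side of the line through `0` and `x`. -/
noncomputable def coin (X : Finset ℂ) (x : ℂ) : Finset ℝ :=
  (Dset X).filter fun d => 3 / 10 ≤ d ∧ d ≤ 19 / 10 ∧ ∃ y ∈ X, ∃ y' ∈ X, y ≠ y' ∧
    dist x y = d ∧ dist x y' = d ∧ (0 < (y * conj x).im ↔ 0 < (y' * conj x).im)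

namespace SameSideAux

theorem diff_small {i i' T : ℝ} (h0 : 26 / 100 ≤ i) (h1 : 26 / 100 ≤ i')
    (h : |i ^ 2 - i' ^ 2| ≤ 4 * T) : |i - i'| ≤ 8 * T := by
  have h2 : |i - i'| * (52 / 100) ≤ |i ^ 2 - i' ^ 2| := by
    have h3 : i ^ 2 - i' ^ 2 = (i - i') * (i + i') := by ring
    rw [h3, abs_mul]
    apply mul_le_mul_of_nonneg_left _ (abs_nonneg _)
    rw [abs_of_nonneg (by linarith)]
    linarith
  have h4 := abs_nonneg (i - i')
  linarith

theorem im_sq_big {r P i : ℝ} (h1 : -(806 / 1000) ≤ r) (h2 : r ≤ 956 / 1000)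
    (h3 : 999 / 1000 ≤ P) (h4 : P = r ^ 2 + i ^ 2) : 68 / 1000 ≤ i ^ 2 := by
  have h5 : r ^ 2 ≤ (956 / 1000) ^ 2 := by
    rw [← sq_abs]
    exact pow_le_pow_left₀ (abs_nonneg _) (abs_le.2 ⟨by linarith, h2⟩) 2
  linarith

theorem abs_im_big {i : ℝ} (h : 68 / 1000 ≤ i ^ 2) (h0 : 0 ≤ i) : 26 / 100 ≤ i := by
  by_contra hcon
  push Not at hcon
  nlinarith

end SameSideAux

open SameSideAux

/-- PROOF. `Re (y conj x) = (‖x‖^2 + ‖y‖^2 - d^2) / 2 ∈ [-0.81, 0.96]` and the same for `y'`, so they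
differ by at most `T`; `Im (y conj x) ^ 2 = ‖x‖^2 ‖y‖^2 - Re (y conj x) ^ 2 ≥ 0.07`, and the values
for `y`, `y'` differ by at most `4.5 T`; the signs are equal, `|Im| ≥ 0.26` for both, so
`|Im (y conj x) - Im (y' conj x)| ≤ 9 T`. `dist y y' * ‖x‖ = ‖(y - y') conj x‖ ≤ 10 T`. -/
theorem coin_dist {T : ℝ} (hT : T ≤ 1 / 10 ^ 4) {x y y' : ℂ} (hx : |‖x‖ ^ 2 - 1| ≤ T)
    (hy : |‖y‖ ^ 2 - 1| ≤ T) (hy' : |‖y'‖ ^ 2 - 1| ≤ T) (h1 : 3 / 10 ≤ dist x y)
    (h2 : dist x y ≤ 19 / 10) (h3 : dist x y' = dist x y)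
    (h4 : 0 < (y * conj x).im ↔ 0 < (y' * conj x).im) : dist y y' ≤ 20 * T := by
  have hT0 : 0 ≤ T := (abs_nonneg _).trans hx
  have e1 := dist_sq_eq x y
  have e2 := norm_sq_frame x y
  have e1' := dist_sq_eq x y'
  have e2' := norm_sq_frame x y'
  rw [h3] at e1'
  have e3 := norm_sq_frame x (y - y')
  have e4 : ((y - y') * conj x).re = (y * conj x).re - (y' * conj x).re := by
    rw [sub_mul, Complex.sub_re]
  have e5 : ((y - y') * conj x).im = (y * conj x).im - (y' * conj x).im := by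
    rw [sub_mul, Complex.sub_im]
  rw [e4, e5, ← Complex.dist_eq] at e3
  have hd1 : (3 / 10) ^ 2 ≤ dist x y ^ 2 := pow_le_pow_left₀ (by norm_num) h1 2
  have hd2 : dist x y ^ 2 ≤ (19 / 10) ^ 2 := pow_le_pow_left₀ dist_nonneg h2 2
  rw [abs_le] at hx hy hy'
  set r := (y * conj x).re with hr
  set r' := (y' * conj x).re with hr'
  set i := (y * conj x).im with hi
  set i' := (y' * conj x).im with hi'
  set a := ‖x‖ ^ 2 with ha
  set b := ‖y‖ ^ 2 with hb
  set c := ‖y'‖ ^ 2 with hc
  have r1 : -(806 / 1000) ≤ r := by linarith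
  have r2 : r ≤ 956 / 1000 := by linarith
  have r1' : -(806 / 1000) ≤ r' := by linarith
  have r2' : r' ≤ 956 / 1000 := by linarith
  have hab : 999 / 1000 ≤ b * a := by
    have h5 : 9999 / 10000 * (9999 / 10000) ≤ b * a :=
      mul_le_mul (by linarith) (by linarith) (by norm_num) (by linarith)
    linarith
  have hac : 999 / 1000 ≤ c * a := by
    have h5 : 9999 / 10000 * (9999 / 10000) ≤ c * a :=
      mul_le_mul (by linarith) (by linarith) (by norm_num) (by linarith)
    linarith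
  have s1 : 68 / 1000 ≤ i ^ 2 := im_sq_big r1 r2 hab e2
  have s1' : 68 / 1000 ≤ i' ^ 2 := im_sq_big r1' r2' hac e2'
  have hrr : |r - r'| ≤ T := by
    rw [abs_le]; constructor <;> linarith
  have hii : |i ^ 2 - i' ^ 2| ≤ 4 * T := by
    have h5 : i ^ 2 - i' ^ 2 = a * (b - c) - (r - r') * (r + r') := by
      linear_combination e2' - e2
    have h6 : |a * (b - c)| ≤ 10001 / 10000 * (2 * T) := by
      rw [abs_mul]
      apply mul_le_mul _ _ (abs_nonneg _) (by norm_num)
      · rw [abs_of_nonneg (by positivity)]; linarith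
      · rw [abs_le]; constructor <;> linarith
    have h7 : |(r - r') * (r + r')| ≤ T * (1912 / 1000) := by
      rw [abs_mul]
      apply mul_le_mul hrr _ (abs_nonneg _) hT0
      rw [abs_le]; constructor <;> linarith
    rw [h5]
    refine (abs_sub _ _).trans ?_
    linarith
  have hi8 : |i - i'| ≤ 8 * T := by
    by_cases hpos : 0 < i
    · have hpos' := h4.1 hpos
      exact diff_small (abs_im_big s1 hpos.le) (abs_im_big s1' hpos'.le) hii
    · have hpos' : ¬ 0 < i' := fun h => hpos (h4.2 h)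
      push Not at hpos hpos'
      have h5 : |(-i) - (-i')| ≤ 8 * T :=
        diff_small (abs_im_big (by rwa [neg_sq]) (by linarith))
          (abs_im_big (by rwa [neg_sq]) (by linarith)) (by rw [neg_sq, neg_sq]; exact hii)
      rwa [neg_sub_neg, abs_sub_comm] at h5
  have hrr2 : (r - r') ^ 2 ≤ T ^ 2 := by
    rw [← sq_abs]; exact pow_le_pow_left₀ (abs_nonneg _) hrr 2
  have hii2 : (i - i') ^ 2 ≤ (8 * T) ^ 2 := by
    rw [← sq_abs]; exact pow_le_pow_left₀ (abs_nonneg _) hi8 2
  have hd : dist y y' ^ 2 ≤ (20 * T) ^ 2 := by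
    have h5 : 99 / 100 ≤ a := by linarith
    have h6 : dist y y' ^ 2 * (99 / 100) ≤ dist y y' ^ 2 * a :=
      mul_le_mul_of_nonneg_left h5 (by positivity)
    have h7 : (8 * T) ^ 2 = 64 * T ^ 2 := by ring
    have h8 : (20 * T) ^ 2 = 400 * T ^ 2 := by ring
    have h9 : 0 ≤ T ^ 2 := sq_nonneg T
    rw [h8]
    linarith
  exact (pow_le_pow_iff_left₀ dist_nonneg (by positivity) (by norm_num)).1 hd

/-- PROOF: subtract the equations `dist x y ^ 2 = dist x y' ^ 2`: `Re ((x - x'') conj (y - y')) = 0`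
for any two of the three points (`dist_sq_sub` or by coordinates), `y ≠ y'`, so the differences
`b - a`, `c - a` are both real multiples of `I * (y - y')`. -/
theorem bisector {X : Finset ℂ} (hcol : NoCol X) {y y' : ℂ} (hne : y ≠ y') :
    (X.filter fun x => dist x y = dist x y').card ≤ 2 := by
  by_contra hcon
  push Not at hcon
  obtain ⟨a, b, c, ha, hb, hc, hab, hac, hbc⟩ := Finset.two_lt_card_iff.1 hcon
  rw [Finset.mem_filter] at ha hb hc
  refine hcol a ha.1 b hb.1 c hc.1 hab hac hbc ?_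
  have key : ∀ x, dist x y = dist x y' →
      (y.re - y'.re) * (y.re + y'.re - 2 * x.re) + (y.im - y'.im) * (y.im + y'.im - 2 * x.im) = 0 := by
    intro x hx
    have h1 := dist_sq_sub y y' x
    rw [dist_comm y x, dist_comm y' x, hx, sub_self] at h1
    simp only [Complex.mul_re, Complex.sub_re, Complex.sub_im, Complex.conj_re, Complex.conj_im,
      Complex.add_re, Complex.add_im, Complex.re_ofNat, Complex.im_ofNat, zero_mul, sub_zero,
      Complex.mul_im, add_zero] at h1
    linear_combination -h1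
  have ka := key a ha.2
  have kb := key b hb.2
  have kc := key c hc.2
  have h1 : (y.re - y'.re) * (b.re - a.re) + (y.im - y'.im) * (b.im - a.im) = 0 := by
    linear_combination (ka - kb) / 2
  have h2 : (y.re - y'.re) * (c.re - a.re) + (y.im - y'.im) * (c.im - a.im) = 0 := by
    linear_combination (ka - kc) / 2
  have him : ((b - a) * conj (c - a)).im =
      (b.im - a.im) * (c.re - a.re) - (b.re - a.re) * (c.im - a.im) := by
    simp only [Complex.mul_im, Complex.sub_re, Complex.sub_im, Complex.conj_re, Complex.conj_im]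
    ring
  rw [him]
  have h3 : (y.re - y'.re) * ((b.im - a.im) * (c.re - a.re) - (b.re - a.re) * (c.im - a.im)) = 0 := by
    linear_combination (b.im - a.im) * h2 - (c.im - a.im) * h1
  have h4 : (y.im - y'.im) * ((b.im - a.im) * (c.re - a.re) - (b.re - a.re) * (c.im - a.im)) = 0 := by
    linear_combination (c.re - a.re) * h1 - (b.re - a.re) * h2
  rcases mul_eq_zero.1 h3 with h5 | h5
  · rcases mul_eq_zero.1 h4 with h6 | h6
    · exact absurd (Complex.ext (by linarith) (by linarith)) hne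
    · exact h6
  · exact h5

/-- PROOF. For `x ∈ X`, `d ∈ coin X x` choose `(y, y')`; the map `(x, d) ↦ (x, y, y')` is injective
(`d = dist x y`) and lands in the triples with `y ∈ X`, `y' ∈ ball X y g`, `y ≠ y'`, `x ∈ X`,
`dist x y = dist x y'` (`coin_dist`); there are at most `2 * card X * K` such triples
(`bisector`). -/
theorem sum_coin {X : Finset ℂ} {e T : ℝ} (h : Ann X e T) (hT : T ≤ 1 / 10 ^ 4)
    (hcol : NoCol X) {g K : ℝ} (hg : 20 * T ≤ g) (hK : ∀ y ∈ X, ((ball X y g).card : ℝ) ≤ K) :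
    ∑ x ∈ X, ((coin X x).card : ℝ) ≤ 2 * X.card * K := by
  classical
  set P : Finset (ℂ × ℂ) := (X ×ˢ X).filter fun p => p.1 ≠ p.2 ∧ dist p.2 p.1 ≤ g with hP
  have hPcard : (P.card : ℝ) ≤ X.card * K := by
    have h1 : P.card ≤ ∑ y ∈ X, (ball X y g).card := by
      have h2 : P ⊆ X.biUnion fun y => (ball X y g).image fun z => (y, z) := by
        intro p hp
        rw [hP, Finset.mem_filter, Finset.mem_product] at hp
        refine Finset.mem_biUnion.2 ⟨p.1, hp.1.1, Finset.mem_image.2 ⟨p.2, ?_, rfl⟩⟩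
        exact mem_ball.2 ⟨hp.1.2, hp.2.2⟩
      refine (Finset.card_le_card h2).trans (Finset.card_biUnion_le.trans ?_)
      exact Finset.sum_le_sum fun y _ => Finset.card_image_le
    have h3 : (P.card : ℝ) ≤ ∑ y ∈ X, ((ball X y g).card : ℝ) := by exact_mod_cast h1
    refine h3.trans ?_
    have h4 := Finset.sum_le_card_nsmul X (fun y => ((ball X y g).card : ℝ)) K hK
    rwa [nsmul_eq_mul] at h4
  have hcx : ∀ x ∈ X, (coin X x).card ≤ (P.filter fun p => dist x p.1 = dist x p.2).card := by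
    intro x hx
    have h1 : coin X x ⊆ (P.filter fun p => dist x p.1 = dist x p.2).image
        fun p => dist x p.1 := by
      intro d hd
      rw [coin, Finset.mem_filter] at hd
      obtain ⟨hdD, hd1, hd2, y, hy, y', hy', hne, hdy, hdy', hiff⟩ := hd
      refine Finset.mem_image.2 ⟨(y, y'), ?_, hdy⟩
      rw [Finset.mem_filter, hP, Finset.mem_filter, Finset.mem_product]
      refine ⟨⟨⟨hy, hy'⟩, hne, ?_⟩, by rw [hdy, hdy']⟩
      rw [dist_comm]
      refine (coin_dist hT (h.ann x hx) (h.ann y hy) (h.ann y' hy') (by rw [hdy]; exact hd1)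
        (by rw [hdy]; exact hd2) (by rw [hdy, hdy']) hiff).trans hg
    exact (Finset.card_le_card h1).trans Finset.card_image_le
  have hdc : ∑ x ∈ X, (P.filter fun p => dist x p.1 = dist x p.2).card =
      ∑ p ∈ P, (X.filter fun x => dist x p.1 = dist x p.2).card :=
    Finset.sum_card_bipartiteAbove_eq_sum_card_bipartiteBelow
      (fun x (p : ℂ × ℂ) => dist x p.1 = dist x p.2)
  have hle : ∑ x ∈ X, (coin X x).card ≤ 2 * P.card := by
    refine (Finset.sum_le_sum hcx).trans ?_
    rw [hdc]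
    have h2 := Finset.sum_le_card_nsmul P (fun p => (X.filter fun x => dist x p.1 = dist x p.2).card)
      2 (fun p hp => by
        rw [hP, Finset.mem_filter] at hp
        exact bisector hcol hp.2.1)
    rw [smul_eq_mul] at h2
    linarith
  have hle' : ∑ x ∈ X, ((coin X x).card : ℝ) ≤ 2 * P.card := by exact_mod_cast hle
  linarith

end Pool.Agent.Vps
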