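import Pool.Agent.Lib.Vps.Defs

/-!
# Convex position gives a Lipschitz condition
-/

open Finset
open scoped ComplexConjugate

namespace Pool.Agent.Vps

/-- The Lipschitz condition. -/
def Slope (Y : Finset ℂ) : Prop :=
  ∀ y ∈ Y, ∀ y' ∈ Y, |Complex.arg (y' / y)| ≤ 1 / 50 →
    |‖y‖ - ‖y'‖| ≤ 3 / 20 * |Complex.arg (y' / y)|

/-- Polar form of the key convexity computation: if `ρ + 0.15 θ < ρ'` then the point `ρ` (angle
`0`) is in the triangle `0`, `z = ρz e^(-iδ)`, `y' = ρ' e^(iθ)`.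

PROOF. If `θ = 0`, `ρ = (ρ / ρ') ρ'`. Else
`ρ = a z + b y'` with `a = ρ sin θ / (ρz sin (θ + δ))`, `b = ρ sin δ / (ρ' sin (θ + δ))`, and
`a + b ≤ 1` iff `ρ ρ' sin θ + ρ ρz sin δ ≤ ρz ρ' sin (θ + δ)` iff
`ρ' sin θ (ρ - ρz cos δ) ≤ ρz sin δ (ρ' cos θ - ρ)`. The left side is
`≤ 1.001 θ (0.002 + 1.001 δ^2 / 2) ≤ 0.0098 θ` (`δ ≤ 0.122`), the right side is
`≥ 0.999 sin (0.078) (0.15 θ - 0.51 * 1.001 θ^2) ≥ 0.0107 θ`
(`θ ≤ 0.02`). For `θ = 0` directly. -/
theorem polar_triangle {ρ ρ' ρz θ δ : ℝ} (h1 : |ρ - 1| ≤ 1 / 1000) (h2 : |ρ' - 1| ≤ 1 / 1000)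
    (h3 : |ρz - 1| ≤ 1 / 1000) (hθ : 0 ≤ θ) (hθ' : θ ≤ 1 / 50) (hδ : 78 / 1000 ≤ δ)
    (hδ' : δ ≤ 122 / 1000) (hκ : ρ + 3 / 20 * θ < ρ') :
    ∃ a b : ℝ, 0 ≤ a ∧ 0 ≤ b ∧ a + b ≤ 1 ∧
      (ρ : ℂ) = a * (ρz * Complex.exp (-(δ : ℂ) * Complex.I)) +
        b * (ρ' * Complex.exp ((θ : ℂ) * Complex.I)) := by
  rw [abs_le] at h1 h2 h3
  have hρ : 0 < ρ := by linarith [h1.1]
  have hρ' : 0 < ρ' := by linarith [h2.1]
  have hρz : 0 < ρz := by linarith [h3.1]
  have hexp : ∀ t : ℝ, Complex.exp ((t : ℂ) * Complex.I) =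
      (Real.cos t : ℂ) + (Real.sin t : ℂ) * Complex.I := fun t => by
    rw [Complex.exp_mul_I]; push_cast; rfl
  rcases hθ.eq_or_lt with h0 | hθ0
  · refine ⟨0, ρ / ρ', le_rfl, by positivity, ?_, ?_⟩
    · rw [zero_add, div_le_one hρ']
      rw [← h0] at hκ
      linarith
    · rw [← h0]
      have : (ρ' : ℂ) ≠ 0 := by exact_mod_cast hρ'.ne'
      push_cast
      field_simp
      simp
  · have hsθ : 0 < Real.sin θ := Real.sin_pos_of_pos_of_lt_pi hθ0 (by linarith [Real.pi_gt_three])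
    have hδ0 : 0 < δ := by linarith
    have hsδ : 0 < Real.sin δ := Real.sin_pos_of_pos_of_lt_pi hδ0 (by linarith [Real.pi_gt_three])
    have hsum : 0 < Real.sin (θ + δ) :=
      Real.sin_pos_of_pos_of_lt_pi (by linarith) (by linarith [Real.pi_gt_three])
    have hadd := Real.sin_add θ δ
    refine ⟨ρ * Real.sin θ / (ρz * Real.sin (θ + δ)), ρ * Real.sin δ / (ρ' * Real.sin (θ + δ)),
      by positivity, by positivity, ?_, ?_⟩
    · have e1 : ρ * Real.sin θ / (ρz * Real.sin (θ + δ)) + ρ * Real.sin δ / (ρ' * Real.sin (θ + δ))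
          = (ρ * (ρ' * Real.sin θ + ρz * Real.sin δ)) / (ρz * ρ' * Real.sin (θ + δ)) := by
        field_simp
      rw [e1, div_le_one (by positivity), hadd]
      have hsin : Real.sin θ ≤ θ := (Real.sin_lt hθ0).le
      have hcosδ : 1 - δ ^ 2 / 2 ≤ Real.cos δ := Real.one_sub_sq_div_two_le_cos
      have hcosθ : 1 - θ ^ 2 / 2 ≤ Real.cos θ := Real.one_sub_sq_div_two_le_cos
      have hsinδ : δ - δ ^ 3 / 6 < Real.sin δ := Real.sin_gt_sub_cube hδ0
      have hδ2 : δ ^ 2 ≤ 0.014884 := by nlinarith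
      have hcd1 : Real.cos δ ≤ 1 := Real.cos_le_one δ
      have hb1 : ρ - ρz * Real.cos δ ≤ 0.009436 := by nlinarith
      have hl1 : ρ' * Real.sin θ * (ρ - ρz * Real.cos δ) ≤ 0.00945 * θ := by
        calc ρ' * Real.sin θ * (ρ - ρz * Real.cos δ) ≤ ρ' * Real.sin θ * 0.009436 :=
              mul_le_mul_of_nonneg_left hb1 (by positivity)
          _ ≤ 0.00945 * θ := by nlinarith
      have hs1 : 0.0777 ≤ Real.sin δ := by nlinarith
      have hs2 : 0.0776 ≤ ρz * Real.sin δ := by nlinarith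
      have hθ2 : θ ^ 2 ≤ 0.02 * θ := by nlinarith
      have hb2 : 0.1399 * θ ≤ ρ' * Real.cos θ - ρ := by
        have : ρ' * (1 - θ ^ 2 / 2) ≤ ρ' * Real.cos θ := mul_le_mul_of_nonneg_left hcosθ hρ'.le
        nlinarith
      have hr1 : 0.0108 * θ ≤ ρz * Real.sin δ * (ρ' * Real.cos θ - ρ) := by
        calc 0.0108 * θ ≤ 0.0776 * (0.1399 * θ) := by linarith
          _ ≤ ρz * Real.sin δ * (ρ' * Real.cos θ - ρ) :=
              mul_le_mul hs2 hb2 (by positivity) (by positivity)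
      nlinarith
    · rw [neg_mul, Complex.exp_neg, hexp, hexp]
      have hc : (Real.sin (θ + δ) : ℂ) ≠ 0 := by exact_mod_cast hsum.ne'
      have hz : (ρz : ℂ) ≠ 0 := by exact_mod_cast hρz.ne'
      have hp : (ρ' : ℂ) ≠ 0 := by exact_mod_cast hρ'.ne'
      have hinv : ((Real.cos δ : ℂ) + (Real.sin δ : ℂ) * Complex.I)⁻¹ =
          (Real.cos δ : ℂ) - (Real.sin δ : ℂ) * Complex.I := by
        rw [← hexp δ, ← Complex.exp_neg, ← neg_mul, ← Complex.ofReal_neg, hexp (-δ)]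
        simp [sub_eq_add_neg]
      rw [hinv]
      have hadd' : (Real.sin (θ + δ) : ℂ) =
          Real.sin θ * Real.cos δ + Real.cos θ * Real.sin δ := by
        rw [hadd]; push_cast; rfl
      push_cast
      rw [eq_comm]
      have e2 : (ρ : ℂ) * Complex.sin θ / (ρz * Complex.sin (θ + δ)) *
          (ρz * (Complex.cos δ - Complex.sin δ * Complex.I)) +
          ρ * Complex.sin δ / (ρ' * Complex.sin (θ + δ)) *
            (ρ' * (Complex.cos θ + Complex.sin θ * Complex.I)) =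
          ρ * (Complex.sin θ * Complex.cos δ + Complex.cos θ * Complex.sin δ) /
            Complex.sin (θ + δ) := by
        push_cast at hc
        field_simp
        ring
      rw [e2, ← Complex.sin_add]
      push_cast at hc
      field_simp

/-- PROOF. Otherwise, by separation (`geometric_hahn_banach_point_closed` or `..._compact`; the
hull of a finite set is compact), there is `w ≠ 0`, wlog `‖w‖ = 1`, with
`Re (z conj w) > 0` for all `z ∈ Y`, `z ≠ y`. One of the unit vectors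
`u = - w`, `u = - w exp (i / 2)` is at distance `≥ 1/5` from `y` (they are at distance
`2 sin (1/4) > 0.49` from each other), and `Re (u conj w) ≤ - cos (1/2) < - 0.8`. By `hdense` there
is `z ∈ Y` with `dist z u ≤ 1/100`; `z ≠ y` and `Re (z conj w) < 0`. -/
theorem zero_mem_hull {Y : Finset ℂ} (hdense : ∀ u : ℂ, ‖u‖ = 1 → ∃ y ∈ Y, dist y u ≤ 1 / 100)
    (y : ℂ) : (0 : ℂ) ∈ convexHull ℝ ((Y : Set ℂ) \ {y}) := by
  by_contra hcon
  have hfin : ((Y : Set ℂ) \ {y}).Finite := Y.finite_toSet.subset Set.sdiff_subset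
  have hcl : IsClosed (convexHull ℝ ((Y : Set ℂ) \ {y})) := hfin.isClosed_convexHull ℝ
  obtain ⟨f, u, hu0, hu⟩ := geometric_hahn_banach_point_closed (convex_convexHull ℝ _) hcl hcon
  rw [map_zero] at hu0
  have hpos : ∀ z ∈ Y, z ≠ y → 0 < f z := fun z hz hzy =>
    hu0.trans (hu z (subset_convexHull ℝ _ ⟨hz, hzy⟩))
  obtain ⟨w, hw⟩ : ∃ w : ℂ, ∀ z, f z = (z * conj w).re := by
    refine ⟨(f 1 : ℂ) + (f Complex.I : ℂ) * Complex.I, fun z => ?_⟩
    have h1 : z = z.re • (1 : ℂ) + z.im • Complex.I := by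
      apply Complex.ext <;> simp
    calc f z = f (z.re • (1 : ℂ) + z.im • Complex.I) := by rw [← h1]
      _ = z.re * f 1 + z.im * f Complex.I := by
          rw [map_add, map_smul, map_smul]; rfl
      _ = _ := by simp
  have hbd : ∀ z v : ℂ, dist z v ≤ 1 / 100 → f z ≤ f v + ‖w‖ / 100 := by
    intro z v hzv
    have h1 : f z = f v + f (z - v) := by rw [← map_add]; congr 1; ring
    have h2 : f (z - v) ≤ ‖w‖ / 100 := by
      rw [hw]
      calc ((z - v) * conj w).re ≤ ‖(z - v) * conj w‖ := Complex.re_le_norm _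
        _ = dist z v * ‖w‖ := by rw [norm_mul, Complex.norm_conj, Complex.dist_eq]
        _ ≤ 1 / 100 * ‖w‖ := mul_le_mul_of_nonneg_right hzv (norm_nonneg _)
        _ = ‖w‖ / 100 := by ring
    linarith
  -- every unit vector with `f v < - ‖w‖ / 2` is close to `y`
  have key : ∀ v : ℂ, ‖v‖ = 1 → f v ≤ - (‖w‖ / 2) → dist y v ≤ 1 / 100 := by
    intro v hv hfv
    obtain ⟨z, hz, hzv⟩ := hdense v hv
    by_cases hzy : z = y
    · rwa [← hzy]
    · exfalso
      have h1 := hpos z hz hzy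
      have h2 := hbd z v hzv
      have h3 := norm_nonneg w
      linarith
  have hc : ‖((3 / 5 : ℝ) : ℂ) + ((4 / 5 : ℝ) : ℂ) * Complex.I‖ = 1 := by
    rw [Complex.norm_add_mul_I]
    rw [show ((3:ℝ) / 5) ^ 2 + (4 / 5) ^ 2 = 1 by norm_num, Real.sqrt_one]
  by_cases hw0 : w = 0
  · have hf0 : ∀ z, f z = 0 := fun z => by rw [hw, hw0]; simp
    have h1 := key 1 (by simp) (by rw [hf0, hw0]; simp)
    have h2 := key (-1) (by simp) (by rw [hf0, hw0]; simp)
    have h3 : dist (1 : ℂ) (-1) ≤ dist y 1 + dist y (-1) := by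
      rw [dist_comm y 1]; exact dist_triangle _ _ _
    have h4 : dist (1 : ℂ) (-1) = 2 := by
      rw [Complex.dist_eq, sub_neg_eq_add]; norm_num
    linarith
  · have hwn : 0 < ‖w‖ := norm_pos_iff.2 hw0
    have hwC : ((‖w‖ : ℝ) : ℂ) ≠ 0 := by exact_mod_cast hwn.ne'
    have hmul : w * conj w = ((‖w‖ ^ 2 : ℝ) : ℂ) := by
      rw [Complex.mul_conj, Complex.normSq_eq_norm_sq]
    set c : ℂ := ((3 / 5 : ℝ) : ℂ) + ((4 / 5 : ℝ) : ℂ) * Complex.I with hcdef
    have hv1 : ‖-(w / ‖w‖)‖ = 1 := by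
      rw [norm_neg, norm_div, Complex.norm_real, norm_norm, div_self hwn.ne']
    have hv2 : ‖-(w / ‖w‖) * c‖ = 1 := by
      rw [norm_mul, hv1, hc, mul_one]
    have hf1 : ∀ c' : ℂ, f (-(w / ‖w‖) * c') = - (‖w‖ * c'.re) := by
      intro c'
      rw [hw]
      have : -(w / ‖w‖) * c' * conj w = ((-‖w‖ : ℝ) : ℂ) * c' := by
        calc -(w / ‖w‖) * c' * conj w = -(w * conj w / ‖w‖) * c' := by ring
          _ = _ := by
            rw [hmul]
            push_cast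
            field_simp
      rw [this, Complex.re_ofReal_mul]
      ring
    have h1 := key (-(w / ‖w‖)) hv1 (by
      have := hf1 1
      rw [mul_one] at this
      rw [this, Complex.one_re]; linarith)
    have h2 := key (-(w / ‖w‖) * c) hv2 (by
      rw [hf1 c]
      have : c.re = 3 / 5 := by simp [hcdef]
      rw [this]; linarith)
    have h3 : dist (-(w / ‖w‖)) (-(w / ‖w‖) * c) ≤ 1 / 100 + 1 / 100 := by
      refine (dist_triangle _ y _).trans (add_le_add ?_ h2)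
      rw [dist_comm]; exact h1
    have h4 : dist (-(w / ‖w‖)) (-(w / ‖w‖) * c) = ‖1 - c‖ := by
      rw [Complex.dist_eq, show -(w / ‖w‖) - -(w / ‖w‖) * c = -(w / ‖w‖) * (1 - c) by ring,
        norm_mul, hv1, one_mul]
    have h5 : (2 / 5 : ℝ) ≤ ‖1 - c‖ := by
      have : (1 - c).re = 2 / 5 := by simp [hcdef]; norm_num
      calc (2 / 5 : ℝ) = |(1 - c).re| := by rw [this]; norm_num
        _ ≤ ‖1 - c‖ := Complex.abs_re_le_norm _
    rw [h4] at h3
    linarith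

namespace SlopeConvAux

/-- A complex number near `1` has a small argument. -/
theorem arg_small {ζ : ℂ} (h : ‖ζ - 1‖ ≤ 1 / 100) : |Complex.arg ζ| ≤ 22 / 1000 := by
  have hre : |(ζ - 1).re| ≤ 1 / 100 := (Complex.abs_re_le_norm _).trans h
  have him : |(ζ - 1).im| ≤ 1 / 100 := (Complex.abs_im_le_norm _).trans h
  simp only [Complex.sub_re, Complex.one_re, Complex.sub_im, Complex.one_im, sub_zero] at hre him
  rw [abs_le] at hre
  have hre0 : 99 / 100 ≤ ζ.re := by linarith [hre.1]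
  have hn : 99 / 100 ≤ ‖ζ‖ := hre0.trans (Complex.re_le_norm ζ)
  have h1 : |Complex.arg ζ| ≤ Real.pi / 2 := Complex.abs_arg_le_pi_div_two_iff.2 (by linarith)
  have h2 := Real.mul_le_sin (abs_nonneg (Complex.arg ζ)) h1
  have hζ : ζ ≠ 0 := by
    intro h0
    rw [h0] at hre0
    simp at hre0
    norm_num at hre0
  have h3 : Real.sin |Complex.arg ζ| ≤ 1 / 99 := by
    have h4 : Real.sin |Complex.arg ζ| = |Real.sin (Complex.arg ζ)| := by
      rcases abs_cases (Complex.arg ζ) with ⟨h5, h6⟩ | ⟨h5, h6⟩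
      · rw [h5, abs_of_nonneg]
        exact Real.sin_nonneg_of_nonneg_of_le_pi h6 (Complex.arg_le_pi _)
      · rw [h5, Real.sin_neg, abs_of_nonpos]
        exact Real.sin_nonpos_of_nonpos_of_neg_pi_le h6.le (Complex.neg_pi_lt_arg _).le
    rw [h4, Complex.sin_arg, abs_div, abs_of_nonneg (norm_nonneg ζ), div_le_iff₀ (by linarith)]
    linarith
  have hpi := Real.pi_lt_d2
  have hpi0 := Real.pi_pos
  have h6 : 2 / Real.pi * |Complex.arg ζ| ≤ 1 / 99 := h2.trans h3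
  have h7 : |Complex.arg ζ| = (Real.pi / 2) * (2 / Real.pi * |Complex.arg ζ|) := by
    field_simp
  rw [h7]
  calc (Real.pi / 2) * (2 / Real.pi * |Complex.arg ζ|) ≤ (Real.pi / 2) * (1 / 99) :=
        mul_le_mul_of_nonneg_left h6 (by positivity)
    _ ≤ 22 / 1000 := by linarith

/-- Signed version of `polar_triangle`. -/
theorem polar_triangle_signed {ρ ρ' ρz θ δ s : ℝ} (hs : s = 1 ∨ s = -1)
    (h1 : |ρ - 1| ≤ 1 / 1000) (h2 : |ρ' - 1| ≤ 1 / 1000)
    (h3 : |ρz - 1| ≤ 1 / 1000) (hθ : 0 ≤ θ) (hθ' : θ ≤ 1 / 50) (hδ : 78 / 1000 ≤ δ)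
    (hδ' : δ ≤ 122 / 1000) (hκ : ρ + 3 / 20 * θ < ρ') :
    ∃ a b : ℝ, 0 ≤ a ∧ 0 ≤ b ∧ a + b ≤ 1 ∧
      (ρ : ℂ) = a * (ρz * Complex.exp (((-(s * δ) : ℝ) : ℂ) * Complex.I)) +
        b * (ρ' * Complex.exp (((s * θ : ℝ) : ℂ) * Complex.I)) := by
  obtain ⟨a, b, ha, hb, hab, h⟩ := polar_triangle h1 h2 h3 hθ hθ' hδ hδ' hκ
  refine ⟨a, b, ha, hb, hab, ?_⟩
  rcases hs with rfl | rfl
  · rw [one_mul, one_mul]
    push_cast
    exact h
  · have h4 := congrArg conj h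
    simp only [map_add, map_mul, Complex.conj_ofReal, ← Complex.exp_conj, map_neg,
      Complex.conj_I] at h4
    have e1 : -(δ : ℂ) * -Complex.I = ((-(-1 * δ) : ℝ) : ℂ) * Complex.I := by push_cast; ring
    have e2 : (θ : ℂ) * -Complex.I = ((-1 * θ : ℝ) : ℂ) * Complex.I := by push_cast; ring
    rw [e1, e2] at h4
    exact h4

/-- One-sided bound. -/
theorem one_side {Y : Finset ℂ} (hann : ∀ y ∈ Y, |‖y‖ - 1| ≤ 1 / 1000)
    (hdense : ∀ u : ℂ, ‖u‖ = 1 → ∃ y ∈ Y, dist y u ≤ 1 / 100)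
    (hconv : ∀ y ∈ Y, y ∉ convexHull ℝ ((Y : Set ℂ) \ {y})) {y y' : ℂ} (hy : y ∈ Y)
    (hy' : y' ∈ Y) (h : |Complex.arg (y' / y)| ≤ 1 / 50) :
    ‖y'‖ ≤ ‖y‖ + 3 / 20 * |Complex.arg (y' / y)| := by
  by_contra hcon
  rw [not_le] at hcon
  have hny := hann y hy
  have hny' := hann y' hy'
  have hypos : 0 < ‖y‖ := by linarith [(abs_le.1 hny).1]
  have hy0 : y ≠ 0 := norm_pos_iff.1 hypos
  have hyC : ((‖y‖ : ℝ) : ℂ) ≠ 0 := by exact_mod_cast hypos.ne'
  obtain ⟨s, hs, hsθ⟩ : ∃ s : ℝ, (s = 1 ∨ s = -1) ∧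
      Complex.arg (y' / y) = s * |Complex.arg (y' / y)| := by
    rcases abs_cases (Complex.arg (y' / y)) with ⟨h5, h6⟩ | ⟨h5, h6⟩
    · exact ⟨1, Or.inl rfl, by rw [h5]; ring⟩
    · exact ⟨-1, Or.inr rfl, by rw [h5]; ring⟩
  set θ := |Complex.arg (y' / y)| with hθ
  set w : ℂ := y / ‖y‖ with hw
  have hwn : ‖w‖ = 1 := by
    rw [hw, norm_div, Complex.norm_real, norm_norm, div_self hypos.ne']
  have hw0 : w ≠ 0 := by
    intro h0; rw [h0] at hwn; simp at hwn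
  have hyw : y = w * (‖y‖ : ℝ) := by rw [hw]; field_simp
  have hy'w : y' = w * ((‖y'‖ : ℝ) * Complex.exp (((s * θ : ℝ) : ℂ) * Complex.I)) := by
    have h1 := Complex.norm_mul_exp_arg_mul_I (y' / y)
    rw [hsθ, norm_div] at h1
    have h2 : y' = y * (((‖y'‖ / ‖y‖ : ℝ) : ℂ) * Complex.exp (((s * θ : ℝ) : ℂ) * Complex.I)) := by
      rw [h1]; field_simp
    calc y' = y * (((‖y'‖ / ‖y‖ : ℝ) : ℂ) * Complex.exp (((s * θ : ℝ) : ℂ) * Complex.I)) := h2
      _ = _ := by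
        rw [hw]; push_cast; field_simp
  -- the auxiliary point
  have hun : ‖w * Complex.exp (((-(s * (1 / 10)) : ℝ) : ℂ) * Complex.I)‖ = 1 := by
    rw [norm_mul, hwn, Complex.norm_exp_ofReal_mul_I, mul_one]
  obtain ⟨z, hz, hzu⟩ := hdense _ hun
  set e := Complex.exp (((-(s * (1 / 10)) : ℝ) : ℂ) * Complex.I) with he
  have hen : ‖e‖ = 1 := Complex.norm_exp_ofReal_mul_I _
  have he0 : e ≠ 0 := Complex.exp_ne_zero _
  set ζ : ℂ := z / (w * e) with hζ
  have hζ1 : ‖ζ - 1‖ ≤ 1 / 100 := by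
    have : ζ - 1 = (z - w * e) / (w * e) := by rw [hζ]; field_simp
    rw [this, norm_div, norm_mul, hwn, hen, mul_one, div_one, ← Complex.dist_eq]
    exact hzu
  have hζn : ‖ζ‖ = ‖z‖ := by
    rw [hζ, norm_div, norm_mul, hwn, hen, mul_one, div_one]
  have hargζ := arg_small hζ1
  have hzz : z = w * ((‖z‖ : ℝ) *
      Complex.exp (((-(s * (1 / 10 - s * Complex.arg ζ)) : ℝ) : ℂ) * Complex.I)) := by
    have h1 := Complex.norm_mul_exp_arg_mul_I ζ
    rw [hζn] at h1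
    have hss : s * s = 1 := by rcases hs with rfl | rfl <;> norm_num
    have h2 : -(s * (1 / 10 - s * Complex.arg ζ)) = -(s * (1 / 10)) + Complex.arg ζ := by
      have : -(s * (1 / 10 - s * Complex.arg ζ)) = -(s * (1 / 10)) + (s * s) * Complex.arg ζ := by
        ring
      rw [this, hss, one_mul]
    rw [h2, Complex.ofReal_add, add_mul, Complex.exp_add, ← he]
    calc z = w * e * ζ := by rw [hζ]; field_simp
      _ = w * e * (((‖z‖ : ℝ) : ℂ) * Complex.exp ((Complex.arg ζ : ℂ) * Complex.I)) := by rw [h1]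
      _ = _ := by ring
  set δ : ℝ := 1 / 10 - s * Complex.arg ζ with hδ
  have hsa : |s * Complex.arg ζ| ≤ 22 / 1000 := by
    rw [abs_mul]
    rcases hs with rfl | rfl
    · simpa using hargζ
    · simpa using hargζ
  rw [abs_le] at hsa
  have hδ1 : 78 / 1000 ≤ δ := by rw [hδ]; linarith [hsa.2]
  have hδ2 : δ ≤ 122 / 1000 := by rw [hδ]; linarith [hsa.1]
  obtain ⟨a, b, ha, hb, hab, hpt⟩ := polar_triangle_signed hs hny hny' (hann z hz)
    (abs_nonneg _) h hδ1 hδ2 hcon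
  have hcomb : y = a * z + b * y' := by
    calc y = w * (‖y‖ : ℝ) := hyw
      _ = w * (a * ((‖z‖ : ℝ) * Complex.exp (((-(s * δ) : ℝ) : ℂ) * Complex.I)) +
          b * ((‖y'‖ : ℝ) * Complex.exp (((s * θ : ℝ) : ℂ) * Complex.I))) := by rw [hpt]
      _ = a * (w * ((‖z‖ : ℝ) * Complex.exp (((-(s * δ) : ℝ) : ℂ) * Complex.I))) +
          b * (w * ((‖y'‖ : ℝ) * Complex.exp (((s * θ : ℝ) : ℂ) * Complex.I))) := by ring
      _ = a * z + b * y' := by rw [← hzz, ← hy'w]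
  have hy'ne : y' ≠ y := by
    intro e1
    rw [e1] at hcon
    have : 0 ≤ θ := abs_nonneg _
    linarith
  have hzne : z ≠ y := by
    intro e1
    rw [e1] at hzz
    have h1 : w * (‖y‖ : ℝ) = w * ((‖y‖ : ℝ) *
        Complex.exp (((-(s * δ) : ℝ) : ℂ) * Complex.I)) := by rw [← hyw]; exact hzz
    have h2 := mul_left_cancel₀ hw0 h1
    have h3 : Complex.exp (((-(s * δ) : ℝ) : ℂ) * Complex.I) = 1 := by
      have h4 : ((‖y‖ : ℝ) : ℂ) * Complex.exp (((-(s * δ) : ℝ) : ℂ) * Complex.I) =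
          ((‖y‖ : ℝ) : ℂ) * 1 := by rw [← h2, mul_one]
      exact mul_left_cancel₀ hyC h4
    have h4 := congrArg Complex.im h3
    rw [Complex.exp_ofReal_mul_I_im, Complex.one_im, Real.sin_neg] at h4
    have h5 : 0 < Real.sin δ :=
      Real.sin_pos_of_pos_of_lt_pi (by linarith) (by linarith [Real.pi_gt_three])
    rcases hs with rfl | rfl
    · rw [one_mul] at h4; linarith
    · rw [neg_one_mul, Real.sin_neg] at h4; linarith
  -- conclusion
  apply hconv y hy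
  have h0 := zero_mem_hull hdense y
  have hzH : z ∈ convexHull ℝ ((Y : Set ℂ) \ {y}) := subset_convexHull ℝ _ ⟨hz, hzne⟩
  have hy'H : y' ∈ convexHull ℝ ((Y : Set ℂ) \ {y}) := subset_convexHull ℝ _ ⟨hy', hy'ne⟩
  have hC := convex_convexHull ℝ ((Y : Set ℂ) \ {y})
  rcases (add_nonneg ha hb).eq_or_lt with hab0 | hab0
  · exfalso
    have ha0 : a = 0 := by linarith
    have hb0 : b = 0 := by linarith
    apply hy0
    rw [hcomb, ha0, hb0]
    simp
  · have hp : (a / (a + b)) • z + (b / (a + b)) • y' ∈ convexHull ℝ ((Y : Set ℂ) \ {y}) :=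
      hC hzH hy'H (by positivity) (by positivity) (by field_simp)
    have hq := hC.smul_mem_of_zero_mem h0 hp (t := a + b) ⟨hab0.le, hab⟩
    have : (a + b) • ((a / (a + b)) • z + (b / (a + b)) • y') = y := by
      rw [smul_add, smul_smul, smul_smul, mul_div_cancel₀ _ hab0.ne', mul_div_cancel₀ _ hab0.ne',
        Complex.real_smul, Complex.real_smul]
      exact hcomb.symm
    rwa [this] at hq

end SlopeConvAux

/-- PROOF. Let `y, y' ∈ Y`, `θ = |arg (y' / y)| ≤ 1/50`; exchange them if necessary so that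
`‖y‖ ≤ ‖y'‖` (`arg (y / y') = - arg (y' / y)` here). Suppose `‖y'‖ > ‖y‖ + 0.15 θ`. Let `w = y / ‖y‖`.
If `arg (y' / y) ≥ 0` take `z ∈ Y` with `dist z (w exp (-i/10)) ≤ 1/100`: `z = ρz w exp (-iδ)` with
`δ ∈ [0.078, 0.122]`; `polar_triangle` gives `y = a z + b y'`, so `y` is in the convex hull of
`0, z, y'`, and with `zero_mem_hull`, `y ∈ convexHull (Y \ {y})`, contradiction. If
`arg (y' / y) < 0` use the conjugate of `polar_triangle`. -/
theorem slope_of_convex {Y : Finset ℂ} (hann : ∀ y ∈ Y, |‖y‖ - 1| ≤ 1 / 1000)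
    (hdense : ∀ u : ℂ, ‖u‖ = 1 → ∃ y ∈ Y, dist y u ≤ 1 / 100)
    (hconv : ∀ y ∈ Y, y ∉ convexHull ℝ ((Y : Set ℂ) \ {y})) : Slope Y := by
  intro y hy y' hy' h
  have h1 := SlopeConvAux.one_side hann hdense hconv hy hy' h
  have h2 : |Complex.arg (y / y')| = |Complex.arg (y' / y)| := by
    rw [← inv_div y' y, Complex.abs_arg_inv]
  have h3 := SlopeConvAux.one_side hann hdense hconv hy' hy (by rw [h2]; exact h)
  rw [h2] at h3
  rw [abs_le]
  constructor <;> linarith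

end Pool.Agent.Vps
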