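import Pool.Agent.Lib.Vps.Density
import Pool.Agent.Lib.Vps.Psi
import Pool.Agent.Lib.Vps.Backward

/-!
# Stability: counting the points in arcs

`arcN X u t` is the number of points of `X` whose argument is at distance at most `t` from `u`, in
the circle `ℝ / 2 π ℤ`.
-/

open Finset
open scoped ComplexConjugate

namespace Pool.Agent.Vps

/-- The circle of length `2 π`. -/
abbrev Cir : Type := AddCircle (2 * Real.pi)

instance fact_two_pi : Fact (0 < 2 * Real.pi) := ⟨Real.two_pi_pos⟩

/-- The argument as a point of the circle. -/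
noncomputable def ang (y : ℂ) : Cir := ((Complex.arg y : ℝ) : Cir)

/-- The number of points of `X` in an arc. -/
noncomputable def arcN (X : Finset ℂ) (u : Cir) (t : ℝ) : ℕ :=
  (X.filter fun y => dist (ang y) u ≤ t).card

namespace StabAux

theorem cos_norm (θ : ℝ) : Real.cos ‖((θ : ℝ) : Cir)‖ = Real.cos θ := by
  rw [AddCircle.norm_eq, Real.cos_abs, Real.cos_sub_int_mul_two_pi]

theorem norm_coe_le (θ : ℝ) : ‖((θ : ℝ) : Cir)‖ ≤ |θ| := QuotientAddGroup.norm_mk_le_norm

/-- a representative of minimal size -/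
theorem exists_rep (w : Cir) : ∃ r : ℝ, |r| = ‖w‖ ∧ |r| ≤ Real.pi ∧ ((r : ℝ) : Cir) = w := by
  induction w using QuotientAddGroup.induction_on with
  | H x =>
    refine ⟨x - (round ((2 * Real.pi)⁻¹ * x) : ℤ) * (2 * Real.pi), ?_, ?_, ?_⟩
    · exact (AddCircle.norm_eq (2 * Real.pi) (x := x)).symm
    · rw [← AddCircle.norm_eq (2 * Real.pi) (x := x)]
      have h := AddCircle.norm_le_half_period (2 * Real.pi) (x := (x : AddCircle (2 * Real.pi)))
        Real.two_pi_pos.ne'
      rw [abs_of_pos Real.two_pi_pos] at h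
      linarith
    · rw [AddCircle.coe_sub]
      have h : (((round ((2 * Real.pi)⁻¹ * x) : ℤ) * (2 * Real.pi) : ℝ) : Cir) = 0 := by
        rw [← zsmul_eq_mul, AddCircle.coe_zsmul, AddCircle.coe_period, smul_zero]
      rw [h, sub_zero]

theorem norm_le_pi (w : Cir) : ‖w‖ ≤ Real.pi := by
  obtain ⟨r, h1, h2, -⟩ := exists_rep w
  rw [← h1]; exact h2

/-- the antipode -/
theorem norm_add_pi (w : Cir) : ‖w + ((Real.pi : ℝ) : Cir)‖ ≤ Real.pi - ‖w‖ := by
  obtain ⟨r, h1, h2, rfl⟩ := exists_rep w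
  rw [← h1]
  rcases le_or_gt 0 r with h | h
  · have e : ((r : ℝ) : Cir) + ((Real.pi : ℝ) : Cir) = (((r - Real.pi) : ℝ) : Cir) := by
      have h3 : (((2 * Real.pi : ℝ)) : Cir) = 0 := AddCircle.coe_period _
      calc ((r : ℝ) : Cir) + ((Real.pi : ℝ) : Cir)
          = (((r - Real.pi) : ℝ) : Cir) + ((2 * Real.pi : ℝ) : Cir) := by
            rw [← AddCircle.coe_add, ← AddCircle.coe_add]
            congr 1
            ring
        _ = _ := by rw [h3, add_zero]
    rw [e]
    refine (norm_coe_le _).trans ?_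
    rw [abs_of_nonneg h] at h2 ⊢
    rw [abs_of_nonpos (by linarith)]
    linarith
  · rw [← AddCircle.coe_add]
    refine (norm_coe_le _).trans ?_
    rw [abs_of_neg h] at h2 ⊢
    rw [abs_of_nonneg (by linarith)]
    linarith

theorem dist_ang (x y : ℂ) : Real.cos (dist (ang y) (ang x)) =
    Real.cos (Complex.arg y - Complex.arg x) := by
  unfold ang
  rw [dist_eq_norm, ← AddCircle.coe_sub, cos_norm]

theorem re_ang (x y : ℂ) :
    (y * conj x).re = ‖x‖ * ‖y‖ * Real.cos (dist (ang y) (ang x)) := by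
  rw [dist_ang, BackwardAux.re_mul_conj_arg]
  ring

theorem dist_sq_ang (x y : ℂ) : dist x y ^ 2 =
    ‖x‖ ^ 2 + ‖y‖ ^ 2 - 2 * (‖x‖ * ‖y‖ * Real.cos (dist (ang y) (ang x))) := by
  rw [dist_sq_eq, re_ang]

theorem arcN_le_card (X : Finset ℂ) (u : Cir) (t : ℝ) : arcN X u t ≤ X.card :=
  Finset.card_filter_le _ _

/-- moving the centre -/
theorem arcN_move (X : Finset ℂ) {u v : Cir} {s t t' : ℝ} (h : dist u v ≤ s) (ht : t + s ≤ t') :
    arcN X u t ≤ arcN X v t' := by
  refine Finset.card_le_card fun y hy => ?_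
  rw [Finset.mem_filter] at hy ⊢
  refine ⟨hy.1, ?_⟩
  have := dist_triangle (ang y) u v
  linarith [hy.2]

/-- the complement -/
theorem arcN_compl (X : Finset ℂ) (u : Cir) (t : ℝ) :
    X.card ≤ arcN X u t + arcN X (u + ((Real.pi : ℝ) : Cir)) (Real.pi - t) := by
  classical
  have h : X ⊆ (X.filter fun y => dist (ang y) u ≤ t) ∪
      (X.filter fun y => dist (ang y) (u + ((Real.pi : ℝ) : Cir)) ≤ Real.pi - t) := by
    intro y hy
    rw [Finset.mem_union, Finset.mem_filter, Finset.mem_filter]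
    by_cases h1 : dist (ang y) u ≤ t
    · exact Or.inl ⟨hy, h1⟩
    · refine Or.inr ⟨hy, ?_⟩
      have h2 := norm_add_pi (ang y - u)
      have h3 : ang y - (u + ((Real.pi : ℝ) : Cir)) = ang y - u + ((Real.pi : ℝ) : Cir) := by
        have h4 : ((Real.pi : ℝ) : Cir) + ((Real.pi : ℝ) : Cir) = 0 := by
          rw [← AddCircle.coe_add, ← two_mul]
          exact AddCircle.coe_period _
        have h5 : -((Real.pi : ℝ) : Cir) = ((Real.pi : ℝ) : Cir) := neg_eq_of_add_eq_zero_left h4
        rw [← sub_sub, sub_eq_add_neg (ang y - u), h5]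
      rw [dist_eq_norm] at h1 ⊢
      rw [h3]
      push Not at h1
      linarith
  calc X.card ≤ _ := Finset.card_le_card h
    _ ≤ _ := Finset.card_union_le _ _

/-- averaging over the centre -/
theorem exists_avg (X : Finset ℂ) {t : ℝ} (ht0 : 0 ≤ t) (ht : t ≤ Real.pi) :
    ∃ v : Cir, (arcN X v t : ℝ) ≤ X.card * t / Real.pi := by
  classical
  by_contra hcon
  push Not at hcon
  obtain ⟨c, hc⟩ : ∃ c, c = X.card * t / Real.pi := ⟨_, rfl⟩
  have hc0 : 0 ≤ c := by rw [hc]; have := Real.pi_pos; positivity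
  have hk : ∀ v : Cir, ⌊c⌋₊ + 1 ≤ arcN X v t := by
    intro v
    have h1 := hcon v
    rw [← hc] at h1
    exact Nat.succ_le_of_lt ((Nat.floor_lt hc0).2 h1)
  have h1 : ∫⁻ v : Cir, (arcN X v t : ENNReal) = X.card * ENNReal.ofReal (2 * t) := by
    have h2 : ∀ v : Cir, (arcN X v t : ENNReal) =
        ∑ y ∈ X, (Metric.closedBall (ang y) t).indicator (fun _ => (1 : ENNReal)) v := by
      intro v
      unfold arcN
      rw [Finset.card_filter]
      push_cast
      refine Finset.sum_congr rfl fun y _ => ?_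
      rw [Set.indicator_apply, Metric.mem_closedBall, dist_comm]
    simp_rw [h2]
    rw [MeasureTheory.lintegral_finsetSum _ fun y _ =>
      measurable_const.indicator Metric.isClosed_closedBall.measurableSet]
    have h3 : ∀ y ∈ X, ∫⁻ v : Cir, (Metric.closedBall (ang y) t).indicator
        (fun _ => (1 : ENNReal)) v = ENNReal.ofReal (2 * t) := by
      intro y _
      rw [MeasureTheory.lintegral_indicator Metric.isClosed_closedBall.measurableSet,
        MeasureTheory.setLIntegral_one, AddCircle.volume_closedBall, min_eq_right (by linarith)]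
    rw [Finset.sum_congr rfl h3, Finset.sum_const, nsmul_eq_mul]
  have h4 : ((⌊c⌋₊ + 1 : ℕ) : ENNReal) * ENNReal.ofReal (2 * Real.pi) ≤
      ∫⁻ v : Cir, (arcN X v t : ENNReal) := by
    rw [← AddCircle.measure_univ (2 * Real.pi), ← MeasureTheory.lintegral_const]
    refine MeasureTheory.lintegral_mono fun v => ?_
    exact Nat.cast_le.2 (hk v)
  rw [h1] at h4
  have h5 : ((⌊c⌋₊ + 1 : ℕ) : ℝ) * (2 * Real.pi) ≤ X.card * (2 * t) := by
    have h6 : ENNReal.ofReal (((⌊c⌋₊ + 1 : ℕ) : ℝ) * (2 * Real.pi)) ≤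
        ENNReal.ofReal (X.card * (2 * t)) := by
      rw [ENNReal.ofReal_mul (Nat.cast_nonneg _), ENNReal.ofReal_natCast,
        ENNReal.ofReal_mul (Nat.cast_nonneg _), ENNReal.ofReal_natCast]
      exact h4
    exact (ENNReal.ofReal_le_ofReal_iff (by positivity)).1 h6
  have h7 : c < ((⌊c⌋₊ + 1 : ℕ) : ℝ) := by
    push_cast
    exact Nat.lt_floor_add_one c
  have h8 : c * (2 * Real.pi) = X.card * (2 * t) := by
    rw [hc]
    have := Real.pi_pos.ne'
    field_simp
  have h9 := mul_lt_mul_of_pos_right h7 Real.two_pi_pos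
  linarith

end StabAux

end Pool.Agent.Vps
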