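import Pool.Agent.Lib.Vps.StabArc
import Pool.Agent.Lib.Vps.Mono

/-!
# Stability: all arcs of the same length have about the same number of points
-/

open Finset
open scoped ComplexConjugate

namespace Pool.Agent.Vps

namespace StabAux

theorem prod_norm {T : ℝ} (hT : T ≤ 1 / 10 ^ 8) {x y : ℂ} (hx : |‖x‖ ^ 2 - 1| ≤ T)
    (hy : |‖y‖ ^ 2 - 1| ≤ T) : |‖x‖ * ‖y‖ - 1| ≤ T := by
  have hT0 : 0 ≤ T := (abs_nonneg _).trans hx
  obtain ⟨x1, x2⟩ := abs_le.1 hx
  obtain ⟨y1, y2⟩ := abs_le.1 hy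
  have hN : 0 ≤ ‖x‖ * ‖y‖ := by positivity
  have hsq : (‖x‖ * ‖y‖) ^ 2 = ‖x‖ ^ 2 * ‖y‖ ^ 2 := by ring
  norm_num at hT
  rw [abs_le]
  constructor
  · have h1 : (1 - T) ^ 2 ≤ (‖x‖ * ‖y‖) ^ 2 := by
      rw [hsq, sq]
      exact mul_le_mul (by linarith) (by linarith) (by linarith) (by linarith)
    have := abs_le_of_sq_le_sq h1 hN
    have := (abs_le.1 this).2
    linarith
  · have h1 : (‖x‖ * ‖y‖) ^ 2 ≤ (1 + T) ^ 2 := by
      rw [hsq, sq (1 + T)]
      exact mul_le_mul (by linarith) (by linarith) (by positivity) (by linarith)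
    have := abs_le_of_sq_le_sq h1 (by linarith)
    have := (abs_le.1 this).2
    linarith

theorem arc_compare {X : Finset ℂ} {e T : ℝ} (h : Ann X e T) (hT : T ≤ 1 / 10 ^ 8) {x x' : ℂ}
    (hx : x ∈ X) (hx' : x' ∈ X) {t : ℝ} (ht : 6 / 10 ≤ t) (ht' : t ≤ 254 / 100) :
    (arcN X (ang x) t : ℝ) ≤ arcN X (ang x') (t + 20 * T) + e := by
  classical
  have hT0 : 0 ≤ T := (abs_nonneg _).trans (h.ann x hx)
  have hpi := Real.pi_gt_three
  obtain ⟨S, hS⟩ : ∃ S, S = 2 - 2 * Real.cos t + 4 * T := ⟨_, rfl⟩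
  have hS0 : 0 ≤ S := by
    have := Real.cos_le_one t
    rw [hS]; linarith
  have hr0 : 0 ≤ Real.sqrt S := Real.sqrt_nonneg _
  have hr2 : Real.sqrt S ^ 2 = S := Real.sq_sqrt hS0
  have hct : |Real.cos t| ≤ 1 := Real.abs_cos_le_one t
  have h1 : arcN X (ang x) t ≤ (ball X x (Real.sqrt S)).card := by
    refine Finset.card_le_card fun y hy => ?_
    rw [Finset.mem_filter] at hy
    obtain ⟨hyX, hyd⟩ := hy
    rw [mem_ball]
    refine ⟨hyX, ?_⟩
    have hN := prod_norm hT (h.ann x hx) (h.ann y hyX)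
    have hd := dist_sq_ang x y
    have hcos : Real.cos t ≤ Real.cos (dist (ang y) (ang x)) :=
      Real.cos_le_cos_of_nonneg_of_le_pi dist_nonneg (by linarith) hyd
    obtain ⟨N, hNdef⟩ : ∃ N, N = ‖x‖ * ‖y‖ := ⟨_, rfl⟩
    rw [← hNdef] at hN hd
    obtain ⟨n1, n2⟩ := abs_le.1 hN
    norm_num at hT
    have h2 : N * Real.cos t ≤ N * Real.cos (dist (ang y) (ang x)) :=
      mul_le_mul_of_nonneg_left hcos (by linarith)
    have h3 : |(N - 1) * Real.cos t| ≤ T := by
      rw [abs_mul]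
      calc |N - 1| * |Real.cos t| ≤ T * 1 := mul_le_mul hN hct (abs_nonneg _) hT0
        _ = T := mul_one T
    have h4 := (abs_le.1 h3).1
    have h5 := (abs_le.1 (h.ann x hx)).2
    have h6 := (abs_le.1 (h.ann y hyX)).2
    have h7 : dist x y ^ 2 ≤ Real.sqrt S ^ 2 := by
      rw [hr2, hd, hS]
      have : (N - 1) * Real.cos t = N * Real.cos t - Real.cos t := by ring
      rw [this] at h4
      linarith
    rw [dist_comm]
    exact (abs_le_of_sq_le_sq' h7 hr0).2
  have h2 := cnt_le h.toSys hx hx' hr0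
  have h3 : (ball X x' (Real.sqrt S)).card ≤ arcN X (ang x') (t + 20 * T) := by
    refine Finset.card_le_card fun y hy => ?_
    rw [mem_ball] at hy
    obtain ⟨hyX, hyd⟩ := hy
    rw [Finset.mem_filter]
    refine ⟨hyX, ?_⟩
    have hN := prod_norm hT (h.ann x' hx') (h.ann y hyX)
    have hd := dist_sq_ang x' y
    obtain ⟨N, hNdef⟩ : ∃ N, N = ‖x'‖ * ‖y‖ := ⟨_, rfl⟩
    obtain ⟨d, hddef⟩ : ∃ d, d = dist (ang y) (ang x') := ⟨_, rfl⟩
    have hd0 : 0 ≤ d := by rw [hddef]; exact dist_nonneg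
    have hdpi : d ≤ Real.pi := by rw [hddef, dist_eq_norm]; exact norm_le_pi _
    rw [← hNdef] at hN hd
    rw [← hddef] at hd ⊢
    have h5 := (abs_le.1 (h.ann x' hx')).1
    have h6 := (abs_le.1 (h.ann y hyX)).1
    have h7 : dist x' y ^ 2 ≤ S := by
      rw [← hr2, dist_comm]
      exact pow_le_pow_left₀ dist_nonneg hyd 2
    have h8 : |(N - 1) * Real.cos d| ≤ T := by
      rw [abs_mul]
      calc |N - 1| * |Real.cos d| ≤ T * 1 :=
            mul_le_mul hN (Real.abs_cos_le_one d) (abs_nonneg _) hT0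
        _ = T := mul_one T
    have h9 := (abs_le.1 h8).2
    have h10 : (N - 1) * Real.cos d = N * Real.cos d - Real.cos d := by ring
    rw [h10] at h9
    rw [hd, hS] at h7
    have h11 : Real.cos t - 4 * T ≤ Real.cos d := by linarith
    by_contra hcon
    push Not at hcon
    rcases hT0.eq_or_lt with h12 | h12
    · rw [← h12] at h11 hcon
      have := Real.cos_lt_cos_of_nonneg_of_le_pi (by linarith) hdpi
        (show t < d by linarith)
      linarith
    · have h13 := Real.cos_lt_cos_of_nonneg_of_le_pi (by linarith) hdpi hcon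
      norm_num at hT
      have h14 := MonoAux.cos_sub (φ := t) (δ := 20 * T) (by linarith) (by linarith) (by linarith)
        (by linarith)
      linarith
  have h3' : ((ball X x' (Real.sqrt S)).card : ℝ) ≤ arcN X (ang x') (t + 20 * T) := by
    exact_mod_cast h3
  have h1' : (arcN X (ang x) t : ℝ) ≤ (ball X x (Real.sqrt S)).card := by exact_mod_cast h1
  linarith

/-- every direction is close to the direction of a point of `X` -/
theorem near_ang {X : Finset ℂ} {e T : ℝ} (h : Ann X e T) {g : ℝ} (hg0 : 0 < g)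
    (hg : g ≤ 1 / 10 ^ 8) (hT : T ≤ g / 10 ^ 11) (hn : 2 * 10 ^ 12 * (e + 1) ≤ X.card * g)
    (u : Cir) : ∃ x ∈ X, dist u (ang x) ≤ 5 * g := by
  obtain ⟨r, -, hr, rfl⟩ := exists_rep u
  obtain ⟨x, hx, hd⟩ := density h hg0 hg hT hn (u := Complex.exp (r * Complex.I))
    (Complex.norm_exp_ofReal_mul_I r)
  refine ⟨x, hx, ?_⟩
  have hang : ang (Complex.exp (r * Complex.I)) = ((r : ℝ) : Cir) := by
    unfold ang
    rw [Complex.arg_exp_mul_I, toIocMod]
    rw [AddCircle.coe_sub, AddCircle.coe_zsmul, AddCircle.coe_period, smul_zero, sub_zero]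
  rw [← hang, dist_comm]
  have h1 := dist_sq_ang (Complex.exp (r * Complex.I)) x
  rw [Complex.norm_exp_ofReal_mul_I, hang] at h1
  rw [hang]
  obtain ⟨d, hddef⟩ : ∃ d, d = dist (ang x) ((r : ℝ) : Cir) := ⟨_, rfl⟩
  rw [← hddef] at h1 ⊢
  have hd0 : 0 ≤ d := by rw [hddef]; exact dist_nonneg
  have hdpi : d ≤ Real.pi := by rw [hddef, dist_eq_norm]; exact norm_le_pi _
  have h2 : dist (Complex.exp (r * Complex.I)) x ^ 2 ≤ (3 * g) ^ 2 := by
    rw [dist_comm]
    exact pow_le_pow_left₀ dist_nonneg hd 2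
  rw [h1] at h2
  norm_num at hg
  have hpi := Real.pi_gt_three
  have hpi4 := Real.pi_le_four
  have hnx : 0 ≤ ‖x‖ := norm_nonneg x
  have hg2 : (3 * g) ^ 2 < 1 / 2 := by nlinarith
  -- the cosine is positive
  have hc : 0 < Real.cos d := by
    by_contra hc
    push Not at hc
    have : 0 ≤ ‖x‖ * -Real.cos d := mul_nonneg hnx (by linarith)
    nlinarith [sq_nonneg ‖x‖]
  have hdlt : d < Real.pi / 2 := by
    by_contra h3
    push Not at h3
    have := Real.cos_nonpos_of_pi_div_two_le_of_le h3 (by linarith)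
    linarith
  have h3 : Real.sin d ^ 2 ≤ (3 * g) ^ 2 := by
    have h4 := Real.sin_sq_add_cos_sq d
    nlinarith [sq_nonneg (‖x‖ - Real.cos d)]
  have hs0 : 0 ≤ Real.sin d := Real.sin_nonneg_of_nonneg_of_le_pi hd0 hdpi
  have h5 : Real.sin d ≤ 3 * g := (abs_le_of_sq_le_sq' h3 (by linarith)).2
  have h6 := Real.mul_le_sin hd0 hdlt.le
  have h7 : d ≤ Real.pi / 2 * Real.sin d := by
    have h8 : d = Real.pi / 2 * (2 / Real.pi * d) := by
      have := Real.pi_pos.ne'
      field_simp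
    calc d = Real.pi / 2 * (2 / Real.pi * d) := h8
      _ ≤ _ := mul_le_mul_of_nonneg_left h6 (by linarith)
  have hpi' := Real.pi_lt_d2
  have h9 : Real.pi / 2 * Real.sin d ≤ Real.pi / 2 * (3 * g) :=
    mul_le_mul_of_nonneg_left h5 (by linarith)
  nlinarith

end StabAux

end Pool.Agent.Vps
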