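import Pool.Agent.Lib.Vps.StabUnif
import Pool.Agent.Lib.Vps.Annulus
import Pool.Agent.Lib.Vps.Wrap

/-!
# Stability: the theorem in the Euclidean plane
-/

open Finset
open scoped ComplexConjugate

namespace Pool.Agent.Vps

namespace StabAux

theorem angle_eq {z w : ℂ} (hz : z ≠ 0) (hw : w ≠ 0) :
    InnerProductGeometry.angle z w = dist (ang z) (ang w) := by
  have hpos : 0 < ‖w‖ * ‖z‖ := mul_pos (norm_pos_iff.2 hw) (norm_pos_iff.2 hz)
  have h1 : inner ℝ z w = ‖w‖ * ‖z‖ * Real.cos (dist (ang z) (ang w)) := by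
    rw [← re_ang w z, Complex.inner]
    simp only [Complex.mul_re, Complex.conj_re, Complex.conj_im]
    ring
  unfold InnerProductGeometry.angle
  rw [h1, mul_comm ‖z‖ ‖w‖, mul_div_cancel_left₀ _ hpos.ne']
  exact Real.arccos_cos dist_nonneg (by rw [dist_eq_norm]; exact norm_le_pi _)

theorem angle_map {L : EuclideanSpace ℝ (Fin 2) →ₗ[ℝ] ℂ} {κ : ℝ} (hκ : 0 < κ)
    (hL : ∀ a, ‖L a‖ = κ * ‖a‖) (a b : EuclideanSpace ℝ (Fin 2)) :
    InnerProductGeometry.angle (L a) (L b) = InnerProductGeometry.angle a b := by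
  have h1 : inner ℝ (L a) (L b) = κ ^ 2 * inner ℝ a b := by
    rw [real_inner_eq_norm_add_mul_self_sub_norm_mul_self_sub_norm_mul_self_div_two,
      real_inner_eq_norm_add_mul_self_sub_norm_mul_self_sub_norm_mul_self_div_two,
      ← map_add, hL, hL, hL]
    ring
  unfold InnerProductGeometry.angle
  rw [h1, hL, hL]
  congr 1
  have e : κ * ‖a‖ * (κ * ‖b‖) = κ ^ 2 * (‖a‖ * ‖b‖) := by ring
  rw [e, mul_div_mul_left _ _ (by positivity)]

theorem near_one {T : ℝ} {x : ℂ} (h : |‖x‖ ^ 2 - 1| ≤ T) : |‖x‖ - 1| ≤ T := by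
  have h0 : 0 ≤ ‖x‖ := norm_nonneg x
  have h1 : |‖x‖ ^ 2 - 1| = |‖x‖ - 1| * (‖x‖ + 1) := by
    have : ‖x‖ ^ 2 - 1 = (‖x‖ - 1) * (‖x‖ + 1) := by ring
    rw [this, abs_mul, abs_of_nonneg (show 0 ≤ ‖x‖ + 1 by linarith)]
  rw [h1] at h
  have h2 := abs_nonneg (‖x‖ - 1)
  nlinarith

end StabAux

open StabAux

/-- the stability theorem -/
theorem stability :
    ∃ C : ℝ, ∀ n : ℕ, 2 ≤ n → ∀ x : Fin n → EuclideanSpace ℝ (Fin 2),
        Function.Injective x →
        (∀ i : Fin n, ∀ r : ℝ,
          (Finset.univ.filter (fun j : Fin n => j ≠ i ∧ dist (x i) (x j) = r)).card ≤ 2) →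
        ∀ D : ℝ, D = (((Finset.univ.filter (fun p : Fin n × Fin n => p.1 ≠ p.2)).image
            (fun p : Fin n × Fin n => dist (x p.1) (x p.2))).card : ℝ) →
        ∃ m : EuclideanSpace ℝ (Fin 2), ∃ ρ : ℝ, 0 < ρ ∧
          (∀ i : Fin n, |dist (x i) m - ρ| ≤ C * ((2 * D - n + 2) / n) * ρ) ∧
          ∀ v : EuclideanSpace ℝ (Fin 2), v ≠ 0 → ∀ t : ℝ, 0 ≤ t → t ≤ Real.pi →
            |((Finset.univ.filter
              (fun i : Fin n => InnerProductGeometry.angle (x i - m) v ≤ t)).card : ℝ) -
                n * t / Real.pi| ≤ C * (2 * D - n + 2) := by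
  classical
  refine ⟨10 ^ 21, ?_⟩
  intro n hn2 x hx hvalid D hD
  obtain ⟨f, κ, hκ, hf, h0, h1⟩ := exists_similarity hn2 x hx
  have hinj : Function.Injective (fun i => f (x i)) := fun i j hij => hx (f.injective hij)
  have hcard : (univ.image fun i => f (x i)).card = n := by
    rw [Finset.card_image_of_injective _ hinj]; simp
  have hsys := sys_of (le_trans (by norm_num) hn2) hx f hκ hf hvalid
  rw [← hD] at hsys
  have he := hsys.nonneg
  have hnR : (2 : ℝ) ≤ n := by exact_mod_cast hn2
  have hpi := Real.pi_pos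
  obtain ⟨e, hedef⟩ : ∃ e, e = 2 * D - ((n : ℝ) - 1) := ⟨_, rfl⟩
  rw [← hedef] at hsys he
  have hE : 2 * D - n + 2 = e + 1 := by rw [hedef]; ring
  rw [hE]
  rcases le_or_gt (10 ^ 21 * (e + 1)) (n : ℝ) with hbig | hsmall
  · have hX0 : ∑ z ∈ univ.image (fun i => f (x i)), z = 0 := by
      rw [Finset.sum_image (fun a _ b _ hab => hinj hab)]; exact h0
    have hX1 : ∑ z ∈ univ.image (fun i => f (x i)), ‖z‖ ^ 2 =
        ((univ.image fun i => f (x i)).card : ℝ) := by
      rw [Finset.sum_image (fun a _ b _ hab => hinj hab), h1, hcard]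
    have hne : (univ.image fun i => f (x i)).Nonempty := by
      rw [← Finset.card_pos, hcard]; omega
    have hA := annulus hsys hne hX0 hX1 (by rw [hcard]; norm_num at hbig; linarith)
    have hunif := fun (u : Cir) {t : ℝ} (ht0 : 0 ≤ t) (ht : t ≤ Real.pi) =>
      arcs_uniform hA (by rw [hcard]; exact hbig) u ht0 ht
    rw [hcard] at hA
    simp only [hcard] at hunif
    have hT1 : 5 * e / n < 1 := by
      rw [div_lt_one (by linarith)]
      norm_num at hbig
      linarith
    have hm0 : f (f.symm 0) = 0 := f.apply_symm_apply 0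
    have hnorm : ∀ i, ‖f (x i)‖ = κ * dist (x i) (f.symm 0) := by
      intro i
      rw [← hf, hm0, dist_zero_right]
    have hann : ∀ i, |‖f (x i)‖ - 1| ≤ 5 * e / n := fun i =>
      near_one (hA.ann _ (Finset.mem_image_of_mem _ (Finset.mem_univ i)))
    refine ⟨f.symm 0, 1 / κ, by positivity, ?_, ?_⟩
    · intro i
      have h2 : dist (x i) (f.symm 0) - 1 / κ = (‖f (x i)‖ - 1) / κ := by
        rw [hnorm]
        field_simp
      rw [h2, abs_div, abs_of_pos hκ]
      have h3 : 10 ^ 21 * ((e + 1) / n) * (1 / κ) = (10 ^ 21 * (e + 1) / n) / κ := by ring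
      rw [h3]
      refine div_le_div_of_nonneg_right ((hann i).trans ?_) hκ.le
      refine div_le_div_of_nonneg_right ?_ (by linarith)
      norm_num
      linarith
    · intro v hv t ht0 ht
      obtain ⟨L, hL⟩ : ∃ L : EuclideanSpace ℝ (Fin 2) →ₗ[ℝ] ℂ, L = f.linear.toLinearMap :=
        ⟨_, rfl⟩
      have hLdiff : ∀ a b, L (a - b) = f a - f b := by
        intro a b
        have := (f : EuclideanSpace ℝ (Fin 2) →ᵃ[ℝ] ℂ).linearMap_vsub a b
        rw [hL]
        exact this
      have hLn : ∀ a, ‖L a‖ = κ * ‖a‖ := by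
        intro a
        have h2 := hLdiff a 0
        rw [sub_zero] at h2
        rw [h2, ← dist_eq_norm, hf, dist_zero_right]
      have hLv : L v ≠ 0 := by
        rw [← norm_pos_iff, hLn]
        exact mul_pos hκ (norm_pos_iff.2 hv)
      have hfx : ∀ i, f (x i) ≠ 0 := by
        intro i h2
        have := hann i
        rw [h2, norm_zero, zero_sub, abs_neg, abs_one] at this
        linarith
      have hangle : ∀ i, InnerProductGeometry.angle (x i - f.symm 0) v =
          dist (ang (f (x i))) (ang (L v)) := by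
        intro i
        rw [← angle_map hκ hLn, hLdiff, hm0, sub_zero, angle_eq (hfx i) hLv]
      have hcount : (Finset.univ.filter
          (fun i : Fin n => InnerProductGeometry.angle (x i - f.symm 0) v ≤ t)).card =
          arcN (univ.image fun i => f (x i)) (ang (L v)) t := by
        unfold arcN
        rw [Finset.filter_image, Finset.card_image_of_injective _ hinj]
        simp only [hangle]
      rw [hcount]
      refine (hunif (ang (L v)) ht0 ht).trans ?_
      norm_num
      linarith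
  · obtain ⟨i0, -, hmax⟩ := Finset.exists_max_image (Finset.univ : Finset (Fin n))
      (fun i => dist (x i) (x ⟨0, by omega⟩)) ⟨⟨0, by omega⟩, Finset.mem_univ _⟩
    have hρ : 0 < dist (x i0) (x ⟨0, by omega⟩) := by
      have h2 := hmax ⟨1, by omega⟩ (Finset.mem_univ _)
      have h3 : 0 < dist (x ⟨1, by omega⟩) (x ⟨0, by omega⟩) := by
        rw [dist_pos]
        intro h4
        have := hx h4
        simp at this
      linarith
    refine ⟨x ⟨0, by omega⟩, dist (x i0) (x ⟨0, by omega⟩), hρ, ?_, ?_⟩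
    · intro i
      have h2 := hmax i (Finset.mem_univ _)
      have h3 : 0 ≤ dist (x i) (x ⟨0, by omega⟩) := dist_nonneg
      have h4 : 1 ≤ 10 ^ 21 * ((e + 1) / n) := by
        rw [← mul_div_assoc, le_div_iff₀ (by linarith)]
        linarith
      have h5 : |dist (x i) (x ⟨0, by omega⟩) - dist (x i0) (x ⟨0, by omega⟩)| ≤
          dist (x i0) (x ⟨0, by omega⟩) := by
        rw [abs_le]
        constructor <;> linarith
      calc _ ≤ _ := h5
        _ = 1 * dist (x i0) (x ⟨0, by omega⟩) := (one_mul _).symm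
        _ ≤ _ := mul_le_mul_of_nonneg_right h4 hρ.le
    · intro v _ t ht0 ht
      have h2 : ((Finset.univ.filter
          (fun i : Fin n => InnerProductGeometry.angle (x i - x ⟨0, by omega⟩) v ≤ t)).card : ℝ)
          ≤ n := by
        have := Finset.card_filter_le (Finset.univ : Finset (Fin n))
          (fun i : Fin n => InnerProductGeometry.angle (x i - x ⟨0, by omega⟩) v ≤ t)
        rw [Finset.card_univ, Fintype.card_fin] at this
        exact_mod_cast this
      have h3 : 0 ≤ n * t / Real.pi := by positivity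
      have h4 : n * t / Real.pi ≤ n := by
        rw [div_le_iff₀ hpi]
        exact mul_le_mul_of_nonneg_left ht (by linarith)
      have h5 : (0 : ℝ) ≤ ((Finset.univ.filter
          (fun i : Fin n => InnerProductGeometry.angle (x i - x ⟨0, by omega⟩) v ≤ t)).card : ℝ) :=
        Nat.cast_nonneg _
      rw [abs_le]
      constructor <;> linarith

end Pool.Agent.Vps
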