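import Pool.Agent.Lib.Vps.StabCmp

/-!
# Stability: uniform distribution of the directions

For a normalised system with `10 ^ 21 (e + 1) ≤ n`, every arc of half length `t` contains
`n t / π` points up to `2 * 10 ^ 13 * (e + 1)`.
-/

open Finset
open scoped ComplexConjugate

namespace Pool.Agent.Vps

namespace StabAux

theorem arc_mid {X : Finset ℂ} {e T g : ℝ} (h : Ann X e T) (hg0 : 0 < g) (hg : g ≤ 1 / 10 ^ 8)
    (hT : T ≤ g / 10 ^ 11) (hn : 2 * 10 ^ 12 * (e + 1) ≤ X.card * g) (u : Cir) {t : ℝ}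
    (ht : 7 / 10 ≤ t) (ht' : t ≤ 24 / 10) :
    (arcN X u t : ℝ) ≤ X.card * t / Real.pi + (X.card * (10 * g + 20 * T) / Real.pi + e) := by
  have hT0 : 0 ≤ T := by
    obtain ⟨x, hx⟩ := h.nonempty
    exact (abs_nonneg _).trans (h.ann x hx)
  have hpi := Real.pi_gt_three
  norm_num at hg
  have hT1 : T ≤ g := by
    norm_num at hT
    linarith
  obtain ⟨x, hx, hux⟩ := near_ang h hg0 (by norm_num; exact hg) hT hn u
  obtain ⟨v, hv⟩ := exists_avg X (t := t + (10 * g + 20 * T)) (by positivity) (by linarith)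
  obtain ⟨x', hx', hvx'⟩ := near_ang h hg0 (by norm_num; exact hg) hT hn v
  have h1 := arcN_move X hux (t := t) (t' := t + 5 * g) le_rfl
  have h2 := arc_compare h (by norm_num; linarith) hx hx' (t := t + 5 * g) (by linarith)
    (by linarith)
  have h3 := arcN_move X (u := ang x') (v := v) (s := 5 * g) (t := t + 5 * g + 20 * T)
    (t' := t + (10 * g + 20 * T)) (by rw [dist_comm]; exact hvx') (by linarith)
  have h1' : (arcN X u t : ℝ) ≤ arcN X (ang x) (t + 5 * g) := by exact_mod_cast h1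
  have h3' : (arcN X (ang x') (t + 5 * g + 20 * T) : ℝ) ≤
      arcN X v (t + (10 * g + 20 * T)) := by exact_mod_cast h3
  have e1 : X.card * (t + (10 * g + 20 * T)) / Real.pi =
      X.card * t / Real.pi + X.card * (10 * g + 20 * T) / Real.pi := by ring
  rw [e1] at hv
  linarith

theorem card_split (n t : ℝ) : n * (Real.pi - t) / Real.pi = n - n * t / Real.pi := by
  have := Real.pi_pos.ne'
  field_simp

/-- two arcs inside a third one -/
theorem two_arcs (X : Finset ℂ) (u : Cir) {t a ε : ℝ} (ht : 0 ≤ t) (ha : 0 ≤ a) (hε : 0 < ε)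
    (hb : t + a + ε ≤ Real.pi) :
    arcN X u t + arcN X (u - (((t + a + ε : ℝ)) : Cir)) a ≤
      arcN X (u - (((a + ε / 2 : ℝ)) : Cir)) (t + a + ε / 2) := by
  classical
  have hdis : Disjoint (X.filter fun y => dist (ang y) u ≤ t)
      (X.filter fun y => dist (ang y) (u - (((t + a + ε : ℝ)) : Cir)) ≤ a) := by
    rw [Finset.disjoint_left]
    intro y hy hy'
    rw [Finset.mem_filter] at hy hy'
    have h1 := dist_triangle_left u (u - (((t + a + ε : ℝ)) : Cir)) (ang y)
    have h2 : dist u (u - (((t + a + ε : ℝ)) : Cir)) = t + a + ε := by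
      rw [dist_eq_norm, sub_sub_cancel]
      have h3 := (AddCircle.norm_coe_eq_abs_iff (2 * Real.pi) (x := t + a + ε)
        Real.two_pi_pos.ne').2 (by
          rw [abs_of_pos Real.two_pi_pos, abs_of_nonneg (by positivity)]
          linarith)
      rw [h3, abs_of_nonneg (by positivity)]
    linarith [hy.2, hy'.2]
  unfold arcN
  rw [← Finset.card_union_of_disjoint hdis]
  refine Finset.card_le_card fun y hy => ?_
  rw [Finset.mem_union, Finset.mem_filter, Finset.mem_filter] at hy
  rw [Finset.mem_filter]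
  rcases hy with ⟨hX, hy⟩ | ⟨hX, hy⟩
  · refine ⟨hX, ?_⟩
    have h1 := dist_triangle (ang y) u (u - (((a + ε / 2 : ℝ)) : Cir))
    have h2 : dist u (u - (((a + ε / 2 : ℝ)) : Cir)) ≤ a + ε / 2 := by
      rw [dist_eq_norm, sub_sub_cancel]
      exact (norm_coe_le _).trans (by rw [abs_of_nonneg (by positivity)])
    linarith
  · refine ⟨hX, ?_⟩
    have h1 := dist_triangle (ang y) (u - (((t + a + ε : ℝ)) : Cir))
      (u - (((a + ε / 2 : ℝ)) : Cir))
    have h2 : dist (u - (((t + a + ε : ℝ)) : Cir)) (u - (((a + ε / 2 : ℝ)) : Cir)) ≤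
        t + ε / 2 := by
      rw [dist_eq_norm]
      have e1 : u - (((t + a + ε : ℝ)) : Cir) - (u - (((a + ε / 2 : ℝ)) : Cir)) =
          (((-(t + ε / 2) : ℝ)) : Cir) := by
        have e2 : (((-(t + ε / 2) : ℝ)) : Cir) =
            (((a + ε / 2 : ℝ)) : Cir) - (((t + a + ε : ℝ)) : Cir) := by
          rw [← AddCircle.coe_sub]
          congr 1
          ring
        rw [e2]
        abel
      rw [e1]
      refine (norm_coe_le _).trans ?_
      rw [abs_neg, abs_of_nonneg (by positivity)]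
    linarith

/-- an arc is covered by its two halves -/
theorem halves (X : Finset ℂ) (u : Cir) {t : ℝ} (ht : 0 ≤ t) :
    arcN X u t ≤ arcN X (u + (((t / 2 : ℝ)) : Cir)) (t / 2) +
      arcN X (u - (((t / 2 : ℝ)) : Cir)) (t / 2) := by
  classical
  have hsub : (X.filter fun y => dist (ang y) u ≤ t) ⊆
      (X.filter fun y => dist (ang y) (u + (((t / 2 : ℝ)) : Cir)) ≤ t / 2) ∪
      (X.filter fun y => dist (ang y) (u - (((t / 2 : ℝ)) : Cir)) ≤ t / 2) := by
    intro y hy
    rw [Finset.mem_filter] at hy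
    obtain ⟨hX, hy⟩ := hy
    rw [Finset.mem_union, Finset.mem_filter, Finset.mem_filter]
    obtain ⟨r, h1, -, h3⟩ := exists_rep (ang y - u)
    rw [dist_eq_norm, ← h1] at hy
    rcases le_or_gt 0 r with h | h
    · left
      refine ⟨hX, ?_⟩
      rw [dist_eq_norm]
      have e1 : ang y - (u + (((t / 2 : ℝ)) : Cir)) = (((r - t / 2 : ℝ)) : Cir) := by
        rw [AddCircle.coe_sub, h3]
        abel
      rw [e1]
      refine (norm_coe_le _).trans ?_
      rw [abs_of_nonneg h] at hy
      rw [abs_le]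
      constructor <;> linarith
    · right
      refine ⟨hX, ?_⟩
      rw [dist_eq_norm]
      have e1 : ang y - (u - (((t / 2 : ℝ)) : Cir)) = (((r + t / 2 : ℝ)) : Cir) := by
        rw [AddCircle.coe_add, h3]
        abel
      rw [e1]
      refine (norm_coe_le _).trans ?_
      rw [abs_of_neg h] at hy
      rw [abs_le]
      constructor <;> linarith
  calc arcN X u t ≤ _ := Finset.card_le_card hsub
    _ ≤ _ := Finset.card_union_le _ _

end StabAux

open StabAux

/-- the directions are uniformly distributed -/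
theorem arcs_uniform {X : Finset ℂ} {e : ℝ} (h : Ann X e (5 * e / X.card))
    (hbig : 10 ^ 21 * (e + 1) ≤ X.card) (u : Cir) {t : ℝ} (ht0 : 0 ≤ t) (ht : t ≤ Real.pi) :
    |(arcN X u t : ℝ) - X.card * t / Real.pi| ≤ 2 * 10 ^ 13 * (e + 1) := by
  have he := h.nonneg
  have hpi := Real.pi_gt_three
  have hpi0 := Real.pi_pos
  have hpi2 := Real.pi_lt_d2
  norm_num at hbig hpi2
  obtain ⟨n, hndef⟩ : ∃ n : ℝ, n = X.card := ⟨_, rfl⟩
  have hn0 : 0 < n := by rw [hndef]; linarith
  obtain ⟨T, hTdef⟩ : ∃ T : ℝ, T = 5 * e / X.card := ⟨_, rfl⟩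
  obtain ⟨g, hgdef⟩ : ∃ g : ℝ, g = 2 * 10 ^ 12 * (e + 1) / n := ⟨_, rfl⟩
  rw [← hTdef] at h
  rw [← hndef] at hbig hTdef
  have hg0 : 0 < g := by rw [hgdef]; positivity
  have hng : n * g = 2 * 10 ^ 12 * (e + 1) := by rw [hgdef]; field_simp
  have hnT : n * T = 5 * e := by rw [hTdef]; field_simp
  have hg : g ≤ 1 / 10 ^ 8 := by
    rw [hgdef, div_le_div_iff₀ hn0 (by positivity)]
    norm_num
    linarith
  have hT : T ≤ g / 10 ^ 11 := by
    rw [hTdef, hgdef, div_div, div_le_div_iff₀ hn0 (by positivity)]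
    norm_num
    nlinarith
  have hcond : 2 * 10 ^ 12 * (e + 1) ≤ X.card * g := by rw [← hndef, hng]
  obtain ⟨K, hK⟩ : ∃ K : ℝ, K = n * (10 * g + 20 * T) / Real.pi + e := ⟨_, rfl⟩
  have mid : ∀ (w : Cir) {s : ℝ}, 7 / 10 ≤ s → s ≤ 24 / 10 →
      (arcN X w s : ℝ) ≤ n * s / Real.pi + K := by
    intro w s h1 h2
    have := arc_mid h hg0 hg hT hcond w h1 h2
    rw [← hndef, ← hK] at this
    exact this
  have hKval : K ≤ 7 * 10 ^ 12 * (e + 1) := by
    have h1 : n * (10 * g + 20 * T) = 10 * (n * g) + 20 * (n * T) := by ring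
    rw [hK, h1, hng, hnT]
    have h2 : (10 * (2 * 10 ^ 12 * (e + 1)) + 20 * (5 * e)) / Real.pi ≤
        (10 * (2 * 10 ^ 12 * (e + 1)) + 20 * (5 * e)) / 3 :=
      div_le_div_of_nonneg_left (by positivity) (by norm_num) hpi.le
    refine (add_le_add_left h2 e).trans ?_
    norm_num
    linarith
  have compl : ∀ (w : Cir) (s : ℝ), n ≤ arcN X w s + arcN X (w + ((Real.pi : ℝ) : Cir))
      (Real.pi - s) := by
    intro w s
    rw [hndef]
    exact_mod_cast arcN_compl X w s
  have hng3 : n * g / Real.pi ≤ 10 ^ 12 * (e + 1) := by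
    rw [hng, div_le_iff₀ hpi0]
    norm_num
    nlinarith
  -- the upper bound
  have up : ∀ (w : Cir) {s : ℝ}, 0 ≤ s → s ≤ Real.pi →
      (arcN X w s : ℝ) ≤ n * s / Real.pi + 2 * 10 ^ 13 * (e + 1) := by
    intro w s hs0 hs
    norm_num at hg
    rcases le_total s (7 / 10) with h1 | h1
    · have h2 := two_arcs X w (t := s) (a := 8 / 10) (ε := g) hs0 (by norm_num) hg0
        (by linarith)
      have h2' : (arcN X w s : ℝ) + arcN X (w - (((s + 8 / 10 + g : ℝ)) : Cir)) (8 / 10) ≤
          arcN X (w - (((8 / 10 + g / 2 : ℝ)) : Cir)) (s + 8 / 10 + g / 2) := by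
        exact_mod_cast h2
      have h3 := mid (w - (((8 / 10 + g / 2 : ℝ)) : Cir)) (s := s + 8 / 10 + g / 2)
        (by linarith) (by linarith)
      have h4 := compl (w - (((s + 8 / 10 + g : ℝ)) : Cir)) (8 / 10)
      have h5 := mid (w - (((s + 8 / 10 + g : ℝ)) : Cir) + ((Real.pi : ℝ) : Cir))
        (s := Real.pi - 8 / 10) (by linarith) (by linarith)
      rw [card_split] at h5
      have h6 : n * (s + 8 / 10 + g / 2) / Real.pi =
          n * s / Real.pi + n * (8 / 10) / Real.pi + n * g / Real.pi / 2 := by ring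
      rw [h6] at h3
      linarith
    · rcases le_total s (24 / 10) with h2 | h2
      · have := mid w h1 h2
        linarith
      · have h3 := halves X w hs0
        have h3' : (arcN X w s : ℝ) ≤ arcN X (w + (((s / 2 : ℝ)) : Cir)) (s / 2) +
            arcN X (w - (((s / 2 : ℝ)) : Cir)) (s / 2) := by exact_mod_cast h3
        have h4 := mid (w + (((s / 2 : ℝ)) : Cir)) (s := s / 2) (by linarith) (by linarith)
        have h5 := mid (w - (((s / 2 : ℝ)) : Cir)) (s := s / 2) (by linarith) (by linarith)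
        have h6 : n * (s / 2) / Real.pi = n * s / Real.pi / 2 := by ring
        rw [h6] at h4 h5
        linarith
  rw [← hndef, abs_le]
  constructor
  · have h1 := compl u t
    have h2 := up (u + ((Real.pi : ℝ) : Cir)) (s := Real.pi - t) (by linarith) (by linarith)
    rw [card_split] at h2
    linarith
  · have := up u ht0 ht
    linarith

end Pool.Agent.Vps
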