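import Pool.Agent.Lib.Vps.Psi

/-!
# The largest distances
-/

open Finset
open scoped ComplexConjugate

namespace Pool.Agent.Vps

/-- The points of `X` at squared distance at least `r` from `z`. -/
noncomputable def top (X : Finset ℂ) (z : ℂ) (r : ℝ) : Finset ℂ :=
  X.filter fun y => r ≤ dist z y ^ 2

/-- The points of `X` at squared distance more than `r` from `z`. -/
noncomputable def exc (X : Finset ℂ) (z : ℂ) (r : ℝ) : Finset ℂ :=
  X.filter fun y => r < dist z y ^ 2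

/-- PROOF: `psi` with `ψ d = if r ≤ d ^ 2 then 1 else 0` (`ψ 0 = 0` as `0 < r`). -/
theorem top_le {X : Finset ℂ} {e : ℝ} (h : Sys X e) {x x' : ℂ} (hx : x ∈ X) (hx' : x' ∈ X)
    {r : ℝ} (hr : 0 < r) :
    ((top X x r).card : ℝ) ≤ ((top X x' r).card : ℝ) + e := by
  have h1 := psi h hx hx' (fun d => if r ≤ d ^ 2 then (1 : ℝ) else 0) 1
    (by
      have : ¬ r ≤ (0 : ℝ) ^ 2 := by rw [not_le]; simpa using hr
      rw [if_neg this])
    (fun d _ => by split_ifs <;> norm_num)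
    (fun d _ => by split_ifs <;> norm_num) zero_le_one
  have h2 : ∀ z : ℂ, ∑ y ∈ X, (if r ≤ dist z y ^ 2 then (1 : ℝ) else 0) = ((top X z r).card : ℝ) := by
    intro z
    rw [← Finset.sum_filter, Finset.sum_const, nsmul_eq_mul, mul_one]
    rfl
  simp only [h2, mul_one] at h1
  exact h1

/-- PROOF. Let `V` be the finite set of the `d ^ 2 ≥ 3.999`, `d ∈ Dset X`. It is not empty
(`hbig`, `3 e + 4 > 0`, and `x ∉ top X x r`). For `v = min V`,
`top X x v = top X x 3.999` for all `x`. Let `ρ` be the largest `v ∈ V` with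
`2 e + 2 ≤ card (top X x v)` for all `x ∈ X`. If no element of `V` is `> ρ`, all `exc X x ρ` are
empty; else let `ρ'` be the smallest element of `V` that is `> ρ`; `exc X x ρ = top X x ρ'` and by
maximality some `x0` has `card (top X x0 ρ') < 2 e + 2`, so by `top_le` all have
`card ≤ 3 e + 2`. -/
theorem exists_rho {X : Finset ℂ} {e : ℝ} (h : Sys X e) (hne : X.Nonempty)
    (hbig : ∀ x ∈ X, 3 * e + 4 ≤ ((top X x (3999 / 1000)).card : ℝ)) :
    ∃ ρ : ℝ, 3999 / 1000 ≤ ρ ∧ (∀ x ∈ X, 2 * e + 2 ≤ ((top X x ρ).card : ℝ)) ∧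
      ∀ x ∈ X, ((exc X x ρ).card : ℝ) ≤ 3 * e + 2 := by
  classical
  have he := h.nonneg
  set V : Finset ℝ := ((Dset X).image fun d => d ^ 2).filter fun v => 3999 / 1000 ≤ v with hV
  have hmemV : ∀ x ∈ X, ∀ y ∈ X, 3999 / 1000 ≤ dist x y ^ 2 → dist x y ^ 2 ∈ V := by
    intro x hx y hy hxy
    have hne' : x ≠ y := by
      rintro rfl
      rw [dist_self] at hxy
      norm_num at hxy
    exact Finset.mem_filter.2 ⟨Finset.mem_image.2 ⟨dist x y, dist_mem_Dset hx hy hne', rfl⟩, hxy⟩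
  obtain ⟨x1, hx1⟩ := hne
  have hVne : V.Nonempty := by
    have h1 := hbig x1 hx1
    have h2 : 0 < (top X x1 (3999 / 1000)).card := by
      have : (0 : ℝ) < ((top X x1 (3999 / 1000)).card : ℝ) := by linarith
      exact_mod_cast this
    obtain ⟨y, hy⟩ := Finset.card_pos.1 h2
    obtain ⟨hy1, hy2⟩ := Finset.mem_filter.1 hy
    exact ⟨_, hmemV x1 hx1 y hy1 hy2⟩
  set v0 := V.min' hVne with hv0
  have hv0V : v0 ∈ V := V.min'_mem hVne
  set W : Finset ℝ := V.filter fun v => ∀ x ∈ X, 2 * e + 2 ≤ ((top X x v).card : ℝ) with hW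
  have hv0W : v0 ∈ W := by
    refine Finset.mem_filter.2 ⟨hv0V, fun x hx => ?_⟩
    have h1 := hbig x hx
    have h2 : (top X x (3999 / 1000)).card ≤ (top X x v0).card := by
      refine Finset.card_le_card fun y hy => ?_
      obtain ⟨hy1, hy2⟩ := Finset.mem_filter.1 hy
      exact Finset.mem_filter.2 ⟨hy1, V.min'_le _ (hmemV x hx y hy1 hy2)⟩
    have h3 : ((top X x (3999 / 1000)).card : ℝ) ≤ ((top X x v0).card : ℝ) := by exact_mod_cast h2
    linarith
  set ρ := W.max' ⟨v0, hv0W⟩ with hρ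
  have hρW : ρ ∈ W := W.max'_mem _
  obtain ⟨hρV, hρ2⟩ := Finset.mem_filter.1 hρW
  have hρ3 : 3999 / 1000 ≤ ρ := (Finset.mem_filter.1 hρV).2
  refine ⟨ρ, hρ3, hρ2, fun x hx => ?_⟩
  by_cases hV' : (V.filter fun v => ρ < v).Nonempty
  · set ρ' := (V.filter fun v => ρ < v).min' hV' with hρ'
    have hρ'm : ρ' ∈ V.filter fun v => ρ < v := Finset.min'_mem _ _
    obtain ⟨hρ'V, hρρ'⟩ := Finset.mem_filter.1 hρ'm
    have hρ'W : ρ' ∉ W := fun hc => absurd (W.le_max' _ hc) (not_le.2 hρρ')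
    have h1 : ∃ x0 ∈ X, ((top X x0 ρ').card : ℝ) < 2 * e + 2 := by
      by_contra hcon
      push Not at hcon
      exact hρ'W (Finset.mem_filter.2 ⟨hρ'V, hcon⟩)
    obtain ⟨x0, hx0, hx0'⟩ := h1
    have h2 := top_le h hx hx0 (r := ρ') (by linarith)
    have h3 : (exc X x ρ).card ≤ (top X x ρ').card := by
      refine Finset.card_le_card fun y hy => ?_
      obtain ⟨hy1, hy2⟩ := Finset.mem_filter.1 hy
      exact Finset.mem_filter.2 ⟨hy1, Finset.min'_le _ _
        (Finset.mem_filter.2 ⟨hmemV x hx y hy1 (by linarith), hy2⟩)⟩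
    have h4 : ((exc X x ρ).card : ℝ) ≤ ((top X x ρ').card : ℝ) := by exact_mod_cast h3
    linarith
  · have h1 : exc X x ρ = ∅ := by
      rw [Finset.eq_empty_iff_forall_notMem]
      intro y hy
      obtain ⟨hy1, hy2⟩ := Finset.mem_filter.1 hy
      exact hV' ⟨dist x y ^ 2, Finset.mem_filter.2 ⟨hmemV x hx y hy1 (by linarith), hy2⟩⟩
    rw [h1, Finset.card_empty]
    push_cast
    linarith

end Pool.Agent.Vps
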